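import Pool.Agent.MDP.Basic
import Pool.Agent.Mader.Lift

/-! Colouring strongly connected subsets; cycles. -/

open Classical

namespace Pool.Agent.MDP

open Pool.Agent.Mader

universe u

variable {V : Type u}

/-- It is enough to colour the strongly connected subsets.

Proof. For `v ∈ X` let `K v` be `comp a X v` (strong component, `comp_conn`); it is a union of
`k` acyclic sets; for each of the sets `K` (a finset!) choose a colouring `c K` and colour `v` by
`c (comp a X v) v`. Suppose that a nonempty set `Z` of vertices of one colour has no sink. By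
`exists_conn_sinkless` there is `Z0 ⊆ Z`, `Conn a Z0`, without a sink. For `z, z' ∈ Z0` the
components `comp a X z = comp a X z'` agree (`subset_comp_of_inter`, `subset_comp`), so `Z0` is a
nonempty sinkless subset of one colour class of the colouring of this component,
a contradiction. -/
theorem Col.of_conn {a : V → V → Prop} {X : Finset V} {k : ℕ}
    (h : ∀ Z ⊆ X, Conn a Z → Col a Z k) : Col a X k := by
  classical
  have hch : ∀ K : Finset V, ∃ c : V → ℕ, (K ⊆ X ∧ Conn a K) →
      (∀ v ∈ K, c v < k) ∧ ∀ i, Acyc a (K.filter (fun v => c v = i)) := by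
    intro K
    by_cases hK : K ⊆ X ∧ Conn a K
    · obtain ⟨c, h1, h2⟩ := h K hK.1 hK.2
      exact ⟨c, fun _ => ⟨h1, h2⟩⟩
    · exact ⟨fun _ => 0, fun h' => absurd h' hK⟩
  choose c hc using hch
  refine ⟨fun v => c (comp a X v) v, ?_, ?_⟩
  · intro v hv
    exact (hc (comp a X v) ⟨comp_subset _ _ _, comp_conn hv⟩).1 v (mem_comp_self hv)
  · intro i Z hZ hne
    by_contra hcon
    push Not at hcon
    obtain ⟨Z0, hZ0, hconn, hs⟩ := exists_conn_sinkless hne hcon
    have hmem : ∀ z ∈ Z0, z ∈ X ∧ c (comp a X z) z = i := by
      intro z hz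
      have := hZ (hZ0 hz)
      rwa [Finset.mem_filter] at this
    obtain ⟨z0, hz0⟩ := hconn.1
    have hz0X := (hmem z0 hz0).1
    have hZ0X : Z0 ⊆ X := fun z hz => (hmem z hz).1
    have hsub : Z0 ⊆ comp a X z0 := subset_comp hZ0X hconn hz0
    have heq : ∀ z ∈ Z0, comp a X z = comp a X z0 := by
      intro z hz
      have hzX := hZ0X hz
      apply Finset.Subset.antisymm
      · exact subset_comp_of_inter hz0X (comp_subset _ _ _) (comp_conn hzX)
          ⟨z, Finset.mem_inter.mpr ⟨mem_comp_self hzX, hsub hz⟩⟩
      · exact subset_comp_of_inter hzX (comp_subset _ _ _) (comp_conn hz0X)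
          ⟨z, Finset.mem_inter.mpr ⟨hsub hz, mem_comp_self hzX⟩⟩
    obtain ⟨u, hu, hus⟩ := (hc (comp a X z0) ⟨comp_subset _ _ _, comp_conn hz0X⟩).2 i Z0
      (by
        intro z hz
        rw [Finset.mem_filter]
        refine ⟨hsub hz, ?_⟩
        have := (hmem z hz).2
        rwa [heq z hz] at this) hconn.1
    obtain ⟨v, hv, huv⟩ := hs u hu
    exact hus v hv huv

/-- The definition with directed cycles. If `X` is not a union of `k` acyclic sets then no
colouring `col : V → Fin k` has all its classes without directed closed walks.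

Proof. Given `col` without monochromatic closed walks let `c v = col v`. If a nonempty set `Z` of
equally coloured vertices has no sink then every vertex of `Z` has an out-neighbour in `Z`; as
`Z` is finite, following out-neighbours gives a closed walk inside `Z` (for instance: take
`exists_conn_sinkless`; or: `TransGen` of the restricted relation is transitive, and a finite
nonempty set in which `∀ u ∈ Z, ∃ v ∈ Z, T u v` for a transitive relation `T` contains `v` with
`T v v`). See also `Acyc.no_cycle` in `Mader/Lift.lean` for the other direction. -/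
theorem not_col_of_cycles {V : Type u} [Fintype V] (a : V → V → Prop) (k : ℕ)
    (h : ¬ ∃ col : V → Fin k, ∀ v, ¬ Relation.TransGen (fun x y => a x y ∧ col x = col y) v v) :
    ¬ Col a Finset.univ k := by
  classical
  rintro ⟨c, h1, h2⟩
  apply h
  refine ⟨fun v => ⟨c v, h1 v (Finset.mem_univ v)⟩, ?_⟩
  intro v hv
  have key : ∀ w, Relation.TransGen (fun x y => a x y ∧
      (⟨c x, h1 x (Finset.mem_univ x)⟩ : Fin k) = ⟨c y, h1 y (Finset.mem_univ y)⟩) v w →
      Relation.TransGen (fun x y => x ∈ Finset.univ.filter (fun u => c u = c v) ∧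
        y ∈ Finset.univ.filter (fun u => c u = c v) ∧ a x y) v w ∧ c w = c v := by
    intro w hw
    induction hw with
    | single h' =>
      have he := congrArg Fin.val h'.2
      simp only at he
      refine ⟨Relation.TransGen.single ⟨?_, ?_, h'.1⟩, he.symm⟩
      · simp
      · simp [he]
    | tail _ h' ih =>
      have he := congrArg Fin.val h'.2
      simp only at he
      refine ⟨ih.1.tail ⟨?_, ?_, h'.1⟩, he.symm.trans ih.2⟩
      · simp [ih.2]
      · simp [← he, ih.2]
  exact (h2 (c v)).no_cycle v (key v hv).1

end Pool.Agent.MDP
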