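import Pool.Agent.MDP.Adj2

/-! Independent families of bags are two-colourable. -/

open Classical

namespace Pool.Agent.MDP

open Pool.Agent.Mader

universe u

variable {V : Type u}

/-- The first element of a list with a given property. -/
private theorem exists_first {α : Type u} {P : α → Prop} : ∀ L : List α, (∃ b ∈ L, P b) →
    ∃ L1 b L2, L = L1 ++ b :: L2 ∧ P b ∧ ∀ b' ∈ L1, ¬ P b' := by
  intro L
  induction L with
  | nil =>
    rintro ⟨b, hb, _⟩
    simp at hb
  | cons x L ih =>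
    rintro ⟨b, hb, hPb⟩
    by_cases hx : P x
    · exact ⟨[], x, L, rfl, hx, by simp⟩
    · have hbL : b ∈ L := by
        rcases List.mem_cons.1 hb with h | h
        · exact absurd (h ▸ hPb) hx
        · exact h
      obtain ⟨L1, b1, L2, h1, h2, h3⟩ := ih ⟨b, hbL, hPb⟩
      refine ⟨x :: L1, b1, L2, by rw [h1]; rfl, h2, fun b' hb' => ?_⟩
      rcases List.mem_cons.1 hb' with h | h
      · rw [h]
        exact hx
      · exact h3 b' h

/-- Union of a connected set with connected sets meeting it. -/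
private theorem conn_union_sets {a : V → V → Prop} {D : Finset V} (hD : Conn a D)
    (T : Finset (Finset V)) (hT : ∀ b ∈ T, Conn a b ∧ (D ∩ b).Nonempty) :
    Conn a (D ∪ T.biUnion id) := by
  induction T using Finset.induction_on with
  | empty => simpa using hD
  | insert x T hx ih =>
    have h1 := ih (fun y hy => hT y (Finset.mem_insert_of_mem hy))
    have h2 := hT x (Finset.mem_insert_self _ _)
    have heq : D ∪ (insert x T).biUnion id = (D ∪ T.biUnion id) ∪ x := by
      rw [Finset.biUnion_insert]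
      ext z
      simp only [Finset.mem_union, id]
      tauto
    rw [heq]
    apply h1.union h2.1
    obtain ⟨z, hz⟩ := h2.2
    rw [Finset.mem_inter] at hz
    exact ⟨z, Finset.mem_inter.mpr ⟨Finset.mem_union_left _ hz.1, hz.2⟩⟩

/-- An independent family of bags is two-colourable.

Proof. Let `c b` be a two-colouring of the bag `b`, and let `c v = c b v` for `v ∈ b ∈ F` (bags are
disjoint). Suppose `Z` is a nonempty set of vertices of `F.biUnion id` of one colour without a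
sink; by `exists_conn_sinkless` we may assume `Conn a Z`. If `Z` is contained in one bag we have a
contradiction. Otherwise let `b` be the first bag of the list (the decomposition
`L = L1 ++ b :: L2`) which is in `F` and meets `Z` and let `Y` be the union of all bags in `F`
which meet `Z`; `Y` is strongly connected (`Conn.union` of `Z` with each of these bags), and all
its vertices are in `b` or in later bags. `b ≠ Y`. No `v ∈ Y \ b` has both an out-neighbour and an
in-neighbour in `b` (`Att`): such a `v` is in a bag `b' ∈ F`, `b' ≠ b`, and then `Adj2 a b b'`. By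
`ear` there is `X'`, `b ⊆ X' ⊆ Y`, `X' ≠ b`, strongly connected and two-colourable: contradiction
to the maximality of `b`. -/
theorem indep_twoCol {a : V → V → Prop} (hirr : ∀ v, ¬ a v v) {L : List (Finset V)}
    (h1 : ∀ b ∈ L, Conn a b ∧ TwoCol a b) (h2 : L.Pairwise (fun b b' => Disjoint b b'))
    (h3 : ∀ L1 b L2, L = L1 ++ b :: L2 → ∀ X', b ⊆ X' →
      (∀ x ∈ X', x ∈ b ∨ ∃ b' ∈ L2, x ∈ b') → Conn a X' → TwoCol a X' → X' = b)
    {F : Finset (Finset V)} (hF : ∀ b ∈ F, b ∈ L) (hind : ∀ b ∈ F, ∀ b' ∈ F, ¬ Adj2 a b b') :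
    TwoCol a (F.biUnion id) := by
  -- bags are disjoint
  have huniq : ∀ b ∈ L, ∀ b' ∈ L, ∀ v, v ∈ b → v ∈ b' → b = b' := by
    intro b hb b' hb' v hv hv'
    by_contra hne
    rw [List.pairwise_iff_getElem] at h2
    obtain ⟨i, hi, rfl⟩ := List.getElem_of_mem hb
    obtain ⟨j, hj, rfl⟩ := List.getElem_of_mem hb'
    rcases lt_trichotomy i j with hij | hij | hij
    · exact Finset.disjoint_left.1 (h2 i j hi hj hij) hv hv'
    · subst hij
      exact hne rfl
    · exact Finset.disjoint_left.1 (h2 j i hj hi hij) hv' hv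
  -- the colouring
  have hc : ∀ b : Finset V, ∃ c : V → Bool, b ∈ L → ∀ k, Acyc a (b.filter (fun v => c v = k)) := by
    intro b
    by_cases hb : b ∈ L
    · obtain ⟨c, hc⟩ := (h1 b hb).2
      exact ⟨c, fun _ => hc⟩
    · exact ⟨fun _ => true, fun h => absurd h hb⟩
  choose c hc using hc
  have hbag : ∀ v, ∃ b, v ∈ F.biUnion id → b ∈ F ∧ v ∈ b := by
    intro v
    by_cases hv : v ∈ F.biUnion id
    · obtain ⟨b, hb, hvb⟩ := Finset.mem_biUnion.1 hv
      exact ⟨b, fun _ => ⟨hb, hvb⟩⟩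
    · exact ⟨∅, fun h => absurd h hv⟩
  choose β hβ using hbag
  refine ⟨fun v => c (β v) v, fun k => ?_⟩
  intro Z hZ hne
  by_contra hcon
  push Not at hcon
  obtain ⟨Z0, hZ0, hZ0c, hZ0s⟩ := exists_conn_sinkless hne hcon
  have hZ0mem : ∀ z ∈ Z0, z ∈ F.biUnion id ∧ c (β z) z = k := by
    intro z hz
    have := hZ (hZ0 hz)
    rwa [Finset.mem_filter] at this
  -- not inside one bag
  have hone : ∀ b ∈ F, ¬ Z0 ⊆ b := by
    intro b hb hsub
    obtain ⟨u, hu, hus⟩ := hc b (hF b hb) k Z0 (by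
      intro z hz
      have h4 := hZ0mem z hz
      have h5 := hβ z h4.1
      have h6 : β z = b := huniq _ (hF _ h5.1) _ (hF _ hb) z h5.2 (hsub hz)
      rw [h6] at h4
      exact Finset.mem_filter.2 ⟨hsub hz, h4.2⟩) hZ0c.1
    obtain ⟨v, hv, huv⟩ := hZ0s u hu
    exact hus v hv huv
  -- the first bag
  obtain ⟨z0, hz0⟩ := hZ0c.1
  have hz0F := hβ z0 (hZ0mem z0 hz0).1
  obtain ⟨L1, b, L2, hL, ⟨hbF, hbZ⟩, hfirst⟩ :=
    exists_first (P := fun b => b ∈ F ∧ (Z0 ∩ b).Nonempty) L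
      ⟨β z0, hF _ hz0F.1, hz0F.1, z0, Finset.mem_inter.2 ⟨hz0, hz0F.2⟩⟩
  set T := F.filter (fun b => (Z0 ∩ b).Nonempty) with hT
  have hYc : Conn a (Z0 ∪ T.biUnion id) := by
    refine conn_union_sets hZ0c T fun b' hb' => ?_
    rw [hT, Finset.mem_filter] at hb'
    exact ⟨(h1 b' (hF b' hb'.1)).1, hb'.2⟩
  have hYmem : ∀ x ∈ Z0 ∪ T.biUnion id, ∃ b' ∈ F, (Z0 ∩ b').Nonempty ∧ x ∈ b' := by
    intro x hx
    rcases Finset.mem_union.1 hx with h | h
    · have h5 := hβ x (hZ0mem x h).1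
      exact ⟨β x, h5.1, ⟨x, Finset.mem_inter.2 ⟨h, h5.2⟩⟩, h5.2⟩
    · obtain ⟨b', hb', hxb'⟩ := Finset.mem_biUnion.1 h
      rw [hT, Finset.mem_filter] at hb'
      exact ⟨b', hb'.1, hb'.2, hxb'⟩
  have hbY : b ⊆ Z0 ∪ T.biUnion id := by
    intro x hx
    refine Finset.mem_union_right _ (Finset.mem_biUnion.2 ⟨b, ?_, hx⟩)
    rw [hT, Finset.mem_filter]
    exact ⟨hbF, hbZ⟩
  have hbne : b ≠ Z0 ∪ T.biUnion id := by
    intro h
    apply hone b hbF
    rw [h]
    exact Finset.subset_union_left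
  have hatt : ∀ v ∈ Z0 ∪ T.biUnion id, v ∉ b → ¬ Att a v b := by
    rintro v hv hvb ⟨⟨x, hx, hvx⟩, ⟨y, hy, hyv⟩⟩
    obtain ⟨b', hb'F, _, hvb'⟩ := hYmem v hv
    exact hind b hbF b' hb'F
      ⟨fun h => hvb (h ▸ hvb'), ⟨y, hy, v, hvb', hyv⟩, ⟨v, hvb', x, hx, hvx⟩⟩
  obtain ⟨X', hX1, hX2, hX3, hX4, hX5⟩ := ear hirr hbY hbne (h1 b (hF b hbF)).1 hYc
    (h1 b (hF b hbF)).2 hatt
  refine hX2 (h3 L1 b L2 hL X' hX1 (fun x hx => ?_) hX4 hX5)
  obtain ⟨b', hb'F, hb'Z, hxb'⟩ := hYmem x (hX3 hx)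
  have hb'L := hF b' hb'F
  rw [hL, List.mem_append, List.mem_cons] at hb'L
  rcases hb'L with h | h | h
  · exact absurd ⟨hb'F, hb'Z⟩ (hfirst b' h)
  · left
    rw [← h]
    exact hxb'
  · exact Or.inr ⟨b', h, hxb'⟩

end Pool.Agent.MDP
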