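import Pool.Agent.MDP.BagList
import Pool.Agent.MDP.Indep
import Pool.Agent.MDP.Basic2
import Pool.Agent.Mader.Sub

/-! A dense family of bags. -/

open Classical

namespace Pool.Agent.MDP

open Pool.Agent.Mader

universe u

variable {V : Type u}

/-- Greedy colouring of a degenerate family. -/
private theorem greedy_col {α : Type u} {r : α → α → Prop} (hs : ∀ x y, r x y → r y x) {d : ℕ}
    {F : Finset α} (h : ∀ B ⊆ F, B.Nonempty → ∃ b ∈ B, deg r B b < d) :
    ∀ n : ℕ, ∀ B ⊆ F, B.card = n →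
      ∃ q : α → ℕ, (∀ b ∈ B, q b < d) ∧ ∀ b ∈ B, ∀ b' ∈ B, b ≠ b' → r b b' → q b ≠ q b' := by
  intro n
  induction n with
  | zero =>
    intro B _ hB
    rw [Finset.card_eq_zero] at hB
    subst hB
    exact ⟨fun _ => 0, by simp, by simp⟩
  | succ n ih =>
    intro B hBF hB
    have hne : B.Nonempty := Finset.card_pos.1 (by omega)
    obtain ⟨b, hb, hdeg⟩ := h B hBF hne
    obtain ⟨q, hq1, hq2⟩ := ih (B.erase b) ((Finset.erase_subset _ _).trans hBF)
      (by rw [Finset.card_erase_of_mem hb]; omega)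
    have hex : ∃ c < d, ∀ b' ∈ B, r b b' → q b' ≠ c := by
      by_contra hcon
      push Not at hcon
      have h1 : Finset.range d ⊆ (B.filter fun u => r b u).image q := by
        intro c hc
        obtain ⟨b', hb', hr, hq⟩ := hcon c (Finset.mem_range.1 hc)
        exact Finset.mem_image.2 ⟨b', Finset.mem_filter.2 ⟨hb', hr⟩, hq⟩
      have h2 := (Finset.card_le_card h1).trans Finset.card_image_le
      rw [Finset.card_range] at h2
      exact absurd hdeg (not_lt.2 h2)
    obtain ⟨c, hc, hc'⟩ := hex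
    refine ⟨Function.update q b c, fun x hx => ?_, fun x hx y hy hxy hr => ?_⟩
    · by_cases hxb : x = b
      · subst hxb
        simpa using hc
      · rw [Function.update_of_ne hxb]
        exact hq1 x (Finset.mem_erase.2 ⟨hxb, hx⟩)
    · by_cases hxb : x = b
      · subst hxb
        rw [Function.update_self, Function.update_of_ne hxy.symm]
        exact (hc' y hy hr).symm
      · by_cases hyb : y = b
        · subst hyb
          rw [Function.update_self, Function.update_of_ne hxb]
          exact hc' x hx (hs _ _ hr)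
        · rw [Function.update_of_ne hxb, Function.update_of_ne hyb]
          exact hq2 x (Finset.mem_erase.2 ⟨hxb, hx⟩) y (Finset.mem_erase.2 ⟨hyb, hy⟩) hxy hr

/-- A family of bags in which every bag has many neighbours.

Proof. Take the list `L` of `bag_list` for `S` and let `ℬ0` be its finset of bags. Suppose that every
nonempty `ℬ ⊆ ℬ0` has a bag `b` with `deg (Adj2 a) ℬ b < d`. Then by induction on the cardinality
every `ℬ ⊆ ℬ0` has a colouring `q : Finset V → ℕ`, `q b < d`, with `q b ≠ q b'` whenever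
`b, b' ∈ ℬ`, `Adj2 a b b'`. For `ℬ0` itself: the colour classes are independent, so two-colourable
(`indep_twoCol`), so `Col a _ 2` (`Col.of_twoCol`), and `Col a S (d * 2)` by `Col.of_classes`
(`p v` = the colour of the bag of `v`), contradiction. -/
theorem bags {a : V → V → Prop} (hirr : ∀ v, ¬ a v v) {S : Finset V} {d : ℕ} (hd : 1 ≤ d)
    (h : ¬ Col a S (2 * d)) :
    ∃ ℬ : Finset (Finset V), ℬ.Nonempty ∧ (∀ b ∈ ℬ, Conn a b ∧ b ⊆ S) ∧
      (∀ b ∈ ℬ, ∀ b' ∈ ℬ, b ≠ b' → Disjoint b b') ∧ ∀ b ∈ ℬ, d ≤ deg (Adj2 a) ℬ b := by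
  obtain ⟨L, hL1, hL2, hL3, hL4⟩ := bag_list hirr S.card S rfl
  by_contra hcon
  -- disjointness of the bags
  have hdis : ∀ b ∈ L, ∀ b' ∈ L, b ≠ b' → Disjoint b b' := by
    intro b hb b' hb' hne
    rw [List.pairwise_iff_getElem] at hL2
    obtain ⟨i, hi, rfl⟩ := List.getElem_of_mem hb
    obtain ⟨j, hj, rfl⟩ := List.getElem_of_mem hb'
    rcases lt_trichotomy i j with hij | hij | hij
    · exact hL2 i j hi hj hij
    · subst hij
      exact absurd rfl hne
    · exact (hL2 j i hj hi hij).symm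
  have hdeg : ∀ B ⊆ L.toFinset, B.Nonempty → ∃ b ∈ B, deg (Adj2 a) B b < d := by
    intro B hB hne
    by_contra hcon'
    push Not at hcon'
    refine hcon ⟨B, hne, fun b hb => ?_, fun b hb b' hb' => ?_, hcon'⟩
    · have := hL1 b (List.mem_toFinset.1 (hB hb))
      exact ⟨this.2.1, this.1⟩
    · exact hdis b (List.mem_toFinset.1 (hB hb)) b' (List.mem_toFinset.1 (hB hb'))
  obtain ⟨q, hq1, hq2⟩ := greedy_col Adj2.symm hdeg _ L.toFinset (Finset.Subset.refl _) rfl
  apply h
  -- the bag of a vertex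
  have hbag : ∀ v, ∃ b, v ∈ S → b ∈ L ∧ v ∈ b := by
    intro v
    by_cases hv : v ∈ S
    · obtain ⟨b, hb, hvb⟩ := hL3 v hv
      exact ⟨b, fun _ => ⟨hb, hvb⟩⟩
    · exact ⟨∅, fun h => absurd h hv⟩
  choose β hβ using hbag
  have h1 : Col a S (d * 2) := by
    refine Col.of_classes (fun v => q (β v)) (fun v hv =>
      hq1 _ (List.mem_toFinset.2 (hβ v hv).1)) fun i hi => ?_
    have h2 : TwoCol a ((L.toFinset.filter fun b => q b = i).biUnion id) := by
      refine indep_twoCol hirr (fun b hb => (hL1 b hb).2) hL2 hL4 (fun b hb =>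
        List.mem_toFinset.1 (Finset.mem_filter.1 hb).1) fun b hb b' hb' hadj => ?_
      rw [Finset.mem_filter] at hb hb'
      exact hq2 b hb.1 b' hb'.1 hadj.1 hadj (hb.2.trans hb'.2.symm)
    refine (Col.of_twoCol h2).mono (fun v hv => ?_) le_rfl
    rw [Finset.mem_filter] at hv
    rw [Finset.mem_biUnion]
    exact ⟨β v, Finset.mem_filter.2 ⟨List.mem_toFinset.2 (hβ v hv.1).1, hv.2⟩, (hβ v hv.1).2⟩
  rwa [mul_comm] at h1

end Pool.Agent.MDP
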