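import Pool.Agent.MDP.Basic

/-! Theorem A (highly linked sets of large dichromatic number). -/

open Classical

namespace Pool.Agent.MDP

open Pool.Agent.Mader

universe u

variable {V : Type u}

/-- `M` meets every ear of `W` in `S`: there is no walk from `W` to `W` whose interior is nonempty
and contained in `S \ W`, outside of `M`. -/
def Hits (a : V → V → Prop) (S W M : Finset V) : Prop :=
  M ⊆ S \ W ∧ ∀ x ∈ W, ∀ y ∈ W, ∀ r s, a x r → r ∈ (S \ W) \ M →
    Relation.ReflTransGen (fun p q => a p q ∧ q ∈ (S \ W) \ M) r s → ¬ a s y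

private theorem rtg_mono {r r' : V → V → Prop} (h : ∀ p q, r p q → r' p q) {x y : V}
    (hxy : Relation.ReflTransGen r x y) : Relation.ReflTransGen r' x y := by
  induction hxy with
  | refl => exact Relation.ReflTransGen.refl
  | tail _ h2 ih => exact ih.tail (h _ _ h2)

/-- Bad pairs. -/
private def Bad (a : V → V → Prop) (S : Finset V) (t k' : ℕ) (W S' : Finset V) : Prop :=
  W ⊆ S' ∧ S' ⊆ S ∧ ∃ M, Hits a S' W M ∧ M.card ≤ t ∧ ∃ φ : V → ℕ,
    (∀ v ∈ S' \ W, φ v < k') ∧ (∀ i, Acyc a ((S' \ W).filter (fun v => φ v = i))) ∧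
    ¬ ∃ φ' : V → ℕ, (∀ v ∈ S' \ W, φ' v = φ v) ∧ (∀ v ∈ S', φ' v < k') ∧
      ∀ i, Acyc a (S'.filter (fun v => φ' v = i))

/-- An injection into the free colours. -/
private theorem exists_free {A : Finset ℕ} {n t : ℕ} (hA : A.card ≤ t) :
    ∃ e : ℕ → ℕ, (∀ i < n, e i < n + t ∧ e i ∉ A) ∧
      ∀ i < n, ∀ j < n, e i = e j → i = j := by
  have h1 : n ≤ ((Finset.range (n + t)) \ A).card := by
    have := Finset.le_card_sdiff A (Finset.range (n + t))
    rw [Finset.card_range] at this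
    omega
  obtain ⟨B, hB, hBc⟩ := Finset.exists_subset_card_eq h1
  let f : Fin n ≃ B := (Fintype.equivFinOfCardEq (by simp [hBc])).symm
  refine ⟨fun i => if h : i < n then (f ⟨i, h⟩ : ℕ) else 0, fun i hi => ?_, fun i hi j hj hij => ?_⟩
  · simp only [dif_pos hi]
    have := hB (f ⟨i, hi⟩).2
    rw [Finset.mem_sdiff, Finset.mem_range] at this
    exact this
  · simp only [dif_pos hi, dif_pos hj] at hij
    have := f.injective (Subtype.ext hij)
    exact congrArg Fin.val this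

/-- Part (a). -/
private theorem bad_col {a : V → V → Prop} {S : Finset V} {t n : ℕ} {W S' : Finset V}
    (hb : Bad a S t (n + t) W S') : ¬ Col a W n := by
  rintro ⟨ψ, hψ, hψ'⟩
  obtain ⟨hWS, -, M, hM, hMt, φ, hφ, hφ', hno⟩ := hb
  obtain ⟨e, he, hinj⟩ := exists_free (A := M.image φ) (n := n) (t := t)
    (Finset.card_image_le.trans hMt)
  apply hno
  refine ⟨fun v => if v ∈ W then e (ψ v) else φ v, ?_, ?_, ?_⟩
  · intro v hv
    simp only
    rw [if_neg (Finset.mem_sdiff.1 hv).2]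
  · intro v hv
    simp only
    by_cases hvW : v ∈ W
    · rw [if_pos hvW]
      exact (he _ (hψ v hvW)).1
    · rw [if_neg hvW]
      exact hφ v (Finset.mem_sdiff.2 ⟨hv, hvW⟩)
  · intro i Z hZ hne
    by_contra hcon
    push Not at hcon
    obtain ⟨Z0, hZ0, hconn, hsink⟩ := exists_conn_sinkless hne hcon
    have hmem : ∀ z ∈ Z0, z ∈ S' ∧ (if z ∈ W then e (ψ z) else φ z) = i := by
      intro z hz
      exact Finset.mem_filter.1 (hZ (hZ0 hz))
    have hW : ∀ z ∈ Z0, z ∈ W → e (ψ z) = i := by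
      intro z hz hzW
      have := (hmem z hz).2
      rwa [if_pos hzW] at this
    have hnW : ∀ z ∈ Z0, z ∉ W → φ z = i := by
      intro z hz hzW
      have := (hmem z hz).2
      rwa [if_neg hzW] at this
    by_cases h1 : Z0 ⊆ W
    · obtain ⟨z0, hz0⟩ := hconn.nonempty
      obtain ⟨u, hu, hu'⟩ := hψ' (ψ z0) Z0 (fun z hz => Finset.mem_filter.2 ⟨h1 hz,
        hinj _ (hψ z (h1 hz)) _ (hψ z0 (h1 hz0))
          ((hW z hz (h1 hz)).trans (hW z0 hz0 (h1 hz0)).symm)⟩) ⟨z0, hz0⟩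
      obtain ⟨v, hv, hv'⟩ := hsink u hu
      exact hu' v hv hv'
    by_cases h2 : (Z0 ∩ W).Nonempty
    · have h3 : Z0 ∩ W ≠ Z0 := by
        intro h4
        exact h1 fun z hz => by
          rw [← h4] at hz
          exact (Finset.mem_inter.1 hz).2
      obtain ⟨x, hx, r, hr, hrn, hxr⟩ := hconn.2 _ Finset.inter_subset_left h2 h3
      obtain ⟨hxZ, hxW⟩ := Finset.mem_inter.1 hx
      have hrW : r ∉ W := fun h => hrn (Finset.mem_inter.2 ⟨hr, h⟩)
      -- no vertex of `Z0` is in `M`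
      have hZM : ∀ z ∈ Z0, z ∉ M := by
        intro z hz hzM
        have hzW : z ∉ W := (Finset.mem_sdiff.1 (hM.1 hzM)).2
        have h4 : φ z = e (ψ x) := (hnW z hz hzW).trans (hW x hxZ hxW).symm
        exact (he _ (hψ x hxW)).2 (h4 ▸ Finset.mem_image_of_mem φ hzM)
      let T := Z0.filter fun z => z ∉ W ∧
        Relation.ReflTransGen (fun p q => a p q ∧ q ∈ Z0 ∧ q ∉ W) r z
      have hrT : r ∈ T := Finset.mem_filter.2 ⟨hr, hrW, Relation.ReflTransGen.refl⟩
      have hTne : T ≠ Z0 := by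
        intro h4
        rw [← h4] at hxZ
        exact (Finset.mem_filter.1 hxZ).2.1 hxW
      obtain ⟨s, hs, y, hy, hyT, hsy⟩ := hconn.2 T (Finset.filter_subset _ _) ⟨r, hrT⟩ hTne
      obtain ⟨hsZ, hsW, hsr⟩ := Finset.mem_filter.1 hs
      have hyW : y ∈ W := by
        by_contra hyW
        exact hyT (Finset.mem_filter.2 ⟨hy, hyW, hsr.tail ⟨hsy, hy, hyW⟩⟩)
      refine hM.2 x hxW y hyW r s hxr (Finset.mem_sdiff.2 ⟨Finset.mem_sdiff.2
        ⟨(hmem r hr).1, hrW⟩, hZM r hr⟩) (rtg_mono ?_ hsr) hsy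
      rintro p q ⟨h5, h6, h7⟩
      exact ⟨h5, Finset.mem_sdiff.2 ⟨Finset.mem_sdiff.2 ⟨(hmem q h6).1, h7⟩, hZM q h6⟩⟩
    · have h3 : ∀ z ∈ Z0, z ∉ W := fun z hz hzW => h2 ⟨z, Finset.mem_inter.2 ⟨hz, hzW⟩⟩
      obtain ⟨u, hu, hu'⟩ := hφ' i Z0 (fun z hz => Finset.mem_filter.2
        ⟨Finset.mem_sdiff.2 ⟨(hmem z hz).1, h3 z hz⟩, hnW z hz (h3 z hz)⟩) hconn.nonempty
      obtain ⟨v, hv, hv'⟩ := hsink u hu
      exact hu' v hv hv'

/-- Part (b). -/
private theorem bad_hits {a : V → V → Prop} {S : Finset V} {t k' : ℕ} {W S' : Finset V}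
    (hb : Bad a S t k' W S')
    (hmin : ∀ W₁ S₁, Bad a S t k' W₁ S₁ → W.card ≤ W₁.card) {X M' : Finset V} (hXW : X ⊆ W)
    (hX : X.Nonempty) (hne : X ≠ W) (hH : Hits a S' X M') : t < M'.card := by
  by_contra hM't
  push Not at hM't
  obtain ⟨hWS, hS', M, hM, hMt, φ, hφ, hφ', hno⟩ := hb
  have hlt : X.card < W.card := Finset.card_lt_card (lt_of_le_of_ne hXW hne)
  have hlt' : (W \ X).card < W.card := by
    refine Finset.card_lt_card ⟨Finset.sdiff_subset, fun h => ?_⟩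
    obtain ⟨x, hx⟩ := hX
    exact (Finset.mem_sdiff.1 (h (hXW hx))).2 hx
  have hset : (S' \ X) \ (W \ X) = S' \ W := by
    ext z
    simp only [Finset.mem_sdiff]
    constructor
    · rintro ⟨⟨h1, h2⟩, h3⟩
      exact ⟨h1, fun h => h3 ⟨h, h2⟩⟩
    · rintro ⟨h1, h2⟩
      exact ⟨⟨h1, fun h => h2 (hXW h)⟩, fun h => h2 h.1⟩
  have h1 : ∃ φ' : V → ℕ, (∀ v ∈ S' \ W, φ' v = φ v) ∧ (∀ v ∈ S' \ X, φ' v < k') ∧
      ∀ i, Acyc a ((S' \ X).filter (fun v => φ' v = i)) := by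
    by_contra hcon
    refine absurd (hmin (W \ X) (S' \ X) ⟨Finset.sdiff_subset_sdiff hWS le_rfl,
      Finset.sdiff_subset.trans hS', M, ⟨?_, ?_⟩, hMt, φ, ?_, ?_, ?_⟩) (not_le.2 hlt')
    · rw [hset]
      exact hM.1
    · rw [hset]
      intro x hx y hy
      exact hM.2 x (Finset.sdiff_subset hx) y (Finset.sdiff_subset hy)
    · rw [hset]
      exact hφ
    · rw [hset]
      exact hφ'
    · rw [hset]
      exact hcon
  obtain ⟨φ₁, h2, h3, h4⟩ := h1
  refine absurd (hmin X S' ⟨hXW.trans hWS, hS', M', hH, hM't, φ₁, h3, h4, ?_⟩) (not_le.2 hlt)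
  rintro ⟨φ₂, h5, h6, h7⟩
  refine hno ⟨φ₂, fun v hv => ?_, h6, h7⟩
  rw [h5 v (Finset.sdiff_subset_sdiff le_rfl hXW hv), h2 v hv]

/-- Theorem A. If `S` is not a union of `k + 2 * c` acyclic sets there is `W ⊆ S`, not a union of
`k` acyclic sets, such that no set `C` of at most `c` vertices separates two vertices of `W`.

Proof. Put `t = 2 * c - 1`, `k' = k + 2 * c`. Call a pair `W ⊆ S' ⊆ S` bad if there is `M` with
`Hits a S' W M`, `M.card ≤ t`, and some `φ : V → ℕ`, `φ v < k'` for `v ∈ S' \ W`, all classes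
`(S' \ W).filter (φ = i)` acyclic, such that no `φ'` which agrees with `φ` on `S' \ W` has
`φ' v < k'` on `S'` and all classes `S'.filter (φ' = i)` acyclic. The pair `(S, S)` is bad (`M = ∅`).
Take a bad pair with `W.card` minimal.
(a) `W` is not a union of `k' - t` acyclic sets: the set of colours of `M` has at most `t` elements,
so there are `k' - t` colours `< k'` which `φ` does not use on `M`; if `W` had a colouring with
`k' - t` colours, use these colours. The resulting colouring of `S'` has acyclic classes: suppose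
`Z` is a nonempty set of one colour without a sink; by `exists_conn_sinkless` we may assume
`Conn a Z`. If `Z ⊆ W` or `Z ∩ W = ∅` this contradicts the two colourings. Otherwise `Z`
meets `W` and `S' \ W`; `Z ∩ M = ∅` since the colours of `M` are not used on `W`. Let
`x ∈ Z ∩ W` with an out-neighbour `r ∈ Z \ W` (`Conn`), and let `T` be the set of vertices of
`Z \ W` reachable from `r` inside `Z \ W`; by `Conn` (`T ≠ Z`) some `s ∈ T` has an out-neighbour
`y ∈ Z \ T`; `y ∉ Z \ W` (otherwise `y ∈ T`), so `y ∈ W`: contradiction to `Hits`.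
As `k' - t = k + 1 > k`, also `¬ Col a W k`.
(b) if `X ⊆ W` is nonempty, `X ≠ W`, and `Hits a S' X M'` then `M'.card > t`. Otherwise consider
`(S' \ X, W \ X)`: `M` hits (the ears of `W \ X` in `S' \ X` have interior in
`(S' \ X) \ (W \ X) = S' \ W`), and
`(W \ X).card < W.card`, so by minimality the colouring `φ` of `S' \ W` extends to `S' \ X`; then
`(S', X)`, `X.card < W.card` with `M'`: it extends further to `S'`. Contradiction.
(c) let `C.card ≤ c`, `v, w ∈ W \ C` and suppose `w` is not reachable from `v` in `S' \ C`. Let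
`X* = {z ∈ S' \ C | reachable from v in S' \ C}`, `Y* = (S' \ C) \ X*`, no arc from `X*` to `Y*`.
`X = W ∩ X*` (contains `v`) and `Y = W ∩ Y*` (contains `w`) are nonempty proper subsets of `W`.
`Hits a S' X ((C ∩ S') ∪ (M ∩ X*))`: a walk from `X` which avoids `C` stays in `X*`, its interior is
in `X* \ W` up to the first return to `W`... precisely: interior vertices are in `X* \ X = X* \ W`,
so it is an ear of `W` and meets `M`. `Hits a S' Y ((C ∩ S') ∪ (M ∩ Y*))`: a walk ending in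
`Y ⊆ Y*` and avoiding `C` lies in `Y*` (backwards), interior in `Y* \ W`. (If `C` meets `X`? No:
`X ⊆ X*` is disjoint from `C`; but the hitting set has to be inside `S' \ X`: `C ∩ S'` is disjoint from
`X`, fine.) By (b) both sets have at least `t + 1` elements, so
`2 * (t + 1) ≤ 2 * C.card + M.card ≤ 2 * c + t`, i.e. `t + 2 ≤ 2 * c`, false. So `w` is reachable
from `v` in `S' \ C ⊆ S \ C`. -/
theorem thmA {a : V → V → Prop} {S : Finset V} {k c : ℕ} (hc : 1 ≤ c)
    (h : ¬ Col a S (k + 2 * c)) :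
    ∃ W ⊆ S, ¬ Col a W k ∧ ∀ C : Finset V, C.card ≤ c → ∀ u ∈ W, u ∉ C → ∀ v ∈ W, v ∉ C →
      Relation.ReflTransGen (fun x y => a x y ∧ y ∈ S ∧ y ∉ C) u v := by
  obtain ⟨t, ht⟩ : ∃ t, 2 * c = t + 1 := ⟨2 * c - 1, by omega⟩
  have hk : k + 2 * c = (k + 1) + t := by omega
  rw [hk] at h
  have hSS : Bad a S t ((k + 1) + t) S S := by
    refine ⟨le_rfl, le_rfl, ∅, ⟨Finset.empty_subset _, ?_⟩, Nat.zero_le _, fun _ => 0, ?_, ?_, ?_⟩
    · intro x _ y _ r s _ hr
      simp at hr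
    · intro v hv
      simp at hv
    · intro i Z hZ hne
      obtain ⟨z, hz⟩ := hne
      have := hZ hz
      simp at this
    · rintro ⟨φ', -, h1, h2⟩
      exact h ⟨φ', h1, h2⟩
  have hex : ∃ n, ∃ W S', Bad a S t ((k + 1) + t) W S' ∧ W.card = n := ⟨_, S, S, hSS, rfl⟩
  obtain ⟨W, S', hb, hcard⟩ := Nat.find_spec hex
  have hmin : ∀ W₁ S₁, Bad a S t ((k + 1) + t) W₁ S₁ → W.card ≤ W₁.card := by
    intro W₁ S₁ h1
    rw [hcard]
    exact Nat.find_min' hex ⟨W₁, S₁, h1, rfl⟩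
  have hcol := bad_col hb
  have hhits := fun {X M' : Finset V} => bad_hits hb hmin (X := X) (M' := M')
  obtain ⟨hWS, hS', M, hM, hMt, -⟩ := hb
  refine ⟨W, hWS.trans hS', fun hW => hcol (hW.mono le_rfl (by omega)), ?_⟩
  intro C hC v hv hvC w hw hwC
  by_contra hnr
  -- the reachable set
  let R : V → V → Prop := fun x y => a x y ∧ y ∈ S' ∧ y ∉ C
  have hRS : ∀ x, Relation.ReflTransGen R v x →
      Relation.ReflTransGen (fun x y => a x y ∧ y ∈ S ∧ y ∉ C) v x := by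
    intro x hx
    exact rtg_mono (fun p q h1 => ⟨h1.1, hS' h1.2.1, h1.2.2⟩) hx
  have hnr' : ¬ Relation.ReflTransGen R v w := fun h1 => hnr (hRS w h1)
  let Xs : Finset V := S'.filter fun z => z ∉ C ∧ Relation.ReflTransGen R v z
  have hXs : ∀ z, z ∈ Xs ↔ z ∈ S' ∧ z ∉ C ∧ Relation.ReflTransGen R v z := fun z =>
    Finset.mem_filter
  have hclosed : ∀ p q, p ∈ Xs → a p q → q ∈ S' → q ∉ C → q ∈ Xs := by
    intro p q hp hpq hq hqC
    rw [hXs] at hp ⊢
    exact ⟨hq, hqC, hp.2.2.tail ⟨hpq, hq, hqC⟩⟩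
  have hvX : v ∈ Xs := (hXs v).2 ⟨hWS hv, hvC, Relation.ReflTransGen.refl⟩
  have hwX : w ∉ Xs := fun h1 => hnr' ((hXs w).1 h1).2.2
  have hX1 : t < ((C ∩ S') ∪ (M ∩ Xs)).card := by
    refine hhits (X := W ∩ Xs) Finset.inter_subset_left ⟨v, Finset.mem_inter.2 ⟨hv, hvX⟩⟩
      (fun h1 => ?_) ⟨?_, ?_⟩
    · rw [← h1] at hw
      exact hwX (Finset.mem_inter.1 hw).2
    · intro z hz
      rw [Finset.mem_sdiff]
      rcases Finset.mem_union.1 hz with h1 | h1
      · obtain ⟨h2, h3⟩ := Finset.mem_inter.1 h1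
        exact ⟨h3, fun h4 => ((hXs z).1 (Finset.mem_inter.1 h4).2).2.1 h2⟩
      · obtain ⟨h2, h3⟩ := Finset.mem_inter.1 h1
        have h4 := Finset.mem_sdiff.1 (hM.1 h2)
        exact ⟨h4.1, fun h5 => h4.2 (Finset.mem_inter.1 h5).1⟩
    · intro x hx y hy r s hxr hr hrs hsy
      obtain ⟨hxW, hxX⟩ := Finset.mem_inter.1 hx
      obtain ⟨hyW, hyX⟩ := Finset.mem_inter.1 hy
      -- a vertex outside of the hitting set, reached from `Xs`
      have key : ∀ p q, p ∈ Xs → a p q → q ∈ (S' \ (W ∩ Xs)) \ ((C ∩ S') ∪ (M ∩ Xs)) →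
          q ∈ Xs ∧ q ∈ (S' \ W) \ M := by
        intro p q hp hpq hq
        obtain ⟨h1, h2⟩ := Finset.mem_sdiff.1 hq
        obtain ⟨h3, h4⟩ := Finset.mem_sdiff.1 h1
        rw [Finset.mem_union, not_or] at h2
        have hqC : q ∉ C := fun h5 => h2.1 (Finset.mem_inter.2 ⟨h5, h3⟩)
        have hqX := hclosed p q hp hpq h3 hqC
        exact ⟨hqX, Finset.mem_sdiff.2 ⟨Finset.mem_sdiff.2 ⟨h3, fun h5 =>
          h4 (Finset.mem_inter.2 ⟨h5, hqX⟩)⟩, fun h5 => h2.2 (Finset.mem_inter.2 ⟨h5, hqX⟩)⟩⟩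
      obtain ⟨hrX, hrM⟩ := key x r hxX hxr hr
      have hall : s ∈ Xs ∧ Relation.ReflTransGen (fun p q => a p q ∧ q ∈ (S' \ W) \ M) r s := by
        clear hsy
        induction hrs with
        | refl => exact ⟨hrX, Relation.ReflTransGen.refl⟩
        | tail _ h2 ih =>
          obtain ⟨h3, h4⟩ := key _ _ ih.1 h2.1 h2.2
          exact ⟨h3, ih.2.tail ⟨h2.1, h4⟩⟩
      exact hM.2 x hxW y hyW r s hxr hrM hall.2 hsy
  have hX2 : t < ((C ∩ S') ∪ (M \ Xs)).card := by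
    refine hhits (X := W \ (Xs ∪ C)) Finset.sdiff_subset ⟨w, Finset.mem_sdiff.2 ⟨hw, fun h1 =>
      (Finset.mem_union.1 h1).elim hwX hwC⟩⟩ (fun h1 => ?_) ⟨?_, ?_⟩
    · rw [← h1] at hv
      exact (Finset.mem_sdiff.1 hv).2 (Finset.mem_union_left _ hvX)
    · intro z hz
      rw [Finset.mem_sdiff]
      rcases Finset.mem_union.1 hz with h1 | h1
      · obtain ⟨h2, h3⟩ := Finset.mem_inter.1 h1
        exact ⟨h3, fun h4 => (Finset.mem_sdiff.1 h4).2 (Finset.mem_union_right _ h2)⟩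
      · have h4 := Finset.mem_sdiff.1 (hM.1 (Finset.mem_sdiff.1 h1).1)
        exact ⟨h4.1, fun h5 => h4.2 (Finset.mem_sdiff.1 h5).1⟩
    · intro x hx y hy r s hxr hr hrs hsy
      obtain ⟨hxW, hxX⟩ := Finset.mem_sdiff.1 hx
      obtain ⟨hyW, hyX⟩ := Finset.mem_sdiff.1 hy
      rw [Finset.mem_union, not_or] at hyX
      have hin : ∀ q, q ∈ (S' \ (W \ (Xs ∪ C))) \ ((C ∩ S') ∪ (M \ Xs)) →
          q ∈ S' ∧ q ∉ C := by
        intro q hq
        obtain ⟨h1, h2⟩ := Finset.mem_sdiff.1 hq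
        obtain ⟨h3, h4⟩ := Finset.mem_sdiff.1 h1
        rw [Finset.mem_union, not_or] at h2
        exact ⟨h3, fun h5 => h2.1 (Finset.mem_inter.2 ⟨h5, h3⟩)⟩
      have hsX : s ∉ Xs := fun h1 => hyX.1 (hclosed s y h1 hsy (hWS hyW) hyX.2)
      have key : ∀ q, q ∉ Xs → q ∈ (S' \ (W \ (Xs ∪ C))) \ ((C ∩ S') ∪ (M \ Xs)) →
          q ∈ (S' \ W) \ M := by
        intro q hqX hq
        obtain ⟨h3, h5⟩ := hin q hq
        obtain ⟨h1, h2⟩ := Finset.mem_sdiff.1 hq
        obtain ⟨-, h4⟩ := Finset.mem_sdiff.1 h1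
        rw [Finset.mem_union, not_or] at h2
        refine Finset.mem_sdiff.2 ⟨Finset.mem_sdiff.2 ⟨h3, fun h6 => h4 (Finset.mem_sdiff.2
          ⟨h6, fun h7 => (Finset.mem_union.1 h7).elim hqX h5⟩)⟩, fun h6 => h2.2
          (Finset.mem_sdiff.2 ⟨h6, hqX⟩)⟩
      have hall : r ∉ Xs ∧ Relation.ReflTransGen (fun p q => a p q ∧ q ∈ (S' \ W) \ M) r s := by
        clear hxr hr
        induction hrs using Relation.ReflTransGen.head_induction_on with
        | refl => exact ⟨hsX, Relation.ReflTransGen.refl⟩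
        | head h1 h2 ih =>
          refine ⟨fun h3 => ih.1 (hclosed _ _ h3 h1.1 (hin _ h1.2).1 (hin _ h1.2).2), ?_⟩
          exact Relation.ReflTransGen.head ⟨h1.1, key _ ih.1 h1.2⟩ ih.2
      exact hM.2 x hxW y hyW r s hxr (key r hall.1 hr) hall.2 hsy
  have e1 := Finset.card_union_le (C ∩ S') (M ∩ Xs)
  have e2 := Finset.card_union_le (C ∩ S') (M \ Xs)
  have e3 : (C ∩ S').card ≤ C.card := Finset.card_le_card Finset.inter_subset_left
  have e4 := Finset.card_sdiff_add_card_inter M Xs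
  omega

end Pool.Agent.MDP
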