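import Pool.Agent.Mader.Ear

/-! Colourings of finite vertex sets of a digraph by acyclic sets. -/

open Classical

namespace Pool.Agent.MDP

open Pool.Agent.Mader

universe u

variable {V : Type u}

/-- `X` is a union of `k` acyclic sets. -/
def Col (a : V → V → Prop) (X : Finset V) (k : ℕ) : Prop :=
  ∃ c : V → ℕ, (∀ v ∈ X, c v < k) ∧ ∀ i, Acyc a (X.filter (fun v => c v = i))

/-- Monotonicity. -/
theorem Col.mono {a : V → V → Prop} {X Y : Finset V} {k l : ℕ} (h : Col a X k) (hY : Y ⊆ X)
    (hkl : k ≤ l) : Col a Y l := by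
  obtain ⟨c, h1, h2⟩ := h
  refine ⟨c, fun v hv => (h1 v (hY hv)).trans_le hkl, fun i => (h2 i).mono ?_⟩
  intro v hv
  rw [Finset.mem_filter] at hv ⊢
  exact ⟨hY hv.1, hv.2⟩

private theorem basic_inj {a b k x y : ℕ} (hx : x < k) (hy : y < k) (h : a * k + x = b * k + y) :
    a = b ∧ x = y := by
  have hab : a = b := by
    rcases lt_trichotomy a b with h1 | h1 | h1
    · exfalso
      have h2 : (a + 1) * k ≤ b * k := Nat.mul_le_mul_right k h1
      rw [add_mul, one_mul] at h2
      omega
    · exact h1
    · exfalso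
      have h2 : (b + 1) * k ≤ a * k := Nat.mul_le_mul_right k h1
      rw [add_mul, one_mul] at h2
      omega
  subst hab
  exact ⟨rfl, by omega⟩

/-- Classes: if `p` splits `X` into `m` classes, each of which is a union of `k` acyclic sets,
then `X` is a union of `m * k` acyclic sets.

Proof. For `i < m` let `c i` be a colouring of the class `i`; colour `v` by
`p v * k + c (p v) v`. For `v` in the class `i` this is `< m * k`, and the value determines
`p v` and `c (p v) v` (division by `k`; if `k = 0` then every class is empty, so `X` is empty).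
So a colour class of the new colouring is contained in a colour class of one `c i`. -/
theorem Col.of_classes {a : V → V → Prop} {X : Finset V} {m k : ℕ} (p : V → ℕ)
    (hp : ∀ v ∈ X, p v < m) (h : ∀ i < m, Col a (X.filter (fun v => p v = i)) k) :
    Col a X (m * k) := by
  unfold Col at h
  choose! c hc1 hc2 using h
  have hlt : ∀ v ∈ X, c (p v) v < k := fun v hv =>
    hc1 (p v) (hp v hv) v (Finset.mem_filter.mpr ⟨hv, rfl⟩)
  refine ⟨fun v => p v * k + c (p v) v, ?_, ?_⟩
  · intro v hv
    have h1 := hlt v hv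
    have h2 : (p v + 1) * k ≤ m * k := Nat.mul_le_mul_right k (hp v hv)
    rw [add_mul, one_mul] at h2
    change p v * k + c (p v) v < m * k
    omega
  · intro j Z hZ hne
    obtain ⟨z, hz⟩ := hne
    have hz' := Finset.mem_filter.mp (hZ hz)
    apply hc2 (p z) (hp z hz'.1) (c (p z) z) Z ?_ ⟨z, hz⟩
    intro v hv
    have hv' := Finset.mem_filter.mp (hZ hv)
    obtain ⟨e1, e2⟩ := basic_inj (hlt v hv'.1) (hlt z hz'.1) (hv'.2.trans hz'.2.symm)
    refine Finset.mem_filter.mpr ⟨Finset.mem_filter.mpr ⟨hv'.1, e1⟩, ?_⟩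
    rw [← e1]
    rw [← e1] at e2
    exact e2

/-- Union.

Proof. Colour `v` by the first colouring if `v ∈ X`, by `k +` the second colouring otherwise. -/
theorem Col.union {a : V → V → Prop} {X Y : Finset V} {k l : ℕ} (hX : Col a X k)
    (hY : Col a Y l) : Col a (X ∪ Y) (k + l) := by
  obtain ⟨c1, h1, h1'⟩ := hX
  obtain ⟨c2, h2, h2'⟩ := hY
  refine ⟨fun v => if v ∈ X then c1 v else k + c2 v, ?_, ?_⟩
  · intro v hv
    change (if v ∈ X then c1 v else k + c2 v) < k + l
    by_cases hx : v ∈ X
    · rw [if_pos hx]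
      exact (h1 v hx).trans_le (Nat.le_add_right k l)
    · rw [if_neg hx]
      have hvy : v ∈ Y := (Finset.mem_union.mp hv).resolve_left hx
      have := h2 v hvy
      omega
  · intro j Z hZ hne
    by_cases hj : j < k
    · apply h1' j Z ?_ hne
      intro v hv
      have hv' := Finset.mem_filter.mp (hZ hv)
      have e : (if v ∈ X then c1 v else k + c2 v) = j := hv'.2
      by_cases hx : v ∈ X
      · rw [if_pos hx] at e
        exact Finset.mem_filter.mpr ⟨hx, e⟩
      · rw [if_neg hx] at e
        omega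
    · apply h2' (j - k) Z ?_ hne
      intro v hv
      have hv' := Finset.mem_filter.mp (hZ hv)
      have e : (if v ∈ X then c1 v else k + c2 v) = j := hv'.2
      by_cases hx : v ∈ X
      · rw [if_pos hx] at e
        have := h1 v hx
        omega
      · rw [if_neg hx] at e
        exact Finset.mem_filter.mpr ⟨(Finset.mem_union.mp hv'.1).resolve_left hx, by omega⟩

/-- A set of `n` vertices is a union of `n` acyclic sets (there are no loops).

Proof. An injective colouring with values `< n`; a nonempty set of equally coloured vertices is a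
singleton. -/
theorem Col.card {a : V → V → Prop} (hirr : ∀ v, ¬ a v v) (X : Finset V) :
    Col a X X.card := by
  refine ⟨fun v => if h : v ∈ X then (X.equivFin ⟨v, h⟩ : ℕ) else 0, ?_, ?_⟩
  · intro v hv
    change (if h : v ∈ X then (X.equivFin ⟨v, h⟩ : ℕ) else 0) < X.card
    rw [dif_pos hv]
    exact (X.equivFin ⟨v, hv⟩).isLt
  · intro j Z hZ hne
    obtain ⟨z, hz⟩ := hne
    refine ⟨z, hz, ?_⟩
    intro v hv
    have hz' := Finset.mem_filter.mp (hZ hz)
    have hv' := Finset.mem_filter.mp (hZ hv)
    have e1 : (if h : z ∈ X then (X.equivFin ⟨z, h⟩ : ℕ) else 0) = j := hz'.2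
    have e2 : (if h : v ∈ X then (X.equivFin ⟨v, h⟩ : ℕ) else 0) = j := hv'.2
    rw [dif_pos hz'.1] at e1
    rw [dif_pos hv'.1] at e2
    have e3 : X.equivFin ⟨z, hz'.1⟩ = X.equivFin ⟨v, hv'.1⟩ := Fin.ext (e1.trans e2.symm)
    have e4 := congrArg Subtype.val (X.equivFin.injective e3)
    have e5 : z = v := e4
    rw [← e5]
    exact hirr z

/-- Two colours. -/
theorem Col.of_twoCol {a : V → V → Prop} {X : Finset V} (h : TwoCol a X) : Col a X 2 := by
  obtain ⟨c, hc⟩ := h
  refine ⟨fun v => (c v).toNat, fun v _ => ?_, ?_⟩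
  · change (c v).toNat < 2
    cases c v <;> decide
  · intro j Z hZ hne
    obtain ⟨z, hz⟩ := hne
    apply hc (c z) Z ?_ ⟨z, hz⟩
    intro v hv
    have hz' := Finset.mem_filter.mp (hZ hz)
    have hv' := Finset.mem_filter.mp (hZ hv)
    refine Finset.mem_filter.mpr ⟨hv'.1, ?_⟩
    have e : (c v).toNat = (c z).toNat := hv'.2.trans hz'.2.symm
    revert e
    cases c v <;> cases c z <;> decide

end Pool.Agent.MDP
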