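import Pool.Agent.MDP.Extract

/-! Linkings from successor maps. -/

open Classical

namespace Pool.Agent.MDP

universe u

/-- `N` disjoint paths from `s` to `t` (some pairing `π`) with all interior vertices in `R`: the
`i`-th
path has its interior in `I i`. -/
def Lk {V : Type u} (a : V → V → Prop) (R : Finset V) {N : ℕ} (s t : Fin N → V) : Prop :=
  ∃ (π : Equiv.Perm (Fin N)) (I : Fin N → Finset V), (∀ i, I i ⊆ R) ∧
    (∀ i j, i ≠ j → Disjoint (I i) (I j)) ∧
    ∀ i, Relation.ReflTransGen (fun x y => a x y ∧ (y ∈ I i ∨ y = t (π i))) (s i) (t (π i))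

/-- `Y` is a core: any two disjoint `N`-tuples of vertices of `Y` are linked through `R`. -/
def Core {V : Type u} (a : V → V → Prop) (R Y : Finset V) (N : ℕ) : Prop :=
  ∀ s t : Fin N → V, Function.Injective s → Function.Injective t → (∀ i, s i ∈ Y) →
    (∀ i, t i ∈ Y) → (∀ i j, s i ≠ t j) → Lk a R s t

/-- From an injective choice of successors to a linking. Rows: `R` and the sources; columns:
`R` and the targets.

Proof. `A = {x // x ∈ R} ⊕ Fin N` (sources on the right), `B = Fin N`. Define
`g : A → A ⊕ Fin N`: for a row `p`, if `f p = inl y` then `inl (inl y)`, if `f p = inr j` then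
`inr j`. It
is injective, and the sources `inr i` are not in its image, so `extract` applies with
`T = {inr i}`. Let `I i = {y ∈ R | ReflTransGen (g · = inl ·) (inr i) (inl y), y ≠ source}`: the
set of `y` in `R` reached from `inr i`.
They are disjoint. `π i = β (inr i)` is injective, so a permutation. The walk from `s i` to
`t (π i)`: map
`inr i' ↦ s i'`, `inl y ↦ y`; each step of the chain is a step `a x y ∧ y ∈ I i` because
`inl y ∈ R` was reached (only the first point is a source; a step never leads to a source), in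
particular
no step is idle: an idle step `f (inl y) = inl y` together with a step into `y` from another row
would
contradict injectivity (and `y` is not the start). The last step is `f p = inr (π i)`. -/
theorem lk_of_succ {V : Type u} {a : V → V → Prop} {R : Finset V} {N : ℕ} {s t : Fin N → V}
    (f : {x // x ∈ R} ⊕ Fin N → {x // x ∈ R} ⊕ Fin N) (hf : Function.Injective f)
    (h1 : ∀ x y, f (Sum.inl x) = Sum.inl y → x = y ∨ a x.1 y.1)
    (h2 : ∀ x j, f (Sum.inl x) = Sum.inr j → a x.1 (t j))
    (h3 : ∀ i y, f (Sum.inr i) = Sum.inl y → a (s i) y.1)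
    (h4 : ∀ i j, f (Sum.inr i) = Sum.inr j → a (s i) (t j)) : Lk a R s t := by
  rcases Nat.eq_zero_or_pos N with hN0 | hN0
  · subst hN0
    exact ⟨1, fun i => i.elim0, fun i => i.elim0, fun i => i.elim0, fun i => i.elim0⟩
  set g : {x // x ∈ R} ⊕ Fin N → ({x // x ∈ R} ⊕ Fin N) ⊕ Fin N :=
    fun p => Sum.map Sum.inl id (f p) with hg
  have hg1 : ∀ p c, g p = Sum.inl c → ∃ y, f p = Sum.inl y ∧ c = Sum.inl y := by
    intro p c h
    rcases hfp : f p with y | j
    · rw [hg] at h
      simp only [hfp, Sum.map_inl, Sum.inl.injEq] at h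
      exact ⟨y, rfl, h.symm⟩
    · rw [hg] at h
      simp [hfp] at h
  have hg2 : ∀ p j, g p = Sum.inr j → f p = Sum.inr j := by
    intro p j h
    rcases hfp : f p with y | j'
    · rw [hg] at h
      simp [hfp] at h
    · rw [hg] at h
      simp only [hfp, Sum.map_inr, id, Sum.inr.injEq] at h
      rw [h]
  have hginj : Function.Injective g := by
    intro p q h
    apply hf
    have hmi : Function.Injective
        (Sum.map (Sum.inl : {x // x ∈ R} → {x // x ∈ R} ⊕ Fin N) (id : Fin N → Fin N)) :=
      Sum.inl_injective.sumMap Function.injective_id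
    exact hmi h
  obtain ⟨l, β, hl, hβ, hdis⟩ := extract g hginj (Set.range Sum.inr) (by
    rintro _ ⟨i, rfl⟩ y h
    obtain ⟨z, _, hz⟩ := hg1 _ _ h
    exact Sum.inr_ne_inl hz) ⟨Sum.inr ⟨0, hN0⟩, ⟨0, hN0⟩, rfl⟩
  have hπ : Function.Bijective fun i : Fin N => β (Sum.inr i) := by
    rw [← Finite.injective_iff_bijective]
    intro i j h
    exact Sum.inr_injective (hβ ⟨i, rfl⟩ ⟨j, rfl⟩ h)
  refine ⟨Equiv.ofBijective _ hπ, fun i => (Finset.univ.filter fun y : {x // x ∈ R} =>
    Relation.ReflTransGen (fun y z => g y = Sum.inl z) (Sum.inr i) (Sum.inl y)).image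
      Subtype.val, ?_, ?_, ?_⟩
  · intro i v hv
    rw [Finset.mem_image] at hv
    obtain ⟨y, _, rfl⟩ := hv
    exact y.2
  · intro i j hij
    rw [Finset.disjoint_left]
    intro v hv hv'
    rw [Finset.mem_image] at hv hv'
    obtain ⟨y, hy, rfl⟩ := hv
    obtain ⟨y', hy', hyy⟩ := hv'
    rw [Finset.mem_filter] at hy hy'
    have h5 : y' = y := Subtype.ext hyy
    rw [h5] at hy'
    exact hij (Sum.inr_injective (hdis _ ⟨i, rfl⟩ _ ⟨j, rfl⟩ _ hy.2 hy'.2))
  · intro i
    simp only [Equiv.ofBijective_apply]
    set φ : {x // x ∈ R} ⊕ Fin N → V := Sum.elim Subtype.val s with hφ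
    have key : ∀ z, Relation.ReflTransGen (fun y z => g y = Sum.inl z) (Sum.inr i) z →
        Relation.ReflTransGen (fun x y => a x y ∧ (y ∈ (Finset.univ.filter
          fun y : {x // x ∈ R} => Relation.ReflTransGen (fun y z => g y = Sum.inl z)
            (Sum.inr i) (Sum.inl y)).image Subtype.val ∨ y = t (β (Sum.inr i)))) (s i) (φ z) := by
      intro z hz
      induction hz with
      | refl => exact Relation.ReflTransGen.refl
      | @tail b c hb hbc ih =>
        obtain ⟨y, hy, rfl⟩ := hg1 _ _ hbc
        have hmem : y.1 ∈ (Finset.univ.filter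
            fun y : {x // x ∈ R} => Relation.ReflTransGen (fun y z => g y = Sum.inl z)
              (Sum.inr i) (Sum.inl y)).image Subtype.val :=
          Finset.mem_image_of_mem _ (Finset.mem_filter.mpr ⟨Finset.mem_univ _, hb.tail hbc⟩)
        rcases b with x | i'
        · rcases h1 x y hy with h5 | h5
          · rw [← h5]
            exact ih
          · exact ih.tail ⟨h5, Or.inl hmem⟩
        · exact ih.tail ⟨h3 i' y hy, Or.inl hmem⟩
    obtain ⟨h5, h6⟩ := hl (Sum.inr i) ⟨i, rfl⟩
    have h7 := key _ h5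
    have h8 := hg2 _ _ h6
    refine h7.tail ⟨?_, Or.inr rfl⟩
    rcases hli : l (Sum.inr i) with x | i'
    · rw [hli] at h8
      exact h2 x _ h8
    · rw [hli] at h8
      exact h4 i' _ h8

end Pool.Agent.MDP
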