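import Pool.Agent.Mader.Ear

/-! Arcs in both directions between bags. -/

open Classical

namespace Pool.Agent.MDP

open Pool.Agent.Mader

universe u

variable {V : Type u}

/-- Arcs in both directions between different bags. -/
def Adj2 (a : V → V → Prop) (b b' : Finset V) : Prop :=
  b ≠ b' ∧ (∃ x ∈ b, ∃ y ∈ b', a x y) ∧ ∃ x ∈ b', ∃ y ∈ b, a x y

theorem Adj2.symm {a : V → V → Prop} : ∀ b b' : Finset V, Adj2 a b b' → Adj2 a b' b :=
  fun _ _ h => ⟨h.1.symm, h.2.2, h.2.1⟩

theorem Adj2.irrefl {a : V → V → Prop} : ∀ b : Finset V, ¬ Adj2 a b b := fun _ h => h.1 rfl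

end Pool.Agent.MDP
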