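import Pool.Agent.MDP.Greedy

/-! Directed asymptotic dimension colouring. -/

open Classical

namespace Pool.Agent.MDP

open Pool.Agent.Mader

universe u

variable {V : Type u}

/-- `h i`, `i : Fin m`, are functions with `h i u ≤ h i v + s` along the arcs `u → v` for which
neither `b u v` nor `b v u` (bad pairs) holds; every vertex has at most `d` bad in-neighbours. Then there is a colouring with
`m + 2 * d + 1` colours such that colour classes contain no bad pair, and on strongly connected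
subsets `Z` of colour classes all `h i` vary by at most `(m + 2 * d) * s`.

Proof. Let `M' = m + 2 * d + 1` and `n i v = ⌊h i v / s⌋ : ℤ`. Use `greedy_colour` with the forbidden
colours `{(n i v) % M' | i}` (as natural numbers, `≤ m` of them) for `v`. Let `Z ⊆ X` have the
colour `c`, so `n i v % M' ≠ c` for `v ∈ Z`. Let `q i v = (n i v - c) / M'` (floor division of integers),
`n i v - c = q i v * M' + t`, `1 ≤ t ≤ M' - 1`. For an arc `u → v` inside `Z` (neither `b u v` nor `b v u`, as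
`u ≠ v` by `hirr` and the colours are equal) we have `n i u ≤ n i v + 1`, so `n i u - c ≤ (q i v + 1) * M'`, and equality is
impossible, so `q i u ≤ q i v`. So for a value `q0` the set `{v ∈ Z | q i v ≤ q0}`... for strongly
connected `Z` (`Conn a Z`): let `q0 = max q i` on `Z`; the set of `v ∈ Z` with `q i v = q0` is closed
under out-neighbours in `Z` (`q0 = q i u ≤ q i v`), so it is `Z` (`Conn.eq_of_closed`). So `q i` is
constant on `Z`, the values `n i v` differ by at most `M' - 2` and `h i v` by less than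
`(M' - 1) * s`. -/
theorem asdim (X : Finset V) {a : V → V → Prop} (hirr : ∀ v, ¬ a v v) (b : V → V → Prop)
    (d m : ℕ) (hb : ∀ v ∈ X, (X.filter (fun u => b u v)).card ≤ d) (h : Fin m → V → ℝ) {s : ℝ}
    (hs : 0 < s)
    (hL : ∀ u ∈ X, ∀ v ∈ X, a u v → ¬ b u v → ¬ b v u → ∀ i, h i u ≤ h i v + s) :
    ∃ p : V → ℕ, (∀ v ∈ X, p v < m + 2 * d + 1) ∧
      (∀ u ∈ X, ∀ v ∈ X, u ≠ v → p u = p v → ¬ b u v) ∧
      ∀ Z ⊆ X, Conn a Z → (∀ u ∈ Z, ∀ v ∈ Z, p u = p v) →
        ∀ i, ∀ u ∈ Z, ∀ v ∈ Z, h i u ≤ h i v + (m + 2 * d : ℕ) * s := by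
  have hM : (0 : ℤ) < ((m + 2 * d + 1 : ℕ) : ℤ) := by positivity
  set M : ℤ := ((m + 2 * d + 1 : ℕ) : ℤ) with hMdef
  set n : Fin m → V → ℤ := fun i v => ⌊h i v / s⌋ with hn
  obtain ⟨p, hp1, hp2⟩ := greedy_colour X b d m hb
    (fun v => (Finset.univ : Finset (Fin m)).image (fun i => (n i v % M).toNat))
    (fun v _ => (Finset.card_image_le).trans (by simp))
  refine ⟨p, fun v hv => (hp1 v hv).1, fun u hu v hv huv hpp hbb => hp2 u hu v hv huv hbb hpp, ?_⟩
  intro Z hZ hconn hcol i
  have hmod : ∀ v ∈ Z, ∀ w ∈ Z, n i v % M ≠ (p w : ℤ) := by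
    intro v hv w hw h1
    have h2 := (hp1 v (hZ hv)).2
    apply h2
    rw [Finset.mem_image]
    refine ⟨i, Finset.mem_univ i, ?_⟩
    rw [h1, Int.toNat_natCast, hcol w hw v hv]
  have hstep : ∀ u ∈ Z, ∀ v ∈ Z, a u v → n i u ≤ n i v + 1 := by
    intro u hu v hv huv
    have hne : u ≠ v := by
      rintro rfl
      exact hirr _ huv
    have h1 := hL u (hZ hu) v (hZ hv) huv
      (fun hbb => hp2 u (hZ hu) v (hZ hv) hne hbb (hcol u hu v hv))
      (fun hbb => hp2 v (hZ hv) u (hZ hu) hne.symm hbb (hcol v hv u hu)) i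
    have h2 : h i u / s ≤ h i v / s + 1 := by
      rw [div_add_one hs.ne']
      exact div_le_div_of_nonneg_right h1 hs.le
    have h3 := Int.floor_le_floor h2
    rw [Int.floor_add_one] at h3
    exact h3
  obtain ⟨z0, hz0⟩ := hconn.nonempty
  set c : ℤ := (p z0 : ℤ) with hc
  have hc0 : 0 ≤ c := by positivity
  have hcM : c < M := by
    rw [hc, hMdef]
    exact_mod_cast (hp1 z0 (hZ hz0)).1
  have hne0 : ∀ v ∈ Z, ∀ q : ℤ, n i v - c ≠ q * M := by
    intro v hv q h1
    apply hmod v hv z0 hz0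
    have h2 : n i v = c + q * M := by linarith
    rw [h2, Int.add_mul_emod_self_right, Int.emod_eq_of_lt hc0 hcM]
  have hlo : ∀ v, (n i v - c) / M * M ≤ n i v - c := fun v => Int.ediv_mul_le _ hM.ne'
  have hhi : ∀ v, n i v - c < ((n i v - c) / M + 1) * M :=
    fun v => Int.lt_ediv_add_one_mul_self _ hM
  have hq : ∀ u ∈ Z, ∀ v ∈ Z, a u v → (n i u - c) / M ≤ (n i v - c) / M := by
    intro u hu v hv huv
    by_contra hcon
    rw [not_le] at hcon
    have h1 : ((n i v - c) / M + 1) * M ≤ (n i u - c) / M * M :=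
      mul_le_mul_of_nonneg_right hcon hM.le
    have h2 := hlo u
    have h3 := hhi v
    have h4 := hstep u hu v hv huv
    exact hne0 u hu ((n i u - c) / M) (by linarith)
  have hqq : ∀ u ∈ Z, ∀ v ∈ Z, (n i u - c) / M ≤ (n i v - c) / M := by
    intro u hu v hv
    have h1 : Z.filter (fun w => (n i u - c) / M ≤ (n i w - c) / M) = Z := by
      apply hconn.eq_of_closed (Finset.filter_subset _ _)
      · exact ⟨u, Finset.mem_filter.2 ⟨hu, le_rfl⟩⟩
      · intro x hx y hy hxy
        rw [Finset.mem_filter] at hx ⊢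
        exact ⟨hy, hx.2.trans (hq x hx.1 y hy hxy)⟩
    have h2 : v ∈ Z.filter (fun w => (n i u - c) / M ≤ (n i w - c) / M) := by
      rw [h1]
      exact hv
    exact (Finset.mem_filter.1 h2).2
  intro u hu v hv
  have h1 : (n i u - c) / M = (n i v - c) / M := le_antisymm (hqq u hu v hv) (hqq v hv u hu)
  have h2 := hhi u
  have h3 : (n i v - c) / M * M < n i v - c :=
    lt_of_le_of_ne (hlo v) fun h4 => hne0 v hv _ h4.symm
  rw [h1, add_mul, one_mul] at h2
  have h4 : n i u + 1 ≤ n i v + ((m + 2 * d : ℕ) : ℤ) := by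
    have h5 : M = ((m + 2 * d : ℕ) : ℤ) + 1 := by
      rw [hMdef]
      push_cast
      ring
    omega
  have h5 : h i u / s < (n i u : ℝ) + 1 := Int.lt_floor_add_one _
  have h6 : (n i v : ℝ) ≤ h i v / s := Int.floor_le _
  have h7 : ((n i u : ℝ) + 1) ≤ (n i v : ℝ) + ((m + 2 * d : ℕ) : ℝ) := by exact_mod_cast h4
  have h8 : h i u / s ≤ h i v / s + ((m + 2 * d : ℕ) : ℝ) := by linarith
  have h9 : h i u = h i u / s * s := (div_mul_cancel₀ _ hs.ne').symm
  have h10 : h i v = h i v / s * s := (div_mul_cancel₀ _ hs.ne').symm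
  rw [h9, h10, ← add_mul]
  exact mul_le_mul_of_nonneg_right h8 hs.le

end Pool.Agent.MDP
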