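import Pool.Agent.MDP.Basic

/-! Branch vertices with private neighbours. -/

open Classical

namespace Pool.Agent.MDP

open Pool.Agent.Mader

universe u

variable {V : Type u}

theorem branch_fresh {c : V → ℕ} {S : Finset V} {d : ℕ} (hS : S.card < d) :
    ∃ k < d, ∀ w ∈ S, c w ≠ k := by
  have h1 : (S.image c).card < (Finset.range d).card := by
    rw [Finset.card_range]
    exact lt_of_le_of_lt Finset.card_image_le hS
  obtain ⟨k, hk, hk'⟩ := Finset.exists_mem_notMem_of_card_lt_card h1
  refine ⟨k, Finset.mem_range.1 hk, fun w hw h => hk' ?_⟩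
  rw [← h]
  exact Finset.mem_image_of_mem c hw

theorem branch_out {a : V → V → Prop} (hirr : ∀ v, ¬ a v v) {W : Finset V} {d : ℕ}
    (h : ¬ Col a W d) {v : V} (hv : v ∈ W) (hmin : Col a (W.erase v) d) :
    d ≤ (W.filter (fun w => a v w)).card := by
  by_contra hlt
  push Not at hlt
  obtain ⟨c, h1, h2⟩ := hmin
  obtain ⟨k, hk, hk'⟩ := branch_fresh (c := c) hlt
  apply h
  refine ⟨Function.update c v k, ?_, ?_⟩
  · intro w hw
    by_cases hwv : w = v
    · rw [hwv, Function.update_self]; exact hk
    · rw [Function.update_of_ne hwv]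
      exact h1 w (Finset.mem_erase.2 ⟨hwv, hw⟩)
  · intro i Z hZ hne
    by_cases hvZ : v ∈ Z
    · refine ⟨v, hvZ, fun w hw haw => ?_⟩
      have hwv : w ≠ v := fun h => hirr v (by rw [h] at haw; exact haw)
      have e1 := (Finset.mem_filter.1 (hZ hvZ)).2
      rw [Function.update_self] at e1
      have e2 := Finset.mem_filter.1 (hZ hw)
      rw [Function.update_of_ne hwv] at e2
      exact hk' w (Finset.mem_filter.2 ⟨e2.1, haw⟩) (by rw [e2.2, e1])
    · apply h2 i Z _ hne
      intro w hw
      have hwv : w ≠ v := fun h => hvZ (by rw [h] at hw; exact hw)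
      have e2 := Finset.mem_filter.1 (hZ hw)
      rw [Function.update_of_ne hwv] at e2
      exact Finset.mem_filter.2 ⟨Finset.mem_erase.2 ⟨hwv, e2.1⟩, e2.2⟩

theorem branch_in {a : V → V → Prop} (hirr : ∀ v, ¬ a v v) {W : Finset V} {d : ℕ}
    (h : ¬ Col a W d) {v : V} (hv : v ∈ W) (hmin : Col a (W.erase v) d) :
    d ≤ (W.filter (fun w => a w v)).card := by
  by_contra hlt
  push Not at hlt
  obtain ⟨c, h1, h2⟩ := hmin
  obtain ⟨k, hk, hk'⟩ := branch_fresh (c := c) hlt
  apply h
  refine ⟨Function.update c v k, ?_, ?_⟩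
  · intro w hw
    by_cases hwv : w = v
    · rw [hwv, Function.update_self]; exact hk
    · rw [Function.update_of_ne hwv]
      exact h1 w (Finset.mem_erase.2 ⟨hwv, hw⟩)
  · intro i Z hZ hne
    have key : ∀ Z' : Finset V, Z' ⊆ Z → v ∉ Z' →
        Z' ⊆ (W.erase v).filter (fun w => c w = i) := by
      intro Z' hZ' hv' w hw
      have hwv : w ≠ v := fun h => hv' (by rw [h] at hw; exact hw)
      have e2 := Finset.mem_filter.1 (hZ (hZ' hw))
      rw [Function.update_of_ne hwv] at e2
      exact Finset.mem_filter.2 ⟨Finset.mem_erase.2 ⟨hwv, e2.1⟩, e2.2⟩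
    by_cases hvZ : v ∈ Z
    · rcases (Z.erase v).eq_empty_or_nonempty with he | hne'
      · refine ⟨v, hvZ, fun w hw haw => ?_⟩
        by_cases hwv : w = v
        · exact hirr v (by rw [hwv] at haw; exact haw)
        · have : w ∈ Z.erase v := Finset.mem_erase.2 ⟨hwv, hw⟩
          rw [he] at this
          exact absurd this (Finset.notMem_empty w)
      · obtain ⟨u, hu, hu'⟩ := h2 i (Z.erase v) (key _ (Finset.erase_subset _ _)
          (Finset.notMem_erase _ _)) hne'
        refine ⟨u, Finset.mem_of_mem_erase hu, fun w hw haw => ?_⟩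
        by_cases hwv : w = v
        · subst hwv
          have e1 := (Finset.mem_filter.1 (hZ hvZ)).2
          rw [Function.update_self] at e1
          have huv : u ≠ w := Finset.ne_of_mem_erase hu
          have e2 := Finset.mem_filter.1 (hZ (Finset.mem_of_mem_erase hu))
          rw [Function.update_of_ne huv] at e2
          exact hk' u (Finset.mem_filter.2 ⟨e2.1, haw⟩) (by rw [e2.2, e1])
        · exact hu' w (Finset.mem_erase.2 ⟨hwv, hw⟩) haw
    · exact h2 i Z (key Z (Finset.Subset.refl _) hvZ) hne

/-- Branch vertices `x i` and, for every `e : Fin N`, an out-neighbour `o e` of `x (tl e)` and an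
in-neighbour `f e` of `x (hd e)`, all different.

Proof. Let `W2 ⊆ W` be a subset of least cardinality with `¬ Col a W2 d`. Every `v ∈ W2` has at
least `d` out-neighbours in `W2`: otherwise colour `W2.erase v` with `d` colours and give `v` a
colour which does not occur on its out-neighbours in `W2`; `v` is a sink of its class, so all
classes are acyclic (a nonempty subset of the class of `v` containing `v` has the sink `v`).
Similarly every `v ∈ W2` has at least `d` in-neighbours in `W2` (colour `v` differently from its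
in-neighbours: a subset `Z ∋ v` of its class is `{v}`, or `Z.erase v` has a sink, which is a sink of `Z`;
`a v v` is excluded by `hirr`). Moreover `W2.card > d` (`Col.card`), so there is an injective
`x : Fin n → V` with values in `W2`. By Hall's theorem
(`Finset.all_card_le_biUnion_card_iff_exists_injective`) for the index type `Fin N ⊕ Fin N` and the sets
`{v ∈ W2 | a (x (tl e)) v} \ image x` and `{v ∈ W2 | a v (x (hd e))} \ image x`, all of
cardinality `≥ d - n ≥ 2 * N`, there are different representatives outside the image of `x`. -/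
theorem branch {a : V → V → Prop} (hirr : ∀ v, ¬ a v v) {W : Finset V} {n N d : ℕ}
    (h : ¬ Col a W d) (hd : n + 2 * N ≤ d) (tl hd' : Fin N → Fin n) :
    ∃ (x : Fin n → V) (o f : Fin N → V), Function.Injective x ∧ Function.Injective o ∧
      Function.Injective f ∧ (∀ i e, x i ≠ o e) ∧ (∀ i e, x i ≠ f e) ∧ (∀ e e', o e ≠ f e') ∧
      (∀ i, x i ∈ W) ∧ (∀ e, o e ∈ W ∧ a (x (tl e)) (o e)) ∧
      ∀ e, f e ∈ W ∧ a (f e) (x (hd' e)) := by
  have hne : (W.powerset.filter (fun X => ¬ Col a X d)).Nonempty :=
    ⟨W, Finset.mem_filter.2 ⟨Finset.mem_powerset_self W, h⟩⟩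
  obtain ⟨W2, hW2, hmin⟩ := Finset.exists_min_image _ Finset.card hne
  rw [Finset.mem_filter, Finset.mem_powerset] at hW2
  obtain ⟨hsub, hcol⟩ := hW2
  have hm : ∀ v ∈ W2, Col a (W2.erase v) d := by
    intro v hv
    by_contra hc
    have h1 := hmin (W2.erase v) (Finset.mem_filter.2 ⟨Finset.mem_powerset.2
      ((Finset.erase_subset _ _).trans hsub), hc⟩)
    have h2 := Finset.card_erase_lt_of_mem hv
    omega
  have hout : ∀ v ∈ W2, d ≤ (W2.filter (fun w => a v w)).card := fun v hv =>
    branch_out hirr hcol hv (hm v hv)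
  have hin : ∀ v ∈ W2, d ≤ (W2.filter (fun w => a w v)).card := fun v hv =>
    branch_in hirr hcol hv (hm v hv)
  have hcard : d < W2.card := by
    by_contra hc
    push Not at hc
    exact hcol ((Col.card hirr W2).mono (Finset.Subset.refl _) hc)
  obtain ⟨T, hT, hTc⟩ := Finset.exists_subset_card_eq (s := W2) (n := n) (by omega)
  let x : Fin n → V := fun i => ((T.equivFin.symm (Fin.cast hTc.symm i) : T) : V)
  have hxinj : Function.Injective x := by
    intro i j hij
    have h1 := Subtype.ext hij
    have h2 := T.equivFin.symm.injective h1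
    exact Fin.cast_injective _ h2
  have hxW : ∀ i, x i ∈ W2 := fun i => hT (T.equivFin.symm (Fin.cast hTc.symm i)).2
  let I : Finset V := Finset.univ.image x
  have hI : I.card ≤ n := by
    refine Finset.card_image_le.trans ?_
    simp
  let A : Fin N ⊕ Fin N → Finset V := Sum.elim
    (fun e => W2.filter (fun w => a (x (tl e)) w) \ I)
    (fun e => W2.filter (fun w => a w (x (hd' e))) \ I)
  have hA : ∀ s, 2 * N ≤ (A s).card := by
    rintro (e | e)
    · have h1 := hout (x (tl e)) (hxW _)
      have h2 := Finset.le_card_sdiff I (W2.filter (fun w => a (x (tl e)) w))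
      show 2 * N ≤ (W2.filter (fun w => a (x (tl e)) w) \ I).card
      omega
    · have h1 := hin (x (hd' e)) (hxW _)
      have h2 := Finset.le_card_sdiff I (W2.filter (fun w => a w (x (hd' e))))
      show 2 * N ≤ (W2.filter (fun w => a w (x (hd' e))) \ I).card
      omega
  have hall : ∀ s : Finset (Fin N ⊕ Fin N), s.card ≤ (s.biUnion A).card := by
    intro s
    rcases s.eq_empty_or_nonempty with rfl | ⟨i, hi⟩
    · simp
    · have h1 : s.card ≤ 2 * N := by
        refine (Finset.card_le_univ s).trans ?_
        simp [two_mul]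
      have h2 : (A i).card ≤ (s.biUnion A).card :=
        Finset.card_le_card (Finset.subset_biUnion_of_mem A hi)
      exact h1.trans ((hA i).trans h2)
  obtain ⟨g, hg, hgA⟩ := (Finset.all_card_le_biUnion_card_iff_exists_injective A).1 hall
  have ho : ∀ e, g (Sum.inl e) ∈ W2.filter (fun w => a (x (tl e)) w) \ I := fun e =>
    hgA (Sum.inl e)
  have hf : ∀ e, g (Sum.inr e) ∈ W2.filter (fun w => a w (x (hd' e))) \ I := fun e =>
    hgA (Sum.inr e)
  have hxI : ∀ i, x i ∈ I := fun i => Finset.mem_image_of_mem x (Finset.mem_univ i)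
  refine ⟨x, fun e => g (Sum.inl e), fun e => g (Sum.inr e), hxinj, ?_, ?_, ?_, ?_, ?_, ?_, ?_, ?_⟩
  · intro e e' he
    exact Sum.inl_injective (hg he)
  · intro e e' he
    exact Sum.inr_injective (hg he)
  · intro i e he
    have he' : x i = g (Sum.inl e) := he
    exact (Finset.mem_sdiff.1 (ho e)).2 (he' ▸ hxI i)
  · intro i e he
    have he' : x i = g (Sum.inr e) := he
    exact (Finset.mem_sdiff.1 (hf e)).2 (he' ▸ hxI i)
  · intro e e' he
    have := hg he
    simp at this
  · exact fun i => hsub (hxW i)
  · intro e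
    have h1 := Finset.mem_filter.1 (Finset.mem_sdiff.1 (ho e)).1
    exact ⟨hsub h1.1, h1.2⟩
  · intro e
    have h1 := Finset.mem_filter.1 (Finset.mem_sdiff.1 (hf e)).1
    exact ⟨hsub h1.1, h1.2⟩

end Pool.Agent.MDP
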