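import Pool.Agent.MDP.Adj2

/-! Unions of connected families of bags. -/

open Classical

namespace Pool.Agent.MDP

open Pool.Agent.Mader

universe u

variable {V : Type u}

/-- The union of a connected family of strongly connected bags is strongly connected.

Proof. As `Mader.lift_conn`. Let `Z` be a nonempty proper subset of the union. If some bag `b ∈ C` is cut by
`Z` (neither inside nor disjoint) use `Conn a b` for `Z ∩ b`. Otherwise the family
`{b ∈ C | b ⊆ Z}` is a nonempty proper subfamily of `C`, and `Conn (Adj2 a) C` gives a bag `b ⊆ Z` and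
a bag `b'` disjoint from `Z` with `Adj2 a b b'`, so an arc from `b` to `b'`. -/
theorem conn_union {a : V → V → Prop} {C : Finset (Finset V)} (hC : Conn (Adj2 a) C)
    (hb : ∀ b ∈ C, Conn a b) : Conn a (C.biUnion id) := by
  refine ⟨?_, ?_⟩
  · obtain ⟨x, hx⟩ := hC.1
    obtain ⟨z, hz⟩ := (hb x hx).1
    exact ⟨z, Finset.mem_biUnion.mpr ⟨x, hx, hz⟩⟩
  · intro Z hZ hne hneq
    by_contra hcon
    push Not at hcon
    have hsub : ∀ x ∈ C, x ⊆ C.biUnion id := fun x hx =>
      Finset.subset_biUnion_of_mem (u := id) hx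
    have hcl : ∀ x ∈ C, (Z ∩ x).Nonempty → x ⊆ Z := by
      intro x hx hn
      have : Z ∩ x = x := by
        apply Conn.eq_of_closed (hb x hx) Finset.inter_subset_right hn
        intro u hu v hv huv
        rw [Finset.mem_inter] at hu ⊢
        refine ⟨?_, hv⟩
        by_contra hvZ
        exact hcon u hu.1 v (hsub x hx hv) hvZ huv
      rw [← this]; exact Finset.inter_subset_left
    have hall : C.filter (fun x => x ⊆ Z) = C := by
      apply Conn.eq_of_closed hC (Finset.filter_subset _ _)
      · obtain ⟨z, hz⟩ := hne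
        obtain ⟨x, hx, hzx⟩ := Finset.mem_biUnion.mp (hZ hz)
        exact ⟨x, Finset.mem_filter.mpr ⟨hx, hcl x hx ⟨z, Finset.mem_inter.mpr ⟨hz, hzx⟩⟩⟩⟩
      · intro x hx y hy hxy
        rw [Finset.mem_filter] at hx ⊢
        refine ⟨hy, ?_⟩
        obtain ⟨u, hu, v, hv, huv⟩ := hxy.2.1
        apply hcl y hy
        refine ⟨v, Finset.mem_inter.mpr ⟨?_, hv⟩⟩
        by_contra hvZ
        exact hcon u (hx.2 hu) v (hsub y hy hv) hvZ huv
    apply hneq
    apply Finset.Subset.antisymm hZ
    intro z hz
    obtain ⟨x, hx, hzx⟩ := Finset.mem_biUnion.mp hz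
    rw [← hall, Finset.mem_filter] at hx
    exact hx.2 hzx

end Pool.Agent.MDP
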