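import Mathlib

/-! Extraction of paths. -/

open Classical

namespace Pool.Agent.MDP

universe u

/-- Two chains of an injective partial map which end in the same point and start in points
without predecessor start in the same point. -/
private theorem extract_disj {A : Type u} {B : Type*} (g : A → A ⊕ B)
    (hg : Function.Injective g) {x x' z : A} (hx : ∀ y, g y ≠ Sum.inl x)
    (hx' : ∀ y, g y ≠ Sum.inl x')
    (h : Relation.ReflTransGen (fun y z => g y = Sum.inl z) x z)
    (h' : Relation.ReflTransGen (fun y z => g y = Sum.inl z) x' z) : x = x' := by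
  induction h with
  | refl =>
    cases h' with
    | refl => rfl
    | tail _ hs => exact absurd hs (hx _)
  | tail h1 hs ih =>
    cases h' with
    | refl => exact absurd hs (hx' _)
    | tail h2 hs' =>
      have e := hg (hs.trans hs'.symm)
      subst e
      exact ih h2

/-- Extraction. `g` is an injective map `A → A ⊕ B` (`A` finite) and `T` consists of elements of `A` which are
not in the image. Following `g` from `x ∈ T` one reaches `B`; the orbits `O x`, `x ∈ T`, are
disjoint, and the points of `B` reached are different.

Proof. Let `r x y` be `g x = inl y` and `O x = {y | ReflTransGen r x y}`. Suppose `g y` is of the form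
`inl _` for all `y ∈ O x`. Then `g` induces an injective map `O x → O x`, which is surjective since `O x`
is finite, so `x` (an element of `O x`) is in the image of `g`, contradiction. So there is `y ∈ O x` with
`g y = inr b`: choose such `y = l x`, `b = β x`. (It is unique: `r` is a partial function.) Disjointness: if
`ReflTransGen r x z` and `ReflTransGen r x' z`, `x, x' ∈ T`, then `x = x'`: since `g` is injective,
`r` is injective, so by induction on the first chain from the end: either both chains are trivial
(`x = z = x'`), or one of them is trivial, say `x = z`, and the other ends with `g y = inl z = inl x`,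
contradiction to `x ∈ T`; or both end with the same last step. `β` is injective: `β x = β x'` gives
`l x = l x'` (injectivity of `g`), in both orbits, so `x = x'`.

The hypothesis `hne` gives a value of `β` outside of `T` (`B` may be empty if `T` is). -/
theorem extract {A : Type u} {B : Type*} [Fintype A] (g : A → A ⊕ B)
    (hg : Function.Injective g) (T : Set A) (hT : ∀ x ∈ T, ∀ y, g y ≠ Sum.inl x)
    (hne : T.Nonempty) :
    ∃ (l : A → A) (β : A → B), (∀ x ∈ T, Relation.ReflTransGen (fun y z => g y = Sum.inl z) x (l x) ∧
        g (l x) = Sum.inr (β x)) ∧ Set.InjOn β T ∧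
      ∀ x ∈ T, ∀ x' ∈ T, ∀ z, Relation.ReflTransGen (fun y z => g y = Sum.inl z) x z →
        Relation.ReflTransGen (fun y z => g y = Sum.inl z) x' z → x = x' := by
  have hex : ∀ x ∈ T, ∃ y b, Relation.ReflTransGen (fun y z => g y = Sum.inl z) x y ∧
      g y = Sum.inr b := by
    intro x hx
    by_contra hno
    have hstep : ∀ y : {y // Relation.ReflTransGen (fun y z => g y = Sum.inl z) x y},
        ∃ z : {y // Relation.ReflTransGen (fun y z => g y = Sum.inl z) x y},
          g y.1 = Sum.inl z.1 := by
      rintro ⟨y, hy⟩
      rcases hgy : g y with z | b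
      · exact ⟨⟨z, hy.tail hgy⟩, rfl⟩
      · exact absurd ⟨y, b, hy, hgy⟩ hno
    choose φ hφ using hstep
    have hinj : Function.Injective φ := by
      intro y y' e
      apply Subtype.ext
      apply hg
      rw [hφ, hφ, e]
    obtain ⟨y, hy⟩ := (Finite.injective_iff_surjective.1 hinj) ⟨x, Relation.ReflTransGen.refl⟩
    exact hT x hx y.1 (by rw [hφ, hy])
  obtain ⟨x0, hx0⟩ := hne
  obtain ⟨y0, b0, -, -⟩ := hex x0 hx0
  have hex' : ∀ x, ∃ y b, x ∈ T → Relation.ReflTransGen (fun y z => g y = Sum.inl z) x y ∧
      g y = Sum.inr b := by
    intro x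
    by_cases hx : x ∈ T
    · obtain ⟨y, b, h⟩ := hex x hx
      exact ⟨y, b, fun _ => h⟩
    · exact ⟨y0, b0, fun h => absurd h hx⟩
  choose l β hlβ using hex'
  refine ⟨l, β, hlβ, ?_, ?_⟩
  · intro x hx x' hx' e
    obtain ⟨h1, h2⟩ := hlβ x hx
    obtain ⟨h1', h2'⟩ := hlβ x' hx'
    have e' : β x = β x' := e
    have e2 : l x = l x' := hg (by rw [h2, h2', e'])
    rw [← e2] at h1'
    exact extract_disj g hg (hT x hx) (hT x' hx') h1 h1'
  · intro x hx x' hx' z h h'
    exact extract_disj g hg (hT x hx) (hT x' hx') h h'

end Pool.Agent.MDP
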