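import Pool.Agent.Mader.Model

/-! A robustly linked subgraph. -/

open Classical

namespace Pool.Agent.MDP

open Pool.Agent.Mader

universe u

/-- A robustly linked subgraph.

Proof. `e2 r S ≥ ∑ v ∈ S, deg r S v ≥ 2 * (70 * M + 1) * S.card`. Apply `mader_sub` with `k = 2 * M`,
`g = 70 * M + 1` to get `T`. Let `F, X ⊆ T` be disjoint, `F.card + X.card ≤ 2 * M`. As in the proof of
`Mader.model` (there `F` is the set `Vs`), `Massed (2 * M) r (T \ F) X` holds: `m1` by counting
(`e2 r T ≤ E r (T \ F) ((T \ F) \ X) + X.card ^ 2 + 2 * F.card * T.card`), `m2`: for a separation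
`(A, B)` of `T \ F` of order `< X.card` the separation `(A ∪ F, B ∪ F)` of `T` has order
`≤ 2 * M`, so it is trivial, and `B \ A = ∅` or `X ⊆ A ∩ B`. Then `Massed.linked`. -/
theorem robust {W : Type u} {r : W → W → Prop} (hs : ∀ u v, r u v → r v u) (hirr : ∀ u, ¬ r u u)
    {S : Finset W} (hne : S.Nonempty) {M : ℕ} (hM : 1 ≤ M)
    (hdeg : ∀ v ∈ S, 2 * (70 * M + 1) ≤ deg r S v) :
    ∃ T ⊆ S, T.Nonempty ∧ (∀ v ∈ T, 70 * M + 1 < deg r T v) ∧
      ∀ F X : Finset W, F ⊆ T → X ⊆ T → Disjoint F X → F.card + X.card ≤ 2 * M →
        Linked r (T \ F) X := by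
  have hE : 2 * (70 * M + 1) * S.card ≤ e2 r S := by
    have h1 : e2 r S = ∑ v ∈ S, deg r S v := by
      unfold e2 deg
      rw [Finset.card_filter, Finset.sum_product]
      refine Finset.sum_congr rfl fun v _ => ?_
      rw [Finset.card_filter]
    rw [h1, Nat.mul_comm, ← smul_eq_mul]
    exact Finset.card_nsmul_le_sum S _ _ hdeg
  obtain ⟨T, hTS, hTne, hTsep, hTdeg, hTe⟩ := mader_sub (k := 2 * M) (g := 70 * M + 1)
    (by omega) (by omega) hs hne hE
  refine ⟨T, hTS, hTne, hTdeg, ?_⟩
  intro F X hFT hXT hFX hcard
  set S' := T \ F with hS'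
  have hXS' : X ⊆ S' := by
    intro z hz
    rw [hS', Finset.mem_sdiff]
    exact ⟨hXT hz, fun h => Finset.disjoint_left.mp hFX h hz⟩
  have hM' : Massed (2 * M) r S' X := by
    refine ⟨hXS', by omega, ?_, ?_⟩
    · have h1 : e2 r T ≤ E r S' (S' \ X) + (X.card * X.card + (F.card * T.card +
          T.card * F.card)) := by
        unfold e2 E
        have hsub : ((T ×ˢ T).filter (fun p => r p.1 p.2)) ⊆
            ((S' ×ˢ S').filter (fun p => r p.1 p.2 ∧ (p.1 ∈ S' \ X ∨ p.2 ∈ S' \ X))) ∪
            (X ×ˢ X ∪ (F ×ˢ T ∪ T ×ˢ F)) := by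
          rintro ⟨a, b⟩ hp
          rw [Finset.mem_filter, Finset.mem_product] at hp
          obtain ⟨⟨ha, hb⟩, hab⟩ := hp
          simp only at ha hb hab
          simp only [Finset.mem_union, Finset.mem_product, Finset.mem_filter]
          by_cases haV : a ∈ F
          · right; right; left; exact ⟨haV, hb⟩
          · by_cases hbV : b ∈ F
            · right; right; right; exact ⟨ha, hbV⟩
            · have ha' : a ∈ S' := Finset.mem_sdiff.mpr ⟨ha, haV⟩
              have hb' : b ∈ S' := Finset.mem_sdiff.mpr ⟨hb, hbV⟩
              by_cases haX : a ∈ X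
              · by_cases hbX : b ∈ X
                · right; left; exact ⟨haX, hbX⟩
                · left
                  exact ⟨⟨ha', hb'⟩, hab, Or.inr (Finset.mem_sdiff.mpr ⟨hb', hbX⟩)⟩
              · left
                exact ⟨⟨ha', hb'⟩, hab, Or.inl (Finset.mem_sdiff.mpr ⟨ha', haX⟩)⟩
        refine (Finset.card_le_card hsub).trans ?_
        refine (Finset.card_union_le _ _).trans ?_
        apply Nat.add_le_add_left
        refine (Finset.card_union_le _ _).trans ?_
        rw [Finset.card_product]
        apply Nat.add_le_add_left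
        refine (Finset.card_union_le _ _).trans ?_
        rw [Finset.card_product, Finset.card_product]
      have hT1 : 1 ≤ T.card := Finset.card_pos.mpr hTne
      have hXle : X.card ≤ T.card := Finset.card_le_card hXT
      have h2 : X.card * X.card ≤ X.card * T.card := Nat.mul_le_mul_left _ hXle
      have h3 : (F.card + X.card) * T.card ≤ 2 * M * T.card := Nat.mul_le_mul_right _ hcard
      have h3' : (F.card + X.card) * T.card = F.card * T.card + X.card * T.card := by ring
      have h4 : T.card * F.card = F.card * T.card := Nat.mul_comm _ _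
      have h5 : (S' \ X).card ≤ T.card :=
        Finset.card_le_card (Finset.sdiff_subset.trans Finset.sdiff_subset)
      have h6 : 64 * (2 * M) * (S' \ X).card ≤ 64 * (2 * M) * T.card := Nat.mul_le_mul_left _ h5
      have h7 : 2 * (70 * M + 1) * T.card = 140 * (M * T.card) + 2 * T.card := by ring
      have h8 : 64 * (2 * M) * T.card = 128 * (M * T.card) := by ring
      have h9 : 2 * (2 * M) * T.card = 4 * (M * T.card) := by ring
      have h10 : 2 * M * T.card = 2 * (M * T.card) := by ring
      rw [h7, h9] at hTe
      rw [h3', h10] at h3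
      rw [h8] at h6
      rw [h4] at h1
      omega
    · intro A B hsep hXA hlt
      have hdisj : ∀ z ∈ S', z ∉ F := fun z hz => (Finset.mem_sdiff.mp hz).2
      have hS2 : Sep r T (A ∪ F) (B ∪ F) := by
        refine ⟨?_, ?_⟩
        · have : A ∪ F ∪ (B ∪ F) = (A ∪ B) ∪ F := by
            ext z; simp only [Finset.mem_union]; tauto
          rw [this, hsep.1, hS', Finset.sdiff_union_of_subset hFT]
        · intro a ha haB b hb hbA hab
          rcases Finset.mem_union.mp ha with h1 | h1
          · rcases Finset.mem_union.mp hb with h2 | h2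
            · exact hsep.2 a h1 (fun h => haB (Finset.mem_union_left _ h)) b h2
                (fun h => hbA (Finset.mem_union_left _ h)) hab
            · exact hbA (Finset.mem_union_right _ h2)
          · exact haB (Finset.mem_union_right _ h1)
      have hint : (A ∪ F) ∩ (B ∪ F) = (A ∩ B) ∪ F := by
        ext z; simp only [Finset.mem_inter, Finset.mem_union]; tauto
      have hc : ((A ∪ F) ∩ (B ∪ F)).card ≤ 2 * M := by
        rw [hint]
        have := Finset.card_union_le (A ∩ B) F
        omega
      rcases hTsep _ _ hS2 hc with h | h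
      · have : B \ A = ∅ := by
          rw [Finset.sdiff_eq_empty_iff_subset]
          intro z hz
          have hzS' := hsep.right hz
          have hzT : z ∈ A ∪ F := by
            rw [h]; exact (Finset.mem_sdiff.mp hzS').1
          rcases Finset.mem_union.mp hzT with g | g
          · exact g
          · exact absurd g (hdisj z hzS')
        rw [this, E_empty]
        exact Nat.zero_le _
      · exfalso
        have : A ⊆ B := by
          intro z hz
          have hzS' := hsep.left hz
          have hzT : z ∈ B ∪ F := by
            rw [h]; exact (Finset.mem_sdiff.mp hzS').1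
          rcases Finset.mem_union.mp hzT with g | g
          · exact g
          · exact absurd g (hdisj z hzS')
        have := Finset.card_le_card (Finset.subset_inter hXA (hXA.trans this))
        omega
  exact hM'.linked (by omega) hs hirr

end Pool.Agent.MDP
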