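import Mathlib

/-! Birkhoff's theorem in the form used: a nonnegative matrix with all row and column sums `m`
has a permutation in its support whose cost is at most the average. -/

open Classical

namespace Pool.Agent.MDP

universe u

/-- Proof. `M / m` is doubly stochastic, so by Birkhoff's theorem
(`exists_eq_sum_perm_of_mem_doublyStochastic` in Mathlib) `M / m = ∑ σ, w σ • permMatrix σ` with `w ≥ 0`,
`∑ w = 1`. (Be careful with the convention of `permMatrix`: `σ.permMatrix R i j = 1` iff `σ i = j`.)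
For each `σ` with `w σ > 0` all entries `M x (σ x)` are positive. Moreover
`∑ x, ∑ y, M x y / m * c x y = ∑ σ, w σ * ∑ x, c x (σ x)`; so some `σ` with `w σ > 0` has
`∑ x, c x (σ x) ≤ ∑ x, ∑ y, M x y / m * c x y`. -/
theorem birkhoff_cost {α : Type u} [Fintype α] (M : α → α → ℝ) (m : ℝ) (hm : 0 < m)
    (h0 : ∀ x y, 0 ≤ M x y) (hr : ∀ x, ∑ y, M x y = m) (hc : ∀ y, ∑ x, M x y = m)
    (c : α → α → ℝ) :
    ∃ σ : Equiv.Perm α, (∀ x, 0 < M x (σ x)) ∧
      m * ∑ x, c x (σ x) ≤ ∑ x, ∑ y, M x y * c x y := by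
  let N : Matrix α α ℝ := fun x y => M x y / m
  have hN : N ∈ doublyStochastic ℝ α := by
    rw [mem_doublyStochastic_iff_sum]
    refine ⟨fun x y => div_nonneg (h0 x y) hm.le, ?_, ?_⟩
    · intro x
      show ∑ y, M x y / m = 1
      rw [← Finset.sum_div, hr, div_self hm.ne']
    · intro y
      show ∑ x, M x y / m = 1
      rw [← Finset.sum_div, hc, div_self hm.ne']
  obtain ⟨w, hw0, hw1, hwN⟩ := exists_eq_sum_perm_of_mem_doublyStochastic hN
  have hentry : ∀ x y, M x y = m * ∑ π : Equiv.Perm α, w π * (if π x = y then 1 else 0) := by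
    intro x y
    have h1 : N x y = ∑ π : Equiv.Perm α, w π * (if π x = y then 1 else 0) := by
      rw [← hwN, Matrix.sum_apply]
      refine Finset.sum_congr rfl fun π _ => ?_
      rw [Matrix.smul_apply, smul_eq_mul]
      congr 1
      simp [Equiv.Perm.permMatrix, PEquiv.toMatrix_apply, Equiv.toPEquiv_apply]
    rw [← h1]
    show M x y = m * (M x y / m)
    field_simp
  have htotal : ∑ x, ∑ y, M x y * c x y = ∑ π : Equiv.Perm α, w π * (m * ∑ x, c x (π x)) := by
    have h2 : ∀ x, ∑ y, M x y * c x y = ∑ π : Equiv.Perm α, w π * (m * c x (π x)) := by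
      intro x
      have h3 : ∀ y, M x y * c x y
          = ∑ π : Equiv.Perm α, (if π x = y then w π * (m * c x y) else 0) := by
        intro y
        rw [hentry, mul_assoc, Finset.sum_mul, Finset.mul_sum]
        refine Finset.sum_congr rfl fun π _ => ?_
        split_ifs <;> ring
      rw [Finset.sum_congr rfl fun y _ => h3 y, Finset.sum_comm]
      refine Finset.sum_congr rfl fun π _ => ?_
      rw [Finset.sum_ite_eq Finset.univ (π x)]
      simp
    rw [Finset.sum_congr rfl fun x _ => h2 x, Finset.sum_comm]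
    refine Finset.sum_congr rfl fun π _ => ?_
    rw [Finset.mul_sum, Finset.mul_sum]
  obtain ⟨π, hπ1, hπ2⟩ : ∃ π : Equiv.Perm α, 0 < w π ∧
      m * ∑ x, c x (π x) ≤ ∑ x, ∑ y, M x y * c x y := by
    by_contra hcon
    push Not at hcon
    have h1 : ∀ π : Equiv.Perm α,
        w π * (∑ x, ∑ y, M x y * c x y) ≤ w π * (m * ∑ x, c x (π x)) := by
      intro π
      rcases (hw0 π).eq_or_lt with h | h
      · rw [← h]; simp
      · exact mul_le_mul_of_nonneg_left (hcon π h).le (hw0 π)
    obtain ⟨π₀, -, hπ₀⟩ : ∃ π ∈ (Finset.univ : Finset (Equiv.Perm α)), 0 < w π := by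
      apply Finset.exists_lt_of_sum_lt
      rw [hw1]; simp
    have h2 : ∑ π : Equiv.Perm α, w π * (∑ x, ∑ y, M x y * c x y)
        < ∑ π : Equiv.Perm α, w π * (m * ∑ x, c x (π x)) :=
      Finset.sum_lt_sum (fun π _ => h1 π)
        ⟨π₀, Finset.mem_univ _, mul_lt_mul_of_pos_left (hcon π₀ hπ₀) hπ₀⟩
    rw [← Finset.sum_mul, hw1, one_mul, ← htotal] at h2
    exact lt_irrefl _ h2
  refine ⟨π, fun x => ?_, hπ2⟩
  rw [hentry]
  refine mul_pos hm (Finset.sum_pos' (fun π' _ => mul_nonneg (hw0 π') (by split_ifs <;> simp)) ?_)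
  exact ⟨π, Finset.mem_univ _, by simpa using hπ1⟩

/-- A self-map of a nonempty finite type is injective on some nonempty invariant set.

Proof. For instance `O` = the set of periodic points, or the set `O` of least cardinality
among the nonempty finsets with `O.image φ = O` (the image of a decreasing chain). -/
theorem exists_cycle {ι : Type u} [Fintype ι] [Nonempty ι] (φ : ι → ι) :
    ∃ O : Finset ι, O.Nonempty ∧ (∀ i ∈ O, φ i ∈ O) ∧ Set.InjOn φ O := by
  let S : Finset (Finset ι) := Finset.univ.filter fun O => O.Nonempty ∧ ∀ i ∈ O, φ i ∈ O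
  have hS : S.Nonempty :=
    ⟨Finset.univ, Finset.mem_filter.2 ⟨Finset.mem_univ _, Finset.univ_nonempty,
      fun i _ => Finset.mem_univ _⟩⟩
  obtain ⟨O, hO, hmin⟩ := Finset.exists_min_image S Finset.card hS
  obtain ⟨hO1, hO2⟩ := (Finset.mem_filter.1 hO).2
  refine ⟨O, hO1, hO2, ?_⟩
  have hsub : O.image φ ⊆ O := by
    intro j hj
    obtain ⟨i, hi, rfl⟩ := Finset.mem_image.1 hj
    exact hO2 i hi
  have hmem : O.image φ ∈ S := by
    refine Finset.mem_filter.2 ⟨Finset.mem_univ _, hO1.image φ, fun i hi => ?_⟩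
    exact Finset.mem_image_of_mem φ (hsub hi)
  exact Finset.card_image_iff.1 (le_antisymm Finset.card_image_le (hmin _ hmem))

end Pool.Agent.MDP
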