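import Pool.Agent.MDP.Perm
import Pool.Agent.MDP.Birk

/-! Exchange along a cycle. -/

open Classical

namespace Pool.Agent.MDP

universe u

variable {U : Type u} [Fintype U] {P : ℕ}

/-- Indicator of equality. -/
private noncomputable def ind {α : Type u} (p a : α) : ℝ := if p = a then 1 else 0

private theorem rs {α : Type u} [Fintype α] (a b p : α) :
    ∑ q, (if p = a ∧ q = b then (1 : ℝ) else 0) = if p = a then 1 else 0 := by
  by_cases h : p = a <;> simp [h]

private theorem cs {α : Type u} [Fintype α] (a b q : α) :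
    ∑ p, (if p = a ∧ q = b then (1 : ℝ) else 0) = if q = b then 1 else 0 := by
  by_cases h : q = b <;> simp [h]

private theorem ts {α : Type u} [Fintype α] (a b : α) (c : α → α → ℝ) :
    ∑ p, ∑ q, (if p = a ∧ q = b then (1 : ℝ) else 0) * c p q = c a b := by
  rw [Finset.sum_eq_single a, Finset.sum_eq_single b]
  · simp
  · intro q _ hq
    simp [hq]
  · simp
  · intro p _ hp
    simp [hp]
  · simp

private theorem rs' {α : Type u} [Fintype α] (σ : Equiv.Perm α) (p : α) :
    ∑ q, (if σ p = q then (1 : ℝ) else 0) = 1 := by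
  simp

private theorem cs' {α : Type u} [Fintype α] (σ : Equiv.Perm α) (q : α) :
    ∑ p, (if σ p = q then (1 : ℝ) else 0) = 1 := by
  rw [Finset.sum_eq_single (σ.symm q)]
  · simp
  · intro p _ hp
    rw [if_neg]
    rintro rfl
    exact hp (by simp)
  · simp

private theorem ts' {α : Type u} [Fintype α] (σ : Equiv.Perm α) (c : α → α → ℝ) :
    ∑ p, ∑ q, (if σ p = q then (1 : ℝ) else 0) * c p q = ∑ p, c p (σ p) := by
  refine Finset.sum_congr rfl fun p _ => ?_
  rw [Finset.sum_eq_single (σ p)]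
  · simp
  · intro q _ hq
    rw [if_neg (Ne.symm hq), zero_mul]
  · simp

/-- The contribution of one index. -/
private noncomputable def tm {α : Type u} (σ : Equiv.Perm α) (x t v w : α) (p q : α) : ℝ :=
  (if σ p = q then 1 else 0) - (if p = x ∧ q = t then 1 else 0) - (if p = v ∧ q = v then 1 else 0) +
    (if p = x ∧ q = w then 1 else 0) + (if p = w ∧ q = t then 1 else 0)

private theorem tm_nonneg {α : Type u} (σ : Equiv.Perm α) (x t v w : α) (hx : σ x = t)
    (hv : σ v = v) (htv : t ≠ v) (p q : α) : 0 ≤ tm σ x t v w p q := by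
  have h1 : (0 : ℝ) ≤ (if σ p = q then 1 else 0) - (if p = x ∧ q = t then 1 else 0) -
      (if p = v ∧ q = v then 1 else 0) := by
    by_cases h2 : p = x ∧ q = t
    · have h3 : ¬ (p = v ∧ q = v) := fun h => htv (h2.2.symm.trans h.2)
      have h4 : σ p = q := by rw [h2.1, h2.2, hx]
      rw [if_pos h2, if_neg h3, if_pos h4]
      norm_num
    · rw [if_neg h2]
      by_cases h3 : p = v ∧ q = v
      · rw [if_pos h3, if_pos (by rw [h3.1, h3.2, hv])]
        norm_num
      · rw [if_neg h3, sub_zero, sub_zero]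
        split_ifs <;> norm_num
  have h4 : (0 : ℝ) ≤ if p = x ∧ q = w then 1 else 0 := by split_ifs <;> norm_num
  have h5 : (0 : ℝ) ≤ if p = w ∧ q = t then 1 else 0 := by split_ifs <;> norm_num
  unfold tm
  linarith

private theorem tm_pos {α : Type u} (σ : Equiv.Perm α) (x t v w : α) (hx : σ x = t) (p q : α)
    (h : 0 < tm σ x t v w p q) :
    (σ p = q ∧ q ≠ t) ∨ (p = x ∧ q = w) ∨ (p = w ∧ q = t) := by
  by_contra hcon
  rw [not_or, not_or] at hcon
  unfold tm at h
  rw [if_neg hcon.2.1, if_neg hcon.2.2] at h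
  have h3 : (0 : ℝ) ≤ if p = v ∧ q = v then 1 else 0 := by split_ifs <;> norm_num
  have h2 : (if σ p = q then (1 : ℝ) else 0) ≤ if p = x ∧ q = t then 1 else 0 := by
    by_cases h4 : σ p = q
    · have h5 : q = t := by
        by_contra h5
        exact hcon.1 ⟨h4, h5⟩
      have h6 : p = x := σ.injective (by rw [h4, h5, hx])
      rw [if_pos h4, if_pos ⟨h6, h5⟩]
    · rw [if_neg h4]
      split_ifs <;> norm_num
  linarith

private theorem tm_row {α : Type u} [Fintype α] (σ : Equiv.Perm α) (x t v w : α) (p : α) :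
    ∑ q, tm σ x t v w p q = 1 - ind p v + ind p w := by
  unfold tm ind
  rw [Finset.sum_add_distrib, Finset.sum_add_distrib, Finset.sum_sub_distrib,
    Finset.sum_sub_distrib, rs', rs, rs, rs, rs]
  ring

private theorem tm_col {α : Type u} [Fintype α] (σ : Equiv.Perm α) (x t v w : α) (q : α) :
    ∑ p, tm σ x t v w p q = 1 - ind q v + ind q w := by
  unfold tm ind
  rw [Finset.sum_add_distrib, Finset.sum_add_distrib, Finset.sum_sub_distrib,
    Finset.sum_sub_distrib, cs', cs, cs, cs, cs]
  ring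

private theorem tm_cost {α : Type u} [Fintype α] (σ : Equiv.Perm α) (x t v w : α)
    (c : α → α → ℝ) :
    ∑ p, ∑ q, tm σ x t v w p q * c p q =
      ∑ p, c p (σ p) - c x t - c v v + c x w + c w t := by
  unfold tm
  simp only [add_mul, sub_mul, Finset.sum_add_distrib, Finset.sum_sub_distrib]
  rw [ts', ts, ts, ts, ts]

private theorem sum_perm {ι : Type} (O : Finset ι) (φ : ι → ι) (h1 : ∀ i ∈ O, φ i ∈ O)
    (h2 : Set.InjOn φ O) (f : ι → ℝ) : ∑ i ∈ O, f (φ i) = ∑ i ∈ O, f i := by
  have h3 : O.image φ = O := by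
    apply Finset.eq_of_subset_of_card_le
    · intro i hi
      rw [Finset.mem_image] at hi
      obtain ⟨i', h4, rfl⟩ := hi
      exact h1 i' h4
    · rw [Finset.card_image_of_injOn h2]
  conv_rhs => rw [← h3]
  rw [Finset.sum_image h2]

/-- Second part: the exchange along a cycle.

Proof. Take `O` from `exists_cycle φ`, so `φ` restricts to a bijection of `O`. Let
`x i = (σ i)⁻¹ (inr (j i))`, so `a (x i) (inl (u i))` by `Ok` (the label at `j i` is `(u i, k i)`), in
particular `x i ≠ inl (u i)`. Let `δ p q` be the matrix with a single entry `1` at `(p, q)`. Put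
`M = ∑ i ∈ O, (permMatrix (σ i) - δ (x i) (inr (j i)) - δ (inl (u (φ i))) (inl (u (φ i)))) +
     ∑ i ∈ O, (δ (x i) (inl (u i)) + δ (inl (u i)) (inr (j i)))`.
`M ≥ 0`: the permutation matrix of `σ i` has the entry `1` at `(x i, inr (j i))` and at
`(inl (u (φ i)), inl (u (φ i)))` (hypothesis `hidle`), two different positions. Row and column sums
of `M` are `#O` (use that `φ` permutes `O`, to replace
`∑ i ∈ O, δ (inl (u (φ i))) (inl (u (φ i)))` by `∑ i ∈ O, δ (inl (u i)) (inl (u i))`). Every positive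
entry of `M` is at an allowed pair for `tau y`: for the entries of `σ i` outside the column `inr (j i)` the
label is the same; `(x i, inl (u i))` is an arc; `(inl (u i), inr (j i))` is allowed since
`a (inl (u i)) (inl y)`. With `c = cst w Y (tau y)` the total cost is
`∑ x, ∑ y', M x y' * c x y' = ∑ i ∈ O, (cost (τ i) (σ i) - cst (τ i) (x i) (inr (j i)) +
c (x i) (inl (u i)) + c (inl (u i)) (inr (j i)))` (idle pairs cost `0`)
`< ∑ i ∈ O, (cost (τ i) (σ i) + 2 * Q)`, because `c (x i) (inl (u i)) ≤ Q + noise`,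
`c (inl (u i)) (inr (j i)) ≤ noise` and `2 * (all noise) < Q`. By `birkhoff_cost` there is
a permutation `ρ` in the support, so `Ok a (tau y) ρ`, with
`#O * cost (tau y) ρ ≤ ∑ ∑ M * c < ∑ i ∈ O, (cost (τ i) (σ i) + 2 * Q)
≤ #O * cost (tau y) ρ` by `hbad`: contradiction. -/
theorem exchange {w : Wt U P} {Y : Finset U} {a : U ⊕ Fin P → U ⊕ Fin P → Prop}
    (hirr : ∀ x, ¬ a x x) {y : U} (hP : 1 ≤ P) {u : Fin P → U} (hu : Function.Injective u)
    (hua : ∀ i, a (Sum.inl (u i)) (Sum.inl y)) (j k : Fin P → Fin P)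
    (σ : Fin P → Equiv.Perm (U ⊕ Fin P))
    (hσ : ∀ i, Ok a (Function.update (tau y) (j i) (u i, k i)) (σ i))
    (hbad : ∀ i ρ, Ok a (tau y) ρ →
      cost w Y (Function.update (tau y) (j i) (u i, k i)) (σ i) + 2 * w.Q <
        cost w Y (tau y) ρ)
    (φ : Fin P → Fin P)
    (hidle : ∀ i, (σ i) (Sum.inl (u (φ i))) = Sum.inl (u (φ i))) : False := by
  have : Nonempty (Fin P) := ⟨⟨0, hP⟩⟩
  obtain ⟨O, hO, hO1, hO2⟩ := exists_cycle φ
  have hOc : (0 : ℝ) < (O.card : ℝ) := by exact_mod_cast hO.card_pos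
  set x : Fin P → U ⊕ Fin P := fun i => (σ i).symm (Sum.inr (j i)) with hxdef
  have hx : ∀ i, σ i (x i) = Sum.inr (j i) := fun i => by simp [hxdef]
  have hxa : ∀ i, a (x i) (Sum.inl (u i)) := by
    intro i
    have h1 := hσ i (x i)
    rw [hx i] at h1
    change a (x i) (Sum.inl ((Function.update (tau y) (j i) (u i, k i)) (j i)).1) at h1
    rw [Function.update_self] at h1
    exact h1
  set M : U ⊕ Fin P → U ⊕ Fin P → ℝ := fun p q =>
    ∑ i ∈ O, tm (σ i) (x i) (Sum.inr (j i)) (Sum.inl (u (φ i))) (Sum.inl (u i)) p q with hM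
  set c : U ⊕ Fin P → U ⊕ Fin P → ℝ := fun p q => (cst w Y (tau y) p q : ℝ) with hc
  have hM0 : ∀ p q, 0 ≤ M p q := fun p q => Finset.sum_nonneg fun i _ =>
    tm_nonneg (σ i) (x i) _ _ _ (hx i) (hidle i) (by simp) p q
  have hrow : ∀ p, ∑ q, M p q = O.card := by
    intro p
    rw [hM, Finset.sum_comm]
    simp only [tm_row, Finset.sum_add_distrib, Finset.sum_sub_distrib, Finset.sum_const,
      nsmul_eq_mul, mul_one]
    rw [sum_perm O φ hO1 hO2 (fun i => ind p (Sum.inl (u i)))]
    ring
  have hcol : ∀ q, ∑ p, M p q = O.card := by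
    intro q
    rw [hM, Finset.sum_comm]
    simp only [tm_col, Finset.sum_add_distrib, Finset.sum_sub_distrib, Finset.sum_const,
      nsmul_eq_mul, mul_one]
    rw [sum_perm O φ hO1 hO2 (fun i => ind q (Sum.inl (u i)))]
    ring
  obtain ⟨ρ, hρ, hcost⟩ := birkhoff_cost M O.card hOc hM0 hrow hcol c
  have hok : Ok a (tau y) ρ := by
    intro p
    have h1 := hρ p
    obtain ⟨i, -, h2⟩ : ∃ i ∈ O, 0 < tm (σ i) (x i) (Sum.inr (j i)) (Sum.inl (u (φ i)))
        (Sum.inl (u i)) p (ρ p) := by
      by_contra hcon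
      push Not at hcon
      exact absurd h1 (not_lt.2 (Finset.sum_nonpos hcon))
    rcases tm_pos (σ i) (x i) _ _ _ (hx i) p (ρ p) h2 with ⟨h3, h4⟩ | ⟨h3, h4⟩ | ⟨h3, h4⟩
    · have h5 := hσ i p
      rw [h3] at h5
      rcases h6 : ρ p with v | k'
      · rw [h6] at h5
        exact h5
      · rw [h6] at h5 h4
        change a p (Sum.inl ((Function.update (tau y) (j i) (u i, k i)) k').1) at h5
        rw [Function.update_of_ne (fun h => h4 (by rw [h]))] at h5
        exact h5
    · rw [h4, h3]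
      exact Or.inr (hxa i)
    · rw [h4, h3]
      exact hua i
  have htot : ∑ p, ∑ q, M p q * c p q ≤ ∑ i ∈ O,
      ((cost w Y (Function.update (tau y) (j i) (u i, k i)) (σ i) : ℝ) + 2 * w.Q) := by
    have h1 : ∑ p, ∑ q, M p q * c p q = ∑ i ∈ O, ∑ p, ∑ q,
        tm (σ i) (x i) (Sum.inr (j i)) (Sum.inl (u (φ i))) (Sum.inl (u i)) p q * c p q := by
      simp only [hM, Finset.sum_mul]
      rw [Finset.sum_comm' (s := O) (t := fun _ => Finset.univ) (s' := fun _ => O)
        (t' := Finset.univ) (by simp [and_comm])]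
      refine Finset.sum_congr rfl fun p _ => ?_
      rw [Finset.sum_comm]
    rw [h1]
    refine Finset.sum_le_sum fun i _ => ?_
    rw [tm_cost]
    have h2 : c (Sum.inl (u (φ i))) (Sum.inl (u (φ i))) = 0 := by
      simp [hc, cst]
    have h3 : c (x i) (Sum.inl (u i)) + c (Sum.inl (u i)) (Sum.inr (j i)) ≤ 2 * (w.Q : ℝ) := by
      have h4 : cst w Y (tau y) (x i) (Sum.inl (u i)) ≤ w.Q + w.n1 (x i) (u i) := by
        unfold cst
        simp only
        split_ifs <;> omega
      have h5 : cst w Y (tau y) (Sum.inl (u i)) (Sum.inr (j i)) =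
        w.n2 (Sum.inl (u i)) (y, j i) := rfl
      have h6 : w.n1 (x i) (u i) ≤ ∑ x, ∑ u, w.n1 x u :=
        (Finset.single_le_sum (f := fun v => w.n1 (x i) v) (fun _ _ => Nat.zero_le _)
          (Finset.mem_univ (u i))).trans
          (Finset.single_le_sum (f := fun x => ∑ v, w.n1 x v) (fun _ _ => Nat.zero_le _)
          (Finset.mem_univ (x i)))
      have h7 : w.n2 (Sum.inl (u i)) (y, j i) ≤ ∑ x, ∑ l, w.n2 x l :=
        (Finset.single_le_sum (f := fun l => w.n2 (Sum.inl (u i)) l) (fun _ _ => Nat.zero_le _)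
          (Finset.mem_univ (y, j i))).trans
          (Finset.single_le_sum (f := fun x => ∑ l, w.n2 x l) (fun _ _ => Nat.zero_le _)
          (Finset.mem_univ (Sum.inl (u i))))
      have h8 := w.small
      have h9 : cst w Y (tau y) (x i) (Sum.inl (u i)) +
          cst w Y (tau y) (Sum.inl (u i)) (Sum.inr (j i)) ≤ 2 * w.Q := by omega
      simp only [hc]
      exact_mod_cast h9
    have h4 : ∑ p, c p (σ i p) - c (x i) (Sum.inr (j i)) ≤
        (cost w Y (Function.update (tau y) (j i) (u i, k i)) (σ i) : ℝ) := by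
      have h5 : ∑ p, c p (σ i p) =
          c (x i) (Sum.inr (j i)) + ∑ p ∈ Finset.univ.erase (x i), c p (σ i p) := by
        rw [← Finset.add_sum_erase Finset.univ (fun p => c p (σ i p)) (Finset.mem_univ (x i)), hx]
      rw [h5, add_sub_cancel_left]
      unfold cost
      push_cast
      have h6 : ∑ p ∈ Finset.univ.erase (x i), c p (σ i p) =
          ∑ p ∈ Finset.univ.erase (x i),
            (cst w Y (Function.update (tau y) (j i) (u i, k i)) p (σ i p) : ℝ) := by
        refine Finset.sum_congr rfl fun p hp => ?_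
        have h7 : σ i p ≠ Sum.inr (j i) := by
          intro h8
          rw [← hx i] at h8
          exact Finset.ne_of_mem_erase hp ((σ i).injective h8)
        simp only [hc]
        rcases h8 : σ i p with v | k'
        · rfl
        · rw [h8] at h7
          simp only [cst]
          rw [Function.update_of_ne (fun h => h7 (by rw [h]))]
      rw [h6]
      exact Finset.sum_le_sum_of_subset_of_nonneg (Finset.erase_subset _ _)
        fun p _ _ => Nat.cast_nonneg _
    linarith
  have hlt : ∑ i ∈ O, ((cost w Y (Function.update (tau y) (j i) (u i, k i)) (σ i) : ℝ) +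
      2 * w.Q) < ∑ _i ∈ O, (cost w Y (tau y) ρ : ℝ) :=
    Finset.sum_lt_sum_of_nonempty hO fun i _ => by exact_mod_cast hbad i ρ hok
  rw [Finset.sum_const, nsmul_eq_mul] at hlt
  have hfin : (O.card : ℝ) * ∑ p, c p (ρ p) = O.card * (cost w Y (tau y) ρ : ℝ) := by
    unfold cost
    push_cast
    rfl
  linarith

end Pool.Agent.MDP
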