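import Pool.Agent.MDP.SomeIdle
import Pool.Agent.MDP.Exchange

/-! Every vertex has fewer than `P` bad in-neighbours. -/

open Classical

namespace Pool.Agent.MDP

universe u

variable {U : Type u} [Fintype U] {P : ℕ}

/-- Every vertex has fewer than `P` bad in-neighbours.

Proof. Otherwise there is an injective `u : Fin P → U` with values in the set. For each `i`
choose `j i`, `k i` and a permutation from the definition of `Bad`, and replace it by
one of minimal cost `σ i`; then apply `some_idle` to every `i` and `exchange`. -/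
theorem card_bad_lt (w : Wt U P) (Y : Finset U) {a : U ⊕ Fin P → U ⊕ Fin P → Prop}
    (hirr : ∀ x, ¬ a x x) (hP : 1 ≤ P) (y : U) :
    (Y.filter (fun u => a (Sum.inl u) (Sum.inl y) ∧ Bad w Y a u y)).card < P := by
  by_contra hcon
  push Not at hcon
  obtain ⟨T, hT, hTc⟩ := Finset.exists_subset_card_eq hcon
  let e : T ≃ Fin P := T.equivFinOfCardEq hTc
  let u : Fin P → U := fun i => (e.symm i : U)
  have hu : Function.Injective u := fun i i' h => e.symm.injective (Subtype.ext h)
  have hmem : ∀ i, u i ∈ Y ∧ a (Sum.inl (u i)) (Sum.inl y) ∧ Bad w Y a (u i) y := fun i =>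
    Finset.mem_filter.1 (hT (e.symm i).2)
  have hopt : ∀ i, ∃ (j k : Fin P) (σ : Equiv.Perm (U ⊕ Fin P)),
      Ok a (Function.update (tau y) j (u i, k)) σ ∧
      (∀ σ', Ok a (Function.update (tau y) j (u i, k)) σ' →
        cost w Y (Function.update (tau y) j (u i, k)) σ ≤
          cost w Y (Function.update (tau y) j (u i, k)) σ') ∧
      ∀ ρ, Ok a (tau y) ρ →
        cost w Y (Function.update (tau y) j (u i, k)) σ + 2 * w.Q < cost w Y (tau y) ρ := by
    intro i
    obtain ⟨j, k, σ', h1, h2⟩ := (hmem i).2.2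
    obtain ⟨σ, hσ, hmin⟩ := Finset.exists_min_image
      (Finset.univ.filter (Ok a (Function.update (tau y) j (u i, k))))
      (cost w Y (Function.update (tau y) j (u i, k)))
      ⟨σ', Finset.mem_filter.2 ⟨Finset.mem_univ _, h1⟩⟩
    refine ⟨j, k, σ, (Finset.mem_filter.1 hσ).2,
      fun σ'' h => hmin σ'' (Finset.mem_filter.2 ⟨Finset.mem_univ _, h⟩), fun ρ hρ => ?_⟩
    have h3 := hmin σ' (Finset.mem_filter.2 ⟨Finset.mem_univ _, h1⟩)
    have h4 := h2 ρ hρ
    omega
  choose j k σ hσ hmin hbad using hopt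
  have hid : ∀ i, ∃ i', σ i (Sum.inl (u i')) = Sum.inl (u i') := fun i =>
    some_idle hu (fun i => (hmem i).1) (fun i => (hmem i).2.1) (hσ i) (hmin i) (hbad i)
  choose φ hφ using hid
  exact exchange hirr hP hu (fun i => (hmem i).2.1) j k σ hσ hbad φ hφ

end Pool.Agent.MDP
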