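import Pool.Agent.Mader.Ear

/-! The list of bags. -/

open Classical

namespace Pool.Agent.MDP

open Pool.Agent.Mader

universe u

variable {V : Type u}

/-- The partition into bags.

Every finset `S` has a list of disjoint bags with union `S`, each bag being strongly connected,
two-colourable, and maximal with these properties inside the union of itself and the later bags.

Proof. Strong induction on `n = S.card`. If `S` is empty take the empty list. Otherwise let `X` be a
subset of `S` of maximal cardinality with `Conn a X` and `TwoCol a X` (singletons have these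
properties: see the proof of `Mader.layer`, loops are excluded), apply the induction hypothesis to
`S \ X` and put `X` in front. -/
theorem bag_list {a : V → V → Prop} (hirr : ∀ v, ¬ a v v) : ∀ n : ℕ, ∀ S : Finset V, S.card = n →
    ∃ L : List (Finset V), (∀ b ∈ L, b ⊆ S ∧ Conn a b ∧ TwoCol a b) ∧
      L.Pairwise (fun b b' => Disjoint b b') ∧ (∀ v ∈ S, ∃ b ∈ L, v ∈ b) ∧
      ∀ L1 b L2, L = L1 ++ b :: L2 → ∀ X', b ⊆ X' → (∀ x ∈ X', x ∈ b ∨ ∃ b' ∈ L2, x ∈ b') →
        Conn a X' → TwoCol a X' → X' = b := by
  intro n
  induction n using Nat.strong_induction_on with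
  | _ n IH =>
  intro S hSn
  rcases S.eq_empty_or_nonempty with hS | ⟨s, hs⟩
  · subst hS
    refine ⟨[], by simp, by simp, by simp, ?_⟩
    intro L1 b L2 h
    simp at h
  · have hex : ∃ X ∈ S.powerset.filter (fun X => Conn a X ∧ TwoCol a X),
        ∀ X' ∈ S.powerset.filter (fun X => Conn a X ∧ TwoCol a X), X'.card ≤ X.card := by
      apply Finset.exists_max_image
      refine ⟨{s}, ?_⟩
      rw [Finset.mem_filter, Finset.mem_powerset]
      refine ⟨by simpa using hs, Conn.singleton a s, fun _ => true, ?_⟩
      intro k Z hZ hne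
      obtain ⟨z, hz⟩ := hne
      have hZ' : ∀ z ∈ Z, z = s := by
        intro z hz
        have := hZ hz
        simp only [Finset.mem_filter, Finset.mem_singleton] at this
        exact this.1
      refine ⟨z, hz, fun v hv => ?_⟩
      rw [hZ' v hv, hZ' z hz]
      exact hirr s
    obtain ⟨X, hX, hmax⟩ := hex
    rw [Finset.mem_filter, Finset.mem_powerset] at hX
    obtain ⟨hXS, hXc, hXt⟩ := hX
    have hcard : (S \ X).card < n := by
      rw [← hSn]
      apply Finset.card_lt_card
      refine ⟨Finset.sdiff_subset, fun h => ?_⟩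
      obtain ⟨x, hx⟩ := hXc.1
      have := h (hXS hx)
      simp [hx] at this
    obtain ⟨L, h1, h2, h3, h4⟩ := IH _ hcard (S \ X) rfl
    refine ⟨X :: L, ?_, ?_, ?_, ?_⟩
    · intro b hb
      rcases List.mem_cons.mp hb with rfl | hb
      · exact ⟨hXS, hXc, hXt⟩
      · obtain ⟨h5, h6⟩ := h1 b hb
        exact ⟨h5.trans Finset.sdiff_subset, h6⟩
    · rw [List.pairwise_cons]
      refine ⟨fun b hb => ?_, h2⟩
      exact Finset.disjoint_of_subset_right (h1 b hb).1 Finset.disjoint_sdiff
    · intro v hv
      by_cases hvX : v ∈ X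
      · exact ⟨X, by simp, hvX⟩
      · obtain ⟨b, hb, hvb⟩ := h3 v (Finset.mem_sdiff.mpr ⟨hv, hvX⟩)
        exact ⟨b, List.mem_cons_of_mem _ hb, hvb⟩
    · intro L1 b L2 hL X' hbX' hX' hc ht
      rcases L1 with _ | ⟨c, L1⟩
      · simp only [List.nil_append, List.cons.injEq] at hL
        obtain ⟨rfl, rfl⟩ := hL
        have hsub : X' ⊆ S := by
          intro x hx
          rcases hX' x hx with h | ⟨b', hb', h⟩
          · exact hXS h
          · exact Finset.sdiff_subset ((h1 b' hb').1 h)
        have := hmax X' (by rw [Finset.mem_filter, Finset.mem_powerset]; exact ⟨hsub, hc, ht⟩)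
        exact (Finset.eq_of_subset_of_card_le hbX' this).symm
      · simp only [List.cons_append, List.cons.injEq] at hL
        exact h4 L1 b L2 hL.2 X' hbX' hX' hc ht

end Pool.Agent.MDP
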