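import Pool.Agent.MDP.Station
import Pool.Agent.MDP.Basic

/-! Ball lemma on majority colourings. -/

open Classical

namespace Pool.Agent.MDP

open Pool.Agent.Mader

universe u

variable {V : Type u}

/-- A colouring of `Z` by `k` colours which is a local minimum of a given function. -/
private theorem ball_min {k : ℕ} (hk : 1 ≤ k) (Z : Finset V) (c0 : V → ℕ)
    (Φ : (V → ℕ) → ℝ) :
    ∃ c : V → ℕ, (∀ v, v ∉ Z → c v = c0 v) ∧ (∀ v ∈ Z, c v < k) ∧
      ∀ v ∈ Z, ∀ i < k, Φ c ≤ Φ (Function.update c v i) := by
  have : Nonempty (Fin k) := ⟨⟨0, hk⟩⟩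
  let C : ({x // x ∈ Z} → Fin k) → V → ℕ := fun f v =>
    if h : v ∈ Z then (f ⟨v, h⟩).val else c0 v
  obtain ⟨f, hf⟩ := Finite.exists_min (fun f : ({x // x ∈ Z} → Fin k) => Φ (C f))
  refine ⟨C f, fun v hv => ?_, fun v hv => ?_, fun v hv i hi => ?_⟩
  · simp only [C, dif_neg hv]
  · simp only [C, dif_pos hv]
    exact (f ⟨v, hv⟩).isLt
  · have h1 : Function.update (C f) v i = C (Function.update f ⟨v, hv⟩ ⟨i, hi⟩) := by
      funext u
      by_cases huv : u = v
      · subst huv
        rw [Function.update_self]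
        simp only [C, dif_pos hv, Function.update_self]
      · rw [Function.update_of_ne huv]
        by_cases hu : u ∈ Z
        · simp only [C, dif_pos hu]
          rw [Function.update_of_ne]
          intro h
          exact huv (congrArg Subtype.val h)
        · simp only [C, dif_neg hu]
    rw [h1]
    exact hf _

/-- Changing one colour. -/
private theorem ball_change (Z : Finset V) (W : V → ℝ) (hW : ∀ v, 0 ≤ W v) (O : V → Finset V)
    (hO : ∀ v, v ∉ O v) (c : V → ℕ) (v : V) (hv : v ∈ Z) (i : ℕ)
    (h : ∑ x ∈ Z, W x * (((O x).filter (fun u => c u = c x)).card : ℝ) ≤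
      ∑ x ∈ Z, W x * (((O x).filter (fun u => Function.update c v i u =
        Function.update c v i x)).card : ℝ)) :
    W v * (((O v).filter (fun u => c u = c v)).card : ℝ) ≤
      W v * (((O v).filter (fun u => c u = i)).card : ℝ) +
        ∑ x ∈ Z, W x * (if v ∈ O x ∧ c x = i then 1 else 0) := by
  rw [← Finset.add_sum_erase Z _ hv, ← Finset.add_sum_erase Z (fun x =>
    W x * (((O x).filter (fun u => Function.update c v i u =
        Function.update c v i x)).card : ℝ)) hv] at h
  have h1 : (O v).filter (fun u => Function.update c v i u = Function.update c v i v) =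
      (O v).filter (fun u => c u = i) := by
    apply Finset.filter_congr
    intro u hu
    have huv : u ≠ v := fun e => hO v (e ▸ hu)
    rw [Function.update_self, Function.update_of_ne huv]
  have h2 : ∑ x ∈ Z.erase v, W x * (((O x).filter (fun u => Function.update c v i u =
      Function.update c v i x)).card : ℝ) ≤
      ∑ x ∈ Z.erase v, W x * (((O x).filter (fun u => c u = c x)).card : ℝ) +
        ∑ x ∈ Z.erase v, W x * (if v ∈ O x ∧ c x = i then 1 else 0) := by
    rw [← Finset.sum_add_distrib]
    refine Finset.sum_le_sum fun x hx => ?_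
    have hxv : x ≠ v := Finset.ne_of_mem_erase hx
    rw [← mul_add]
    refine mul_le_mul_of_nonneg_left ?_ (hW x)
    rw [Function.update_of_ne hxv]
    by_cases hc : v ∈ O x ∧ c x = i
    · rw [if_pos hc]
      have h3 : (O x).filter (fun u => Function.update c v i u = c x) ⊆
          insert v ((O x).filter (fun u => c u = c x)) := by
        intro u hu
        rw [Finset.mem_filter] at hu
        rw [Finset.mem_insert, Finset.mem_filter]
        by_cases huv : u = v
        · exact Or.inl huv
        · rw [Function.update_of_ne huv] at hu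
          exact Or.inr hu
      have h4 := (Finset.card_le_card h3).trans (Finset.card_insert_le _ _)
      exact_mod_cast h4
    · rw [if_neg hc, add_zero]
      have h3 : (O x).filter (fun u => Function.update c v i u = c x) ⊆
          (O x).filter (fun u => c u = c x) := by
        intro u hu
        rw [Finset.mem_filter] at hu ⊢
        by_cases huv : u = v
        · subst huv
          rw [Function.update_self] at hu
          exact absurd ⟨hu.1, hu.2.symm⟩ hc
        · rw [Function.update_of_ne huv] at hu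
          exact hu
      exact_mod_cast Finset.card_le_card h3
  have h5 : ∑ x ∈ Z.erase v, W x * (if v ∈ O x ∧ c x = i then (1 : ℝ) else 0) ≤
      ∑ x ∈ Z, W x * (if v ∈ O x ∧ c x = i then (1 : ℝ) else 0) := by
    refine Finset.sum_le_sum_of_subset_of_nonneg (Finset.erase_subset _ _) fun x _ _ => ?_
    refine mul_nonneg (hW x) ?_
    split_ifs
    · exact zero_le_one
    · exact le_rfl
  simp only [h1] at h
  linarith

/-- The colouring of the vertices with positive weight. -/
private theorem ball_first {k m : ℕ} (hk : 1 ≤ k) (O : V → Finset V) (hO : ∀ v, v ∉ O v)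
    (Z : Finset V) (hm : ∀ v ∈ Z, (O v).card ≤ m) (W : V → ℝ) (hW : ∀ v, 0 ≤ W v)
    (hpos : ∀ v ∈ Z, 0 < W v)
    (hs : ∀ u ∈ Z, ∑ v ∈ Z, W v * (if u ∈ O v then 1 else 0) ≤ m * W u) (c0 : V → ℕ) :
    ∃ c : V → ℕ, (∀ v, v ∉ Z → c v = c0 v) ∧ (∀ v ∈ Z, c v < k) ∧
      ∀ v ∈ Z, k * ((O v).filter (fun u => c u = c v)).card ≤ 2 * m := by
  obtain ⟨c, h1, h2, h3⟩ := ball_min hk Z c0
    (fun c => ∑ x ∈ Z, W x * (((O x).filter (fun u => c u = c x)).card : ℝ))
  refine ⟨c, h1, h2, fun v hv => ?_⟩
  have h4 : ∀ i ∈ Finset.range k, W v * (((O v).filter (fun u => c u = c v)).card : ℝ) ≤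
      W v * (((O v).filter (fun u => c u = i)).card : ℝ) +
        ∑ x ∈ Z, W x * (if v ∈ O x ∧ c x = i then 1 else 0) := fun i hi =>
    ball_change Z W hW O hO c v hv i (h3 v hv i (Finset.mem_range.1 hi))
  have h5 := Finset.sum_le_sum h4
  rw [Finset.sum_const, Finset.card_range, nsmul_eq_mul, Finset.sum_add_distrib,
    ← Finset.mul_sum, Finset.sum_comm] at h5
  have h6 : ∑ i ∈ Finset.range k, (((O v).filter (fun u => c u = i)).card : ℝ) ≤ m := by
    have h7 : ∑ i ∈ Finset.range k, ((O v).filter (fun u => c u = i)).card ≤ m := by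
      refine le_trans ?_ (hm v hv)
      rw [← Finset.card_biUnion]
      · apply Finset.card_le_card
        intro u hu
        rw [Finset.mem_biUnion] at hu
        obtain ⟨i, _, hi⟩ := hu
        exact (Finset.mem_filter.1 hi).1
      · intro i _ j _ hij
        refine Finset.disjoint_left.2 fun u hu hu' => ?_
        exact hij ((Finset.mem_filter.1 hu).2.symm.trans (Finset.mem_filter.1 hu').2)
    exact_mod_cast h7
  have h8 : ∑ x ∈ Z, ∑ i ∈ Finset.range k, W x * (if v ∈ O x ∧ c x = i then (1 : ℝ) else 0) ≤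
      m * W v := by
    refine le_trans (Finset.sum_le_sum fun x hx => ?_) (hs v hv)
    rw [← Finset.mul_sum]
    refine mul_le_mul_of_nonneg_left ?_ (hW x)
    by_cases hvx : v ∈ O x
    · simp only [hvx, true_and, if_true]
      rw [Finset.sum_ite_eq]
      split_ifs
      · exact le_rfl
      · exact zero_le_one
    · simp only [hvx, false_and, if_false, Finset.sum_const_zero, le_refl]
  have h9 := mul_le_mul_of_nonneg_left h6 (hW v)
  have h10 : W v * ((k : ℝ) * (((O v).filter (fun u => c u = c v)).card : ℝ)) ≤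
      W v * (2 * m) := by
    linarith
  have h11 := le_of_mul_le_mul_left h10 (hpos v hv)
  exact_mod_cast h11

/-- Ball's lemma, relative version: `Z` has to be coloured with `k` colours, every `v ∈ Z` has a
set `O v` of at most `m` out-neighbours (possibly outside `Z`, where the colouring `c0` is given).
There is a colouring, equal to `c0` outside `Z`, in which every `v ∈ Z` has at most `2 * m / k`
out-neighbours of its own colour.

Proof. Induction on `Z.card`. If `Z = ∅`, take `c0`. Otherwise apply `stationary` to the type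
`{x // x ∈ Z}` and `A v u = 1` if `u ∈ O v`, `0` otherwise (row sums `≤ m`) and get weights `w`.
Let `Z1 = {v ∈ Z | 0 < w v}`, nonempty. There is no `v ∈ Z1`, `u ∈ Z \ Z1` with `u ∈ O v`
(otherwise `0 < w v * A v u ≤ m * w u = 0`). FIRST colour `Z1`: among all colourings
`c : V → ℕ` with `c = c0` outside `Z1` and `c v < k` for `v ∈ Z1` take one which minimises
`Φ c = ∑ v ∈ Z1, w v * #{u ∈ O v | c u = c v}` (there are finitely many
such colourings, or: the values of `Φ` form a finite set, since `Φ` depends only on the set of pairs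
`(v, u)`, `v ∈ Z1`, `u ∈ O v`, `c u = c v`). Let `v ∈ Z1`. For a colour `i < k`
let `c_i` be `c` with the colour of `v` changed to `i`. With
`g i = w v * #{u ∈ O v | c u = i} + ∑ x ∈ Z1 with v ∈ O x and c x = i, w x` (here `v ∉ O v` is used,
and in the sum `x ≠ v`) we have `Φ c_i - Φ c = g i - g (c v)`, so `g (c v) ≤ g i` for all `i < k`,
and `k * g (c v) ≤ ∑ i < k, g i ≤ w v * #(O v) + ∑ x ∈ Z1 with v ∈ O x, w x ≤ w v * m + m * w v`.
So `k * #{u ∈ O v | c u = c v} ≤ 2 * m`, for every `v ∈ Z1`. The out-neighbours of `Z1` are not in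
`Z \ Z1`, so this remains true when the colours in `Z \ Z1` are changed. SECOND apply the induction
hypothesis to `Z \ Z1` and the colouring just found. -/
theorem ball_rel (k m : ℕ) (hk : 1 ≤ k) (O : V → Finset V) (hO : ∀ v, v ∉ O v) :
    ∀ n : ℕ, ∀ Z : Finset V, Z.card = n → (∀ v ∈ Z, (O v).card ≤ m) → ∀ c0 : V → ℕ,
      ∃ c : V → ℕ, (∀ v, v ∉ Z → c v = c0 v) ∧ (∀ v ∈ Z, c v < k) ∧
        ∀ v ∈ Z, k * ((O v).filter (fun u => c u = c v)).card ≤ 2 * m := by
  intro n
  induction n using Nat.strong_induction_on with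
  | _ n ih =>
    intro Z hZ hm c0
    rcases Finset.eq_empty_or_nonempty Z with hE | hE
    · subst hE
      exact ⟨c0, fun _ _ => rfl, fun v hv => absurd hv (Finset.notMem_empty v),
        fun v hv => absurd hv (Finset.notMem_empty v)⟩
    have : Nonempty {x // x ∈ Z} := ⟨⟨hE.choose, hE.choose_spec⟩⟩
    obtain ⟨w, hw0, ⟨v1, hv1⟩, hws⟩ := stationary
      (fun v u : {x // x ∈ Z} => if u.val ∈ O v.val then (1 : ℝ) else 0)
      (fun v u => by split_ifs; exacts [zero_le_one, le_rfl]) (m : ℝ) (fun v => by
        rw [Finset.sum_boole]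
        have h1 : (Finset.univ.filter (fun u : {x // x ∈ Z} => u.val ∈ O v.val)).card ≤ m := by
          refine le_trans ?_ (hm v.val v.property)
          refine Finset.card_le_card_of_injOn (fun u => u.val) ?_ ?_
          · intro u hu
            exact (Finset.mem_filter.1 (Finset.mem_coe.1 hu)).2
          · intro u _ u' _ h
            exact Subtype.ext h
        exact_mod_cast h1)
    set W : V → ℝ := fun v => if h : v ∈ Z then w ⟨v, h⟩ else 0 with hWdef
    have hWZ : ∀ v : {x // x ∈ Z}, W v.val = w v := by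
      intro v
      simp only [hWdef, dif_pos v.property]
    have hW0 : ∀ v, 0 ≤ W v := by
      intro v
      by_cases h : v ∈ Z
      · have := hWZ ⟨v, h⟩
        rw [show W v = w ⟨v, h⟩ from this]
        exact hw0 _
      · simp only [hWdef, dif_neg h, le_refl]
    have hWs : ∀ u ∈ Z, ∑ v ∈ Z, W v * (if u ∈ O v then 1 else 0) ≤ m * W u := by
      intro u hu
      have h1 := hws ⟨u, hu⟩
      rw [← hWZ ⟨u, hu⟩] at h1
      refine le_trans (le_of_eq ?_) h1
      rw [← Finset.sum_coe_sort Z]
      refine Finset.sum_congr rfl fun v _ => ?_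
      rw [hWZ v]
    set Z1 := Z.filter (fun v => 0 < W v) with hZ1
    have hZ1Z : Z1 ⊆ Z := Finset.filter_subset _ _
    have hout : ∀ v ∈ Z1, ∀ u ∈ O v, u ∉ Z \ Z1 := by
      intro v hv u hu hu'
      rw [Finset.mem_sdiff] at hu'
      have hWu : W u = 0 := by
        by_contra hne
        exact hu'.2 (Finset.mem_filter.2 ⟨hu'.1, lt_of_le_of_ne (hW0 u) (Ne.symm hne)⟩)
      have h1 := hWs u hu'.1
      rw [hWu, mul_zero] at h1
      have h2 := Finset.single_le_sum (f := fun x => W x * (if u ∈ O x then (1 : ℝ) else 0))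
        (fun x _ => mul_nonneg (hW0 x) (by split_ifs; exacts [zero_le_one, le_rfl]))
        (hZ1Z hv)
      simp only [hu, if_true, mul_one] at h2
      have h3 := (Finset.mem_filter.1 hv).2
      linarith
    have hne : v1.val ∈ Z1 := by
      rw [hZ1, Finset.mem_filter]
      refine ⟨v1.property, lt_of_le_of_ne (hW0 _) ?_⟩
      rw [hWZ v1]
      exact Ne.symm hv1
    have hWs1 : ∀ u ∈ Z1, ∑ v ∈ Z1, W v * (if u ∈ O v then 1 else 0) ≤ m * W u := by
      intro u hu
      refine le_trans ?_ (hWs u (hZ1Z hu))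
      refine Finset.sum_le_sum_of_subset_of_nonneg hZ1Z fun x _ _ => ?_
      exact mul_nonneg (hW0 x) (by split_ifs; exacts [zero_le_one, le_rfl])
    obtain ⟨c, hc0, hck, hcm⟩ := ball_first hk O hO Z1 (fun v hv => hm v (hZ1Z hv)) W hW0
      (fun v hv => (Finset.mem_filter.1 hv).2) hWs1 c0
    have hcard : (Z \ Z1).card < n := by
      rw [← hZ]
      refine Finset.card_lt_card ⟨Finset.sdiff_subset, fun h => ?_⟩
      exact (Finset.mem_sdiff.1 (h v1.property)).2 hne
    obtain ⟨c', hc0', hck', hcm'⟩ := ih _ hcard (Z \ Z1) rfl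
      (fun v hv => hm v (Finset.mem_sdiff.1 hv).1) c
    have hcc : ∀ v ∈ Z1, c' v = c v := fun v hv =>
      hc0' v (fun h => (Finset.mem_sdiff.1 h).2 hv)
    refine ⟨c', fun v hv => ?_, fun v hv => ?_, fun v hv => ?_⟩
    · rw [hc0' v (fun h => hv (Finset.mem_sdiff.1 h).1), hc0 v (fun h => hv (hZ1Z h))]
    · by_cases hv1' : v ∈ Z1
      · rw [hcc v hv1']
        exact hck v hv1'
      · exact hck' v (Finset.mem_sdiff.2 ⟨hv, hv1'⟩)
    · by_cases hv1' : v ∈ Z1
      · have h1 : (O v).filter (fun u => c' u = c' v) = (O v).filter (fun u => c u = c v) := by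
          apply Finset.filter_congr
          intro u hu
          rw [hcc v hv1', hc0' u (hout v hv1' u hu)]
        rw [h1]
        exact hcm v hv1'
      · exact hcm' v (Finset.mem_sdiff.2 ⟨hv, hv1'⟩)

end Pool.Agent.MDP
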