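import Pool.Agent.MDP.Station

/-! Weighted list version of the ball lemma on majority colourings. -/

open Classical

namespace Pool.Agent.MDP

universe u

variable {V : Type u}

/-- The weight of the out-neighbours of `v` with the colour `i`. -/
private noncomputable def bl_load [Fintype V] (A : V → V → ℝ) (c : V → ℕ) (v : V) (i : ℕ) : ℝ :=
  ∑ u, (if c u = i then A v u else 0)

/-- A colouring from lists which is a local minimum of a given function. -/
private theorem bl_min [Fintype V] (L : V → Finset ℕ) (Z : Finset V)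
    (hL : ∀ v ∈ Z, (L v).Nonempty) (c0 : V → ℕ) (Φ : (V → ℕ) → ℝ) :
    ∃ c : V → ℕ, (∀ v, v ∉ Z → c v = c0 v) ∧ (∀ v ∈ Z, c v ∈ L v) ∧
      ∀ v ∈ Z, ∀ i ∈ L v, Φ c ≤ Φ (Function.update c v i) := by
  let S : Finset (V → ℕ) := Fintype.piFinset (fun v => if v ∈ Z then L v else {c0 v})
  have hmem : ∀ c : V → ℕ, c ∈ S ↔ (∀ v, v ∉ Z → c v = c0 v) ∧ (∀ v ∈ Z, c v ∈ L v) := by
    intro c
    simp only [S, Fintype.mem_piFinset]
    constructor
    · intro h
      refine ⟨fun v hv => ?_, fun v hv => ?_⟩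
      · have h1 := h v
        rw [if_neg hv, Finset.mem_singleton] at h1
        exact h1
      · have h1 := h v
        rw [if_pos hv] at h1
        exact h1
    · rintro ⟨h1, h2⟩ v
      by_cases hv : v ∈ Z
      · rw [if_pos hv]
        exact h2 v hv
      · rw [if_neg hv, Finset.mem_singleton]
        exact h1 v hv
  have hne : S.Nonempty := by
    refine ⟨fun v => if h : v ∈ Z then (hL v h).choose else c0 v, (hmem _).2 ⟨?_, ?_⟩⟩
    · intro v hv
      simp only [dif_neg hv]
    · intro v hv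
      simp only [dif_pos hv]
      exact (hL v hv).choose_spec
  obtain ⟨c, hc, hmin⟩ := Finset.exists_min_image S Φ hne
  refine ⟨c, ((hmem c).1 hc).1, ((hmem c).1 hc).2, fun v hv i hi => hmin _ ((hmem _).2 ⟨?_, ?_⟩)⟩
  · intro u hu
    have huv : u ≠ v := fun h => hu (h ▸ hv)
    rw [Function.update_of_ne huv]
    exact ((hmem c).1 hc).1 u hu
  · intro u hu
    by_cases huv : u = v
    · subst huv
      rw [Function.update_self]
      exact hi
    · rw [Function.update_of_ne huv]
      exact ((hmem c).1 hc).2 u hu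

/-- Changing one colour. -/
private theorem bl_change [Fintype V] (A : V → V → ℝ) (hA0 : ∀ v u, 0 ≤ A v u)
    (hAd : ∀ v, A v v = 0) (Z : Finset V) (W : V → ℝ) (hW : ∀ v, 0 ≤ W v)
    (c : V → ℕ) (v : V) (hv : v ∈ Z) (i : ℕ)
    (h : ∑ x ∈ Z, W x * bl_load A c x (c x) ≤
      ∑ x ∈ Z, W x * bl_load A (Function.update c v i) x (Function.update c v i x)) :
    W v * bl_load A c v (c v) ≤
      W v * bl_load A c v i + ∑ x ∈ Z, W x * (if c x = i then A x v else 0) := by
  rw [← Finset.add_sum_erase Z _ hv, ← Finset.add_sum_erase Z (fun x =>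
    W x * bl_load A (Function.update c v i) x (Function.update c v i x)) hv] at h
  have h1 : bl_load A (Function.update c v i) v (Function.update c v i v) = bl_load A c v i := by
    unfold bl_load
    refine Finset.sum_congr rfl fun u _ => ?_
    rw [Function.update_self]
    by_cases huv : u = v
    · subst huv
      rw [Function.update_self, if_pos rfl, hAd, ite_self]
    · rw [Function.update_of_ne huv]
  have h2 : ∑ x ∈ Z.erase v, W x * bl_load A (Function.update c v i) x
      (Function.update c v i x) ≤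
      ∑ x ∈ Z.erase v, W x * bl_load A c x (c x) +
        ∑ x ∈ Z.erase v, W x * (if c x = i then A x v else 0) := by
    rw [← Finset.sum_add_distrib]
    refine Finset.sum_le_sum fun x hx => ?_
    have hxv : x ≠ v := Finset.ne_of_mem_erase hx
    rw [← mul_add]
    refine mul_le_mul_of_nonneg_left ?_ (hW x)
    rw [Function.update_of_ne hxv]
    unfold bl_load
    have h3 : (if c x = i then A x v else 0) =
        ∑ u, (if u = v then (if c x = i then A x v else 0) else 0) := by
      rw [Finset.sum_ite_eq' Finset.univ v, if_pos (Finset.mem_univ v)]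
    rw [h3, ← Finset.sum_add_distrib]
    refine Finset.sum_le_sum fun u _ => ?_
    by_cases huv : u = v
    · subst huv
      rw [Function.update_self, if_pos rfl]
      have h5 : 0 ≤ (if c u = c x then A x u else 0) := by
        split_ifs
        · exact hA0 _ _
        · exact le_rfl
      have h6 : 0 ≤ (if c x = i then A x u else 0) := by
        split_ifs
        · exact hA0 _ _
        · exact le_rfl
      by_cases h4 : i = c x
      · rw [if_pos h4, if_pos h4.symm]
        linarith
      · rw [if_neg h4]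
        linarith
    · rw [Function.update_of_ne huv, if_neg huv, add_zero]
  have h5 : ∑ x ∈ Z.erase v, W x * (if c x = i then A x v else 0) ≤
      ∑ x ∈ Z, W x * (if c x = i then A x v else 0) := by
    refine Finset.sum_le_sum_of_subset_of_nonneg (Finset.erase_subset _ _) fun x _ _ => ?_
    refine mul_nonneg (hW x) ?_
    split_ifs
    · exact hA0 _ _
    · exact le_rfl
  simp only [h1] at h
  linarith

/-- The colouring of the vertices with positive weight. -/
private theorem bl_first [Fintype V] (A : V → V → ℝ) (hA0 : ∀ v u, 0 ≤ A v u)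
    (hAd : ∀ v, A v v = 0) (L : V → Finset ℕ) {l : ℕ} (hl : 1 ≤ l) (Z : Finset V)
    (hrow : ∀ v ∈ Z, ∑ u, A v u ≤ 1) (hL : ∀ v ∈ Z, l ≤ (L v).card) (W : V → ℝ)
    (hW : ∀ v, 0 ≤ W v) (hpos : ∀ v ∈ Z, 0 < W v)
    (hs : ∀ u ∈ Z, ∑ v ∈ Z, W v * A v u ≤ W u) (c0 : V → ℕ) :
    ∃ c : V → ℕ, (∀ v, v ∉ Z → c v = c0 v) ∧ (∀ v ∈ Z, c v ∈ L v) ∧
      ∀ v ∈ Z, (l : ℝ) * bl_load A c v (c v) ≤ 2 := by
  obtain ⟨c, h1, h2, h3⟩ := bl_min L Z
    (fun v hv => Finset.card_pos.1 (lt_of_lt_of_le hl (hL v hv))) c0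
    (fun c => ∑ x ∈ Z, W x * bl_load A c x (c x))
  refine ⟨c, h1, h2, fun v hv => ?_⟩
  have h4 : ∀ i ∈ L v, W v * bl_load A c v (c v) ≤
      W v * bl_load A c v i + ∑ x ∈ Z, W x * (if c x = i then A x v else 0) := fun i hi =>
    bl_change A hA0 hAd Z W hW c v hv i (h3 v hv i hi)
  have h5 := Finset.sum_le_sum h4
  rw [Finset.sum_const, nsmul_eq_mul, Finset.sum_add_distrib,
    ← Finset.mul_sum, Finset.sum_comm] at h5
  have h6 : ∑ i ∈ L v, bl_load A c v i ≤ 1 := by
    refine le_trans ?_ (hrow v hv)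
    unfold bl_load
    rw [Finset.sum_comm]
    refine Finset.sum_le_sum fun u _ => ?_
    rw [Finset.sum_ite_eq]
    split_ifs
    · exact le_rfl
    · exact hA0 _ _
  have h8 : ∑ x ∈ Z, ∑ i ∈ L v, W x * (if c x = i then A x v else 0) ≤ W v := by
    refine le_trans (Finset.sum_le_sum fun x hx => ?_) (hs v hv)
    rw [← Finset.mul_sum]
    refine mul_le_mul_of_nonneg_left ?_ (hW x)
    rw [Finset.sum_ite_eq]
    split_ifs
    · exact le_rfl
    · exact hA0 _ _
  have h9 := mul_le_mul_of_nonneg_left h6 (hW v)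
  have hload0 : 0 ≤ bl_load A c v (c v) := by
    unfold bl_load
    refine Finset.sum_nonneg fun u _ => ?_
    split_ifs
    · exact hA0 _ _
    · exact le_rfl
  have hlL : (l : ℝ) ≤ ((L v).card : ℝ) := by exact_mod_cast hL v hv
  have h10 : W v * ((l : ℝ) * bl_load A c v (c v)) ≤ W v * 2 := by
    have h11 : (l : ℝ) * (W v * bl_load A c v (c v)) ≤
        ((L v).card : ℝ) * (W v * bl_load A c v (c v)) :=
      mul_le_mul_of_nonneg_right hlL (mul_nonneg (hW v) hload0)
    linarith
  exact le_of_mul_le_mul_left h10 (hpos v hv)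

/-- Weighted list version of the lemma of Ball, relative form: every `v ∈ Z` has nonnegative
weights `A v u`, `A v v = 0`, with sum at most `1`, and a list of at least `l` colours. There is a
colouring of `Z` from the lists, equal to `c0` outside `Z`, such that for every `v ∈ Z` the `u` of
the same colour as `v` have weight at most `2 / l`.

Proof. Induction on `Z.card`. Take stationary weights for the matrix `A` on `Z`. The vertices of
positive weight `Z1` are coloured first, by a local minimum of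
`∑ v ∈ Z1, W v * ∑ u of the colour of v, A v u`. No `u ∈ Z \ Z1` has `A v u > 0` for a `v ∈ Z1`, so
the colours in `Z \ Z1` do not matter for `Z1`. -/
private theorem bl_rel [Fintype V] (A : V → V → ℝ) (hA0 : ∀ v u, 0 ≤ A v u)
    (hAd : ∀ v, A v v = 0) (L : V → Finset ℕ) {l : ℕ} (hl : 1 ≤ l) :
    ∀ n : ℕ, ∀ Z : Finset V, Z.card = n → (∀ v ∈ Z, ∑ u, A v u ≤ 1) →
      (∀ v ∈ Z, l ≤ (L v).card) → ∀ c0 : V → ℕ,
      ∃ c : V → ℕ, (∀ v, v ∉ Z → c v = c0 v) ∧ (∀ v ∈ Z, c v ∈ L v) ∧
        ∀ v ∈ Z, (l : ℝ) * bl_load A c v (c v) ≤ 2 := by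
  intro n
  induction n using Nat.strong_induction_on with
  | _ n ih =>
    intro Z hZ hrow hL c0
    rcases Finset.eq_empty_or_nonempty Z with hE | hE
    · subst hE
      exact ⟨c0, fun _ _ => rfl, fun v hv => absurd hv (Finset.notMem_empty v),
        fun v hv => absurd hv (Finset.notMem_empty v)⟩
    have : Nonempty {x // x ∈ Z} := ⟨⟨hE.choose, hE.choose_spec⟩⟩
    obtain ⟨w, hw0, ⟨v1, hv1⟩, hws⟩ := stationary
      (fun v u : {x // x ∈ Z} => A v.val u.val) (fun v u => hA0 _ _) (1 : ℝ) (fun v => by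
        rw [Finset.sum_coe_sort Z (fun u => A v.val u)]
        refine le_trans ?_ (hrow v.val v.property)
        exact Finset.sum_le_sum_of_subset_of_nonneg (Finset.subset_univ _)
          (fun x _ _ => hA0 _ _))
    set W : V → ℝ := fun v => if h : v ∈ Z then w ⟨v, h⟩ else 0 with hWdef
    have hWZ : ∀ v : {x // x ∈ Z}, W v.val = w v := by
      intro v
      simp only [hWdef, dif_pos v.property]
    have hW0 : ∀ v, 0 ≤ W v := by
      intro v
      by_cases h : v ∈ Z
      · have := hWZ ⟨v, h⟩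
        rw [show W v = w ⟨v, h⟩ from this]
        exact hw0 _
      · simp only [hWdef, dif_neg h, le_refl]
    have hWs : ∀ u ∈ Z, ∑ v ∈ Z, W v * A v u ≤ W u := by
      intro u hu
      have h1 := hws ⟨u, hu⟩
      rw [← hWZ ⟨u, hu⟩, one_mul] at h1
      refine le_trans (le_of_eq ?_) h1
      rw [← Finset.sum_coe_sort Z]
      refine Finset.sum_congr rfl fun v _ => ?_
      rw [hWZ v]
    set Z1 := Z.filter (fun v => 0 < W v) with hZ1
    have hZ1Z : Z1 ⊆ Z := Finset.filter_subset _ _
    have hout : ∀ v ∈ Z1, ∀ u ∈ Z \ Z1, A v u = 0 := by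
      intro v hv u hu'
      rw [Finset.mem_sdiff] at hu'
      by_contra hne0
      have hpos : 0 < A v u := lt_of_le_of_ne (hA0 v u) (Ne.symm hne0)
      have hWu : W u = 0 := by
        by_contra hne
        exact hu'.2 (Finset.mem_filter.2 ⟨hu'.1, lt_of_le_of_ne (hW0 u) (Ne.symm hne)⟩)
      have h1 := hWs u hu'.1
      rw [hWu] at h1
      have h2 := Finset.single_le_sum (f := fun x => W x * A x u)
        (fun x _ => mul_nonneg (hW0 x) (hA0 x u)) (hZ1Z hv)
      have h3 := mul_pos (Finset.mem_filter.1 hv).2 hpos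
      linarith
    have hne : v1.val ∈ Z1 := by
      rw [hZ1, Finset.mem_filter]
      refine ⟨v1.property, lt_of_le_of_ne (hW0 _) ?_⟩
      rw [hWZ v1]
      exact Ne.symm hv1
    have hWs1 : ∀ u ∈ Z1, ∑ v ∈ Z1, W v * A v u ≤ W u := by
      intro u hu
      refine le_trans ?_ (hWs u (hZ1Z hu))
      refine Finset.sum_le_sum_of_subset_of_nonneg hZ1Z fun x _ _ => ?_
      exact mul_nonneg (hW0 x) (hA0 x u)
    obtain ⟨c, hc0, hck, hcm⟩ := bl_first A hA0 hAd L hl Z1 (fun v hv => hrow v (hZ1Z hv))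
      (fun v hv => hL v (hZ1Z hv)) W hW0 (fun v hv => (Finset.mem_filter.1 hv).2) hWs1 c0
    have hcard : (Z \ Z1).card < n := by
      rw [← hZ]
      refine Finset.card_lt_card ⟨Finset.sdiff_subset, fun h => ?_⟩
      exact (Finset.mem_sdiff.1 (h v1.property)).2 hne
    obtain ⟨c', hc0', hck', hcm'⟩ := ih _ hcard (Z \ Z1) rfl
      (fun v hv => hrow v (Finset.mem_sdiff.1 hv).1) (fun v hv => hL v (Finset.mem_sdiff.1 hv).1) c
    have hcc : ∀ v ∈ Z1, c' v = c v := fun v hv =>
      hc0' v (fun h => (Finset.mem_sdiff.1 h).2 hv)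
    refine ⟨c', fun v hv => ?_, fun v hv => ?_, fun v hv => ?_⟩
    · rw [hc0' v (fun h => hv (Finset.mem_sdiff.1 h).1), hc0 v (fun h => hv (hZ1Z h))]
    · by_cases hv1' : v ∈ Z1
      · rw [hcc v hv1']
        exact hck v hv1'
      · exact hck' v (Finset.mem_sdiff.2 ⟨hv, hv1'⟩)
    · by_cases hv1' : v ∈ Z1
      · have h1 : bl_load A c' v (c' v) = bl_load A c v (c v) := by
          unfold bl_load
          refine Finset.sum_congr rfl fun u _ => ?_
          rw [hcc v hv1']
          by_cases hu : u ∈ Z \ Z1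
          · rw [hout v hv1' u hu, ite_self, ite_self]
          · rw [hc0' u hu]
        rw [h1]
        exact hcm v hv1'
      · exact hcm' v (Finset.mem_sdiff.2 ⟨hv, hv1'⟩)

/-- Weighted list version of the lemma of Ball. Every `v ∈ Z` has nonnegative weights `A v u`,
`A v v = 0`, with sum at most `1`, and a list `L v` of at least `l` colours. There is a colouring
from the lists such that for every `v ∈ Z` the vertices `u` of the colour of `v` have weight at most
`2 / l`. -/
theorem ball_list [Fintype V] (A : V → V → ℝ) (hA0 : ∀ v u, 0 ≤ A v u)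
    (hAd : ∀ v, A v v = 0) (L : V → Finset ℕ) {l : ℕ} (hl : 1 ≤ l) (Z : Finset V)
    (hrow : ∀ v ∈ Z, ∑ u, A v u ≤ 1) (hL : ∀ v ∈ Z, l ≤ (L v).card) :
    ∃ c : V → ℕ, (∀ v ∈ Z, c v ∈ L v) ∧
      ∀ v ∈ Z, (l : ℝ) * ∑ u, (if c u = c v then A v u else 0) ≤ 2 := by
  obtain ⟨c, -, h1, h2⟩ := bl_rel A hA0 hAd L hl Z.card Z rfl hrow hL fun _ => 0
  exact ⟨c, h1, h2⟩

end Pool.Agent.MDP
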