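import Pool.Agent.MDP.ChainStep

/-! The chain lemma. -/

open Classical
open Matrix

namespace Pool.Agent.MDP

universe u

variable {P : ℕ}

/-- The chain lemma.

Proof. By induction on `i` for `i ≤ P`: for all chains and `f ∈ Fl P (P - i)`,
`‖f ᵥ* M w‖ ≤ 2 ^ (i * (R + s)) * ‖f ᵥ* M v‖`. For `i = 0`, `f = 0`. Step: `chain_step`. -/
theorem chain {Y : Type u} (M : Y → Matrix (Fin P) (Fin P) ℚ_[2]) (hM : ∀ x, (M x).det ≠ 0)
    (r : Y → Y → Prop) {s R : ℝ} (hs : 0 ≤ s) (hR : 0 ≤ R)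
    (hr : ∀ u v, r u v → ∀ f, ‖f ᵥ* M u‖ ≤ (2 : ℝ) ^ s * ‖f ᵥ* M v‖) (lo : Fin P → ℝ)
    (hlo : ∀ x k, lo k ≤ ht (M x) k ∧ ht (M x) k ≤ lo k + R) :
    ∀ w v, Relation.ReflTransGen r w v → ∀ f,
      ‖f ᵥ* M w‖ ≤ (2 : ℝ) ^ ((P : ℝ) * (R + s)) * ‖f ᵥ* M v‖ := by
  have key : ∀ i : ℕ, i ≤ P → ∀ w v, Relation.ReflTransGen r w v → ∀ f ∈ Fl P (P - i),
      ‖f ᵥ* M w‖ ≤ (2 : ℝ) ^ ((i : ℝ) * (R + s)) * ‖f ᵥ* M v‖ := by
    intro i
    induction i with
    | zero =>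
      intro _ w v _ f hf
      have h0 : f = 0 := funext fun j => hf j (by have := j.2; omega)
      rw [h0, Matrix.zero_vecMul, Matrix.zero_vecMul, norm_zero, mul_zero]
    | succ i ih =>
      intro hi w v hwv f hf
      have hK : (1 : ℝ) ≤ (2 : ℝ) ^ ((i : ℝ) * (R + s)) :=
        Real.one_le_rpow (by norm_num) (mul_nonneg (Nat.cast_nonneg i) (add_nonneg hR hs))
      have hk : P - (i + 1) + 1 = P - i := by omega
      have h1 := chain_step M hM r hs hR hr lo hlo ⟨P - (i + 1), by omega⟩ hK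
        (fun w v hwv f hf => ih (by omega) w v hwv f (by
          have h2 : f ∈ Fl P (P - (i + 1) + 1) := hf
          rwa [hk] at h2)) w v hwv f hf
      have h3 : (2 : ℝ) ^ ((i : ℝ) * (R + s)) * (2 : ℝ) ^ (R + s) =
          (2 : ℝ) ^ (((i + 1 : ℕ) : ℝ) * (R + s)) := by
        rw [← Real.rpow_add (by norm_num)]
        congr 1
        push_cast
        ring
      rwa [h3] at h1
  intro w v hwv f
  exact key P le_rfl w v hwv f (fun j hj => by omega)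

end Pool.Agent.MDP
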