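import Pool.Agent.MDP.Heights

/-! One step of the chain lemma. -/

open Classical
open Matrix

namespace Pool.Agent.MDP

universe u

variable {P : ℕ}

private theorem cs_add {f g : Fin P → ℚ_[2]} (A : Matrix (Fin P) (Fin P) ℚ_[2]) {c : ℝ}
    (hf : ‖f ᵥ* A‖ ≤ c) (hg : ‖g ᵥ* A‖ ≤ c) : ‖(f + g) ᵥ* A‖ ≤ c := by
  rw [Matrix.add_vecMul]
  have h0 : 0 ≤ c := (norm_nonneg _).trans hf
  rw [pi_norm_le_iff_of_nonneg h0]
  intro i
  rw [Pi.add_apply]
  exact (Padic.nonarchimedean _ _).trans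
    (max_le ((norm_le_pi_norm _ i).trans hf) ((norm_le_pi_norm _ i).trans hg))

private theorem cs_smul (c : ℚ_[2]) (f : Fin P → ℚ_[2]) (A : Matrix (Fin P) (Fin P) ℚ_[2]) :
    ‖(c • f) ᵥ* A‖ = ‖c‖ * ‖f ᵥ* A‖ := by
  rw [Matrix.smul_vecMul, norm_smul]

private theorem cs_neg (f : Fin P → ℚ_[2]) (A : Matrix (Fin P) (Fin P) ℚ_[2]) :
    ‖(-f) ᵥ* A‖ = ‖f ᵥ* A‖ := by
  rw [Matrix.neg_vecMul, norm_neg]

/-- The chain lemma, one step of the downward induction on `k`.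

`r` is a relation on `Y` and along `r` norms grow by at most `2 ^ s`; all heights at the vertices
of `Y` are in the intervals `[lo k, lo k + R]`; and for vectors in `Fl P (k + 1)` norms grow by at most the
factor `K' ≥ 1` along arbitrary chains. Then for vectors in `Fl P k` they grow by at most
`K' * 2 ^ (R + s)`.

Proof. Write `N x f = ‖f ᵥ* M x‖` (an ultrametric norm, `IsUltrametricDist`; `N x (c • f) = ‖c‖ * N x f`),
`g x = bst (M x) k`, `e = Pi.single k 1`, `H = 2 ^ (lo k + R)`; so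
`H * 2 ^ (-R) ≤ N x (e + g x) = 2 ^ ht ≤ H` for all `x`.
First, fix `w`; for every `v` with `ReflTransGen r w v` we have `N w (g v - g w) ≤ K' * 2 ^ s * H`:
induction on the chain (tail): for `r x v`: `g v - g w = (g x - g w) + (g v - g x)`, and
`N w (g v - g x) ≤ K' * N x (g v - g x)` (`g v - g x ∈ Fl P (k + 1)`, chain from `w` to `x`), and
`N x (g v - g x) ≤ max (N x (e + g v)) (N x (e + g x)) ≤ max (2 ^ s * N v (e + g v)) H ≤ 2 ^ s * H`.
Now let `f ∈ Fl P k`, `b = f k`, so `f = b • e + g` with `g ∈ Fl P (k + 1)`. Then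
`f = b • (e + g w) + (g - b • g v) + b • (g v - g w)`, so
`N w f ≤ max (‖b‖ * H) (max (K' * N v (g - b • g v)) (‖b‖ * (K' * 2 ^ s * H)))`.
On the other hand `‖b‖ * H * 2 ^ (-R) ≤ ‖b‖ * N v (e + g v) ≤ N v f` (if `b = 0` trivial; else
`f = b • (e + b⁻¹ • g)` and `bst_le`), and
`N v (g - b • g v) = N v (f - b • (e + g v)) ≤ max (N v f) (‖b‖ * N v (e + g v)) ≤ N v f`.
So `N w f ≤ max (2 ^ R) (max K' (K' * 2 ^ s * 2 ^ R)) * N v f ≤ K' * 2 ^ (R + s) * N v f`. -/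
theorem chain_step {Y : Type u} (M : Y → Matrix (Fin P) (Fin P) ℚ_[2]) (hM : ∀ x, (M x).det ≠ 0)
    (r : Y → Y → Prop) {s R : ℝ} (hs : 0 ≤ s) (hR : 0 ≤ R)
    (hr : ∀ u v, r u v → ∀ f, ‖f ᵥ* M u‖ ≤ (2 : ℝ) ^ s * ‖f ᵥ* M v‖) (lo : Fin P → ℝ)
    (hlo : ∀ x k, lo k ≤ ht (M x) k ∧ ht (M x) k ≤ lo k + R) (k : Fin P) {K' : ℝ} (hK : 1 ≤ K')
    (ih : ∀ w v, Relation.ReflTransGen r w v → ∀ f ∈ Fl P (k + 1),
      ‖f ᵥ* M w‖ ≤ K' * ‖f ᵥ* M v‖) :
    ∀ w v, Relation.ReflTransGen r w v → ∀ f ∈ Fl P k,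
      ‖f ᵥ* M w‖ ≤ (K' * (2 : ℝ) ^ (R + s)) * ‖f ᵥ* M v‖ := by
  set e : Fin P → ℚ_[2] := Pi.single k 1 with he
  set H : ℝ := (2 : ℝ) ^ (lo k + R) with hH
  have hHpos : 0 < H := Real.rpow_pos_of_pos (by norm_num) _
  have h2R : (1 : ℝ) ≤ (2 : ℝ) ^ R := Real.one_le_rpow (by norm_num) hR
  have h2s : (1 : ℝ) ≤ (2 : ℝ) ^ s := Real.one_le_rpow (by norm_num) hs
  have hup : ∀ x, ‖(e + bst (M x) k) ᵥ* M x‖ ≤ H := by
    intro x
    rw [← two_rpow_ht (hM x) k]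
    exact (Real.rpow_le_rpow_left_iff (by norm_num)).2 (hlo x k).2
  have hdown : ∀ x, H ≤ (2 : ℝ) ^ R * ‖(e + bst (M x) k) ᵥ* M x‖ := by
    intro x
    rw [← two_rpow_ht (hM x) k, ← Real.rpow_add (by norm_num), hH]
    refine (Real.rpow_le_rpow_left_iff (by norm_num)).2 ?_
    have := (hlo x k).1
    linarith
  have hA : ∀ w v, Relation.ReflTransGen r w v →
      ‖(bst (M v) k - bst (M w) k) ᵥ* M w‖ ≤ K' * (2 : ℝ) ^ s * H := by
    intro w v h
    induction h with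
    | refl =>
      rw [sub_self, Matrix.zero_vecMul, norm_zero]
      positivity
    | tail hwx hxv ihx =>
      rename_i x v
      have h1 : bst (M v) k - bst (M w) k =
          (bst (M x) k - bst (M w) k) + (bst (M v) k - bst (M x) k) := by abel
      rw [h1]
      refine cs_add _ ihx ?_
      have h2 : ‖(bst (M v) k - bst (M x) k) ᵥ* M x‖ ≤ (2 : ℝ) ^ s * H := by
        have h3 : bst (M v) k - bst (M x) k =
            (e + bst (M v) k) + -(e + bst (M x) k) := by abel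
        rw [h3]
        refine cs_add _ ?_ ?_
        · exact (hr x v hxv _).trans (mul_le_mul_of_nonneg_left (hup v) (by positivity))
        · rw [cs_neg]
          exact (hup x).trans (le_mul_of_one_le_left hHpos.le h2s)
      calc ‖(bst (M v) k - bst (M x) k) ᵥ* M w‖
          ≤ K' * ‖(bst (M v) k - bst (M x) k) ᵥ* M x‖ :=
            ih w x hwx _ (Submodule.sub_mem _ (bst_mem _ _) (bst_mem _ _))
        _ ≤ K' * ((2 : ℝ) ^ s * H) := mul_le_mul_of_nonneg_left h2 (by linarith)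
        _ = K' * (2 : ℝ) ^ s * H := by ring
  intro w v hwv f hf
  set b : ℚ_[2] := f k with hb
  set g : Fin P → ℚ_[2] := f - b • e with hg
  have hgF : g ∈ Fl P (k + 1) := by
    intro j hj
    rw [hg, Pi.sub_apply, Pi.smul_apply, smul_eq_mul, he]
    rcases Nat.lt_succ_iff_lt_or_eq.1 hj with h1 | h1
    · have hjk : j ≠ k := fun h => by rw [h] at h1; exact lt_irrefl _ h1
      rw [hf j h1, Pi.single_eq_of_ne hjk, mul_zero, sub_zero]
    · have hjk : j = k := Fin.ext h1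
      subst hjk
      rw [Pi.single_eq_same, mul_one, hb, sub_self]
  set N : ℝ := ‖f ᵥ* M v‖ with hN
  have hN0 : 0 ≤ N := norm_nonneg _
  -- the coefficient
  have hbv : ‖b‖ * ‖(e + bst (M v) k) ᵥ* M v‖ ≤ N := by
    by_cases hb0 : b = 0
    · rw [hb0, norm_zero, zero_mul]
      exact hN0
    · have h1 : f = b • (e + b⁻¹ • g) := by
        rw [smul_add, smul_smul, mul_inv_cancel₀ hb0, one_smul, hg]
        abel
      rw [hN, h1, cs_smul]
      exact mul_le_mul_of_nonneg_left (bst_le _ _ (Submodule.smul_mem _ _ hgF)) (norm_nonneg _)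
  have hbH : ‖b‖ * H ≤ (2 : ℝ) ^ R * N := by
    calc ‖b‖ * H ≤ ‖b‖ * ((2 : ℝ) ^ R * ‖(e + bst (M v) k) ᵥ* M v‖) :=
          mul_le_mul_of_nonneg_left (hdown v) (norm_nonneg _)
      _ = (2 : ℝ) ^ R * (‖b‖ * ‖(e + bst (M v) k) ᵥ* M v‖) := by ring
      _ ≤ (2 : ℝ) ^ R * N := mul_le_mul_of_nonneg_left hbv (by positivity)
  have hgv : ‖(g - b • bst (M v) k) ᵥ* M v‖ ≤ N := by
    have h1 : g - b • bst (M v) k = f + -(b • (e + bst (M v) k)) := by
      rw [hg, smul_add]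
      abel
    rw [h1]
    refine cs_add _ le_rfl ?_
    rw [cs_neg, cs_smul]
    exact hbv
  have hsplit : f = b • (e + bst (M w) k) +
      ((g - b • bst (M v) k) + b • (bst (M v) k - bst (M w) k)) := by
    rw [hg, smul_add, smul_sub]
    abel
  have hfac : K' * (2 : ℝ) ^ (R + s) = K' * ((2 : ℝ) ^ R * (2 : ℝ) ^ s) := by
    rw [Real.rpow_add (by norm_num)]
  rw [hfac]
  have hRs : (2 : ℝ) ^ R ≤ (2 : ℝ) ^ R * (2 : ℝ) ^ s := le_mul_of_one_le_right (by positivity) h2s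
  have hK0 : (0 : ℝ) ≤ K' := by linarith
  have h1Rs : (1 : ℝ) ≤ (2 : ℝ) ^ R * (2 : ℝ) ^ s := h2R.trans hRs
  conv_lhs => rw [hsplit]
  refine cs_add _ ?_ (cs_add _ ?_ ?_)
  · rw [cs_smul]
    calc ‖b‖ * ‖(e + bst (M w) k) ᵥ* M w‖ ≤ ‖b‖ * H :=
          mul_le_mul_of_nonneg_left (hup w) (norm_nonneg _)
      _ ≤ (2 : ℝ) ^ R * N := hbH
      _ ≤ (K' * ((2 : ℝ) ^ R * (2 : ℝ) ^ s)) * N := by
        refine mul_le_mul_of_nonneg_right ?_ hN0
        exact hRs.trans (le_mul_of_one_le_left (by positivity) hK)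
  · calc ‖(g - b • bst (M v) k) ᵥ* M w‖ ≤ K' * ‖(g - b • bst (M v) k) ᵥ* M v‖ :=
          ih w v hwv _ (Submodule.sub_mem _ hgF (Submodule.smul_mem _ _ (bst_mem _ _)))
      _ ≤ K' * N := mul_le_mul_of_nonneg_left hgv hK0
      _ ≤ (K' * ((2 : ℝ) ^ R * (2 : ℝ) ^ s)) * N := by
        refine mul_le_mul_of_nonneg_right ?_ hN0
        exact le_mul_of_one_le_right hK0 h1Rs
  · rw [cs_smul]
    calc ‖b‖ * ‖(bst (M v) k - bst (M w) k) ᵥ* M w‖ ≤ ‖b‖ * (K' * (2 : ℝ) ^ s * H) :=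
          mul_le_mul_of_nonneg_left (hA w v hwv) (norm_nonneg _)
      _ = K' * (2 : ℝ) ^ s * (‖b‖ * H) := by ring
      _ ≤ K' * (2 : ℝ) ^ s * ((2 : ℝ) ^ R * N) := mul_le_mul_of_nonneg_left hbH (by positivity)
      _ = (K' * ((2 : ℝ) ^ R * (2 : ℝ) ^ s)) * N := by ring

end Pool.Agent.MDP
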