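import Pool.Agent.MDP.Mat

/-! Norms along good arcs. -/

open Classical
open Matrix

namespace Pool.Agent.MDP

universe u

variable {U : Type u} [Fintype U] {P : ℕ}

theorem exists_min_cost (w : Wt U P) (Y : Finset U) {a : U ⊕ Fin P → U ⊕ Fin P → Prop}
    {τ : Fin P → U × Fin P} (h : ∃ σ, Ok a τ σ) :
    ∃ σ0, Ok a τ σ0 ∧ ∀ σ, Ok a τ σ → cost w Y τ σ0 ≤ cost w Y τ σ := by
  obtain ⟨σ, hσ⟩ := h
  obtain ⟨σ0, h0, h1⟩ := Finset.exists_min_image
    (Finset.univ.filter (fun σ => Ok a τ σ)) (cost w Y τ) ⟨σ, by simpa using hσ⟩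
  refine ⟨σ0, (Finset.mem_filter.mp h0).2, fun σ hσ => h1 σ (by simpa using hσ)⟩

theorem tau_injective (y : U) : Function.Injective (tau (P := P) y) := by
  intro i j h
  simp only [tau, Prod.mk.injEq] at h
  exact h.2

theorem update_tau_injective {u y : U} (hne : u ≠ y) (j k : Fin P) :
    Function.Injective (Function.update (tau (P := P) y) j (u, k)) := by
  intro i1 i2 h
  by_cases h1 : i1 = j <;> by_cases h2 : i2 = j
  · rw [h1, h2]
  · subst h1
    rw [Function.update_self, Function.update_of_ne h2] at h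
    simp only [tau, Prod.mk.injEq] at h
    exact absurd h.1 hne
  · subst h2
    rw [Function.update_self, Function.update_of_ne h1] at h
    simp only [tau, Prod.mk.injEq] at h
    exact absurd h.1.symm hne
  · rw [Function.update_of_ne h1, Function.update_of_ne h2] at h
    exact tau_injective y h

/-- Good arcs: comparison of norms.

Proof. `f ᵥ* M u = (f ᵥ* M y) ᵥ* C` with `C = (M y)⁻¹ * M u`, and all entries of `C` have norm at most
`2 ^ (2 * Q)`, so (ultrametric) `‖f ᵥ* M u‖ ≤ 2 ^ (2 * Q) * ‖f ᵥ* M y‖`. Entries: by `hM2` the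
norm of `C j k` is `‖det (Nm (update (tau y) j (u, k)))‖ / ‖det (Nm (tau y))‖`. The numerator is `0` if
there is no allowed permutation (`det_zero`), otherwise it is `2 ^ (-c')` with `c'` the least cost
(`norm_det`; `update (tau y) j (u, k)` is injective since `u ≠ y`), the denominator is `2 ^ (-c)` with
the least cost `c` for `tau y`; and `¬ Bad` gives `c ≤ c' + 2 * Q`. -/
theorem good_le {w : Wt U P} (hw : ∀ (Y : Finset U) (τ : Fin P → U × Fin P),
      Function.Injective τ → Function.Injective (cost w Y τ)) {Y : Finset U}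
    {a : U ⊕ Fin P → U ⊕ Fin P → Prop} {M : U → Matrix (Fin P) (Fin P) ℚ_[2]}
    (hM1 : ∀ y ∈ Y, (M y).det ≠ 0)
    (hM2 : ∀ v ∈ Y, ∀ z ∈ Y, ∀ j k, ((M v)⁻¹ * M z) j k * (Nm w Y a (tau v)).det =
        (Nm w Y a (Function.update (tau v) j (z, k))).det)
    (hfan : ∀ y ∈ Y, ∃ σ, Ok a (tau y) σ) {u y : U} (hu : u ∈ Y) (hy : y ∈ Y) (hne : u ≠ y)
    (hb : ¬ Bad w Y a u y) (f : Fin P → ℚ_[2]) :
    ‖f ᵥ* M u‖ ≤ (2 : ℝ) ^ (2 * w.Q : ℝ) * ‖f ᵥ* M y‖ := by
  have hfy := hfan y hy
  obtain ⟨σ0, h0, hopt⟩ := exists_min_cost w Y hfy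
  have hD := norm_det w Y (hw Y _ (tau_injective y)) h0 hopt
  have hDpos : 0 < ‖(Nm w Y a (tau y)).det‖ := by
    rw [hD]; positivity
  have hC : ∀ j k, ‖((M y)⁻¹ * M u) j k‖ ≤ (2 : ℝ) ^ (2 * w.Q) := by
    intro j k
    have h2 := congrArg norm (hM2 y hy u hu j k)
    rw [norm_mul] at h2
    by_cases hex : ∃ σ, Ok a (Function.update (tau y) j (u, k)) σ
    · obtain ⟨σ', h', hopt'⟩ := exists_min_cost w Y hex
      have hD' := norm_det w Y (hw Y _ (update_tau_injective hne j k)) h' hopt'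
      have hle : cost w Y (tau y) σ0 ≤
          cost w Y (Function.update (tau y) j (u, k)) σ' + 2 * w.Q := by
        by_contra hcon
        apply hb
        refine ⟨j, k, σ', h', fun σ hσ => ?_⟩
        have := hopt σ hσ
        omega
      rw [hD, hD'] at h2
      rw [← mul_le_mul_iff_left₀ (show (0 : ℝ) < 2 ^ (-(cost w Y (tau y) σ0 : ℤ)) by positivity),
        h2, ← zpow_natCast, ← zpow_add₀ (by norm_num : (2 : ℝ) ≠ 0)]
      apply zpow_le_zpow_right₀ (by norm_num)
      push_cast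
      omega
    · rw [det_zero w Y hex, norm_zero] at h2
      have h3 : ‖((M y)⁻¹ * M u) j k‖ = 0 := by
        rcases mul_eq_zero.mp h2 with h | h
        · exact h
        · exact absurd h hDpos.ne'
      rw [h3]
      positivity
  have hunit : IsUnit (M y).det := isUnit_iff_ne_zero.mpr (hM1 y hy)
  have hfu : f ᵥ* M u = (f ᵥ* M y) ᵥ* ((M y)⁻¹ * M u) := by
    rw [Matrix.vecMul_vecMul, ← Matrix.mul_assoc, Matrix.mul_nonsing_inv _ hunit,
      Matrix.one_mul]
  have hpow : (2 : ℝ) ^ (2 * w.Q : ℝ) = (2 : ℝ) ^ (2 * w.Q) := by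
    rw [← Real.rpow_natCast]
    push_cast
    rfl
  rw [hfu, hpow]
  rw [pi_norm_le_iff_of_nonneg (by positivity)]
  intro k
  simp only [Matrix.vecMul, dotProduct]
  apply IsUltrametricDist.norm_sum_le_of_forall_le_of_nonneg (by positivity)
  intro j _
  rw [norm_mul, mul_comm]
  exact mul_le_mul (hC j k) (norm_le_pi_norm (f := fun j => ∑ i, f i * M y i j) j)
    (norm_nonneg _) (by positivity)

end Pool.Agent.MDP
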