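import Pool.Agent.MDP.Perm

/-! Weights which separate all permutations. -/

open Classical

namespace Pool.Agent.MDP

universe u

section noise

variable {U : Type u} {P : ℕ}

/-- possible edges -/
private abbrev NzE (U : Type u) (P : ℕ) : Type u :=
  ((U ⊕ Fin P) × U) ⊕ ((U ⊕ Fin P) × (U × Fin P))

/-- the edge given by a row and a column -/
private noncomputable def nzEdge (τ : Fin P → U × Fin P) (x : U ⊕ Fin P) :
    U ⊕ Fin P → Option (NzE U P)
  | Sum.inl u => if x = Sum.inl u then none else some (Sum.inl (x, u))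
  | Sum.inr k => some (Sum.inr (x, τ k))

/-- the row of an edge -/
private def nzFst : NzE U P → U ⊕ Fin P
  | Sum.inl p => p.1
  | Sum.inr p => p.1

private theorem nzEdge_inl (τ : Fin P → U × Fin P) (x : U ⊕ Fin P) (u : U) :
    nzEdge τ x (Sum.inl u) = if x = Sum.inl u then none else some (Sum.inl (x, u)) := rfl

private theorem nzEdge_inr (τ : Fin P → U × Fin P) (x : U ⊕ Fin P) (k : Fin P) :
    nzEdge τ x (Sum.inr k) = some (Sum.inr (x, τ k)) := rfl

private theorem nzFst_of_edge {τ : Fin P → U × Fin P} {x c : U ⊕ Fin P} {ε : NzE U P}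
    (h : nzEdge τ x c = some ε) : nzFst ε = x := by
  cases c with
  | inl u =>
    rw [nzEdge_inl] at h
    by_cases hx : x = Sum.inl u
    · rw [if_pos hx] at h
      exact absurd h (by simp)
    · rw [if_neg hx] at h
      rw [← Option.some.inj h]
      rfl
  | inr k =>
    rw [nzEdge_inr] at h
    rw [← Option.some.inj h]
    rfl

private theorem nzEdge_none {τ : Fin P → U × Fin P} {x c : U ⊕ Fin P}
    (h : nzEdge τ x c = none) : c = x := by
  cases c with
  | inl u =>
    rw [nzEdge_inl] at h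
    by_cases hx : x = Sum.inl u
    · exact hx.symm
    · rw [if_neg hx] at h
      exact absurd h (by simp)
  | inr k =>
    rw [nzEdge_inr] at h
    exact absurd h (by simp)

private theorem nzEdge_inj {τ : Fin P → U × Fin P} (hτ : Function.Injective τ)
    {x c c' : U ⊕ Fin P} {ε : NzE U P} (h : nzEdge τ x c = some ε)
    (h' : nzEdge τ x c' = some ε) : c = c' := by
  cases c with
  | inl u =>
    rw [nzEdge_inl] at h
    by_cases hx : x = Sum.inl u
    · rw [if_pos hx] at h
      exact absurd h (by simp)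
    rw [if_neg hx] at h
    have e1 := Option.some.inj h
    cases c' with
    | inl u' =>
      rw [nzEdge_inl] at h'
      by_cases hx' : x = Sum.inl u'
      · rw [if_pos hx'] at h'
        exact absurd h' (by simp)
      rw [if_neg hx'] at h'
      have e2 := Option.some.inj h'
      rw [← e2] at e1
      have e3 := congrArg Prod.snd (Sum.inl.inj e1)
      exact congrArg Sum.inl e3
    | inr k' =>
      rw [nzEdge_inr] at h'
      have e2 := Option.some.inj h'
      rw [← e2] at e1
      exact absurd e1 (by simp)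
  | inr k =>
    rw [nzEdge_inr] at h
    have e1 := Option.some.inj h
    cases c' with
    | inl u' =>
      rw [nzEdge_inl] at h'
      by_cases hx' : x = Sum.inl u'
      · rw [if_pos hx'] at h'
        exact absurd h' (by simp)
      rw [if_neg hx'] at h'
      have e2 := Option.some.inj h'
      rw [← e2] at e1
      exact absurd e1 (by simp)
    | inr k' =>
      rw [nzEdge_inr] at h'
      have e2 := Option.some.inj h'
      rw [← e2] at e1
      have e3 := congrArg Prod.snd (Sum.inr.inj e1)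
      exact congrArg Sum.inr (hτ e3)

variable [Fintype U]

private noncomputable def nzEquiv (U : Type u) [Fintype U] (P : ℕ) :
    NzE U P ≃ Fin (Fintype.card (NzE U P)) := Fintype.equivFin _

private theorem nz_sum (U : Type u) [Fintype U] (P : ℕ) :
    ∑ ε : NzE U P, 2 ^ (nzEquiv U P ε : ℕ) = 2 ^ (Fintype.card (NzE U P)) - 1 := by
  rw [Equiv.sum_comp (nzEquiv U P) (fun i : Fin (Fintype.card (NzE U P)) => 2 ^ (i : ℕ)),
    Fin.sum_univ_eq_sum_range (fun i => 2 ^ i)]
  have h := Nat.geomSum_eq (m := 2) le_rfl (Fintype.card (NzE U P))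
  rw [h]
  simp

/-- the weights -/
private noncomputable def nzWt (U : Type u) [Fintype U] (P : ℕ) : Wt U P where
  Q := 2 ^ (Fintype.card (NzE U P) + 1)
  n1 x u := 2 ^ (nzEquiv U P (Sum.inl (x, u)) : ℕ)
  n2 x l := 2 ^ (nzEquiv U P (Sum.inr (x, l)) : ℕ)
  small := by
    have h := nz_sum U P
    rw [Fintype.sum_sum_type, Fintype.sum_prod_type, Fintype.sum_prod_type] at h
    rw [h, pow_succ]
    have h1 : 0 < 2 ^ (Fintype.card (NzE U P)) := by positivity
    omega

private noncomputable def nzVal (U : Type u) [Fintype U] (P : ℕ) : Option (NzE U P) → ℕ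
  | none => 0
  | some ε => 2 ^ (nzEquiv U P ε : ℕ)

private theorem nz_cst_inl (w : Wt U P) (Y : Finset U) (τ : Fin P → U × Fin P) (x : U ⊕ Fin P)
    (u : U) : cst w Y τ x (Sum.inl u) =
      if x = Sum.inl u then 0 else (if u ∈ Y then w.Q else 0) + w.n1 x u := rfl

private theorem nz_cst (Y : Finset U) (τ : Fin P → U × Fin P) (x c : U ⊕ Fin P) :
    ∃ b : ℕ, cst (nzWt U P) Y τ x c = (nzWt U P).Q * b + nzVal U P (nzEdge τ x c) := by
  cases c with
  | inl u =>
    by_cases hx : x = Sum.inl u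
    · refine ⟨0, ?_⟩
      rw [nz_cst_inl, nzEdge_inl, if_pos hx, if_pos hx, mul_zero]
      rfl
    · refine ⟨if u ∈ Y then 1 else 0, ?_⟩
      rw [nz_cst_inl, nzEdge_inl, if_neg hx, if_neg hx]
      by_cases hu : u ∈ Y
      · rw [if_pos hu, if_pos hu, mul_one]
        rfl
      · rw [if_neg hu, if_neg hu, mul_zero]
        rfl
  | inr k =>
    refine ⟨0, ?_⟩
    rw [mul_zero, zero_add]
    rfl

/-- the edge is used by the permutation -/
private def NzM (τ : Fin P → U × Fin P) (σ : Equiv.Perm (U ⊕ Fin P)) (ε : NzE U P) : Prop :=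
  nzEdge τ (nzFst ε) (σ (nzFst ε)) = some ε

private noncomputable def nzS (τ : Fin P → U × Fin P) (σ : Equiv.Perm (U ⊕ Fin P)) : Finset ℕ :=
  (Finset.univ.filter (NzM τ σ)).image fun ε => (nzEquiv U P ε : ℕ)

private theorem nz_val_sum (τ : Fin P → U × Fin P) (σ : Equiv.Perm (U ⊕ Fin P)) :
    ∑ x, nzVal U P (nzEdge τ x (σ x)) = ∑ i ∈ nzS τ σ, 2 ^ i := by
  unfold nzS
  rw [Finset.sum_image (fun ε _ ε' _ h => (nzEquiv U P).injective (Fin.ext h)),
    Finset.sum_filter, ← Finset.sum_fiberwise Finset.univ (nzFst (U := U) (P := P))]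
  refine Finset.sum_congr rfl fun x _ => ?_
  cases h : nzEdge τ x (σ x) with
  | none =>
    symm
    refine Finset.sum_eq_zero fun ε hε => ?_
    have hx : nzFst ε = x := (Finset.mem_filter.1 hε).2
    rw [if_neg]
    intro h1
    unfold NzM at h1
    rw [hx, h] at h1
    exact absurd h1 (by simp)
  | some ε₀ =>
    have hx : nzFst ε₀ = x := nzFst_of_edge h
    rw [Finset.sum_eq_single ε₀]
    · rw [if_pos]
      · rfl
      · unfold NzM
        rw [hx, h]
    · intro ε hε hne
      have hx' : nzFst ε = x := (Finset.mem_filter.1 hε).2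
      rw [if_neg]
      intro h1
      unfold NzM at h1
      rw [hx', h] at h1
      exact hne (Option.some.inj h1).symm
    · intro h1
      exact absurd (Finset.mem_filter.2 ⟨Finset.mem_univ ε₀, hx⟩) h1

private theorem nz_lt (τ : Fin P → U × Fin P) (σ : Equiv.Perm (U ⊕ Fin P)) :
    ∑ i ∈ nzS τ σ, 2 ^ i < (nzWt U P).Q := by
  have h1 : ∑ i ∈ nzS τ σ, 2 ^ i < 2 ^ (Fintype.card (NzE U P)) := by
    refine Nat.geomSum_lt le_rfl fun i hi => ?_
    obtain ⟨ε, _, rfl⟩ := Finset.mem_image.1 hi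
    exact (nzEquiv U P ε).isLt
  have h2 : (nzWt U P).Q = 2 ^ (Fintype.card (NzE U P)) * 2 := pow_succ _ _
  omega

private theorem nz_cost (Y : Finset U) (τ : Fin P → U × Fin P) (σ : Equiv.Perm (U ⊕ Fin P)) :
    cost (nzWt U P) Y τ σ % (nzWt U P).Q = ∑ i ∈ nzS τ σ, 2 ^ i := by
  choose b hb using fun x => nz_cst Y τ x (σ x)
  unfold cost
  rw [Finset.sum_congr rfl fun x _ => hb x, Finset.sum_add_distrib, ← Finset.mul_sum,
    nz_val_sum, Nat.mul_add_mod, Nat.mod_eq_of_lt (nz_lt τ σ)]

private theorem nz_edges {τ : Fin P → U × Fin P} {σ σ' : Equiv.Perm (U ⊕ Fin P)}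
    (h : nzS τ σ = nzS τ σ') (ε : NzE U P) (h1 : NzM τ σ ε) : NzM τ σ' ε := by
  have h2 : (nzEquiv U P ε : ℕ) ∈ nzS τ σ :=
    Finset.mem_image_of_mem _ (Finset.mem_filter.2 ⟨Finset.mem_univ _, h1⟩)
  rw [h] at h2
  obtain ⟨ε', h3, h4⟩ := Finset.mem_image.1 h2
  have h5 : ε' = ε := (nzEquiv U P).injective (Fin.ext h4)
  rw [← h5]
  exact (Finset.mem_filter.1 h3).2

private theorem nz_some {τ : Fin P → U × Fin P} {σ σ' : Equiv.Perm (U ⊕ Fin P)}
    (h : nzS τ σ = nzS τ σ') {x : U ⊕ Fin P} {ε : NzE U P}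
    (h1 : nzEdge τ x (σ x) = some ε) : nzEdge τ x (σ' x) = some ε := by
  have hx : nzFst ε = x := nzFst_of_edge h1
  have h2 : NzM τ σ ε := by
    unfold NzM
    rw [hx, h1]
  have h3 := nz_edges h ε h2
  unfold NzM at h3
  rwa [hx] at h3

end noise

/-- Proof. Let `E = (A × U) ⊕ (A × (U × Fin P))`, `A = U ⊕ Fin P` (possible edges) and `e : E ≃ Fin n`
(`Fintype.equivFin`). Put `n1 x u = 2 ^ (e (inl (x, u)))`, `n2 x l = 2 ^ (e (inr (x, l)))`,
`Q = 2 ^ (n + 1)`. The sum of all noise is `∑ i < n, 2 ^ i = 2 ^ n - 1`, so `small` holds.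
For `σ` let `S σ : Finset ℕ` be the set of the indices of the edges of `σ`: `e (inl (x, u))` for
`σ x = inl u`, `x ≠ inl u`, and `e (inr (x, τ k))` for `σ x = inr k`. Different rows give different
edges, so `cost w Y τ σ = Q * (number) + ∑ i ∈ S σ, 2 ^ i` with the last sum `< 2 ^ n < Q`. If two
permutations have the same cost then (modulo `Q`) `∑ i ∈ S σ, 2 ^ i = ∑ i ∈ S σ', 2 ^ i`, so
`S σ = S σ'` (`Finset.geomSum_injective`). Then `σ = σ'`: if `σ x = inl u ≠ x` then the edge
`(x, u)` is in `S σ'`, so `σ' x = inl u`; if `σ x = inr k` then `(x, τ k)` is in `S σ'`, so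
`σ' x = inr k'` with `τ k' = τ k`, `k' = k` as `τ` is injective; if `σ x = x = inl u` then no edge with
first component `x` is in `S σ = S σ'`, so `σ' x = x`. -/
theorem exists_wt (U : Type u) [Fintype U] (P : ℕ) : ∃ w : Wt U P,
    ∀ (Y : Finset U) (τ : Fin P → U × Fin P), Function.Injective τ →
      Function.Injective (cost w Y τ) := by
  refine ⟨nzWt U P, fun Y τ hτ σ σ' h => ?_⟩
  have h1 : nzS τ σ = nzS τ σ' := by
    refine Finset.geomSum_injective (n := 2) le_rfl ?_
    change ∑ i ∈ nzS τ σ, 2 ^ i = ∑ i ∈ nzS τ σ', 2 ^ i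
    rw [← nz_cost Y τ σ, ← nz_cost Y τ σ', h]
  refine Equiv.ext fun x => ?_
  cases h2 : nzEdge τ x (σ x) with
  | none =>
    cases h3 : nzEdge τ x (σ' x) with
    | none => rw [nzEdge_none h2, nzEdge_none h3]
    | some ε =>
      have h4 := nz_some h1.symm h3
      rw [h2] at h4
      exact absurd h4 (by simp)
  | some ε => exact nzEdge_inj hτ h2 (nz_some h1 h2)

end Pool.Agent.MDP
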