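import Pool.Agent.MDP.Perm

/-! The cut lemma. -/

open Classical

namespace Pool.Agent.MDP

universe u

variable {U : Type u} [Fintype U] {P : ℕ}

/-- The cut lemma. `x` is a row whose path leads to the target `k` in `m` steps, and there is an
arc from `x` to the vertex `l.1`. Then we may lead `x` directly to the target `k` with the new
label `l` and make the vertices between `x` and the target idle.

Proof. Let `Z = {z | ∃ j, 1 ≤ j ∧ j < m ∧ (σ ^ j) x = z}`. Define `f z = z` if `z ∈ Z`,
`f x = inr k`, and `f z = σ z` otherwise (`x ∉ Z`: otherwise `(σ ^ j) x = x` with `1 ≤ j < m`, the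
orbit of `x` is periodic and contained in `{x} ∪ Z`, all of whose elements except `x` are `inl`, and
`inr k = (σ ^ m) x` would be `x` and some `(σ ^ i) x`...; more directly: choose `j` with
`(σ ^ j) x = x`, `1 ≤ j < m`; then `x` itself is `inl _` and by induction `(σ ^ i) x` is `inl _` for
every `i` (reduce `i` modulo `j`), contradiction to `(σ ^ m) x = inr k`). `f` is
injective: for `z ∉ Z`, `z ≠ x` the value `σ z` is not in `Z` (if `σ z = (σ ^ j) x` then
`z = (σ ^ (j - 1)) x`, which is `x` or in `Z`), and is not `inr k` (if `σ z = (σ ^ m) x` then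
`z = (σ ^ (m - 1)) x` is `x` or in `Z`). So `f` is a permutation `σ'` (finite type). `Ok`: the rows in `Z`
are `inl _` and idle; `x ↦ inr k` with label `l` by `hl`; for the other rows the column is not
`inr k`, so the label of a target column is unchanged.
`used`: every `u` with `inl u ∈ Z` is idle in `σ'` and not idle in `σ` (otherwise
`(σ ^ (j + 1)) x = (σ ^ j) x` and then `(σ ^ m) x = (σ ^ j) x` is `inl _`), and if `u` is not idle in `σ'`
then `inl u ∉ Z` and `u` is not idle in `σ` (if `inl u = x` then `σ x ≠ x`, otherwise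
`(σ ^ m) x = x = inl u`; if `inl u ≠ x` then `σ' (inl u) = σ (inl u)`). -/
theorem cut {a : U ⊕ Fin P → U ⊕ Fin P → Prop} {τ : Fin P → U × Fin P}
    {σ : Equiv.Perm (U ⊕ Fin P)} (hσ : Ok a τ σ) {x : U ⊕ Fin P} {k : Fin P} {m : ℕ}
    (hm : 1 ≤ m) (hk : (σ ^ m) x = Sum.inr k)
    (hin : ∀ j, 1 ≤ j → j < m → ∃ u, (σ ^ j) x = Sum.inl u) (l : U × Fin P)
    (hl : a x (Sum.inl l.1)) :
    ∃ σ' : Equiv.Perm (U ⊕ Fin P), Ok a (Function.update τ k l) σ' ∧
      ∀ Y : Finset U, used Y σ' +
        (Y.filter (fun u => ∃ j, 1 ≤ j ∧ j < m ∧ (σ ^ j) x = Sum.inl u)).card ≤ used Y σ := by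
  obtain ⟨Z, hZ⟩ : ∃ Z : Set (U ⊕ Fin P), ∀ z, z ∈ Z ↔ ∃ j, 1 ≤ j ∧ j < m ∧ (σ ^ j) x = z :=
    ⟨{z | ∃ j, 1 ≤ j ∧ j < m ∧ (σ ^ j) x = z}, fun z => Iff.rfl⟩
  have hZinl : ∀ z ∈ Z, ∃ u, z = Sum.inl u := by
    intro z hz
    obtain ⟨j, h1, h2, rfl⟩ := (hZ z).1 hz
    exact hin j h1 h2
  -- the row `x` is not in `Z`
  have hxZ : x ∉ Z := by
    intro hx
    obtain ⟨j, h1, h2, h3⟩ := (hZ x).1 hx
    have key : ∀ i : ℕ, ∃ u, (σ ^ i) x = Sum.inl u := by
      intro i
      induction i using Nat.strong_induction_on with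
      | _ i ih =>
        rcases Nat.eq_zero_or_pos i with h0 | h0
        · rw [h0, pow_zero]
          exact hZinl x hx
        · rcases lt_or_ge i m with h4 | h4
          · exact hin i h0 h4
          · obtain ⟨u, hu⟩ := ih (i - j) (by omega)
            refine ⟨u, ?_⟩
            rw [← hu]
            have h5 : i = (i - j) + j := by omega
            conv_lhs => rw [h5, pow_add, Equiv.Perm.mul_apply, h3]
    obtain ⟨u, hu⟩ := key m
    rw [hk] at hu
    exact absurd hu (by simp)
  -- predecessors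
  have hpred : ∀ z, ∀ j, 1 ≤ j → j ≤ m → σ z = (σ ^ j) x → z = x ∨ z ∈ Z := by
    intro z j h1 h2 h3
    have h4 : (σ ^ j) x = σ ((σ ^ (j - 1)) x) := by
      rw [← Equiv.Perm.mul_apply, ← pow_succ']
      congr 2
      omega
    rw [h4] at h3
    have h5 := σ.injective h3
    rcases Nat.eq_zero_or_pos (j - 1) with h6 | h6
    · left
      rw [h5, h6, pow_zero]
      rfl
    · right
      exact (hZ z).2 ⟨j - 1, h6, by omega, h5.symm⟩
  have hσZ : ∀ z, z ∉ Z → z ≠ x → σ z ∉ Z := by
    intro z h1 h2 h3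
    obtain ⟨j, h4, h5, h6⟩ := (hZ _).1 h3
    rcases hpred z j h4 h5.le h6.symm with h | h
    · exact h2 h
    · exact h1 h
  have hσk : ∀ z, z ∉ Z → z ≠ x → σ z ≠ Sum.inr k := by
    intro z h1 h2 h3
    rcases hpred z m hm le_rfl (h3.trans hk.symm) with h | h
    · exact h2 h
    · exact h1 h
  obtain ⟨f, hf1, hf2, hf3⟩ : ∃ f : U ⊕ Fin P → U ⊕ Fin P, (∀ z ∈ Z, f z = z) ∧
      f x = Sum.inr k ∧ ∀ z, z ∉ Z → z ≠ x → f z = σ z := by
    refine ⟨fun z => if z ∈ Z then z else if z = x then Sum.inr k else σ z, ?_, ?_, ?_⟩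
    · intro z hz
      exact if_pos hz
    · simp only [if_neg hxZ, if_true]
    · intro z hz hz'
      simp only [if_neg hz, if_neg hz']
  have hinj : Function.Injective f := by
    have h12 : ∀ z ∈ Z, z ≠ Sum.inr k := by
      intro z hz h
      obtain ⟨u, hu⟩ := hZinl z hz
      rw [hu] at h
      exact absurd h (by simp)
    intro z₁ z₂ h
    by_cases a1 : z₁ ∈ Z
    · by_cases a2 : z₂ ∈ Z
      · rwa [hf1 _ a1, hf1 _ a2] at h
      · by_cases b2 : z₂ = x
        · rw [hf1 _ a1, b2, hf2] at h
          exact absurd h (h12 _ a1)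
        · rw [hf1 _ a1, hf3 _ a2 b2] at h
          rw [h] at a1
          exact absurd a1 (hσZ _ a2 b2)
    · by_cases b1 : z₁ = x
      · by_cases a2 : z₂ ∈ Z
        · rw [b1, hf2, hf1 _ a2] at h
          exact absurd h.symm (h12 _ a2)
        · by_cases b2 : z₂ = x
          · rw [b1, b2]
          · rw [b1, hf2, hf3 _ a2 b2] at h
            exact absurd h.symm (hσk _ a2 b2)
      · rw [hf3 _ a1 b1] at h
        by_cases a2 : z₂ ∈ Z
        · rw [hf1 _ a2] at h
          rw [← h] at a2
          exact absurd a2 (hσZ _ a1 b1)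
        · by_cases b2 : z₂ = x
          · rw [b2, hf2] at h
            exact absurd h (hσk _ a1 b1)
          · rw [hf3 _ a2 b2] at h
            exact σ.injective h
  have hbij : Function.Bijective f := Finite.injective_iff_bijective.1 hinj
  refine ⟨Equiv.ofBijective f hbij, fun z => ?_, fun Y => ?_⟩
  · rw [Equiv.ofBijective_apply]
    by_cases a1 : z ∈ Z
    · rw [hf1 z a1]
      obtain ⟨u, rfl⟩ := hZinl z a1
      exact Or.inl rfl
    · by_cases b1 : z = x
      · rw [b1, hf2]
        show a x (Sum.inl (Function.update τ k l k).1)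
        rw [Function.update_self]
        exact hl
      · rw [hf3 z a1 b1]
        have h1 := hσ z
        have h2 := hσk z a1 b1
        rcases hz : σ z with u | k'
        · rw [hz] at h1
          exact h1
        · rw [hz] at h1 h2
          have h3 : k' ≠ k := fun h => h2 (by rw [h])
          show a z (Sum.inl (Function.update τ k l k').1)
          rw [Function.update_of_ne h3]
          exact h1
  · unfold used
    rw [← Finset.card_union_of_disjoint]
    · apply Finset.card_le_card
      intro u hu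
      rw [Finset.mem_union, Finset.mem_filter, Finset.mem_filter] at hu
      rw [Finset.mem_filter]
      rcases hu with ⟨h1, h2⟩ | ⟨h1, j, h2, h3, h4⟩
      · refine ⟨h1, fun h5 => ?_⟩
        rw [Equiv.ofBijective_apply] at h2
        by_cases a1 : (Sum.inl u : U ⊕ Fin P) ∈ Z
        · exact h2 (hf1 _ a1)
        · by_cases b1 : (Sum.inl u : U ⊕ Fin P) = x
          · have h6 : (σ ^ m) x = x :=
              Equiv.Perm.pow_apply_eq_self_of_apply_eq_self (by rw [← b1]; exact h5) m
            rw [hk, ← b1] at h6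
            exact absurd h6 (by simp)
          · rw [hf3 _ a1 b1] at h2
            exact h2 h5
      · refine ⟨h1, fun h5 => ?_⟩
        have h6 : (σ ^ (m - j)) (Sum.inl u) = Sum.inl u :=
          Equiv.Perm.pow_apply_eq_self_of_apply_eq_self h5 _
        rw [← h4, ← Equiv.Perm.mul_apply, ← pow_add, h4] at h6
        have h7 : m - j + j = m := by omega
        rw [h7, hk] at h6
        exact absurd h6 (by simp)
    · rw [Finset.disjoint_left]
      intro u h1 h2
      rw [Finset.mem_filter] at h1 h2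
      rw [Equiv.ofBijective_apply] at h1
      exact h1.2 (hf1 _ ((hZ _).2 h2.2))

end Pool.Agent.MDP
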