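import Pool.Agent.MDP.Cost

/-! Non-idle vertices lie on paths. -/

open Classical

namespace Pool.Agent.MDP

universe u

variable {U : Type u} [Fintype U] {P : ℕ}

/-- In a permutation of minimal cost every non-idle vertex of `Y` is on a path to a target.

Proof. Let `u ∈ Y`, `σ (inl u) ≠ inl u`. If some `(σ ^ m) (inl u)` is of the form `inr k`, take the least
such `m` (it is `≥ 1`). Otherwise all `(σ ^ j) (inl u)` are `inl _`; then the permutation `σ'` which is
the identity on the cycle `Z = {z | ∃ j, (σ ^ j) (inl u) = z}` and `σ` outside (`Z` is invariant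
under `σ` and `σ⁻¹`, as the type is finite; e.g. `σ * (σ.cycleOf (inl u))⁻¹`) is `Ok a τ`, and
`used Y σ' < used Y σ` (`u` became idle, nothing new is used).
Then `2 * cost σ' < 2 * Q * used Y σ' + Q < 2 * Q * used Y σ ≤ 2 * cost σ` (`cost_lt`, `cost_ge`),
contradiction (note that `Q > 0` by `w.small`). -/
theorem exit {w : Wt U P} {Y : Finset U} {a : U ⊕ Fin P → U ⊕ Fin P → Prop}
    {τ : Fin P → U × Fin P} {σ : Equiv.Perm (U ⊕ Fin P)} (hσ : Ok a τ σ)
    (hopt : ∀ σ', Ok a τ σ' → cost w Y τ σ ≤ cost w Y τ σ') {u : U} (hu : u ∈ Y)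
    (hne : σ (Sum.inl u) ≠ Sum.inl u) :
    ∃ m k, 1 ≤ m ∧ (σ ^ m) (Sum.inl u) = Sum.inr k ∧
      ∀ j < m, ∃ u', (σ ^ j) (Sum.inl u) = Sum.inl u' := by
  by_cases h : ∃ m, ∃ k, (σ ^ m) (Sum.inl u) = Sum.inr k
  · have hs := Nat.find_spec h
    obtain ⟨k, hk⟩ := hs
    refine ⟨Nat.find h, k, ?_, hk, ?_⟩
    · rcases Nat.eq_zero_or_pos (Nat.find h) with h0 | h0
      · rw [h0] at hk
        simp at hk
      · exact h0
    · intro j hj
      have hj' := Nat.find_min h hj
      rcases hz : (σ ^ j) (Sum.inl u) with u' | k'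
      · exact ⟨u', rfl⟩
      · exact absurd ⟨k', hz⟩ hj'
  · exfalso
    have hA : ∀ z, Equiv.Perm.SameCycle σ (Sum.inl u) z →
        (σ * (σ.cycleOf (Sum.inl u))⁻¹) z = z := by
      intro z hz
      have h1 : (σ.cycleOf (Sum.inl u))⁻¹ z = σ⁻¹ z := by
        rw [Equiv.Perm.cycleOf_inv]
        exact (Equiv.Perm.sameCycle_inv.2 hz).cycleOf_apply
      rw [Equiv.Perm.mul_apply, h1]
      exact σ.apply_symm_apply z
    have hB : ∀ z, ¬ Equiv.Perm.SameCycle σ (Sum.inl u) z →
        (σ * (σ.cycleOf (Sum.inl u))⁻¹) z = σ z := by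
      intro z hz
      have h1 : (σ.cycleOf (Sum.inl u))⁻¹ z = z := by
        rw [Equiv.Perm.cycleOf_inv]
        exact Equiv.Perm.cycleOf_apply_of_not_sameCycle
          (fun h2 => hz (Equiv.Perm.sameCycle_inv.1 h2))
      rw [Equiv.Perm.mul_apply, h1]
    have hok : Ok a τ (σ * (σ.cycleOf (Sum.inl u))⁻¹) := by
      intro x
      by_cases hx : Equiv.Perm.SameCycle σ (Sum.inl u) x
      · rw [hA x hx]
        obtain ⟨n, _, hn⟩ := hx.exists_pow_eq'
        rcases x with x | k
        · exact Or.inl rfl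
        · exact absurd ⟨n, k, hn⟩ h
      · rw [hB x hx]
        exact hσ x
    have hused : used Y (σ * (σ.cycleOf (Sum.inl u))⁻¹) < used Y σ := by
      unfold used
      refine Finset.card_lt_card ?_
      refine (Finset.ssubset_iff_of_subset ?_).2 ?_
      · intro v hv
        rw [Finset.mem_filter] at hv ⊢
        refine ⟨hv.1, ?_⟩
        by_cases hx : Equiv.Perm.SameCycle σ (Sum.inl u) (Sum.inl v)
        · exact absurd (hA _ hx) hv.2
        · rw [← hB _ hx]
          exact hv.2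
      · refine ⟨u, Finset.mem_filter.2 ⟨hu, hne⟩, fun h2 => ?_⟩
        exact (Finset.mem_filter.1 h2).2 (hA _ (Equiv.Perm.SameCycle.refl _ _))
    have h1 := cost_lt w Y τ (σ * (σ.cycleOf (Sum.inl u))⁻¹)
    have h2 := cost_ge w Y τ σ
    have h3 := hopt _ hok
    have h4 : w.Q * (used Y (σ * (σ.cycleOf (Sum.inl u))⁻¹) + 1) ≤ w.Q * used Y σ :=
      Nat.mul_le_mul_left _ hused
    rw [Nat.mul_add, Nat.mul_one] at h4
    omega

end Pool.Agent.MDP
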