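import Pool.Agent.MDP.Mat
import Pool.Agent.MDP.Cut
import Pool.Agent.MDP.Exit

/-! Bounded oscillation gives bounded use. -/

open Classical
open Matrix

namespace Pool.Agent.MDP

universe u

variable {U : Type u} [Fintype U] {P : ℕ}

private theorem usele_min {a : U ⊕ Fin P → U ⊕ Fin P → Prop} {τ : Fin P → U × Fin P}
    (w : Wt U P) (Y : Finset U) (h : ∃ σ, Ok a τ σ) :
    ∃ σ, Ok a τ σ ∧ ∀ σ', Ok a τ σ' → cost w Y τ σ ≤ cost w Y τ σ' := by
  obtain ⟨σ, hσ⟩ := h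
  obtain ⟨σ₀, h0, h1⟩ := Set.exists_min_image {σ | Ok a τ σ} (cost w Y τ)
    (Set.toFinite _) ⟨σ, hσ⟩
  exact ⟨σ₀, h0, h1⟩

private theorem usele_tau_inj (v : U) : Function.Injective (tau (P := P) v) := by
  intro i j h
  exact congrArg Prod.snd h

private theorem usele_upd_snd (v z : U) (k i : Fin P) :
    (Function.update (tau v) k (z, k) i).2 = i := by
  by_cases h : i = k
  · rw [h, Function.update_self]
  · rw [Function.update_of_ne h]
    rfl

private theorem usele_upd_inj (v z : U) (k : Fin P) :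
    Function.Injective (Function.update (tau v) k (z, k)) := by
  intro i j h
  have h1 := congrArg Prod.snd h
  rwa [usele_upd_snd, usele_upd_snd] at h1

/-- The cut at a non-idle vertex `z` on the path to the target `k`, with the label `(z, k)`. -/
private theorem usele_cut {a : U ⊕ Fin P → U ⊕ Fin P → Prop} {v : U}
    {σ : Equiv.Perm (U ⊕ Fin P)} (hσ : Ok a (tau v) σ) {z : U} {k : Fin P} {m : ℕ}
    (hz : σ (Sum.inl z) ≠ Sum.inl z) (hk : (σ ^ m) (Sum.inl z) = Sum.inr k)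
    (hin : ∀ j < m, ∃ u', (σ ^ j) (Sum.inl z) = Sum.inl u') :
    ∃ σ' : Equiv.Perm (U ⊕ Fin P), Ok a (Function.update (tau v) k (z, k)) σ' ∧
      ∀ Y A : Finset U, A ⊆ Y → (∀ u ∈ A, ∃ j < m, (σ ^ j) (Sum.inl z) = Sum.inl u) →
        used Y σ' + A.card ≤ used Y σ := by
  set x := σ.symm (Sum.inl z) with hx
  have hxz : σ x = Sum.inl z := σ.apply_symm_apply _
  have hne : x ≠ Sum.inl z := by
    intro h
    rw [h] at hxz
    exact hz hxz
  have hpow : ∀ j, (σ ^ (j + 1)) x = (σ ^ j) (Sum.inl z) := by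
    intro j
    rw [pow_succ, Equiv.Perm.mul_apply, hxz]
  have hax : a x (Sum.inl z) := by
    have h1 := hσ x
    rw [hxz] at h1
    exact h1.resolve_left hne
  obtain ⟨σ', h1, h2⟩ := cut hσ (x := x) (k := k) (m := m + 1) (by omega)
    (by rw [hpow]; exact hk) (by
      intro j hj1 hj2
      obtain ⟨i, rfl⟩ : ∃ i, j = i + 1 := ⟨j - 1, by omega⟩
      rw [hpow]
      exact hin i (by omega)) (z, k) hax
  refine ⟨σ', h1, fun Y A hAY hA => ?_⟩
  have h3 := h2 Y
  have h4 : A ⊆ Y.filter (fun u => ∃ j, 1 ≤ j ∧ j < m + 1 ∧ (σ ^ j) x = Sum.inl u) := by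
    intro u hu
    rw [Finset.mem_filter]
    obtain ⟨j, hj, hj'⟩ := hA u hu
    exact ⟨hAY hu, j + 1, by omega, by omega, by rw [hpow]; exact hj'⟩
  have h5 := Finset.card_le_card h4
  omega

/-- Bounded oscillation gives bounded use. `Z ⊆ Y` is a set, `v ∈ Z`, and norms at the vertices of `Z`
are at most `2 ^ (2 * Q * B)` times the norm at `v`. Then a permutation of least cost for `tau v` has at
most `P * (2 * B)` non-idle vertices in `Z`, and `v` is idle.

Proof. Let `σ` have least cost `c` for `tau v` (`hfan`). By `exit` every non-idle `u ∈ Z` has a path of length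
`m u ≥ 1` to a target `κ u`. It is enough to show that for each target `k` the set
`A k = {u ∈ Z | u not idle, κ u = k}` has at most `2 * B` elements and that `v ∉ A k`.
Suppose `A k ≠ ∅`, and let `z ∈ A k` with `m z` maximal. Let `x = σ⁻¹ (inl z)`; `x ≠ inl z`, so
`a x (inl z)` (`Ok`), and `(σ ^ (m z + 1)) x = inr k`, intermediate points `inl _`. Every
`u ∈ A k` has `inl u = (σ ^ (m z - m u)) (inl z) = (σ ^ (m z - m u + 1)) x` (apply the inverse of
`σ ^ m u` to both sides), so it is in the segment of `cut`. First case `z = v`: `cut` with the label `(v, k)`, i.e. the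
same labelling `tau v`, gives a permutation with smaller `used`, contradicting minimality
(`cost_lt`, `cost_ge`). If `z ≠ v`: `cut` with the label `(z, k)` gives `σ'`, `Ok` for
`τ' = update (tau v) k (z, k)` with `used Y σ' + (A k).card ≤ used Y σ` (the segment contains
`A k`; `A k ⊆ Z ⊆ Y`). The entry `(k, k)` of `(M v)⁻¹ * M z` has norm at most
`2 ^ (2 * Q * B)`: let `f = row k of (M v)⁻¹`; `f ᵥ* M v = e_k` has norm `1`, and `f ᵥ* M z` is the row `k` of
`(M v)⁻¹ * M z`. So by `hM2`, `norm_det`: `2 ^ (-c') ≤ 2 ^ (2 * Q * B) * 2 ^ (-c)`, where `c'` is the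
least cost for `τ'`; so `c ≤ c' + 2 * Q * B ≤ cost σ' + 2 * Q * B`. So
`2 * Q * used Y σ ≤ 2 * c ≤ 2 * cost σ' + 4 * Q * B < 2 * Q * used Y σ' + Q + 4 * Q * B
≤ 2 * Q * (used Y σ - (A k).card) + Q + 4 * Q * B`, hence `2 * (A k).card < 1 + 4 * B`,
`(A k).card ≤ 2 * B`.
Finally `v` is idle: suppose `v` is not idle, `v ∈ A k` with `k = κ v`. Apply `cut` to
`x = σ⁻¹ (inl v)` and the label `(v, k)` as in the first case: contradiction. -/
theorem use_le {w : Wt U P} (hw : ∀ (Y : Finset U) (τ : Fin P → U × Fin P),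
      Function.Injective τ → Function.Injective (cost w Y τ)) {Y : Finset U}
    {a : U ⊕ Fin P → U ⊕ Fin P → Prop} {M : U → Matrix (Fin P) (Fin P) ℚ_[2]}
    (hM1 : ∀ y ∈ Y, (M y).det ≠ 0)
    (hM2 : ∀ v ∈ Y, ∀ z ∈ Y, ∀ j k, ((M v)⁻¹ * M z) j k * (Nm w Y a (tau v)).det =
        (Nm w Y a (Function.update (tau v) j (z, k))).det)
    (hfan : ∀ y ∈ Y, ∃ σ, Ok a (tau y) σ) {Z : Finset U} (hZ : Z ⊆ Y) {v : U} (hv : v ∈ Z)
    (B : ℕ) (hB : ∀ z ∈ Z, ∀ f : Fin P → ℚ_[2],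
      ‖f ᵥ* M z‖ ≤ (2 : ℝ) ^ (2 * w.Q * B : ℝ) * ‖f ᵥ* M v‖) :
    ∃ σ, Ok a (tau v) σ ∧ used Z σ ≤ P * (2 * B) ∧ σ (Sum.inl v) = Sum.inl v := by
  have hvY := hZ hv
  have hQ : 0 < w.Q := by
    have h1 := w.small
    omega
  obtain ⟨σ, hσ, hopt⟩ := usele_min w Y (hfan v hvY)
  -- `v` is idle
  have hidle : σ (Sum.inl v) = Sum.inl v := by
    by_contra hne
    obtain ⟨m, k, hm, hk, hin⟩ := exit hσ hopt hvY hne
    obtain ⟨σ', h1, h2⟩ := usele_cut hσ hne hk hin
    have h3 : Function.update (tau v) k (v, k) = tau v := Function.update_eq_self k (tau v)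
    rw [h3] at h1
    have h4 := h2 Y {v} (Finset.singleton_subset_iff.2 hvY) (by
      intro u hu
      rw [Finset.mem_singleton] at hu
      exact ⟨0, by omega, by rw [hu]; rfl⟩)
    rw [Finset.card_singleton] at h4
    have h5 := cost_ge w Y (tau v) σ
    have h6 := hopt σ' h1
    have h7 := cost_lt w Y (tau v) σ'
    have h8 : w.Q * (used Y σ' + 1) ≤ w.Q * used Y σ := Nat.mul_le_mul_left _ h4
    rw [Nat.mul_add, Nat.mul_one] at h8
    omega
  refine ⟨σ, hσ, ?_, hidle⟩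
  -- the sets `A k`
  set A : Fin P → Finset U := fun k => Z.filter (fun u => σ (Sum.inl u) ≠ Sum.inl u ∧
    ∃ m, 1 ≤ m ∧ (σ ^ m) (Sum.inl u) = Sum.inr k ∧
      ∀ j < m, ∃ u', (σ ^ j) (Sum.inl u) = Sum.inl u') with hA
  have hAle : ∀ k, (A k).card ≤ 2 * B := by
    intro k
    rcases (A k).eq_empty_or_nonempty with h0 | h0
    · rw [h0, Finset.card_empty]
      exact Nat.zero_le _
    have hmem : ∀ u ∈ A k, u ∈ Z ∧ σ (Sum.inl u) ≠ Sum.inl u ∧
        ∃ m, 1 ≤ m ∧ (σ ^ m) (Sum.inl u) = Sum.inr k ∧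
          ∀ j < m, ∃ u', (σ ^ j) (Sum.inl u) = Sum.inl u' := by
      intro u hu
      rw [hA, Finset.mem_filter] at hu
      exact hu
    have hex : ∀ u ∈ A k, ∃ m, 1 ≤ m ∧ (σ ^ m) (Sum.inl u) = Sum.inr k ∧
          ∀ j < m, ∃ u', (σ ^ j) (Sum.inl u) = Sum.inl u' := fun u hu => (hmem u hu).2.2
    choose! m hm using hex
    obtain ⟨z, hzA, hzmax⟩ := Finset.exists_max_image (A k) m h0
    obtain ⟨hzZ, hzne, -⟩ := hmem z hzA
    obtain ⟨hz1, hzk, hzin⟩ := hm z hzA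
    obtain ⟨σ', h1, h2⟩ := usele_cut hσ hzne hzk hzin
    have h3 : used Y σ' + (A k).card ≤ used Y σ := by
      refine h2 Y (A k) (fun u hu => hZ (hmem u hu).1) fun u hu => ?_
      obtain ⟨hu1, huk, -⟩ := hm u hu
      have hle := hzmax u hu
      refine ⟨m z - m u, by omega, ?_⟩
      have h4 : (σ ^ m u) ((σ ^ (m z - m u)) (Sum.inl z)) = (σ ^ m u) (Sum.inl u) := by
        rw [← Equiv.Perm.mul_apply, ← pow_add, huk, Nat.add_sub_cancel' hle, hzk]
      exact (σ ^ m u).injective h4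
    -- the norms
    obtain ⟨σ'', h4, h5⟩ := usele_min w Y ⟨σ', h1⟩
    have n1 := norm_det w Y (hw Y _ (usele_tau_inj v)) hσ hopt
    have n2 := norm_det w Y (hw Y _ (usele_upd_inj v z k)) h4 h5
    have e1 := congrArg norm (hM2 v hvY z (hZ hzZ) k k)
    rw [norm_mul, n1, n2] at e1
    have hrow : ∀ z', ((M v)⁻¹ k) ᵥ* M z' = ((M v)⁻¹ * M z') k := fun z' => rfl
    have b1 := hB z hzZ ((M v)⁻¹ k)
    rw [hrow, hrow, Matrix.nonsing_inv_mul _ (isUnit_iff_ne_zero.2 (hM1 v hvY))] at b1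
    have b2 : ‖(1 : Matrix (Fin P) (Fin P) ℚ_[2]) k‖ ≤ 1 := by
      rw [pi_norm_le_iff_of_nonneg zero_le_one]
      intro j
      by_cases hj : k = j
      · rw [hj, Matrix.one_apply_eq, norm_one]
      · rw [Matrix.one_apply_ne hj, norm_zero]
        exact zero_le_one
    have b3 : ‖((M v)⁻¹ * M z) k k‖ ≤ ‖((M v)⁻¹ * M z) k‖ :=
      norm_le_pi_norm (((M v)⁻¹ * M z) k) k
    have hpos : (0 : ℝ) ≤ (2 : ℝ) ^ (2 * w.Q * B : ℝ) := Real.rpow_nonneg (by norm_num) _
    have b4 : ‖((M v)⁻¹ * M z) k k‖ ≤ (2 : ℝ) ^ (2 * w.Q * B : ℝ) :=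
      b3.trans (b1.trans ((mul_le_mul_of_nonneg_left b2 hpos).trans (mul_one _).le))
    have b5 : (2 : ℝ) ^ (2 * w.Q * B : ℝ) = (2 : ℝ) ^ ((2 * w.Q * B : ℕ) : ℤ) := by
      rw [zpow_natCast, ← Real.rpow_natCast]
      push_cast
      rfl
    have e2 : (2 : ℝ) ^ (-(cost w Y (Function.update (tau v) k (z, k)) σ'' : ℤ)) ≤
        (2 : ℝ) ^ (((2 * w.Q * B : ℕ) : ℤ) + -(cost w Y (tau v) σ : ℤ)) := by
      rw [← e1, zpow_add₀ (by norm_num), ← b5]
      exact mul_le_mul_of_nonneg_right b4 (by positivity)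
    have e3 := (zpow_le_zpow_iff_right₀ (by norm_num : (1 : ℝ) < 2)).1 e2
    have e4 : cost w Y (tau v) σ ≤ cost w Y (Function.update (tau v) k (z, k)) σ'' +
        2 * w.Q * B := by omega
    have e5 := h5 σ' h1
    have e6 := cost_ge w Y (tau v) σ
    have e7 := cost_lt w Y (Function.update (tau v) k (z, k)) σ'
    have e8 : w.Q * (used Y σ' + (A k).card) ≤ w.Q * used Y σ := Nat.mul_le_mul_left _ h3
    by_contra hcon
    have e9 : w.Q * (2 * B + 1) ≤ w.Q * (A k).card := Nat.mul_le_mul_left _ (by omega)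
    have e10 : 2 * w.Q * B = w.Q * (2 * B) := by ring
    rw [Nat.mul_add] at e8
    rw [Nat.mul_add, Nat.mul_one] at e9
    omega
  -- sum over the targets
  have hcov : Z.filter (fun u => σ (Sum.inl u) ≠ Sum.inl u) ⊆ Finset.univ.biUnion A := by
    intro u hu
    rw [Finset.mem_filter] at hu
    obtain ⟨m, k, hm, hk, hin⟩ := exit hσ hopt (hZ hu.1) hu.2
    rw [Finset.mem_biUnion]
    refine ⟨k, Finset.mem_univ _, ?_⟩
    rw [hA, Finset.mem_filter]
    exact ⟨hu.1, hu.2, m, hm, hk, hin⟩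
  have h1 := Finset.card_le_card hcov
  have h2 : (Finset.univ.biUnion A).card ≤ (Finset.univ : Finset (Fin P)).card * (2 * B) :=
    Finset.card_biUnion_le_card_mul _ _ _ fun k _ => hAle k
  rw [Finset.card_univ, Fintype.card_fin] at h2
  exact h1.trans h2

end Pool.Agent.MDP
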