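import Pool.Agent.MDP.BadIn
import Pool.Agent.MDP.Noise
import Pool.Agent.MDP.GoodLe
import Pool.Agent.MDP.UseLe
import Pool.Agent.MDP.Chain
import Pool.Agent.MDP.Asdim

/-! Strongly connected classes in which optimal fans use few vertices. -/

open Classical
open Matrix

namespace Pool.Agent.MDP

open Pool.Agent.Mader

universe u

variable {U : Type u} [Fintype U] {P : ℕ}

/-- Reachability inside a strongly connected set. -/
theorem conn_reach {V : Type u} {a : V → V → Prop} {X : Finset V} (h : Conn a X) {x y : V}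
    (hx : x ∈ X) (hy : y ∈ X) :
    Relation.ReflTransGen (fun p q => a p q ∧ p ∈ X ∧ q ∈ X) x y := by
  have hZ : X.filter (fun z => Relation.ReflTransGen (fun p q => a p q ∧ p ∈ X ∧ q ∈ X) x z) =
      X := by
    apply h.eq_of_closed (Finset.filter_subset _ _)
    · exact ⟨x, Finset.mem_filter.mpr ⟨hx, Relation.ReflTransGen.refl⟩⟩
    · intro u hu v hv huv
      rw [Finset.mem_filter] at hu ⊢
      exact ⟨hv, hu.2.tail ⟨huv, hu.1, hv⟩⟩
  rw [← hZ, Finset.mem_filter] at hy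
  exact hy.2

/-- Reachability as a relation on the subtype. -/
private theorem classes_reach {V : Type u} {a : V → V → Prop} {X : Finset V} (h : Conn a X)
    {x y : V} (hx : x ∈ X) (hy : y ∈ X) :
    Relation.ReflTransGen (fun p q : {z // z ∈ X} => a p q) ⟨x, hx⟩ ⟨y, hy⟩ := by
  have hZ : X.filter (fun z => ∃ hz : z ∈ X,
      Relation.ReflTransGen (fun p q : {z // z ∈ X} => a p q) ⟨x, hx⟩ ⟨z, hz⟩) = X := by
    apply h.eq_of_closed (Finset.filter_subset _ _)
    · exact ⟨x, Finset.mem_filter.mpr ⟨hx, hx, Relation.ReflTransGen.refl⟩⟩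
    · intro u hu v hv huv
      rw [Finset.mem_filter] at hu ⊢
      obtain ⟨hu1, hu2, hu3⟩ := hu
      exact ⟨hv, hv, hu3.tail huv⟩
  rw [← hZ, Finset.mem_filter] at hy
  exact hy.2.choose_spec

private theorem classes_det {w : Wt U P} (hw : ∀ (Y : Finset U) (τ : Fin P → U × Fin P),
      Function.Injective τ → Function.Injective (cost w Y τ)) {Y : Finset U}
    {a : U ⊕ Fin P → U ⊕ Fin P → Prop} {y : U} (h : ∃ σ, Ok a (tau y) σ) :
    (Nm w Y a (tau y)).det ≠ 0 := by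
  have hinj : Function.Injective (tau y : Fin P → U × Fin P) := fun i j hij =>
    congrArg Prod.snd hij
  obtain ⟨σ, hσ⟩ := h
  have : Nonempty {σ : Equiv.Perm (U ⊕ Fin P) // Ok a (tau y) σ} := ⟨⟨σ, hσ⟩⟩
  obtain ⟨σ0, h0⟩ := Finite.exists_min
    (fun σ : {σ : Equiv.Perm (U ⊕ Fin P) // Ok a (tau y) σ} => cost w Y (tau y) σ.1)
  have h1 := norm_det w Y (hw Y (tau y) hinj) σ0.2 fun σ hσ => h0 ⟨σ, hσ⟩
  intro h2
  rw [h2, norm_zero] at h1
  have h3 : (0 : ℝ) < (2 : ℝ) ^ (-(cost w Y (tau y) σ0.1 : ℤ)) := zpow_pos two_pos _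
  exact absurd h1 h3.ne

/-- One digraph. -/
private theorem classes_one {w : Wt U P} (hw : ∀ (Y : Finset U) (τ : Fin P → U × Fin P),
      Function.Injective τ → Function.Injective (cost w Y τ)) {Y : Finset U}
    {a : U ⊕ Fin P → U ⊕ Fin P → Prop} (hirr : ∀ x, ¬ a x x)
    {M : U → Matrix (Fin P) (Fin P) ℚ_[2]} (hP : 1 ≤ P)
    (hM1 : ∀ y ∈ Y, (M y).det ≠ 0)
    (hM2 : ∀ v ∈ Y, ∀ z ∈ Y, ∀ j k, ((M v)⁻¹ * M z) j k * (Nm w Y a (tau v)).det =
        (Nm w Y a (Function.update (tau v) j (z, k))).det)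
    (hfan : ∀ y ∈ Y, ∃ σ, Ok a (tau y) σ) {Z : Finset U} (hZ : Z ⊆ Y)
    (hgood : ∀ u ∈ Z, ∀ v ∈ Z, a (Sum.inl u) (Sum.inl v) → ¬ Bad w Y a u v)
    (hreach : ∀ z v, ∀ (hz : z ∈ Z) (hv : v ∈ Z), Relation.ReflTransGen
      (fun p q : {z // z ∈ Z} => a (Sum.inl p.1) (Sum.inl q.1)) ⟨z, hz⟩ ⟨v, hv⟩)
    (hosc : ∀ k, ∀ u ∈ Z, ∀ v ∈ Z,
      ht (M u) k ≤ ht (M v) k + ((P + P + 2 * (2 * (P - 1)) : ℕ) : ℝ) * (2 * w.Q : ℝ))
    {v : U} (hv : v ∈ Z) :
    ∃ σ, Ok a (tau v) σ ∧ used Z σ ≤ P * (2 * (P * (6 * P - 3))) ∧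
      σ (Sum.inl v) = Sum.inl v := by
  have hne : Z.Nonempty := ⟨v, hv⟩
  refine use_le hw hM1 hM2 hfan hZ hv (P * (6 * P - 3)) fun z hz f => ?_
  have h1 := chain (P := P) (Y := {z // z ∈ Z}) (fun z => M z.1) (fun x => hM1 _ (hZ x.2))
    (fun p q => a (Sum.inl p.1) (Sum.inl q.1)) (s := (2 * w.Q : ℝ))
    (R := ((P + P + 2 * (2 * (P - 1)) : ℕ) : ℝ) * (2 * w.Q : ℝ)) (by positivity) (by positivity)
    (fun p q hpq f => good_le hw hM1 hM2 hfan (hZ p.2) (hZ q.2)
      (fun h => hirr (Sum.inl q.1) (by rw [← h] at hpq ⊢; exact hpq))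
      (hgood _ p.2 _ q.2 hpq) f)
    (fun k => Z.inf' hne fun z => ht (M z) k)
    (fun x k => ⟨Finset.inf'_le _ x.2, by
      obtain ⟨z0, hz0, h2⟩ := Finset.exists_mem_eq_inf' hne fun z => ht (M z) k
      rw [h2]
      exact hosc k _ x.2 _ hz0⟩)
    ⟨z, hz⟩ ⟨v, hv⟩ (hreach z v hz hv) f
  have h2 : (P : ℝ) * (((P + P + 2 * (2 * (P - 1)) : ℕ) : ℝ) * (2 * w.Q : ℝ) + (2 * w.Q : ℝ)) =
      2 * w.Q * (P * (6 * P - 3) : ℕ) := by
    have h3 : ((P + P + 2 * (2 * (P - 1)) : ℕ) : ℝ) + 1 = ((6 * P - 3 : ℕ) : ℝ) := by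
      have h4 : 6 * P - 3 = P + P + 2 * (2 * (P - 1)) + 1 := by omega
      rw [h4]
      exact (Nat.cast_succ _).symm
    rw [Nat.cast_mul (α := ℝ) P, ← h3]
    ring
  rw [h2] at h1
  exact h1

/-- The classes. The reversed digraph is `fun x y => a y x`, below `a'`.

Proof. Take `w` from `exists_wt`, `M` from `exists_mat` for `a` and `M'` for `a'`
(`norm_det` and `hfan` give `hdet`). Let `b u v` be
`(a (inl u) (inl v) ∧ Bad w Y a u v) ∨ (a' (inl u) (inl v) ∧ Bad w Y a' u v)`. By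
`card_bad_lt` (for both digraphs) every `v` has at most `2 * (P - 1)` vertices `u ∈ Y` with `b u v`.
Apply `asdim` to the set `Y` (type `U`), the relation `fun u v => a (inl u) (inl v)`, the bad relation
`b`, `d = 2 * (P - 1)`, `m = 2 * P`, `s = 2 * Q`, the functions `h i = ht (M ·) i` for `i < P` and
`- ht (M' ·) i` for the others. (`hL`: let `u → v` be an arc of `a`, `¬ b u v`, `¬ b v u`. Then
`¬ Bad w Y a u v`, so by `good_le`, `ht_le`: `ht (M u) ≤ ht (M v) + s`. And `a' (inl v) (inl u)`, so `¬ Bad w Y a' v u`, so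
`ht (M' v) ≤ ht (M' u) + s`, i.e. `- ht (M' u) ≤ - ht (M' v) + s`.) The number of colours is
`2 * P + 2 * (2 * (P - 1)) + 1 = 6 * P - 3`. Let `Z` be a strongly connected subset of a class.
The heights vary on `Z` by at most `R = (6 * P - 4) * s`. By `chain` for the type `{z // z ∈ Z}`, the
relation `r u v = a (inl u) (inl v)`, `lo i` = minimum of the `i`-th height on `Z` (all arcs inside `Z` satisfy
`¬ b` both ways, and `conn_reach` gives `ReflTransGen r z v` for all `z, v ∈ Z`):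
`‖f ᵥ* M z‖ ≤ 2 ^ (P * (R + s)) * ‖f ᵥ* M v‖`, where `P * (R + s) = 2 * Q * (P * (6 * P - 3))`. Apply `use_le`
with `B = P * (6 * P - 3)`. The same for `a'` and `M'` with `r u v = a (inl v) (inl u)`. -/
theorem classes (hP : 1 ≤ P) {a : U ⊕ Fin P → U ⊕ Fin P → Prop} (hirr : ∀ x, ¬ a x x)
    (Y : Finset U) (hfan : ∀ y ∈ Y, ∃ σ, Ok a (tau y) σ)
    (hfan' : ∀ y ∈ Y, ∃ σ, Ok (fun x y => a y x) (tau y) σ) :
    ∃ p : U → ℕ, (∀ v ∈ Y, p v < 6 * P - 3) ∧
      ∀ Z ⊆ Y, Conn (fun u v => a (Sum.inl u) (Sum.inl v)) Z → (∀ u ∈ Z, ∀ v ∈ Z, p u = p v) →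
        ∀ v ∈ Z,
          (∃ σ, Ok a (tau v) σ ∧ used Z σ ≤ P * (2 * (P * (6 * P - 3))) ∧
            σ (Sum.inl v) = Sum.inl v) ∧
          (∃ σ, Ok (fun x y => a y x) (tau v) σ ∧ used Z σ ≤ P * (2 * (P * (6 * P - 3))) ∧
            σ (Sum.inl v) = Sum.inl v) := by
  obtain ⟨w, hw⟩ := exists_wt U P
  have hQ : (0 : ℝ) < 2 * w.Q := by
    have h1 := w.small
    have h2 : 0 < w.Q := by omega
    positivity
  set a' : U ⊕ Fin P → U ⊕ Fin P → Prop := fun x y => a y x with ha'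
  have hirr' : ∀ x, ¬ a' x x := fun x => hirr x
  obtain ⟨M, hM1, hM2⟩ := exists_mat w Y a fun y hy => classes_det hw (hfan y hy)
  obtain ⟨M', hM1', hM2'⟩ := exists_mat w Y a' fun y hy => classes_det hw (hfan' y hy)
  let b : U → U → Prop := fun u v => (a (Sum.inl u) (Sum.inl v) ∧ Bad w Y a u v) ∨
    (a' (Sum.inl u) (Sum.inl v) ∧ Bad w Y a' u v)
  let h : Fin (P + P) → U → ℝ := Fin.addCases (fun i v => ht (M v) i) fun i v => -ht (M' v) i
  have hl : ∀ i v, h (Fin.castAdd P i) v = ht (M v) i := fun i v => by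
    simp only [h, Fin.addCases_left]
  have hr : ∀ i v, h (Fin.natAdd P i) v = -ht (M' v) i := fun i v => by
    simp only [h, Fin.addCases_right]
  obtain ⟨p, hp1, hp2, hp3⟩ := asdim Y (a := fun u v => a (Sum.inl u) (Sum.inl v))
    (fun v => hirr _) b (2 * (P - 1)) (P + P) (by
      intro v _
      have h1 := card_bad_lt w Y hirr hP v
      have h2 := card_bad_lt w Y hirr' hP v
      have h4 := Finset.card_union_le
        (Y.filter (fun u => a (Sum.inl u) (Sum.inl v) ∧ Bad w Y a u v))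
        (Y.filter (fun u => a' (Sum.inl u) (Sum.inl v) ∧ Bad w Y a' u v))
      refine (Finset.card_le_card
        (t := Y.filter (fun u => a (Sum.inl u) (Sum.inl v) ∧ Bad w Y a u v) ∪
          Y.filter (fun u => a' (Sum.inl u) (Sum.inl v) ∧ Bad w Y a' u v)) ?_).trans (by omega)
      intro u hu
      simp only [Finset.mem_filter] at hu
      rw [Finset.mem_union, Finset.mem_filter, Finset.mem_filter]
      rcases hu.2 with h5 | h5
      · exact Or.inl ⟨hu.1, h5⟩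
      · exact Or.inr ⟨hu.1, h5⟩) h hQ (by
      intro u hu v hv huv hb hb' i
      have hne : u ≠ v := by
        rintro rfl
        exact hirr _ huv
      induction i using Fin.addCases with
      | left i =>
        rw [hl, hl]
        exact ht_le (hM1 u hu) (hM1 v hv) (fun f => good_le hw hM1 hM2 hfan hu hv hne
          (fun h1 => hb (Or.inl ⟨huv, h1⟩)) f) i
      | right i =>
        rw [hr, hr]
        have h1 := ht_le (hM1' v hv) (hM1' u hu) (fun f => good_le hw hM1' hM2' hfan' hv hu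
          hne.symm (fun h1 => hb' (Or.inr ⟨huv, h1⟩)) f) i
        linarith)
  refine ⟨p, fun v hv => ?_, fun Z hZ hconn hcol v hv => ?_⟩
  · have h1 := hp1 v hv
    omega
  · have hosc := hp3 Z hZ hconn hcol
    have hne : ∀ u ∈ Z, ∀ v ∈ Z, a (Sum.inl u) (Sum.inl v) → u ≠ v := by
      rintro u _ _ _ h1 rfl
      exact hirr _ h1
    constructor
    · refine classes_one hw hirr hP hM1 hM2 hfan hZ ?_ ?_ ?_ hv
      · intro u hu v hv huv h1
        exact hp2 u (hZ hu) v (hZ hv) (hne u hu v hv huv) (hcol u hu v hv) (Or.inl ⟨huv, h1⟩)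
      · intro z v hz hv
        exact classes_reach hconn hz hv
      · intro k u hu v hv
        have h1 := hosc (Fin.castAdd P k) u hu v hv
        rw [hl, hl] at h1
        exact h1
    · refine classes_one hw hirr' hP hM1' hM2' hfan' hZ ?_ ?_ ?_ hv
      · intro u hu v hv huv h1
        exact hp2 u (hZ hu) v (hZ hv) (hne v hv u hu huv).symm (hcol u hu v hv)
          (Or.inr ⟨huv, h1⟩)
      · intro z v hz hv
        exact (classes_reach hconn hv hz).swap
      · intro k u hu v hv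
        have h1 := hosc (Fin.natAdd P k) v hv u hu
        rw [hr, hr] at h1
        linarith

end Pool.Agent.MDP
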