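import Mathlib

/-! The matching model. `U` is the set of non-root vertices, `Fin P` the set of roots. A
permutation of `U ⊕ Fin P` maps rows (vertices: `inl u`, roots: `inr i`) to columns
(`inl u`: the vertex `u` as head of an arc; `inr k`: the `k`-th target). -/

open Classical

namespace Pool.Agent.MDP

universe u

variable {U : Type u} [Fintype U] {P : ℕ}

/-- Pair `(row, column)` allowed for the labelling `τ` of the targets. The label `(y, j)` is the
`j`-th copy of the vertex `y`. -/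
def ok (a : U ⊕ Fin P → U ⊕ Fin P → Prop) (τ : Fin P → U × Fin P) (x : U ⊕ Fin P) :
    U ⊕ Fin P → Prop
  | Sum.inl u => x = Sum.inl u ∨ a x (Sum.inl u)
  | Sum.inr k => a x (Sum.inl (τ k).1)

/-- Allowed permutation. -/
def Ok (a : U ⊕ Fin P → U ⊕ Fin P → Prop) (τ : Fin P → U × Fin P)
    (σ : Equiv.Perm (U ⊕ Fin P)) : Prop :=
  ∀ x, ok a τ x (σ x)

/-- The `P` copies of `y` as targets. -/
def tau (y : U) : Fin P → U × Fin P := fun k => (y, k)

/-- Weights: a large number `Q` and small noise. -/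
structure Wt (U : Type u) [Fintype U] (P : ℕ) where
  Q : ℕ
  n1 : U ⊕ Fin P → U → ℕ
  n2 : U ⊕ Fin P → U × Fin P → ℕ
  small : 2 * ((∑ x, ∑ u, n1 x u) + ∑ x, ∑ l, n2 x l) < Q

/-- Cost of a pair. -/
noncomputable def cst (w : Wt U P) (Y : Finset U) (τ : Fin P → U × Fin P) (x : U ⊕ Fin P) :
    U ⊕ Fin P → ℕ
  | Sum.inl u => if x = Sum.inl u then 0 else (if u ∈ Y then w.Q else 0) + w.n1 x u
  | Sum.inr k => w.n2 x (τ k)

/-- Cost of a permutation. -/
noncomputable def cost (w : Wt U P) (Y : Finset U) (τ : Fin P → U × Fin P)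
    (σ : Equiv.Perm (U ⊕ Fin P)) : ℕ :=
  ∑ x, cst w Y τ x (σ x)

/-- Number of vertices of `Y` which are not idle. -/
noncomputable def used (Y : Finset U) (σ : Equiv.Perm (U ⊕ Fin P)) : ℕ :=
  (Y.filter (fun u => σ (Sum.inl u) ≠ Sum.inl u)).card

/-- `u` is a bad in-neighbour of `y`. -/
def Bad (w : Wt U P) (Y : Finset U) (a : U ⊕ Fin P → U ⊕ Fin P → Prop) (u y : U) : Prop :=
  ∃ (j k : Fin P) (σ' : Equiv.Perm (U ⊕ Fin P)),
    Ok a (Function.update (tau y) j (u, k)) σ' ∧
    ∀ σ, Ok a (tau y) σ →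
      cost w Y (Function.update (tau y) j (u, k)) σ' + 2 * w.Q < cost w Y (tau y) σ

end Pool.Agent.MDP
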