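import Pool.Agent.MDP.LkSucc
import Pool.Agent.MDP.Perm

/-! Linking outside `Y` by the theorem of Hall. -/

open Classical

namespace Pool.Agent.MDP

universe u

variable {U : Type u} [Fintype U] {P : ℕ}

omit [Fintype U] in
private theorem count_CoreUsed {A C : Finset (U ⊕ Fin P)} {σ : Equiv.Perm (U ⊕ Fin P)}
    {Y : Finset U}
    (hσ : ∀ x ∈ A, ∃ u, σ x = Sum.inl u ∧ (Sum.inl u ∈ A ∨ Sum.inl u ∈ C ∨
      (u ∈ Y ∧ σ (Sum.inl u) ≠ Sum.inl u))) :
    (A.filter fun x => ¬ x.isLeft = true).card ≤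
      (C.filter fun x => x.isLeft = true).card + used Y σ := by
  have h1 : A.map σ.toEmbedding ⊆ (A.filter fun x => x.isLeft = true) ∪
      ((C.filter fun x => x.isLeft = true) ∪
        (Y.filter (fun u => σ (Sum.inl u) ≠ Sum.inl u)).map ⟨Sum.inl, Sum.inl_injective⟩) := by
    intro y hy
    obtain ⟨x, hx, rfl⟩ := Finset.mem_map.1 hy
    obtain ⟨u, hu, h2⟩ := hσ x hx
    change σ x ∈ _
    rw [hu]
    rcases h2 with h2 | h2 | h2
    · exact Finset.mem_union_left _ (Finset.mem_filter.2 ⟨h2, rfl⟩)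
    · exact Finset.mem_union_right _ (Finset.mem_union_left _ (Finset.mem_filter.2 ⟨h2, rfl⟩))
    · refine Finset.mem_union_right _ (Finset.mem_union_right _ ?_)
      exact Finset.mem_map.2 ⟨u, Finset.mem_filter.2 h2, rfl⟩
  have h2 := Finset.card_le_card h1
  have h3 := Finset.card_union_le (A.filter fun x => x.isLeft = true)
    ((C.filter fun x => x.isLeft = true) ∪
        (Y.filter (fun u => σ (Sum.inl u) ≠ Sum.inl u)).map ⟨Sum.inl, Sum.inl_injective⟩)
  have h4 := Finset.card_union_le (C.filter fun x => x.isLeft = true)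
    ((Y.filter (fun u => σ (Sum.inl u) ≠ Sum.inl u)).map ⟨Sum.inl, Sum.inl_injective⟩)
  have h5 := Finset.card_filter_add_card_filter_not (s := A) (fun x => x.isLeft = true)
  rw [Finset.card_map] at h2 h4
  unfold used
  omega

/-- the adjacencies of rows and columns -/
private def adj_CoreUsed {V : Type u} (a : V → V → Prop) {R : Finset V} {N : ℕ}
    (s t : Fin N → V) : {x // x ∈ R} ⊕ Fin N → {x // x ∈ R} ⊕ Fin N → Prop
  | Sum.inl x, Sum.inl y => x = y ∨ a x.1 y.1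
  | Sum.inl x, Sum.inr j => a x.1 (t j)
  | Sum.inr i, Sum.inl y => a (s i) y.1
  | Sum.inr i, Sum.inr j => a (s i) (t j)

/-- the left part of a set of rows or columns -/
private noncomputable def left_CoreUsed {V : Type u} {R : Finset V} {N : ℕ}
    (X : Finset ({x // x ∈ R} ⊕ Fin N)) : Finset V :=
  (Finset.univ.filter fun x : {x // x ∈ R} => Sum.inl x ∈ X).map (Function.Embedding.subtype _)

private theorem mem_left_CoreUsed {V : Type u} {R : Finset V} {N : ℕ}
    {X : Finset ({x // x ∈ R} ⊕ Fin N)} {x : V} :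
    x ∈ left_CoreUsed X ↔ ∃ h : x ∈ R, Sum.inl ⟨x, h⟩ ∈ X := by
  unfold left_CoreUsed
  rw [Finset.mem_map]
  constructor
  · rintro ⟨y, hy, rfl⟩
    exact ⟨y.2, (Finset.mem_filter.1 hy).2⟩
  · rintro ⟨h, hx⟩
    exact ⟨⟨x, h⟩, Finset.mem_filter.2 ⟨Finset.mem_univ _, hx⟩, rfl⟩

/-- the right part of a set of rows or columns -/
private noncomputable def right_CoreUsed {V : Type u} {R : Finset V} {N : ℕ}
    (X : Finset ({x // x ∈ R} ⊕ Fin N)) : Finset (Fin N) :=
  Finset.univ.filter fun i : Fin N => Sum.inr i ∈ X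

private theorem mem_right_CoreUsed {V : Type u} {R : Finset V} {N : ℕ}
    {X : Finset ({x // x ∈ R} ⊕ Fin N)} {i : Fin N} : i ∈ right_CoreUsed X ↔ Sum.inr i ∈ X := by
  unfold right_CoreUsed
  rw [Finset.mem_filter, and_iff_right (Finset.mem_univ _)]

private theorem card_CoreUsed {V : Type u} {R : Finset V} {N : ℕ}
    (X : Finset ({x // x ∈ R} ⊕ Fin N)) :
    X.card = (left_CoreUsed X).card + (right_CoreUsed X).card := by
  unfold left_CoreUsed right_CoreUsed
  rw [Finset.card_map]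
  have h1 : X = (Finset.univ.filter fun x : {x // x ∈ R} => Sum.inl x ∈ X).disjSum
      (Finset.univ.filter fun i : Fin N => Sum.inr i ∈ X) := by
    ext x
    rcases x with x | x
    · simp
    · simp
  conv_lhs => rw [h1]
  rw [Finset.card_disjSum]

/-- Linking outside `Y`.

Proof. `R = univ \ Y.map inl` (complement of `{inl y | y ∈ Y}`), as a finset. Use Hall's theorem
for the rows `{x // x ∈ R} ⊕ Fin N` and the columns `{x // x ∈ R} ⊕ Fin N` with the adjacencies of `lk_of_succ`, and then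
`lk_of_succ`. Suppose a finset `X` of rows has neighbourhood `NX` with `NX.card < X.card`. Let
`X' = {x ∈ R | inl x ∈ X}`, `C = {y ∈ R | inl y ∈ NX} \ X'`, `S = {i | inr i ∈ X}`, `T = {j | inr j ∈ NX}`. Every
`x ∈ X'` is in the neighbourhood (idle), so `C.card + T.card < S.card ≤ N`. So there are `i ∈ S` and
`j ∉ T`, and `C.card ≤ N - 1`.
(1) Take `σ` for `v = t0 j`, `Ok a (tau v) σ`. For `x ∈ X'` consider `σ x`: if it is `inr _` then
`a x (inl (t0 j))`, so `j ∈ T`, impossible. So `σ x = inl u` with `x = inl u` or `a x (inl u)`; if `inl u ∈ R` then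
`inl u ∈ X' ∪ C`; if `inl u ∉ R`, i.e. `u ∈ Y`, then `u` is not idle (`σ⁻¹ (inl u) = x ≠ inl u` as
`x ∈ R`), and there are at most `h` such `u`. `σ` is injective, so
`X'.card ≤ #{inl u ∈ X'} + #{inl u ∈ C} + h`, i.e. `#{inr _ ∈ X'} ≤ #{inl u ∈ C} + h`.
(2) Let `Z = R \ X' \ C` and take `σ'` for `v = s0 i`, `Ok (fun x y => a y x) (tau v) σ'`. For
`z ∈ Z`: if `σ' z = inr _` then `a (inl (s0 i)) z`, so `z` is in the neighbourhood of the source `i ∈ S`, so
`z ∈ X' ∪ C`, impossible. So `σ' z = inl u`, `z = inl u` or `a (inl u) z`. If `inl u ∈ R` then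
`inl u ∉ X'` (otherwise `z ∈ X' ∪ C`; if `z = inl u` also `inl u ∉ X'`), so `inl u ∈ Z ∪ C`; if
`u ∈ Y` then `u` is not idle, at most `h` such `u`. So `#{inr _ ∈ Z} ≤ #{inl u ∈ C} + h`.
(3) All `P` elements `inr _` are in `R = X' ∪ C ∪ Z`, so
`P ≤ 2 * (#{inl u ∈ C} + h) + #{inr _ ∈ C} ≤ 2 * C.card + 2 * h ≤ 2 * (N - 1) + 2 * h < P`. -/
theorem core_of_used {a : U ⊕ Fin P → U ⊕ Fin P → Prop} {Y : Finset U} {N h : ℕ}
    (hP : 2 * N + 2 * h ≤ P + 1)
    (h1 : ∀ v ∈ Y, ∃ σ, Ok a (tau v) σ ∧ used Y σ ≤ h)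
    (h2 : ∀ v ∈ Y, ∃ σ, Ok (fun x y => a y x) (tau v) σ ∧ used Y σ ≤ h) :
    Core a (Finset.univ \ Y.map ⟨Sum.inl, Sum.inl_injective⟩)
      (Y.map ⟨Sum.inl, Sum.inl_injective⟩) N := by
  intro s t hs ht hsY htY _
  have hs0 : ∀ i, ∃ u ∈ Y, s i = Sum.inl u := by
    intro i
    obtain ⟨u, hu, h⟩ := Finset.mem_map.1 (hsY i)
    exact ⟨u, hu, h.symm⟩
  have ht0 : ∀ i, ∃ u ∈ Y, t i = Sum.inl u := by
    intro i
    obtain ⟨u, hu, h⟩ := Finset.mem_map.1 (htY i)
    exact ⟨u, hu, h.symm⟩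
  obtain ⟨R, hR⟩ : ∃ R : Finset (U ⊕ Fin P),
      R = Finset.univ \ Y.map ⟨Sum.inl, Sum.inl_injective⟩ := ⟨_, rfl⟩
  rw [← hR]
  have hRr : ∀ k : Fin P, (Sum.inr k : U ⊕ Fin P) ∈ R := by
    intro k
    rw [hR, Finset.mem_sdiff]
    refine ⟨Finset.mem_univ _, fun h => ?_⟩
    obtain ⟨u, _, h⟩ := Finset.mem_map.1 h
    exact Sum.inl_ne_inr h
  have hRl : ∀ u : U, (Sum.inl u : U ⊕ Fin P) ∉ R → u ∈ Y := by
    intro u h
    rw [hR, Finset.mem_sdiff, not_and, not_not] at h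
    obtain ⟨u', hu', h'⟩ := Finset.mem_map.1 (h (Finset.mem_univ _))
    have h3 : u' = u := Sum.inl_injective h'
    rwa [← h3]
  suffices hall : ∃ f : {x // x ∈ R} ⊕ Fin N → {x // x ∈ R} ⊕ Fin N, Function.Injective f ∧
      ∀ x, adj_CoreUsed a s t x (f x) by
    obtain ⟨f, hf, hf'⟩ := hall
    refine lk_of_succ f hf (fun x y h => ?_) (fun x j h => ?_) (fun i y h => ?_) fun i j h => ?_
    · have h3 := hf' (Sum.inl x)
      rw [h] at h3
      exact h3
    · have h3 := hf' (Sum.inl x)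
      rw [h] at h3
      exact h3
    · have h3 := hf' (Sum.inr i)
      rw [h] at h3
      exact h3
    · have h3 := hf' (Sum.inr i)
      rw [h] at h3
      exact h3
  rw [← Fintype.all_card_le_filter_rel_iff_exists_injective]
  intro X
  by_contra hcon
  rw [not_le] at hcon
  obtain ⟨NX, hNX⟩ : ∃ NX : Finset ({x // x ∈ R} ⊕ Fin N),
      NX = Finset.univ.filter fun b => ∃ x ∈ X, adj_CoreUsed a s t x b := ⟨_, rfl⟩
  rw [← hNX] at hcon
  have hN : ∀ x ∈ X, ∀ b, adj_CoreUsed a s t x b → b ∈ NX := by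
    intro x hx b hb
    rw [hNX]
    exact Finset.mem_filter.2 ⟨Finset.mem_univ _, x, hx, hb⟩
  rw [card_CoreUsed X, card_CoreUsed NX] at hcon
  obtain ⟨A, hA⟩ : ∃ A, A = left_CoreUsed X := ⟨_, rfl⟩
  obtain ⟨B, hB⟩ : ∃ B, B = left_CoreUsed NX := ⟨_, rfl⟩
  rw [← hA, ← hB] at hcon
  have hmA : ∀ x, x ∈ A ↔ ∃ h : x ∈ R, Sum.inl ⟨x, h⟩ ∈ X := by
    intro x
    rw [hA]
    exact mem_left_CoreUsed
  have hmB : ∀ x, x ∈ B ↔ ∃ h : x ∈ R, Sum.inl ⟨x, h⟩ ∈ NX := by
    intro x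
    rw [hB]
    exact mem_left_CoreUsed
  have hAB : A ⊆ B := by
    intro x hx
    obtain ⟨h, hx'⟩ := (hmA x).1 hx
    exact (hmB x).2 ⟨h, hN _ hx' _ (Or.inl rfl)⟩
  have hcard := Finset.card_sdiff_add_card_eq_card hAB
  have hS : (right_CoreUsed X).card ≤ N := by
    have := Finset.card_le_univ (right_CoreUsed X)
    rwa [Fintype.card_fin] at this
  obtain ⟨i, hi⟩ : (right_CoreUsed X).Nonempty := by
    rw [← Finset.card_pos]
    omega
  obtain ⟨j, hj⟩ : ∃ j : Fin N, (Sum.inr j : {x // x ∈ R} ⊕ Fin N) ∉ NX := by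
    by_contra h
    push Not at h
    have h3 : right_CoreUsed NX = Finset.univ :=
      Finset.eq_univ_of_forall fun i => mem_right_CoreUsed.2 (h i)
    rw [h3, Finset.card_univ, Fintype.card_fin] at hcon
    omega
  have hi' := mem_right_CoreUsed.1 hi
  obtain ⟨u₁, hu₁, ht₁⟩ := ht0 j
  obtain ⟨u₂, hu₂, hs₂⟩ := hs0 i
  obtain ⟨σ, hσ, hσh⟩ := h1 u₁ hu₁
  obtain ⟨σ', hσ', hσh'⟩ := h2 u₂ hu₂
  have c1 := count_CoreUsed (A := A) (C := B \ A) (σ := σ) (Y := Y) (by
    intro x hx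
    obtain ⟨hxR, hxX⟩ := (hmA x).1 hx
    have h3 := hσ x
    rcases hx' : σ x with u | k
    · rw [hx'] at h3
      refine ⟨u, rfl, ?_⟩
      by_cases hu : (Sum.inl u : U ⊕ Fin P) ∈ R
      · have h4 : Sum.inl u ∈ B := by
          refine (hmB _).2 ⟨hu, hN _ hxX _ ?_⟩
          rcases h3 with h3 | h3
          · exact Or.inl (Subtype.ext h3)
          · exact Or.inr h3
        by_cases h5 : Sum.inl u ∈ A
        · exact Or.inl h5
        · exact Or.inr (Or.inl (Finset.mem_sdiff.2 ⟨h4, h5⟩))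
      · refine Or.inr (Or.inr ⟨hRl u hu, fun h4 => hu ?_⟩)
        have h5 : x = Sum.inl u := σ.injective (hx'.trans h4.symm)
        rw [← h5]
        exact hxR
    · exfalso
      rw [hx'] at h3
      refine hj (hN _ hxX _ ?_)
      change a x (t j)
      rw [ht₁]
      exact h3)
  have c2 := count_CoreUsed (A := R \ B) (C := B \ A) (σ := σ') (Y := Y) (by
    intro z hz
    obtain ⟨hzR, hzB⟩ := Finset.mem_sdiff.1 hz
    have h3 := hσ' z
    rcases hz' : σ' z with u | k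
    · rw [hz'] at h3
      refine ⟨u, rfl, ?_⟩
      by_cases hu : (Sum.inl u : U ⊕ Fin P) ∈ R
      · by_cases h5 : (Sum.inl u : U ⊕ Fin P) ∈ B
        · refine Or.inr (Or.inl (Finset.mem_sdiff.2 ⟨h5, fun h6 => hzB ?_⟩))
          obtain ⟨h7, h8⟩ := (hmA _).1 h6
          rcases h3 with h3 | h3
          · rw [h3]
            exact h5
          · exact (hmB z).2 ⟨hzR, hN _ h8 _ (Or.inr h3)⟩
        · exact Or.inl (Finset.mem_sdiff.2 ⟨hu, h5⟩)
      · refine Or.inr (Or.inr ⟨hRl u hu, fun h4 => hu ?_⟩)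
        have h5 : z = Sum.inl u := σ'.injective (hz'.trans h4.symm)
        rw [← h5]
        exact hzR
    · exfalso
      rw [hz'] at h3
      refine hzB ((hmB z).2 ⟨hzR, hN _ hi' _ ?_⟩)
      change a (s i) z
      rw [hs₂]
      exact h3)
  have c3 : P ≤ (A.filter fun x => ¬ x.isLeft = true).card +
      (((B \ A).filter fun x => ¬ x.isLeft = true).card +
        ((R \ B).filter fun x => ¬ x.isLeft = true).card) := by
    have h3 : (Finset.univ : Finset (Fin P)).map ⟨Sum.inr, Sum.inr_injective⟩ ⊆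
        (A.filter fun x => ¬ x.isLeft = true) ∪
          (((B \ A).filter fun x => ¬ x.isLeft = true) ∪
            ((R \ B).filter fun x : U ⊕ Fin P => ¬ x.isLeft = true)) := by
      intro x hx
      obtain ⟨k, _, rfl⟩ := Finset.mem_map.1 hx
      change Sum.inr k ∈ _
      have hl : ¬ ((Sum.inr k : U ⊕ Fin P).isLeft = true) := by simp
      by_cases h4 : (Sum.inr k : U ⊕ Fin P) ∈ A
      · exact Finset.mem_union_left _ (Finset.mem_filter.2 ⟨h4, hl⟩)
      · by_cases h5 : (Sum.inr k : U ⊕ Fin P) ∈ B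
        · exact Finset.mem_union_right _ (Finset.mem_union_left _
            (Finset.mem_filter.2 ⟨Finset.mem_sdiff.2 ⟨h5, h4⟩, hl⟩))
        · exact Finset.mem_union_right _ (Finset.mem_union_right _
            (Finset.mem_filter.2 ⟨Finset.mem_sdiff.2 ⟨hRr k, h5⟩, hl⟩))
    have h4 := Finset.card_le_card h3
    rw [Finset.card_map, Finset.card_univ, Fintype.card_fin] at h4
    refine h4.trans ((Finset.card_union_le _ _).trans ?_)
    exact Nat.add_le_add_left (Finset.card_union_le _ _) _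
  have c4 := Finset.card_filter_add_card_filter_not (s := B \ A) (fun x => x.isLeft = true)
  omega

end Pool.Agent.MDP
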