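import Pool.Agent.MDP.Perm

/-! Existence of fans (Hall's theorem). -/

open Classical

namespace Pool.Agent.MDP

universe u

variable {U : Type u} [Fintype U] {P : ℕ}

/-- If fewer than `P` vertices never separate a root from `y`, there is an allowed permutation for the
`P` copies of `y`.

Proof. Hall's theorem (`Finset.all_card_le_biUnion_card_iff_exists_injective`) for
`t x = {column c | ok a (tau y) x c}`, `x : U ⊕ Fin P`; an injective map of a finite type to itself is a
permutation. Suppose `(X.biUnion t).card < X.card` for a finset `X` of rows; let `N = X.biUnion t`.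
No `x ∈ X` has `a x (inl y)`: otherwise all `inr k ∈ N`, and `inl u ∈ N` for all
`inl u ∈ X`, so `N.card ≥ X.card`. So `N` contains no `inr`. Let `C1 = {inl u ∈ N \ X}` and
`C = C1 ∪ {inr i | inr i ∉ X}`. We have
`N.card = #{inl u ∈ X} + C1.card < X.card = #{inl u ∈ X} + #{inr i ∈ X}`, so
`C1.card < #{inr i ∈ X}`, so `C.card < P` and some `inr i ∈ X`. `inl y ∉ C` (`inl y ∈ N \ X` would
mean `a x (inl y)` for some `x ∈ X`). By `h` there is a walk
from `inr i` to `inl y` avoiding `C`. By induction all its vertices are in `X` (if `x ∈ X`, `a x x'`,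
`x' ∉ C`: for `x' = inl u` we have `x' ∈ N`, so `x' ∈ X`; for `x' = inr i'` we have `x' ∈ X`).
The last step (the walk is not trivial, `inr i ≠ inl y`) is `a x (inl y)` with `x ∈ X`:
contradiction. -/
theorem fan_exists {a : U ⊕ Fin P → U ⊕ Fin P → Prop} {y : U}
    (h : ∀ C : Finset (U ⊕ Fin P), C.card < P → Sum.inl y ∉ C → ∀ i : Fin P, Sum.inr i ∉ C →
      Relation.ReflTransGen (fun x x' => a x x' ∧ x' ∉ C) (Sum.inr i) (Sum.inl y)) :
    ∃ σ, Ok a (tau y) σ := by
  classical
  let t : U ⊕ Fin P → Finset (U ⊕ Fin P) := fun x => Finset.univ.filter (fun c => ok a (tau y) x c)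
  have hall : ∀ X : Finset (U ⊕ Fin P), X.card ≤ (X.biUnion t).card := by
    intro X
    by_contra hX
    push Not at hX
    have memN : ∀ c, c ∈ X.biUnion t ↔ ∃ x ∈ X, ok a (tau y) x c := by
      intro c
      simp [t]
    generalize X.biUnion t = N at hX memN
    have hidle : ∀ u, Sum.inl u ∈ X → Sum.inl u ∈ N := fun u hu =>
      (memN _).2 ⟨Sum.inl u, hu, Or.inl rfl⟩
    have hno : ∀ x ∈ X, ¬ a x (Sum.inl y) := by
      intro x hx hax
      have hsub : X ⊆ N := by
        intro z hz
        rcases z with u | k
        · exact hidle u hz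
        · exact (memN _).2 ⟨x, hx, hax⟩
      exact absurd (Finset.card_le_card hsub) (by omega)
    have hNr : N.toRight = ∅ := by
      rw [Finset.eq_empty_iff_forall_notMem]
      intro k hk
      obtain ⟨x, hx, hax⟩ := (memN _).1 (Finset.mem_toRight.1 hk)
      exact hno x hx hax
    have hXN : X.toLeft ⊆ N.toLeft := fun u hu =>
      Finset.mem_toLeft.2 (hidle u (Finset.mem_toLeft.1 hu))
    have c1 : X.toLeft.card + X.toRight.card = X.card := Finset.card_toLeft_add_card_toRight
    have c2 : N.toLeft.card + N.toRight.card = N.card := Finset.card_toLeft_add_card_toRight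
    rw [hNr, Finset.card_empty] at c2
    have c3 : (N.toLeft \ X.toLeft).card + X.toLeft.card = N.toLeft.card :=
      Finset.card_sdiff_add_card_eq_card hXN
    have c4 : (X.toRightᶜ).card + X.toRight.card = P := by
      have := Finset.card_compl_add_card X.toRight
      rwa [Fintype.card_fin] at this
    let C : Finset (U ⊕ Fin P) := (N.toLeft \ X.toLeft).disjSum (X.toRightᶜ)
    have hC : C.card < P := by
      have : C.card = (N.toLeft \ X.toLeft).card + (X.toRightᶜ).card := Finset.card_disjSum _ _
      omega
    have hCl : ∀ u, Sum.inl u ∈ C ↔ Sum.inl u ∈ N ∧ Sum.inl u ∉ X := by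
      intro u
      simp [C]
    have hCr : ∀ i, Sum.inr i ∈ C ↔ Sum.inr i ∉ X := by
      intro i
      simp [C]
    have hyC : Sum.inl y ∉ C := by
      intro hy
      obtain ⟨h1, h2⟩ := (hCl y).1 hy
      obtain ⟨x, hx, hax⟩ := (memN _).1 h1
      rcases hax with e | e
      · exact h2 (e ▸ hx)
      · exact hno x hx e
    have hne : X.toRight.Nonempty := by
      rw [← Finset.card_pos]
      omega
    obtain ⟨i, hi⟩ := hne
    have hiX : Sum.inr i ∈ X := Finset.mem_toRight.1 hi
    have hwalk := h C hC hyC i (fun hc => (hCr i).1 hc hiX)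
    have hin : ∀ x, Relation.ReflTransGen (fun x x' => a x x' ∧ x' ∉ C) (Sum.inr i) x → x ∈ X := by
      intro x hx
      induction hx with
      | refl => exact hiX
      | tail _ hs ih =>
        rename_i b c _
        obtain ⟨hs1, hs2⟩ := hs
        rcases c with u | k
        · by_contra hc
          exact hs2 ((hCl u).2 ⟨(memN _).2 ⟨b, ih, Or.inr hs1⟩, hc⟩)
        · by_contra hc
          exact hs2 ((hCr k).2 hc)
    rcases Relation.ReflTransGen.cases_tail hwalk with e | ⟨x, hx, hax, _⟩
    · cases e
    · exact hno x (hin x hx) hax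
  obtain ⟨f, hf, hft⟩ := (Finset.all_card_le_biUnion_card_iff_exists_injective t).1 hall
  have hb : Function.Bijective f := Finite.injective_iff_bijective.1 hf
  exact ⟨Equiv.ofBijective f hb, fun x => (Finset.mem_filter.1 (hft x)).2⟩

end Pool.Agent.MDP
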