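import Pool.Agent.MDP.Thin
import Pool.Agent.MDP.CoreUsed
import Pool.Agent.MDP.Fan
import Pool.Agent.MDP.ThmA

/-! The core theorem. -/

open Classical

namespace Pool.Agent.MDP

open Pool.Agent.Mader

universe u

/-- The factor. -/
def kap (N : ℕ) : ℕ := (24 * N - 3) * (16 * (2 * (4 * N * (24 * N - 3))))

/-- Pull back a colouring along an embedding. -/
theorem Col.comap {U V : Type u} {a : V → V → Prop} (e : U ↪ V) {X : Finset U} {k : ℕ}
    (h : Col a (X.map e) k) : Col (fun u v => a (e u) (e v)) X k := by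
  obtain ⟨c, h1, h2⟩ := h
  refine ⟨fun u => c (e u), fun v hv => h1 _ (Finset.mem_map_of_mem e hv), fun i => ?_⟩
  intro Z hZ hne
  obtain ⟨w, hw, hw'⟩ := h2 i (Z.map e) (by
    intro z hz
    rw [Finset.mem_map] at hz
    obtain ⟨u, hu, rfl⟩ := hz
    have := hZ hu
    rw [Finset.mem_filter] at this ⊢
    exact ⟨Finset.mem_map_of_mem e this.1, this.2⟩) (hne.map)
  rw [Finset.mem_map] at hw
  obtain ⟨u, hu, rfl⟩ := hw
  exact ⟨u, hu, fun v hv => hw' _ (Finset.mem_map_of_mem e hv)⟩

/-- Push a colouring forward along an embedding. -/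
theorem Col.map {U V : Type u} {a : V → V → Prop} (e : U ↪ V) {X : Finset U} {k : ℕ}
    (h : Col (fun u v => a (e u) (e v)) X k) : Col a (X.map e) k := by
  obtain ⟨c, h1, h2⟩ := h
  refine ⟨Function.extend e c (fun _ => 0), ?_, fun i => ?_⟩
  · intro v hv
    rw [Finset.mem_map] at hv
    obtain ⟨u, hu, rfl⟩ := hv
    rw [e.injective.extend_apply]
    exact h1 u hu
  intro Z hZ hne
  have hsub : X.filter (fun u => e u ∈ Z) ⊆ X.filter (fun u => c u = i) := by
    intro u hu
    rw [Finset.mem_filter] at hu ⊢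
    refine ⟨hu.1, ?_⟩
    have h3 := hZ hu.2
    rw [Finset.mem_filter, e.injective.extend_apply] at h3
    exact h3.2
  have hmem : ∀ z ∈ Z, ∃ u ∈ X.filter (fun u => e u ∈ Z), e u = z := by
    intro z hz
    have h3 := hZ hz
    rw [Finset.mem_filter, Finset.mem_map] at h3
    obtain ⟨⟨u, hu, rfl⟩, -⟩ := h3
    exact ⟨u, Finset.mem_filter.2 ⟨hu, hz⟩, rfl⟩
  obtain ⟨z0, hz0⟩ := hne
  obtain ⟨u0, hu0, -⟩ := hmem z0 hz0
  obtain ⟨u, hu, hu'⟩ := h2 i _ hsub ⟨u0, hu0⟩
  refine ⟨e u, (Finset.mem_filter.1 hu).2, fun v hv => ?_⟩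
  obtain ⟨w, hw, rfl⟩ := hmem v hv
  exact hu' w hw

/-- Membership in a difference, for any decidability instance. -/
theorem notMem_of_sdiff {A : Type u} {inst : DecidableEq A} {s t : Finset A} {x : A}
    (h : x ∈ s \ t) : x ∉ t :=
  (Finset.mem_sdiff.1 h).2

/-- Lift a walk along an injective map onto `S`. -/
theorem lift_walk {A V : Type u} {a : V → V → Prop} {S : Finset V} (ι : A → V)
    (hι : Function.Injective ι) (hS : ∀ v ∈ S, ∃ z, ι z = v) (C : Finset A) {x y : A}
    (h : Relation.ReflTransGen (fun p q => a p q ∧ q ∈ S ∧ q ∉ C.image ι) (ι x) (ι y)) :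
    Relation.ReflTransGen (fun p q => a (ι p) (ι q) ∧ q ∉ C) x y := by
  have key : ∀ v, Relation.ReflTransGen (fun p q => a p q ∧ q ∈ S ∧ q ∉ C.image ι) (ι x) v →
      ∃ z, ι z = v ∧ Relation.ReflTransGen (fun p q => a (ι p) (ι q) ∧ q ∉ C) x z := by
    intro v hv
    induction hv with
    | refl => exact ⟨x, rfl, Relation.ReflTransGen.refl⟩
    | tail _ hstep ih =>
      obtain ⟨z, rfl, hz⟩ := ih
      obtain ⟨h1, h2, h3⟩ := hstep
      obtain ⟨w, rfl⟩ := hS _ h2
      exact ⟨w, rfl, hz.tail ⟨h1, fun hw => h3 (Finset.mem_image_of_mem ι hw)⟩⟩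
  obtain ⟨z, hz, hz'⟩ := key _ h
  rw [hι hz] at hz'
  exact hz'

/-- Reverse a walk avoiding `C`. -/
theorem rev_walk {A : Type u} {b : A → A → Prop} (C : Finset A) {x y : A} (hx : x ∉ C)
    (h : Relation.ReflTransGen (fun p q => b p q ∧ q ∉ C) x y) :
    Relation.ReflTransGen (fun p q => b q p ∧ q ∉ C) y x := by
  have key : y ∉ C ∧ Relation.ReflTransGen (fun p q => b q p ∧ q ∉ C) y x := by
    induction h with
    | refl => exact ⟨hx, Relation.ReflTransGen.refl⟩
    | tail _ hstep ih =>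
      exact ⟨hstep.2, Relation.ReflTransGen.head ⟨hstep.1, ih.1⟩ ih.2⟩
  exact key.2

/-- The core theorem.

Proof. `thmA` with `c = 4 * N`: `W ⊆ S`, `¬ Col a W (kap N * k + 4 * N)`. In particular
`W.card > 4 * N` (`Col.card`); choose an injective `r : Fin P → V`, `P = 4 * N`, with values in `W`.
Let `U = {x // x ∈ S ∧ ∀ i, r i ≠ x}`, `ι : U ⊕ Fin P → V`, `ι (inl u) = u`, `ι (inr i) = r i`, injective with
image `S`, and `a' x y = a (ι x) (ι y)`, `Y0 = {u : U | u.1 ∈ W}`. Fans: for `y ∈ Y0` use `fan_exists`; the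
hypothesis follows from `thmA`: for `C : Finset (U ⊕ Fin P)`, `C.card < P`, the set `C.image ι`
has at most `c` elements, and a walk in `S` avoiding `C.image ι` from `r i` to `y` lifts along `ι`
(all its vertices are in `S`, the image of `ι`). For the reversed digraph use the walk from `y` to
`r i`, reversed: careful, `thmA` gives walks whose vertices after the start avoid `C`, and the start
avoids `C` as well, so the reversed walk is fine. `Y0` is not `Col a'U Y0 (kap N * k)` (`a'U u v = a' (inl u) (inl v)`):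
otherwise `W \ range r` is `Col a _ (kap N * k)` and `W` is `Col a _ (kap N * k + 4 * N)` (`Col.union`,
`Col.card`). By `thin` (with `P = 4 * N`, `6 * P - 3 = 24 * N - 3`) there is `Y' ⊆ Y0`, and by
`core_of_used` (`h = N`, `2 * N + 2 * N ≤ P + 1`) it is a core in `U ⊕ Fin P`. Let `Y` be the image
of `Y'` under `ι ∘ inl`. `¬ Col a Y k`, `Y ⊆ S`. `Core a (S \ Y) Y N`: lift `s, t` to `U ⊕ Fin P`, take
the linking there, and map the sets `I i` by `ι` (image), which are subsets of
`ι (univ \ Y'.map inl) = S \ Y`. -/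
theorem core {V : Type u} {a : V → V → Prop} (hirr : ∀ v, ¬ a v v) {N : ℕ} (hN : 1 ≤ N)
    {S : Finset V} {k : ℕ} (h : ¬ Col a S (kap N * k + 12 * N)) :
    ∃ Y ⊆ S, ¬ Col a Y k ∧ Core a (S \ Y) Y N := by
  obtain ⟨W, hWS, hW, hlink⟩ := thmA (a := a) (S := S) (k := kap N * k + 4 * N) (c := 4 * N)
    (by omega) (by
      have h1 : kap N * k + 4 * N + 2 * (4 * N) = kap N * k + 12 * N := by ring
      rw [h1]
      exact h)
  have hWc : 4 * N ≤ W.card := by
    by_contra hlt
    push Not at hlt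
    exact hW ((Col.card hirr W).mono (Finset.Subset.refl _) (by omega))
  obtain ⟨T, hTW, hT⟩ := Finset.exists_subset_card_eq hWc
  let r : Fin (4 * N) ↪ V :=
    ((Finset.equivFinOfCardEq hT).symm.toEmbedding).trans (Function.Embedding.subtype _)
  have hrT : ∀ i, r i ∈ T := fun i => ((Finset.equivFinOfCardEq hT).symm i).2
  have hrW : ∀ i, r i ∈ W := fun i => hTW (hrT i)
  have hrS : ∀ i, r i ∈ S := fun i => hWS (hrW i)
  let U : Type u := {x // x ∈ S \ Finset.univ.map r}
  have hU : Fintype U := inferInstanceAs (Fintype {x // x ∈ S \ Finset.univ.map r})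
  let e : U ↪ V := Function.Embedding.subtype _
  have heS : ∀ x : U, e x ∈ S := fun x => (Finset.mem_sdiff.1 x.2).1
  have her : ∀ (x : U) (i : Fin (4 * N)), e x ≠ r i := by
    intro x i hxi
    refine (Finset.mem_sdiff.1 x.2).2 ?_
    have h2 : x.1 = r i := hxi
    rw [h2]
    exact Finset.mem_map_of_mem r (Finset.mem_univ i)
  let ι : U ⊕ Fin (4 * N) → V := Sum.elim e r
  have hι : Function.Injective ι := by
    intro x y hxy
    rcases x with x | i <;> rcases y with y | j
    · exact congrArg Sum.inl (e.injective hxy)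
    · exact absurd hxy (her x j)
    · exact absurd hxy.symm (her y i)
    · exact congrArg Sum.inr (r.injective hxy)
  have hιS : ∀ x, ι x ∈ S := by
    intro x
    rcases x with x | i
    · exact heS x
    · exact hrS i
  have hιsurj : ∀ v ∈ S, ∃ z, ι z = v := by
    intro v hv
    by_cases hvr : v ∈ Finset.univ.map r
    · rw [Finset.mem_map] at hvr
      obtain ⟨i, -, rfl⟩ := hvr
      exact ⟨Sum.inr i, rfl⟩
    · exact ⟨Sum.inl ⟨v, Finset.mem_sdiff.2 ⟨hv, hvr⟩⟩, rfl⟩
  let a' : U ⊕ Fin (4 * N) → U ⊕ Fin (4 * N) → Prop := fun x y => a (ι x) (ι y)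
  let Y0 : Finset U := Finset.univ.filter (fun u => e u ∈ W)
  have hCcard : ∀ C : Finset (U ⊕ Fin (4 * N)), C.card < 4 * N → (C.image ι).card ≤ 4 * N :=
    fun C hC => Finset.card_image_le.trans hC.le
  have hCmem : ∀ (C : Finset (U ⊕ Fin (4 * N))) (x : U ⊕ Fin (4 * N)), x ∉ C →
      ι x ∉ C.image ι := by
    intro C x hx hx'
    rw [Finset.mem_image] at hx'
    obtain ⟨z, hz, hzx⟩ := hx'
    exact hx (hι hzx ▸ hz)
  have hfan : ∀ y ∈ Y0, ∃ σ, Ok a' (tau y) σ := by
    intro y hy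
    refine fan_exists (fun C hC hyC i hiC => ?_)
    refine lift_walk ι hι hιsurj C (hlink (C.image ι) (hCcard C hC) (ι (Sum.inr i)) (hrW i)
      (hCmem C _ hiC) (ι (Sum.inl y)) ?_ (hCmem C _ hyC))
    exact (Finset.mem_filter.1 hy).2
  have hfan' : ∀ y ∈ Y0, ∃ σ, Ok (fun x y => a' y x) (tau y) σ := by
    intro y hy
    refine fan_exists (fun C hC hyC i hiC => ?_)
    refine rev_walk C hyC ?_
    refine lift_walk ι hι hιsurj C (hlink (C.image ι) (hCcard C hC) (ι (Sum.inl y)) ?_
      (hCmem C _ hyC) (ι (Sum.inr i)) (hrW i) (hCmem C _ hiC))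
    exact (Finset.mem_filter.1 hy).2
  have hY0 : ¬ Col (fun u v => a' (Sum.inl u) (Sum.inl v)) Y0
      ((6 * (4 * N) - 3) * (16 * (2 * (4 * N * (6 * (4 * N) - 3))) * k)) := by
    intro hcol
    have h3 : (6 * (4 * N) - 3) * (16 * (2 * (4 * N * (6 * (4 * N) - 3))) * k) = kap N * k := by
      unfold kap
      rw [show 6 * (4 * N) = 24 * N by ring]
      ring
    rw [h3] at hcol
    have h4 : Col a (Y0.map e) (kap N * k) := Col.map e hcol
    have h5 : Col a (Finset.univ.map r) (4 * N) := by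
      have := Col.card hirr (Finset.univ.map r)
      rw [Finset.card_map, Finset.card_univ, Fintype.card_fin] at this
      exact this
    refine hW ((h4.union h5).mono ?_ le_rfl)
    intro v hv
    rw [Finset.mem_union]
    by_cases hvr : v ∈ Finset.univ.map r
    · exact Or.inr hvr
    · refine Or.inl ?_
      rw [Finset.mem_map]
      exact ⟨⟨v, Finset.mem_sdiff.2 ⟨hWS hv, hvr⟩⟩,
        Finset.mem_filter.2 ⟨Finset.mem_univ _, hv⟩, rfl⟩
  obtain ⟨Y', -, hY', hu1, hu2⟩ := thin hN rfl (fun x => hirr (ι x)) hfan hfan' hY0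
  have hcore := core_of_used (N := N) (h := N) (by omega) hu1 hu2
  refine ⟨Y'.map e, ?_, fun hcol => hY' (Col.comap e hcol), ?_⟩
  · intro v hv
    rw [Finset.mem_map] at hv
    obtain ⟨u, -, rfl⟩ := hv
    exact heS u
  intro s t hs ht hsY htY hst
  have hs' : ∀ i, ∃ u ∈ Y', e u = s i := fun i => by
    have := hsY i
    rwa [Finset.mem_map] at this
  have ht' : ∀ i, ∃ u ∈ Y', e u = t i := fun i => by
    have := htY i
    rwa [Finset.mem_map] at this
  choose s' hs1 hs2 using hs'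
  choose t' ht1 ht2 using ht'
  obtain ⟨π, I, hI, hdis, hwalk⟩ := hcore (fun i => Sum.inl (s' i)) (fun i => Sum.inl (t' i))
    (by
      intro i j hij
      apply hs
      rw [← hs2 i, ← hs2 j, Sum.inl_injective hij])
    (by
      intro i j hij
      apply ht
      rw [← ht2 i, ← ht2 j, Sum.inl_injective hij])
    (fun i => Finset.mem_map.2 ⟨s' i, hs1 i, rfl⟩)
    (fun i => Finset.mem_map.2 ⟨t' i, ht1 i, rfl⟩)
    (by
      intro i j hij
      apply hst i j
      rw [← hs2 i, ← ht2 j, Sum.inl_injective hij])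
  refine ⟨π, fun i => (I i).image ι, ?_, ?_, ?_⟩
  · intro i v hv
    rw [Finset.mem_image] at hv
    obtain ⟨z, hz, rfl⟩ := hv
    rw [Finset.mem_sdiff]
    refine ⟨hιS z, fun hz' => ?_⟩
    rw [Finset.mem_map] at hz'
    obtain ⟨u, hu, huz⟩ := hz'
    have h6 : (Sum.inl u : U ⊕ Fin (4 * N)) = z := hι huz
    refine notMem_of_sdiff (hI i hz) ?_
    rw [← h6]
    exact Finset.mem_map.2 ⟨u, hu, rfl⟩
  · intro i j hij
    exact (Finset.disjoint_image hι).2 (hdis i j hij)
  · intro i
    have h7 := hwalk i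
    have h8 : Relation.ReflTransGen (fun x y => a x y ∧ (y ∈ (I i).image ι ∨ y = t (π i)))
        (ι (Sum.inl (s' i))) (ι (Sum.inl (t' (π i)))) := by
      refine Relation.ReflTransGen.lift ι ?_ _ _ h7
      rintro x y ⟨hxy, hy⟩
      refine ⟨hxy, ?_⟩
      rcases hy with hy | hy
      · exact Or.inl (Finset.mem_image_of_mem ι hy)
      · refine Or.inr ?_
        rw [hy]
        exact ht2 (π i)
    have h9 : ι (Sum.inl (s' i)) = s i := hs2 i
    have h10 : ι (Sum.inl (t' (π i))) = t (π i) := ht2 (π i)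
    rw [h9, h10] at h8
    exact h8

end Pool.Agent.MDP
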