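import Pool.Agent.MDP.Perm

/-! Bounds for the cost. -/

open Classical

namespace Pool.Agent.MDP

universe u

variable {U : Type u} [Fintype U] {P : ℕ}

/-- main part of the cost of a pair -/
private noncomputable def mn (w : Wt U P) (Y : Finset U) (x : U ⊕ Fin P) : U ⊕ Fin P → ℕ
  | Sum.inl u => if x = Sum.inl u then 0 else (if u ∈ Y then w.Q else 0)
  | Sum.inr _ => 0

/-- noise part of the cost of a pair -/
private noncomputable def nz (w : Wt U P) (τ : Fin P → U × Fin P) (x : U ⊕ Fin P) :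
    U ⊕ Fin P → ℕ
  | Sum.inl u => if x = Sum.inl u then 0 else w.n1 x u
  | Sum.inr k => w.n2 x (τ k)

private lemma cst_eq (w : Wt U P) (Y : Finset U) (τ : Fin P → U × Fin P) (x c : U ⊕ Fin P) :
    cst w Y τ x c = mn w Y x c + nz w τ x c := by
  cases c with
  | inl u =>
    simp only [cst, mn, nz]
    split_ifs <;> simp
  | inr k => simp only [cst, mn, nz, zero_add]

private lemma sum_mn (w : Wt U P) (Y : Finset U) (σ : Equiv.Perm (U ⊕ Fin P)) :
    ∑ x, mn w Y x (σ x) = w.Q * used Y σ := by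
  have h1 : ∑ x, mn w Y x (σ x) = ∑ c, mn w Y (σ.symm c) c := by
    rw [← Equiv.sum_comp σ fun c => mn w Y (σ.symm c) c]
    refine Finset.sum_congr rfl fun x _ => ?_
    rw [Equiv.symm_apply_apply]
  rw [h1, Fintype.sum_sum_type]
  have h2 : ∑ k : Fin P, mn w Y (σ.symm (Sum.inr k)) (Sum.inr k) = 0 :=
    Finset.sum_eq_zero fun k _ => rfl
  rw [h2, add_zero]
  have h3 : ∀ u : U, mn w Y (σ.symm (Sum.inl u)) (Sum.inl u) =
      if (u ∈ Y ∧ σ (Sum.inl u) ≠ Sum.inl u) then w.Q else 0 := by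
    intro u
    have h4 : σ.symm (Sum.inl u) = Sum.inl u ↔ σ (Sum.inl u) = Sum.inl u := by
      rw [Equiv.symm_apply_eq]
      exact eq_comm
    simp only [mn, h4]
    split_ifs with h5 h6 h6 h7 h7 <;> first | rfl | tauto
  rw [Finset.sum_congr rfl fun u _ => h3 u, ← Finset.sum_filter, Finset.sum_const, smul_eq_mul,
    mul_comm, used]
  congr 2
  ext u
  simp

private lemma sum_nz (w : Wt U P) (τ : Fin P → U × Fin P) (σ : Equiv.Perm (U ⊕ Fin P)) :
    2 * ∑ x, nz w τ x (σ x) < w.Q := by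
  have h1 : ∑ x, nz w τ x (σ x) ≤ (∑ x, ∑ u, w.n1 x u) + ∑ x, ∑ l, w.n2 x l := by
    rw [← Finset.sum_add_distrib]
    refine Finset.sum_le_sum fun x _ => ?_
    cases h : σ x with
    | inl u =>
      simp only [nz]
      split_ifs
      · exact Nat.zero_le _
      · exact le_add_right (Finset.single_le_sum (f := fun u => w.n1 x u)
          (fun i _ => Nat.zero_le _) (Finset.mem_univ u))
    | inr k =>
      simp only [nz]
      exact le_add_left (Finset.single_le_sum (f := fun l => w.n2 x l)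
        (fun i _ => Nat.zero_le _) (Finset.mem_univ (τ k)))
  have h2 := w.small
  omega

private lemma cost_eq (w : Wt U P) (Y : Finset U) (τ : Fin P → U × Fin P)
    (σ : Equiv.Perm (U ⊕ Fin P)) :
    cost w Y τ σ = w.Q * used Y σ + ∑ x, nz w τ x (σ x) := by
  unfold cost
  rw [Finset.sum_congr rfl fun x _ => cst_eq w Y τ x (σ x), Finset.sum_add_distrib, sum_mn]

/-- Lower bound of the cost.

Proof. The map `u ↦ σ⁻¹ (inl u)` is injective and for `u ∈ Y` with `σ (inl u) ≠ inl u` the row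
`x = σ⁻¹ (inl u)` is different from `inl u`, so `cst w Y τ x (σ x) ≥ Q`. -/
theorem cost_ge (w : Wt U P) (Y : Finset U) (τ : Fin P → U × Fin P)
    (σ : Equiv.Perm (U ⊕ Fin P)) : w.Q * used Y σ ≤ cost w Y τ σ := by
  rw [cost_eq]
  exact Nat.le_add_right _ _

/-- Upper bound of the cost.

Proof. `cost = ∑ over rows x of (Q if σ x = inl u, u ∈ Y, x ≠ inl u) + noise x`, where
the first sum is `Q * used Y σ` (bijection `u ↦ σ⁻¹ (inl u)`), and `noise x` is `0`, or
`w.n1 x u ≤ ∑ u, w.n1 x u`, or `w.n2 x l ≤ ∑ l, w.n2 x l`. Use `w.small`. -/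
theorem cost_lt (w : Wt U P) (Y : Finset U) (τ : Fin P → U × Fin P)
    (σ : Equiv.Perm (U ⊕ Fin P)) : 2 * cost w Y τ σ < 2 * (w.Q * used Y σ) + w.Q := by
  rw [cost_eq]
  have h := sum_nz w τ σ
  omega

end Pool.Agent.MDP
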