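import Pool.Agent.MDP.Perm

/-! Two-adic determinants. -/

open Classical

namespace Pool.Agent.MDP

universe u

variable {U : Type u} [Fintype U] {P : ℕ}

/-- The matrix of the matching problem. -/
noncomputable def Nm (w : Wt U P) (Y : Finset U) (a : U ⊕ Fin P → U ⊕ Fin P → Prop)
    (τ : Fin P → U × Fin P) : Matrix (U ⊕ Fin P) (U ⊕ Fin P) ℚ_[2] :=
  Matrix.of fun x y => if ok a τ x y then (2 : ℚ_[2]) ^ cst w Y τ x y else 0

theorem prod_Nm (w : Wt U P) (Y : Finset U) (a : U ⊕ Fin P → U ⊕ Fin P → Prop)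
    (τ : Fin P → U × Fin P) (σ : Equiv.Perm (U ⊕ Fin P)) :
    ∏ x, Nm w Y a τ x (σ x) = if Ok a τ σ then (2 : ℚ_[2]) ^ cost w Y τ σ else 0 := by
  by_cases h : Ok a τ σ
  · rw [if_pos h, cost, ← Finset.prod_pow_eq_pow_sum]
    refine Finset.prod_congr rfl fun x _ => ?_
    simp only [Nm, Matrix.of_apply]
    rw [if_pos (h x)]
  · rw [if_neg h]
    have h' : ∃ x, ¬ ok a τ x (σ x) := by
      by_contra hc
      push Not at hc
      exact h hc
    obtain ⟨x, hx⟩ := h'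
    refine Finset.prod_eq_zero (Finset.mem_univ x) ?_
    simp only [Nm, Matrix.of_apply]
    rw [if_neg hx]

theorem det_Nm (w : Wt U P) (Y : Finset U) (a : U ⊕ Fin P → U ⊕ Fin P → Prop)
    (τ : Fin P → U × Fin P) :
    (Nm w Y a τ).det = ∑ σ : Equiv.Perm (U ⊕ Fin P),
      ((Equiv.Perm.sign σ : ℤ) : ℚ_[2]) * (if Ok a τ σ then (2 : ℚ_[2]) ^ cost w Y τ σ else 0) := by
  rw [← Matrix.det_transpose, Matrix.det_apply']
  refine Finset.sum_congr rfl fun σ _ => ?_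
  rw [← prod_Nm]
  rfl

theorem norm_sign (σ : Equiv.Perm (U ⊕ Fin P)) : ‖((Equiv.Perm.sign σ : ℤ) : ℚ_[2])‖ = 1 := by
  rcases Int.units_eq_one_or (Equiv.Perm.sign σ) with h | h <;> rw [h] <;> simp

theorem norm_sum_le {ι : Type*} (s : Finset ι) (f : ι → ℚ_[2]) (c : ℝ) (hc : 0 ≤ c)
    (h : ∀ i ∈ s, ‖f i‖ ≤ c) : ‖∑ i ∈ s, f i‖ ≤ c := by
  induction s using Finset.induction_on with
  | empty => simpa using hc
  | insert a s ha ih =>
    rw [Finset.sum_insert ha]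
    refine le_trans (Padic.nonarchimedean _ _) (max_le (h _ (Finset.mem_insert_self _ _)) ?_)
    exact ih fun i hi => h i (Finset.mem_insert_of_mem hi)

theorem norm_two_pow (n : ℕ) : ‖(2 : ℚ_[2]) ^ n‖ = (2 : ℝ) ^ (-(n : ℤ)) := by
  have := Padic.norm_p_pow (p := 2) n
  simpa using this

/-- Proof. `det = ∑ σ, sign σ * ∏ x, Nm (σ x) x`; pass to the transposed matrix (or to `σ⁻¹`), so that the
product is `∏ x, Nm x (σ x)`, which is `2 ^ cost σ` if `Ok a τ σ` and `0` otherwise. If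
there is no allowed `σ`, all terms vanish. -/
theorem det_zero (w : Wt U P) (Y : Finset U) {a : U ⊕ Fin P → U ⊕ Fin P → Prop}
    {τ : Fin P → U × Fin P} (h : ¬ ∃ σ, Ok a τ σ) : (Nm w Y a τ).det = 0 := by
  rw [det_Nm]
  refine Finset.sum_eq_zero fun σ _ => ?_
  rw [if_neg fun hσ => h ⟨σ, hσ⟩, mul_zero]

/-- Proof. As in `det_zero`: `det = ∑ over allowed σ of ± 2 ^ cost σ`. All allowed `σ ≠ σ0` have
`cost σ ≥ cost σ0 + 1` (costs are different). So `det = ± 2 ^ c0 + 2 ^ (c0 + 1) * t` with an integer `t`,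
`c0 = cost σ0`, i.e. `det = 2 ^ c0 * (± 1 + 2 t)` and the norm of an odd integer in `ℚ_[2]` is `1`.
(Or: nonarchimedean triangle inequality, the term of `σ0` has norm `2 ^ (-c0)`, the sum of the others
has norm `≤ 2 ^ (-(c0+1))`.) -/
theorem norm_det (w : Wt U P) (Y : Finset U) {a : U ⊕ Fin P → U ⊕ Fin P → Prop}
    {τ : Fin P → U × Fin P} (hinj : Function.Injective (cost w Y τ))
    {σ0 : Equiv.Perm (U ⊕ Fin P)} (h0 : Ok a τ σ0)
    (hopt : ∀ σ, Ok a τ σ → cost w Y τ σ0 ≤ cost w Y τ σ) :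
    ‖(Nm w Y a τ).det‖ = (2 : ℝ) ^ (-(cost w Y τ σ0 : ℤ)) := by
  rw [det_Nm, ← Finset.add_sum_erase _ _ (Finset.mem_univ σ0), if_pos h0]
  have h1 : ‖((Equiv.Perm.sign σ0 : ℤ) : ℚ_[2]) * (2 : ℚ_[2]) ^ cost w Y τ σ0‖
      = (2 : ℝ) ^ (-(cost w Y τ σ0 : ℤ)) := by
    rw [norm_mul, norm_sign, one_mul, norm_two_pow]
  have h2 : ‖∑ σ ∈ Finset.univ.erase σ0, ((Equiv.Perm.sign σ : ℤ) : ℚ_[2]) *
      (if Ok a τ σ then (2 : ℚ_[2]) ^ cost w Y τ σ else 0)‖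
      ≤ (2 : ℝ) ^ (-((cost w Y τ σ0 + 1 : ℕ) : ℤ)) := by
    refine norm_sum_le _ _ _ (by positivity) fun σ hσ => ?_
    rw [norm_mul, norm_sign, one_mul]
    by_cases hok : Ok a τ σ
    · rw [if_pos hok, norm_two_pow]
      have hlt : cost w Y τ σ0 < cost w Y τ σ :=
        lt_of_le_of_ne (hopt σ hok) fun he => (Finset.ne_of_mem_erase hσ) (hinj he.symm)
      refine zpow_le_zpow_right₀ (by norm_num) ?_
      have : ((cost w Y τ σ0 + 1 : ℕ) : ℤ) ≤ (cost w Y τ σ : ℤ) := by exact_mod_cast hlt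
      omega
    · rw [if_neg hok, norm_zero]
      positivity
  have h3 : (2 : ℝ) ^ (-((cost w Y τ σ0 + 1 : ℕ) : ℤ)) < (2 : ℝ) ^ (-(cost w Y τ σ0 : ℤ)) := by
    refine zpow_lt_zpow_right₀ (by norm_num) ?_
    push_cast
    omega
  rw [Padic.add_eq_max_of_ne, h1, max_eq_left]
  · exact le_of_lt (lt_of_le_of_lt h2 h3)
  · rw [h1]
    exact ne_of_gt (lt_of_le_of_lt h2 h3)

end Pool.Agent.MDP
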