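import Mathlib

/-! Simple paths. -/

open Classical

namespace Pool.Agent.MDP

universe u

variable {V : Type u}

private theorem simplePath_walk {a : V → V → Prop} {T : Finset V} {x y : V}
    (h : Relation.ReflTransGen (fun u v => a u v ∧ (v ∈ T ∨ v = y)) x y) :
    ∃ (m : ℕ) (q : ℕ → V), q 0 = x ∧ q m = y ∧
      ∀ t, t < m → a (q t) (q (t + 1)) ∧ (q (t + 1) ∈ T ∨ q (t + 1) = y) := by
  have key : ∀ z, Relation.ReflTransGen (fun u v => a u v ∧ (v ∈ T ∨ v = y)) x z →
      ∃ (m : ℕ) (q : ℕ → V), q 0 = x ∧ q m = z ∧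
      ∀ t, t < m → a (q t) (q (t + 1)) ∧ (q (t + 1) ∈ T ∨ q (t + 1) = y) := by
    intro z hz
    induction hz with
    | refl => exact ⟨0, fun _ => x, rfl, rfl, fun t ht => absurd ht (Nat.not_lt_zero t)⟩
    | tail _ hbc ih =>
      rename_i b c _
      obtain ⟨m, q, h0, hm, hq⟩ := ih
      refine ⟨m + 1, fun t => if t ≤ m then q t else c, ?_, ?_, ?_⟩
      · simp [h0]
      · simp
      · intro t ht
        have htm : t ≤ m := Nat.lt_succ_iff.mp ht
        by_cases h1 : t < m
        · have h2 : t + 1 ≤ m := h1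
          simp only [if_pos htm, if_pos h2]
          exact hq t h1
        · have h3 : t = m := le_antisymm htm (not_lt.mp h1)
          subst h3
          have h4 : ¬ (t + 1 ≤ t) := by omega
          simp only [le_refl, if_true, if_neg h4]
          rw [hm]
          exact hbc
  exact key y h

/-- A simple path.

Proof. There is a walk `q 0 = x, ..., q m = y` with `a (q t) (q (t + 1))`, and `q (t + 1) ∈ T ∨ q (t + 1) = y`
for `t < m` (from `ReflTransGen`, by induction). Take one with `m` minimal; `m ≥ 1` as `x ≠ y`; put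
`L = m - 1`, `p = q`. For `1 ≤ t ≤ L`, `q t ≠ y` (otherwise stop at `t`), so `q t ∈ T`. If
`q s = q t` with `s < t ≤ L` leave out the piece between `s` and `t` to get a shorter walk. -/
theorem simple_path {a : V → V → Prop} {T : Finset V} {x y : V} (hxy : x ≠ y)
    (h : Relation.ReflTransGen (fun u v => a u v ∧ (v ∈ T ∨ v = y)) x y) :
    ∃ (L : ℕ) (p : ℕ → V), p 0 = x ∧ p (L + 1) = y ∧ (∀ t, t ≤ L → a (p t) (p (t + 1))) ∧
      (∀ s t, 1 ≤ s → s ≤ L → 1 ≤ t → t ≤ L → p s = p t → s = t) ∧
      ∀ t, 1 ≤ t → t ≤ L → p t ∈ T := by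
  have hex : ∃ m : ℕ, ∃ q : ℕ → V, q 0 = x ∧ q m = y ∧
      ∀ t, t < m → a (q t) (q (t + 1)) ∧ (q (t + 1) ∈ T ∨ q (t + 1) = y) := simplePath_walk h
  obtain ⟨q, h0, hm, hq⟩ := Nat.find_spec hex
  have hmin : ∀ k, k < Nat.find hex → ¬ ∃ q : ℕ → V, q 0 = x ∧ q k = y ∧
      ∀ t, t < k → a (q t) (q (t + 1)) ∧ (q (t + 1) ∈ T ∨ q (t + 1) = y) :=
    fun k hk => Nat.find_min hex hk
  generalize Nat.find hex = m at hm hq hmin
  have hm1 : 1 ≤ m := by
    rcases Nat.eq_zero_or_pos m with h1 | h1
    · exfalso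
      subst h1
      exact hxy (h0.symm.trans hm)
    · exact h1
  obtain ⟨L, rfl⟩ : ∃ L, m = L + 1 := ⟨m - 1, by omega⟩
  have hlt : ∀ s t, s < t → t ≤ L → q s ≠ q t := by
    intro s t hst htL he
    apply hmin (L + 1 - (t - s)) (by omega)
    refine ⟨fun i => if i ≤ s then q i else q (i + (t - s)), ?_, ?_, ?_⟩
    · simp [h0]
    · have h1 : ¬ (L + 1 - (t - s) ≤ s) := by omega
      have h2 : L + 1 - (t - s) + (t - s) = L + 1 := by omega
      simp only [if_neg h1, h2]
      exact hm
    · intro i hi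
      by_cases h1 : i + 1 ≤ s
      · have h2 : i ≤ s := by omega
        simp only [if_pos h1, if_pos h2]
        exact hq i (by omega)
      · by_cases h3 : i ≤ s
        · have h4 : i = s := by omega
          subst h4
          have h5 : i + 1 + (t - i) = t + 1 := by omega
          simp only [if_neg h1, if_pos h3, h5]
          rw [he]
          exact hq t (by omega)
        · have h5 : i + 1 + (t - s) = i + (t - s) + 1 := by omega
          simp only [if_neg h1, if_neg h3, h5]
          exact hq (i + (t - s)) (by omega)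
  refine ⟨L, q, h0, hm, fun t ht => (hq t (by omega)).1, ?_, ?_⟩
  · intro s t _ hsL _ htL he
    rcases lt_trichotomy s t with h1 | h1 | h1
    · exact absurd he (hlt s t h1 htL)
    · exact h1
    · exact absurd he.symm (hlt t s h1 hsL)
  · intro t ht1 htL
    obtain ⟨i, rfl⟩ : ∃ i, t = i + 1 := ⟨t - 1, by omega⟩
    rcases (hq i (by omega)).2 with h1 | h1
    · exact h1
    · exfalso
      exact hmin (i + 1) (by omega) ⟨q, h0, h1, fun j hj => hq j (by omega)⟩

end Pool.Agent.MDP
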