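import Pool.Agent.MDP.Assemble
import Pool.Agent.MDP.Basic2
import Pool.Agent.MDP.SimplePath
import Pool.Agent.Mader.Defs

/-! The final theorem. -/

open Classical

namespace Pool.Agent.MDP

open Pool.Agent.Mader

universe u

/-- `kap N * (578 * (n + N)) + 12 * N ≤ 5 * 10 ^ 7 * (n + N) ^ 4`.

Proof. `kap N ≤ 24 * N * (16 * (2 * (4 * N * (24 * N)))) = 73728 * N ^ 3`, and
`73728 * 578 = 42614784`. -/
theorem kap_le {n N : ℕ} (hn : 1 ≤ n) :
    kap N * (578 * (n + N)) + 12 * N ≤ 50000000 * (n + N) ^ 4 := by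
  have h1 : kap N ≤ 73728 * N ^ 3 := by
    unfold kap
    calc (24 * N - 3) * (16 * (2 * (4 * N * (24 * N - 3))))
        ≤ (24 * N) * (16 * (2 * (4 * N * (24 * N)))) :=
          Nat.mul_le_mul (Nat.sub_le _ _) (Nat.mul_le_mul_left _ (Nat.mul_le_mul_left _
            (Nat.mul_le_mul_left _ (Nat.sub_le _ _))))
      _ = 73728 * N ^ 3 := by ring
  have h2 : N ≤ n + N := by omega
  generalize n + N = s at *
  have h4 : N ^ 3 ≤ s ^ 3 := Nat.pow_le_pow_left h2 3
  have h5 : s ≤ s ^ 4 := Nat.le_self_pow (by norm_num) s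
  have h6 : kap N ≤ 73728 * s ^ 3 := h1.trans (Nat.mul_le_mul_left _ h4)
  calc kap N * (578 * s) + 12 * N ≤ (73728 * s ^ 3) * (578 * s) + 12 * s :=
        Nat.add_le_add (Nat.mul_le_mul_right _ h6) (Nat.mul_le_mul_left _ h2)
    _ = 42614784 * s ^ 4 + 12 * s := by ring
    _ ≤ 50000000 * s ^ 4 := by linarith

/-- Proof. Let `N` be the number of arcs of `F`. If `N = 0`: `V` has at least `n` elements
(otherwise `col : V → Fin (c * (n + N) ^ 4)` could be injective, and then there is no
monochromatic closed walk since there are no loops), and any injective `f : Fin n → V` works. If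
`N ≥ 1`: let `E : Fin N ≃ {e : Fin n × Fin n // F.Adj e.1 e.2}`, `tl e = (E e).1.1`,
`hd e = (E e).1.2`. By `not_col_of_cycles` and `kap_le` (`Col.mono`) we can apply `assemble`, and
then `simple_path` for each `e` (`tl e ≠ hd e` since `F` has no loops). Define `L i j`, `p i j` for
arcs `(i, j)` via `E.symm`, see the end of the proof of `Mader.subdivision_of_weights`. -/
theorem poly_main : ∃ c : ℕ, 0 < c ∧ ∀ n : ℕ, 0 < n → ∀ F : Digraph (Fin n),
    (∀ i, ¬ F.Adj i i) → ∀ (V : Type u) [Fintype V] (D : Digraph V), (∀ v, ¬ D.Adj v v) →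
      (¬ ∃ col : V → Fin (c * (n + Nat.card {e : Fin n × Fin n // F.Adj e.1 e.2}) ^ 4),
        ∀ v, ¬ Relation.TransGen (fun x y => D.Adj x y ∧ col x = col y) v v) →
      ContainsSubdivision F D := by
  refine ⟨50000000, by norm_num, ?_⟩
  intro n hn F hF V _ D hD hcol
  have h0 := not_col_of_cycles D.Adj _ hcol
  obtain ⟨N, hN⟩ : ∃ N, N = Nat.card {e : Fin n × Fin n // F.Adj e.1 e.2} := ⟨_, rfl⟩
  rw [← hN] at h0
  rcases Nat.eq_zero_or_pos N with h | h
  · have hcard : n ≤ Fintype.card V := by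
      by_contra hlt
      push Not at hlt
      apply h0
      refine (Col.card hD Finset.univ).mono (Finset.Subset.refl _) ?_
      rw [Finset.card_univ]
      have h5 : n + N ≤ (n + N) ^ 4 := Nat.le_self_pow (by norm_num) _
      omega
    obtain ⟨f⟩ : Nonempty (Fin n ↪ V) :=
      Function.Embedding.nonempty_of_card_le (by rw [Fintype.card_fin]; exact hcard)
    have hno : ∀ i j, ¬ F.Adj i j := by
      intro i j hij
      have h1 : IsEmpty {e : Fin n × Fin n // F.Adj e.1 e.2} :=
        (Finite.card_eq_zero_iff).1 (by rw [← hN, h])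
      exact h1.false ⟨(i, j), hij⟩
    exact ⟨f, f.injective, fun _ _ => 0, fun i _ _ => f i,
      fun i j hij => absurd hij (hno i j), fun i j _ _ hij => absurd hij (hno i j)⟩
  · obtain ⟨E⟩ : Nonempty (Fin N ≃ {e : Fin n × Fin n // F.Adj e.1 e.2}) := by
      rw [hN]
      exact ⟨(Finite.equivFin _).symm⟩
    obtain ⟨x, T, hx, hxT, hd, hw⟩ := assemble (a := D.Adj) hD hn h (fun e => (E e).1.1)
      (fun e => (E e).1.2) (fun hc => h0 (hc.mono (Finset.Subset.refl _) (kap_le hn)))
    have hpath : ∀ e : {e : Fin n × Fin n // F.Adj e.1 e.2}, ∃ (L : ℕ) (p : ℕ → V),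
        p 0 = x e.1.1 ∧ p (L + 1) = x e.1.2 ∧ (∀ t, t ≤ L → D.Adj (p t) (p (t + 1))) ∧
        (∀ s t, 1 ≤ s → s ≤ L → 1 ≤ t → t ≤ L → p s = p t → s = t) ∧
        ∀ t, 1 ≤ t → t ≤ L → p t ∈ T (E.symm e) := by
      intro e
      have h1 := hw (E.symm e)
      rw [Equiv.apply_symm_apply] at h1
      refine simple_path ?_ h1
      intro heq
      have h2 := hx heq
      have h3 := e.2
      rw [h2] at h3
      exact hF _ h3
    choose L p hp0 hp1 hpa hpinj hpI using hpath
    refine ⟨x, hx, fun i j => if h : F.Adj i j then L ⟨(i, j), h⟩ else 0,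
      fun i j => if h : F.Adj i j then p ⟨(i, j), h⟩ else fun _ => x i, ?_, ?_⟩
    · intro i j h
      simp only [dif_pos h]
      refine ⟨hp0 _, hp1 _, hpa _, hpinj _, ?_⟩
      intro t k h1 h2 h3
      exact hxT _ k (h3 ▸ hpI _ t h1 h2)
    · intro i j k l h h' hne s t hs hs' ht ht' heq
      simp only [dif_pos h] at hs' heq
      simp only [dif_pos h'] at ht' heq
      have h1 := hpI _ s hs hs'
      have h2 := hpI _ t ht ht'
      rw [heq] at h1
      refine Finset.disjoint_left.mp (hd _ _ ?_) h1 h2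
      intro hh
      have h3 := E.symm.injective hh
      have h4 := congrArg Subtype.val h3
      rw [Prod.mk.injEq] at h4
      rcases hne with g | g
      · exact g h4.1
      · exact g h4.2

end Pool.Agent.MDP
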