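import Pool.Agent.Mader.Ear

/-! The freeing lemma, first matching. -/

open Classical

namespace Pool.Agent.MDP

open Pool.Agent.Mader

universe u

variable {V : Type u}

namespace FO

/-- The type of the first matching. -/
abbrev FT (S : Finset V) {N : ℕ} (ℬ : Finset (Finset V)) (f : Fin N → V) : Type u :=
  {x // x ∈ S ∧ ∀ i, f i ≠ x} ⊕ (Fin N × Bool) → {x // x ∈ S ∧ ∀ i, f i ≠ x} ⊕ {b // b ∈ ℬ}

/-- The conditions on the first matching. -/
structure FGood (a : V → V → Prop) {S : Finset V} {N : ℕ} {ℬ : Finset (Finset V)} {f : Fin N → V}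
    (g : FT S ℬ f) : Prop where
  inj : Function.Injective g
  ll : ∀ x y, g (Sum.inl x) = Sum.inl y → x = y ∨ a y.1 x.1
  lr : ∀ x b, g (Sum.inl x) = Sum.inr b → x.1 ∈ b.1
  rl : ∀ i y, g (Sum.inr i) = Sum.inl y → a y.1 (f i.1)
  rr : ∀ i b, g (Sum.inr i) ≠ Sum.inr b

/-- Number of vertices that are not idle. -/
noncomputable def fcount {S : Finset V} {N : ℕ} {ℬ : Finset (Finset V)} {f : Fin N → V}
    (g : FT S ℬ f) : ℕ :=
  {x : {x // x ∈ S ∧ ∀ i, f i ≠ x} | g (Sum.inl x) ≠ Sum.inl x}.ncard

theorem update_inj {α β : Type*} [DecidableEq α] {g : α → β} (hg : Function.Injective g) {x : α} {y : β}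
    (h : ∀ z, g z ≠ y) : Function.Injective (Function.update g x y) := by
  intro u v huv
  by_cases hu : u = x
  · by_cases hv : v = x
    · rw [hu, hv]
    · subst hu
      rw [Function.update_self, Function.update_of_ne hv] at huv
      exact absurd huv.symm (h v)
  · by_cases hv : v = x
    · subst hv
      rw [Function.update_self, Function.update_of_ne hu] at huv
      exact absurd huv (h u)
    · rw [Function.update_of_ne hu, Function.update_of_ne hv] at huv
      exact hg huv

instance finA (S : Finset V) {N : ℕ} (f : Fin N → V) :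
    Finite {x // x ∈ S ∧ ∀ i, f i ≠ x} :=
  Set.Finite.subset (s := (S : Set V)) S.finite_toSet (fun _ hx => hx.1)

/-- In a minimal solution every vertex is a value. -/
theorem fmin_value {a : V → V → Prop} {S : Finset V} {N : ℕ} {ℬ : Finset (Finset V)}
    {f : Fin N → V} {g : FT S ℬ f}
    (hg : FGood a g) (hmin : ∀ g' : FT S ℬ f, FGood a g' → fcount g ≤ fcount g') (y) :
    ∃ j, g j = Sum.inl y := by
  by_contra hno
  push Not at hno
  have h1 : FGood a (Function.update g (Sum.inl y) (Sum.inl y)) := by
    refine ⟨update_inj hg.inj hno, ?_, ?_, ?_, ?_⟩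
    · intro x z hxz
      by_cases hx : x = y
      · subst hx
        rw [Function.update_self] at hxz
        exact Or.inl (Sum.inl_injective hxz)
      · rw [Function.update_of_ne (by simpa using hx)] at hxz
        exact hg.ll x z hxz
    · intro x b hxb
      by_cases hx : x = y
      · subst hx
        rw [Function.update_self] at hxb
        exact absurd hxb (by simp)
      · rw [Function.update_of_ne (by simpa using hx)] at hxb
        exact hg.lr x b hxb
    · intro i z hiz
      rw [Function.update_of_ne (by simp)] at hiz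
      exact hg.rl i z hiz
    · intro i b
      rw [Function.update_of_ne (by simp)]
      exact hg.rr i b
  have h2 := hmin _ h1
  have h3 : fcount (Function.update g (Sum.inl y) (Sum.inl y)) < fcount g := by
    unfold fcount
    apply Set.ncard_lt_ncard _ (Set.toFinite _)
    refine ⟨?_, ?_⟩
    · intro x hx
      simp only [Set.mem_ofPred_eq] at hx ⊢
      by_cases hxy : x = y
      · subst hxy
        rw [Function.update_self] at hx
        exact absurd rfl hx
      · rwa [Function.update_of_ne (by simpa using hxy)] at hx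
    · intro hsub
      have hy := hsub (show y ∈ _ from hno _)
      simp at hy
  omega

/-- Existence of a first matching. -/
theorem fgood_exists {a : V → V → Prop} {S : Finset V} {N : ℕ} {ℬ : Finset (Finset V)}
    (hb : ∀ b ∈ ℬ, b.Nonempty ∧ b ⊆ S) (hdis : ∀ b ∈ ℬ, ∀ b' ∈ ℬ, b ≠ b' → Disjoint b b')
    (hcard : 2 * N ≤ ℬ.card) {f : Fin N → V} (hf : Function.Injective f)
    (hfb : ∀ i, ∀ b ∈ ℬ, f i ∉ b)
    (hlink : ∀ C : Finset V, C.card ≤ 3 * N → ∀ b ∈ ℬ, ∀ z ∈ b, z ∉ C → ∀ i, f i ∉ C →
      Relation.ReflTransGen (fun x y => a x y ∧ y ∈ S ∧ y ∉ C) z (f i)) :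
    ∃ g : FT S ℬ f, FGood a g := by
  have : Fintype {x // x ∈ S ∧ ∀ i, f i ≠ x} := Fintype.ofFinite _
  let t : {x // x ∈ S ∧ ∀ i, f i ≠ x} ⊕ (Fin N × Bool) →
      Finset ({x // x ∈ S ∧ ∀ i, f i ≠ x} ⊕ {b // b ∈ ℬ}) := fun j =>
    match j with
    | Sum.inl x => Finset.univ.filter (fun c =>
        match c with
        | Sum.inl y => x = y ∨ a y.1 x.1
        | Sum.inr b => x.1 ∈ b.1)
    | Sum.inr i => Finset.univ.filter (fun c =>
        match c with
        | Sum.inl y => a y.1 (f i.1)
        | Sum.inr _ => False)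
  have tll : ∀ x y, Sum.inl y ∈ t (Sum.inl x) ↔ x = y ∨ a y.1 x.1 := by
    intro x y; simp [t]
  have tlr : ∀ x b, Sum.inr b ∈ t (Sum.inl x) ↔ x.1 ∈ b.1 := by
    intro x b; simp [t]
  have trl : ∀ i y, Sum.inl y ∈ t (Sum.inr i) ↔ a y.1 (f i.1) := by
    intro x y; simp [t]
  have trr : ∀ i b, Sum.inr b ∉ t (Sum.inr i) := by
    intro x b; simp [t]
  have hall : ∀ X : Finset ({x // x ∈ S ∧ ∀ i, f i ≠ x} ⊕ (Fin N × Bool)),
      X.card ≤ (X.biUnion t).card := by
    intro X
    by_contra hlt
    push Not at hlt
    set NX := X.biUnion t with hNX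
    have hmem : ∀ j ∈ X, ∀ c ∈ t j, c ∈ NX := fun j hj c hc =>
      Finset.mem_biUnion.2 ⟨j, hj, hc⟩
    have hX : X.card = X.toLeft.card + X.toRight.card :=
      (Finset.card_toLeft_add_card_toRight).symm
    have hN : NX.card = NX.toLeft.card + NX.toRight.card :=
      (Finset.card_toLeft_add_card_toRight).symm
    have hXl : X.toLeft ⊆ NX.toLeft := by
      intro x hx
      rw [Finset.mem_toLeft] at hx ⊢
      exact hmem _ hx _ ((tll x x).2 (Or.inl rfl))
    set C := NX.toLeft \ X.toLeft with hC
    have hCc : C.card + X.toLeft.card = NX.toLeft.card := by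
      rw [hC, Finset.card_sdiff_add_card_eq_card hXl]
    have hlt2 : C.card + NX.toRight.card < X.toRight.card := by omega
    have hr : X.toRight.card ≤ 2 * N := by
      refine (Finset.card_le_univ _).trans ?_
      simp [Fintype.card_prod, mul_comm]
    -- a bag outside
    have hbag : ∃ b : {b // b ∈ ℬ}, b ∉ NX.toRight ∧ ∀ y ∈ C, y.1 ∉ b.1 := by
      by_contra hno
      push Not at hno
      have hcov : (Finset.univ : Finset {b // b ∈ ℬ}) ⊆
          NX.toRight ∪ C.biUnion (fun y => Finset.univ.filter (fun b => y.1 ∈ b.1)) := by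
        intro b _
        by_cases hb' : b ∈ NX.toRight
        · exact Finset.mem_union_left _ hb'
        · obtain ⟨y, hy, hyb⟩ := hno b hb'
          refine Finset.mem_union_right _ (Finset.mem_biUnion.2 ⟨y, hy, ?_⟩)
          simpa using hyb
      have hle := Finset.card_le_card hcov
      have h1 : (C.biUnion (fun y => Finset.univ.filter
          (fun b : {b // b ∈ ℬ} => y.1 ∈ b.1))).card ≤ C.card * 1 := by
        apply Finset.card_biUnion_le_card_mul
        intro y _
        rw [Finset.card_le_one]
        intro b hb1 b' hb2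
        simp only [Finset.mem_filter, Finset.mem_univ, true_and] at hb1 hb2
        by_contra hne
        have := hdis b.1 b.2 b'.1 b'.2 (fun h => hne (Subtype.ext h))
        exact (Finset.disjoint_left.1 this hb1 hb2)
      have h2 : (Finset.univ : Finset {b // b ∈ ℬ}).card = ℬ.card := by
        simp
      have h3 := Finset.card_union_le NX.toRight (C.biUnion (fun y => Finset.univ.filter
          (fun b : {b // b ∈ ℬ} => y.1 ∈ b.1)))
      omega
    obtain ⟨b, hbN, hbC⟩ := hbag
    obtain ⟨⟨z, hz⟩, hbS⟩ := hb b.1 b.2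
    have hXT : X.toRight.Nonempty := by
      rw [← Finset.card_pos]; omega
    obtain ⟨⟨i, e⟩, hie⟩ := hXT
    rw [Finset.mem_toRight] at hie
    set C' : Finset V := C.image Subtype.val ∪ (Finset.univ.erase i).image f with hC'
    have hC'c : C'.card ≤ 3 * N := by
      have h1 := Finset.card_union_le (C.image Subtype.val) ((Finset.univ.erase i).image f)
      have h2 : (C.image Subtype.val).card ≤ C.card := Finset.card_image_le
      have h3 : ((Finset.univ.erase i).image f).card ≤ (Finset.univ.erase i).card :=
        Finset.card_image_le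
      have h4 : (Finset.univ.erase i).card ≤ N := by
        refine (Finset.card_le_univ _).trans ?_
        simp
      rw [← hC'] at h1
      omega
    have hzC : z ∉ C' := by
      rw [hC', Finset.mem_union, not_or]
      constructor
      · intro h
        obtain ⟨y, hy, hyz⟩ := Finset.mem_image.1 h
        exact hbC y hy (hyz ▸ hz)
      · intro h
        obtain ⟨l, _, hl⟩ := Finset.mem_image.1 h
        exact hfb l b.1 b.2 (hl ▸ hz)
    have hfC : f i ∉ C' := by
      rw [hC', Finset.mem_union, not_or]
      constructor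
      · intro h
        obtain ⟨y, _, hyz⟩ := Finset.mem_image.1 h
        exact y.2.2 i hyz.symm
      · intro h
        obtain ⟨l, hl, hl'⟩ := Finset.mem_image.1 h
        exact (Finset.mem_erase.1 hl).1 (hf hl')
    have hwalk := hlink C' hC'c b.1 b.2 z hz hzC i hfC
    have key : ∀ v, Relation.ReflTransGen (fun x y => a x y ∧ y ∈ S ∧ y ∉ C') v (f i) →
        v ∈ S → v ∉ C' → v = f i ∨ ∃ h, (⟨v, h⟩ : {x // x ∈ S ∧ ∀ i, f i ≠ x}) ∈ X.toLeft := by
      intro v hv
      induction hv using Relation.ReflTransGen.head_induction_on with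
      | refl => intro _ _; exact Or.inl rfl
      | @head v w hvw _ ih =>
        intro hvS hvC
        by_cases hvi : v = f i
        · exact Or.inl hvi
        · right
          have hvA : v ∈ S ∧ ∀ l, f l ≠ v := by
            refine ⟨hvS, fun l hl => ?_⟩
            by_cases hli : l = i
            · exact hvi (by rw [← hl, hli])
            · apply hvC
              rw [hC']
              exact Finset.mem_union_right _ (Finset.mem_image.2
                ⟨l, Finset.mem_erase.2 ⟨hli, Finset.mem_univ _⟩, hl⟩)
          refine ⟨hvA, ?_⟩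
          have hvN : (⟨v, hvA⟩ : {x // x ∈ S ∧ ∀ i, f i ≠ x}) ∈ NX.toLeft := by
            rw [Finset.mem_toLeft]
            rcases ih hvw.2.1 hvw.2.2 with hw | ⟨h, hw⟩
            · refine hmem _ hie _ ((trl _ _).2 ?_)
              rw [← hw]
              exact hvw.1
            · rw [Finset.mem_toLeft] at hw
              exact hmem _ hw _ ((tll _ _).2 (Or.inr hvw.1))
          by_contra hvX
          apply hvC
          rw [hC']
          refine Finset.mem_union_left _ (Finset.mem_image.2 ⟨⟨v, hvA⟩, ?_, rfl⟩)
          rw [hC]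
          exact Finset.mem_sdiff.2 ⟨hvN, hvX⟩
    rcases key z hwalk (hbS hz) hzC with h | ⟨h, hX'⟩
    · exact hfb i b.1 b.2 (h ▸ hz)
    · rw [Finset.mem_toLeft] at hX'
      apply hbN
      rw [Finset.mem_toRight]
      exact hmem _ hX' _ ((tlr _ _).2 hz)
  obtain ⟨g, hgi, hg⟩ := (Finset.all_card_le_biUnion_card_iff_exists_injective t).1 hall
  refine ⟨g, hgi, ?_, ?_, ?_, ?_⟩
  · intro x y h
    have := hg (Sum.inl x)
    rw [h] at this
    exact (tll _ _).1 this
  · intro x b h
    have := hg (Sum.inl x)
    rw [h] at this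
    exact (tlr _ _).1 this
  · intro i y h
    have := hg (Sum.inr i)
    rw [h] at this
    exact (trl _ _).1 this
  · intro i b h
    have := hg (Sum.inr i)
    rw [h] at this
    exact trr _ _ this

end FO

open FO

/-- First step: `2 * N` disjoint paths from different bags to the targets `f 0, ..., f (N - 1)`, each
target being the end of two of them, in Hall form, with the properties of a minimal solution.

`A = {x // x ∈ S ∧ x is not a target}`. `g : A ⊕ (Fin N × Bool) → A ⊕ {b // b ∈ ℬ}` gives to each
vertex of `A` (first summand) a predecessor or itself (idle) or (if it belongs to a bag) the source of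
its bag, and to each copy `(i, _)` of the target `f i` a predecessor. It is injective.
Properties of a minimal solution: every `x : A` is a value (nothing dangles), and if a vertex
`x` of a bag `b` is not idle, then the source of `b` is used; the number of used sources is `2 * N`.

Proof. Existence: Hall's theorem. Suppose a finset `X` of `A ⊕ (Fin N × Bool)` has a neighbourhood `NX`
with `NX.card < X.card`. Let `XA = {x | inl x ∈ X}`, `XT` the set of target copies in `X`,
`C = {y | inl y ∈ NX} \ XA`, `ℬX = {b | inr b ∈ NX}`: `C.card + ℬX.card < XT.card ≤ 2 * N`. There is a bag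
`b ∉ ℬX` disjoint from `C` (`ℬ.card ≥ 2 * N`, bags are disjoint), and `b` is disjoint from `XA` (otherwise
`b ∈ ℬX`). Let `z ∈ b` and let `(i, _) ∈ XT`. By `hlink` for `C' = C ∪ {f l | l ≠ i}`, `C'.card ≤ 3 * N`, there is
a walk from `z` to `f i` in `S` avoiding `C'`. By backward induction (head induction of
`ReflTransGen`) every vertex `v` on it is `f i` or in `XA`: if `v ≠ f i` then `v ∈ A`, and the next vertex is
`f i` or in `XA`, so `v ∈ NX`, and `v ∉ C`, so `v ∈ XA`. So `z ∈ XA`, contradiction.
Now take `g` with the least number of non-idle `x : A` (`g (inl x) ≠ inl x`).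
(1) If `y : A` is not a value of `g` then `g (inl y) ≠ inl y`; redefine `g (inl y) = inl y` (injective, fewer
non-idle): contradiction. So all `inl y` are values. Hence the number of used sources is
`#(A ⊕ (Fin N × Bool)) - #A = 2 * N`.
(2) Let `x ∈ b` be non-idle and suppose the source of `b` is not used. Then `g (inl x) = inl y`, `y ≠ x`
(a source would be the source of `b`). `y` is not idle
(injectivity). Redefine `g (inl x) = inr b`: injective; non-idle number unchanged; now `y` is
not a value: redefine `g (inl y) = inl y` as in (1), fewer non-idle: contradiction. -/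
theorem freeing_one {a : V → V → Prop} {S : Finset V} {N : ℕ} {ℬ : Finset (Finset V)}
    (hb : ∀ b ∈ ℬ, b.Nonempty ∧ b ⊆ S) (hdis : ∀ b ∈ ℬ, ∀ b' ∈ ℬ, b ≠ b' → Disjoint b b')
    (hcard : 2 * N ≤ ℬ.card) {f : Fin N → V} (hf : Function.Injective f) (hfS : ∀ i, f i ∈ S)
    (hfb : ∀ i, ∀ b ∈ ℬ, f i ∉ b)
    (hlink : ∀ C : Finset V, C.card ≤ 3 * N → ∀ b ∈ ℬ, ∀ z ∈ b, z ∉ C → ∀ i, f i ∉ C →
      Relation.ReflTransGen (fun x y => a x y ∧ y ∈ S ∧ y ∉ C) z (f i)) :
    ∃ g : {x // x ∈ S ∧ ∀ i, f i ≠ x} ⊕ (Fin N × Bool) →
        {x // x ∈ S ∧ ∀ i, f i ≠ x} ⊕ {b // b ∈ ℬ},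
      Function.Injective g ∧
      (∀ x y, g (Sum.inl x) = Sum.inl y → x = y ∨ a y.1 x.1) ∧
      (∀ x b, g (Sum.inl x) = Sum.inr b → x.1 ∈ b.1) ∧
      (∀ i y, g (Sum.inr i) = Sum.inl y → a y.1 (f i.1)) ∧
      (∀ i b, g (Sum.inr i) ≠ Sum.inr b) ∧
      (∀ x (b : {b // b ∈ ℬ}), x.1 ∈ b.1 → g (Sum.inl x) ≠ Sum.inl x →
        ∃ x', g (Sum.inl x') = Sum.inr b) ∧
      (Finset.univ.filter (fun b : {b // b ∈ ℬ} =>
        ∃ x', g (Sum.inl x') = Sum.inr b)).card ≤ 2 * N := by
  have : Fintype {x // x ∈ S ∧ ∀ i, f i ≠ x} := Fintype.ofFinite _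
  obtain ⟨g0, hg0⟩ := fgood_exists hb hdis hcard hf hfb hlink
  obtain ⟨g, hg, hmin⟩ := WellFounded.has_min (measure (fun g : FT S ℬ f => fcount g)).wf
    {g | FGood a g} ⟨g0, hg0⟩
  have hmin' : ∀ g' : FT S ℬ f, FGood a g' → fcount g ≤ fcount g' := by
    intro g' hg'
    exact not_lt.1 (hmin g' hg')
  have hval := fmin_value hg hmin'
  refine ⟨g, hg.inj, hg.ll, hg.lr, hg.rl, hg.rr, ?_, ?_⟩
  · intro x b hxb hxi
    by_contra hno
    push Not at hno
    -- the value at x
    rcases hgx : g (Sum.inl x) with y | b'
    swap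
    · have h1 := hg.lr x b' hgx
      have h2 : b = b' := by
        by_contra hne
        have := hdis b.1 b.2 b'.1 b'.2 (fun h => hne (Subtype.ext h))
        exact Finset.disjoint_left.1 this hxb h1
      exact hno x (by rw [hgx, h2])
    have hxy : x ≠ y := fun h => hxi (by rw [hgx, h])
    have hnv : ∀ z, g z ≠ Sum.inr b := by
      intro z
      rcases z with z | z
      · exact hno z
      · exact hg.rr z b
    have h1 : FGood a (Function.update g (Sum.inl x) (Sum.inr b)) := by
      refine ⟨update_inj hg.inj hnv, ?_, ?_, ?_, ?_⟩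
      · intro u z huz
        by_cases hu : u = x
        · subst hu
          rw [Function.update_self] at huz
          exact absurd huz (by simp)
        · rw [Function.update_of_ne (by simpa using hu)] at huz
          exact hg.ll u z huz
      · intro u b' hub
        by_cases hu : u = x
        · subst hu
          rw [Function.update_self] at hub
          rw [← Sum.inr_injective hub]
          exact hxb
        · rw [Function.update_of_ne (by simpa using hu)] at hub
          exact hg.lr u b' hub
      · intro i z hiz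
        rw [Function.update_of_ne (by simp)] at hiz
        exact hg.rl i z hiz
      · intro i b'
        rw [Function.update_of_ne (by simp)]
        exact hg.rr i b'
    have h2 : fcount (Function.update g (Sum.inl x) (Sum.inr b)) = fcount g := by
      unfold fcount
      congr 1
      ext u
      simp only [Set.mem_ofPred_eq]
      by_cases hu : u = x
      · subst hu
        rw [Function.update_self]
        simp [hxi]
      · rw [Function.update_of_ne (by simpa using hu)]
    obtain ⟨j, hj⟩ := fmin_value h1 (fun g' hg' => by rw [h2]; exact hmin' g' hg') y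
    by_cases hjx : j = Sum.inl x
    · subst hjx
      rw [Function.update_self] at hj
      exact absurd hj (by simp)
    · rw [Function.update_of_ne hjx] at hj
      exact hjx (hg.inj (hj.trans hgx.symm))
  · set U := Finset.univ.filter (fun b : {b // b ∈ ℬ} => ∃ x', g (Sum.inl x') = Sum.inr b)
      with hU
    have hsub : (Finset.univ : Finset {x // x ∈ S ∧ ∀ i, f i ≠ x}).disjSum U ⊆
        Finset.univ.image g := by
      intro c hc
      rcases c with y | b
      · obtain ⟨j, hj⟩ := hval y
        exact Finset.mem_image.2 ⟨j, Finset.mem_univ _, hj⟩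
      · have hbU : b ∈ U := Finset.inr_mem_disjSum.1 hc
        rw [hU, Finset.mem_filter] at hbU
        obtain ⟨x', hx'⟩ := hbU.2
        exact Finset.mem_image.2 ⟨_, Finset.mem_univ _, hx'⟩
    have h1 := Finset.card_le_card hsub
    rw [Finset.card_disjSum] at h1
    have h2 : (Finset.univ.image g).card ≤ _ := Finset.card_image_le
    rw [Finset.card_univ, Fintype.card_sum, Fintype.card_prod, Fintype.card_fin,
      Fintype.card_bool, ← Finset.card_univ] at h2
    have h3 : U.card ≤ 2 * N := by omega
    convert h3

end Pool.Agent.MDP
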