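import Pool.Agent.MDP.Basic

/-! Greedy colouring. -/

open Classical

namespace Pool.Agent.MDP

open Pool.Agent.Mader

universe u

variable {V : Type u}

/-- Greedy colouring along a degeneracy order, with forbidden colours. `b` is a relation of
in-degree at most `d` on `X`, and every vertex has at most `m` forbidden colours. Then there is a
colouring with `m + 2 * d + 1` colours, avoiding the forbidden colours, such that related
different vertices have different colours.

Proof. Induction on `X.card` (for all subsets). If `X` is nonempty, the number of pairs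
`(u, v) ∈ X × X`, `u ≠ v`, `b u v` is at most `d * X.card`, so the sum over `v ∈ X` of the number
of `u ∈ X`, `u ≠ v`, with `b u v` or `b v u` is at most `2 * d * X.card`, and some `v ∈ X` has at
most `2 * d` such neighbours. Colour `X.erase v` by induction and give `v` a colour
`< m + 2 * d + 1` which is neither forbidden for `v` nor the colour of one of its at most
`2 * d` neighbours in `X`. -/
theorem greedy_colour (X : Finset V) (b : V → V → Prop) (d m : ℕ)
    (hb : ∀ v ∈ X, (X.filter (fun u => b u v)).card ≤ d) (forb : V → Finset ℕ)
    (hf : ∀ v ∈ X, (forb v).card ≤ m) :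
    ∃ p : V → ℕ, (∀ v ∈ X, p v < m + 2 * d + 1 ∧ p v ∉ forb v) ∧
      ∀ u ∈ X, ∀ v ∈ X, u ≠ v → b u v → p u ≠ p v := by
  induction X using Finset.strongInduction with
  | _ X ih =>
    rcases X.eq_empty_or_nonempty with hX | hX
    · exact ⟨fun _ => 0, by simp [hX], by simp [hX]⟩
    · have hsum : ∑ v ∈ X, (X.filter (fun u => b u v ∨ b v u)).card ≤ ∑ v ∈ X, 2 * d := by
        have h1 : ∑ v ∈ X, (X.filter (fun u => b v u)).card ≤ ∑ v ∈ X, d := by
          have h2 := Finset.sum_card_bipartiteAbove_eq_sum_card_bipartiteBelow (s := X) (t := X) b
          unfold Finset.bipartiteAbove Finset.bipartiteBelow at h2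
          rw [h2]
          exact Finset.sum_le_sum hb
        have h3 : ∑ v ∈ X, (X.filter (fun u => b u v ∨ b v u)).card ≤
            ∑ v ∈ X, ((X.filter (fun u => b u v)).card + (X.filter (fun u => b v u)).card) := by
          refine Finset.sum_le_sum fun v _ => ?_
          rw [Finset.filter_or]
          exact Finset.card_union_le _ _
        rw [Finset.sum_add_distrib] at h3
        have h4 : ∑ v ∈ X, (X.filter (fun u => b u v)).card ≤ ∑ v ∈ X, d :=
          Finset.sum_le_sum hb
        have h5 : ∑ v ∈ X, 2 * d = ∑ v ∈ X, d + ∑ v ∈ X, d := by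
          rw [← Finset.sum_add_distrib]
          exact Finset.sum_congr rfl fun _ _ => by omega
        omega
      obtain ⟨v, hv, hvd⟩ : ∃ v ∈ X, (X.filter (fun u => b u v ∨ b v u)).card ≤ 2 * d :=
        Finset.exists_le_of_sum_le hX hsum
      obtain ⟨p, hp1, hp2⟩ := ih (X.erase v) (Finset.erase_ssubset hv)
        (fun w hw => (Finset.card_le_card (Finset.filter_subset_filter _
          (Finset.erase_subset v X))).trans (hb w (Finset.mem_of_mem_erase hw)))
        (fun w hw => hf w (Finset.mem_of_mem_erase hw))
      obtain ⟨c, hc, hc'⟩ : ∃ c ∈ Finset.range (m + 2 * d + 1),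
          c ∉ forb v ∪ (X.filter (fun u => b u v ∨ b v u)).image p := by
        apply Finset.exists_mem_notMem_of_card_lt_card
        have h1 := Finset.card_union_le (forb v) ((X.filter (fun u => b u v ∨ b v u)).image p)
        have h2 := Finset.card_image_le (s := X.filter (fun u => b u v ∨ b v u)) (f := p)
        have h3 := hf v hv
        rw [Finset.card_range]
        omega
      rw [Finset.mem_range] at hc
      rw [Finset.mem_union, not_or] at hc'
      refine ⟨Function.update p v c, fun w hw => ?_, fun u hu w hw huw hbuw => ?_⟩
      · by_cases hwv : w = v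
        · subst hwv
          rw [Function.update_self]
          exact ⟨hc, hc'.1⟩
        · rw [Function.update_of_ne hwv]
          exact hp1 w (Finset.mem_erase.2 ⟨hwv, hw⟩)
      · by_cases hwv : w = v
        · subst hwv
          rw [Function.update_self, Function.update_of_ne huw]
          intro h
          exact hc'.2 (Finset.mem_image.2 ⟨u, Finset.mem_filter.2 ⟨hu, Or.inl hbuw⟩, h⟩)
        · by_cases huv : u = v
          · subst huv
            rw [Function.update_self, Function.update_of_ne hwv]
            intro h
            exact hc'.2 (Finset.mem_image.2 ⟨w, Finset.mem_filter.2 ⟨hw, Or.inr hbuw⟩, h.symm⟩)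
          · rw [Function.update_of_ne hwv, Function.update_of_ne huv]
            exact hp2 u (Finset.mem_erase.2 ⟨huv, hu⟩) w (Finset.mem_erase.2 ⟨hwv, hw⟩) huw hbuw

end Pool.Agent.MDP
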