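import Mathlib

/-! Heights of ultrametric norms on `K ^ P`, `K = ℚ_[2]`, given by invertible matrices `M`:
`f ↦ ‖f ᵥ* M‖` (maximum norm). -/

open Classical
open Matrix

namespace Pool.Agent.MDP

universe u

variable {P : ℕ}

/-- Best approximation by a subspace.

Proof. `ℚ_[2]` is a proper space, so `Fin P → ℚ_[2]` is proper; the image of `F` under the linear map
`f ↦ f ᵥ* M` is a finite dimensional, hence closed, subspace; so the distance of `-(e ᵥ* M)` to it is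
attained (`IsClosed.exists_infDist_eq_dist`). -/
theorem exists_best (M : Matrix (Fin P) (Fin P) ℚ_[2]) (F : Submodule ℚ_[2] (Fin P → ℚ_[2]))
    (e : Fin P → ℚ_[2]) : ∃ g ∈ F, ∀ g' ∈ F, ‖(e + g) ᵥ* M‖ ≤ ‖(e + g') ᵥ* M‖ := by
  have hclosed : IsClosed ((F.map (Matrix.vecMulLinear M) : Submodule ℚ_[2] (Fin P → ℚ_[2])) :
      Set (Fin P → ℚ_[2])) := Submodule.closed_of_finiteDimensional _
  have hne : ((F.map (Matrix.vecMulLinear M) : Submodule ℚ_[2] (Fin P → ℚ_[2])) :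
      Set (Fin P → ℚ_[2])).Nonempty := ⟨0, Submodule.zero_mem _⟩
  obtain ⟨y, hy, hdist⟩ := hclosed.exists_infDist_eq_dist hne (-(e ᵥ* M))
  obtain ⟨g, hg, rfl⟩ := hy
  refine ⟨g, hg, fun g' hg' => ?_⟩
  have h1 : dist (-(e ᵥ* M)) (Matrix.vecMulLinear M g) ≤
      dist (-(e ᵥ* M)) (Matrix.vecMulLinear M g') := by
    rw [← hdist]
    exact Metric.infDist_le_dist_of_mem ⟨g', hg', rfl⟩
  have h2 : ∀ x : Fin P → ℚ_[2], dist (-(e ᵥ* M)) (Matrix.vecMulLinear M x) =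
      ‖(e + x) ᵥ* M‖ := by
    intro x
    rw [dist_comm, dist_eq_norm, Matrix.vecMulLinear_apply, Matrix.add_vecMul, sub_neg_eq_add,
      add_comm]
  rw [h2, h2] at h1
  exact h1

/-- The span of the unit vectors `e_j`, `k ≤ j`. -/
def Fl (P : ℕ) (k : ℕ) : Submodule ℚ_[2] (Fin P → ℚ_[2]) where
  carrier := {f | ∀ j : Fin P, (j : ℕ) < k → f j = 0}
  add_mem' := by
    intro f g hf hg j hj
    rw [Pi.add_apply, hf j hj, hg j hj, add_zero]
  zero_mem' := by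
    intro j _
    rfl
  smul_mem' := by
    intro c f hf j hj
    rw [Pi.smul_apply, hf j hj, smul_zero]

/-- Best approximation of `e_k` from `Fl P (k + 1)` with respect to `M`. -/
noncomputable def bst (M : Matrix (Fin P) (Fin P) ℚ_[2]) (k : Fin P) : Fin P → ℚ_[2] :=
  Classical.choose (exists_best M (Fl P (k + 1)) (Pi.single k 1))

/-- The height (logarithm of the distance of `e_k` from `Fl P (k + 1)`). -/
noncomputable def ht (M : Matrix (Fin P) (Fin P) ℚ_[2]) (k : Fin P) : ℝ :=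
  Real.logb 2 ‖(Pi.single k 1 + bst M k) ᵥ* M‖

/-- Proof. The vector `e_k + g`, `g ∈ Fl P (k+1)`, is not zero (its `k`-th coordinate is `1`), and
`M` is invertible, so its image is not zero and the norm is positive; `2 ^ logb 2 x = x`. -/
theorem two_rpow_ht {M : Matrix (Fin P) (Fin P) ℚ_[2]} (hM : M.det ≠ 0) (k : Fin P) :
    (2 : ℝ) ^ ht M k = ‖(Pi.single k 1 + bst M k) ᵥ* M‖ := by
  have hmem : bst M k ∈ Fl P (k + 1) :=
    (Classical.choose_spec (exists_best M (Fl P (k + 1)) (Pi.single k 1))).1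
  have hne : (Pi.single k 1 + bst M k : Fin P → ℚ_[2]) ≠ 0 := by
    intro h0
    have h1 := congrFun h0 k
    rw [Pi.add_apply, Pi.single_eq_same, hmem k (Nat.lt_succ_self _)] at h1
    simp at h1
  have hpos : 0 < ‖(Pi.single k 1 + bst M k) ᵥ* M‖ := by
    rw [norm_pos_iff]
    intro h0
    exact hne (Matrix.eq_zero_of_vecMul_eq_zero hM h0)
  unfold ht
  exact Real.rpow_logb (by norm_num) (by norm_num) hpos

theorem bst_mem (M : Matrix (Fin P) (Fin P) ℚ_[2]) (k : Fin P) : bst M k ∈ Fl P (k + 1) :=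
  (Classical.choose_spec (exists_best M (Fl P (k + 1)) (Pi.single k 1))).1

theorem bst_le (M : Matrix (Fin P) (Fin P) ℚ_[2]) (k : Fin P) {g : Fin P → ℚ_[2]}
    (hg : g ∈ Fl P (k + 1)) :
    ‖(Pi.single k 1 + bst M k) ᵥ* M‖ ≤ ‖(Pi.single k 1 + g) ᵥ* M‖ :=
  (Classical.choose_spec (exists_best M (Fl P (k + 1)) (Pi.single k 1))).2 g hg

/-- Heights are Lipschitz.

Proof. `2 ^ ht M k ≤ ‖(e_k + bst M' k) ᵥ* M‖ ≤ 2 ^ s * ‖(e_k + bst M' k) ᵥ* M'‖ = 2 ^ (s + ht M' k)`. -/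
theorem ht_le {M M' : Matrix (Fin P) (Fin P) ℚ_[2]} (hM : M.det ≠ 0) (hM' : M'.det ≠ 0) {s : ℝ}
    (h : ∀ f, ‖f ᵥ* M‖ ≤ (2 : ℝ) ^ s * ‖f ᵥ* M'‖) (k : Fin P) : ht M k ≤ ht M' k + s := by
  have h1 : (2 : ℝ) ^ ht M k ≤ (2 : ℝ) ^ (ht M' k + s) := by
    calc (2 : ℝ) ^ ht M k = ‖(Pi.single k 1 + bst M k) ᵥ* M‖ := two_rpow_ht hM k
      _ ≤ ‖(Pi.single k 1 + bst M' k) ᵥ* M‖ := bst_le M k (bst_mem M' k)
      _ ≤ (2 : ℝ) ^ s * ‖(Pi.single k 1 + bst M' k) ᵥ* M'‖ := h _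
      _ = (2 : ℝ) ^ s * (2 : ℝ) ^ ht M' k := by rw [two_rpow_ht hM' k]
      _ = (2 : ℝ) ^ (ht M' k + s) := by
        rw [add_comm, Real.rpow_add (by norm_num)]
  exact (Real.rpow_le_rpow_left_iff (by norm_num)).1 h1

end Pool.Agent.MDP
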