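import Pool.Agent.MDP.Det

/-! The matrices of the norms. -/

open Classical

namespace Pool.Agent.MDP

universe u

variable {U : Type u} [Fintype U] {P : ℕ}

private theorem mat_inl (w : Wt U P) (Y : Finset U) (a : U ⊕ Fin P → U ⊕ Fin P → Prop)
    (τ τ' : Fin P → U × Fin P) (x : U ⊕ Fin P) (u : U) :
    Nm w Y a τ x (Sum.inl u) = Nm w Y a τ' x (Sum.inl u) := rfl

private theorem mat_upd (w : Wt U P) (Y : Finset U) (a : U ⊕ Fin P → U ⊕ Fin P → Prop)
    (v z : U) (j k : Fin P) :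
    (Nm w Y a (tau v)).updateCol (Sum.inr j) (fun x => Nm w Y a (tau z) x (Sum.inr k)) =
      Nm w Y a (Function.update (tau v) j (z, k)) := by
  ext x y
  rcases y with u | i
  · rw [Matrix.updateCol_ne (by simp)]
    rfl
  · by_cases h : i = j
    · subst h
      rw [Matrix.updateCol_self]
      simp only [Nm, Matrix.of_apply, ok, cst, tau, Function.update_self]
    · rw [Matrix.updateCol_ne (by simpa using h)]
      simp only [Nm, Matrix.of_apply, ok, cst, Function.update_of_ne h]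

/-- Cramer's rule.

Proof. Let `N v = Nm w Y a (tau v)`. The columns `inl u` of `N v` do not depend on `v`, and the column
`inr k` is the vector `t (v, k)`, `t l x = if a x (inl l.1) then 2 ^ w.n2 x l else 0`. If
`Y = ∅` there is nothing to show. Otherwise fix `y0 ∈ Y`. For `v ∈ Y` and any `z`, `(N v)⁻¹ * N z` (with
`det (N v) ≠ 0`, from `hdet`) is `fromBlocks 1 B 0 C`, where `C = C v z : Matrix (Fin P) (Fin P)` (its columns
`inl u` are those of `(N v)⁻¹ * N v = 1`). From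
`(N x)⁻¹ * N z = ((N x)⁻¹ * N v) * ((N v)⁻¹ * N z)` we get `C x z = C x v * C v z`. Put
`M v = C y0 v`. Then `M v * C v y0 = C y0 y0 = 1`, so `det (M v) ≠ 0`, and `M v * C v z = M z`, so
`(M v)⁻¹ * M z = C v z`. Finally `C v z j k` is the entry `(inr j, inr k)` of `(N v)⁻¹ * N z`, i.e. the
coordinate `inr j` of `(N v)⁻¹ (t (z, k))`, and by Cramer's rule (`Matrix.cramer`,
`Matrix.cramer_apply`) it is `det ((N v).updateCol (inr j) (t (z, k))) / det (N v)`, where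
`(N v).updateCol (inr j) (t (z, k)) = Nm w Y a (Function.update (tau v) j (z, k))`. -/
theorem exists_mat (w : Wt U P) (Y : Finset U) (a : U ⊕ Fin P → U ⊕ Fin P → Prop)
    (hdet : ∀ y ∈ Y, (Nm w Y a (tau y)).det ≠ 0) :
    ∃ M : U → Matrix (Fin P) (Fin P) ℚ_[2], (∀ y ∈ Y, (M y).det ≠ 0) ∧
      ∀ v ∈ Y, ∀ z ∈ Y, ∀ j k, ((M v)⁻¹ * M z) j k * (Nm w Y a (tau v)).det =
        (Nm w Y a (Function.update (tau v) j (z, k))).det := by
  rcases Y.eq_empty_or_nonempty with rfl | ⟨y0, hy0⟩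
  · exact ⟨fun _ => 1, fun y hy => absurd hy (Finset.notMem_empty y),
      fun y hy => absurd hy (Finset.notMem_empty y)⟩
  set N : U → Matrix (U ⊕ Fin P) (U ⊕ Fin P) ℚ_[2] := fun v => Nm w Y a (tau v) with hN
  set R : U → U → Matrix (U ⊕ Fin P) (U ⊕ Fin P) ℚ_[2] := fun v z => (N v)⁻¹ * N z with hR
  have hunit : ∀ v ∈ Y, IsUnit (N v).det := fun v hv => isUnit_iff_ne_zero.2 (hdet v hv)
  have hRR : ∀ v ∈ Y, R v v = 1 := fun v hv => Matrix.nonsing_inv_mul _ (hunit v hv)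
  have hinl : ∀ v ∈ Y, ∀ z x u, R v z x (Sum.inl u) =
      (1 : Matrix (U ⊕ Fin P) (U ⊕ Fin P) ℚ_[2]) x (Sum.inl u) := by
    intro v hv z x u
    rw [← hRR v hv]
    rfl
  have h21 : ∀ v ∈ Y, ∀ z, (R v z).toBlocks₂₁ = 0 := by
    intro v hv z
    ext i u
    rw [Matrix.toBlocks₂₁, Matrix.of_apply, hinl v hv z, Matrix.one_apply_ne (by simp)]
    rfl
  have hcomp : ∀ v ∈ Y, ∀ x z, R x z = R x v * R v z := by
    intro v hv x z
    simp only [hR]
    rw [Matrix.mul_assoc, ← Matrix.mul_assoc (N v), Matrix.mul_nonsing_inv _ (hunit v hv),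
      Matrix.one_mul]
  have hblk : ∀ x ∈ Y, ∀ v ∈ Y, ∀ z,
      (R x z).toBlocks₂₂ = (R x v).toBlocks₂₂ * (R v z).toBlocks₂₂ := by
    intro x hx v hv z
    have h1 : R x z = Matrix.fromBlocks (R x v).toBlocks₁₁ (R x v).toBlocks₁₂
        (R x v).toBlocks₂₁ (R x v).toBlocks₂₂ *
        Matrix.fromBlocks (R v z).toBlocks₁₁ (R v z).toBlocks₁₂
        (R v z).toBlocks₂₁ (R v z).toBlocks₂₂ := by
      rw [Matrix.fromBlocks_toBlocks, Matrix.fromBlocks_toBlocks]
      exact hcomp v hv x z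
    rw [h1, Matrix.fromBlocks_multiply, Matrix.toBlocks_fromBlocks₂₂, h21 x hx v, Matrix.zero_mul,
      zero_add]
  have hone : (R y0 y0).toBlocks₂₂ = 1 := by
    rw [hRR y0 hy0, ← Matrix.fromBlocks_one, Matrix.toBlocks_fromBlocks₂₂]
  have hM : ∀ v ∈ Y, ((R y0 v).toBlocks₂₂).det ≠ 0 := by
    intro v hv h0
    have h1 := hblk y0 hy0 v hv y0
    rw [hone] at h1
    have h2 := congrArg Matrix.det h1
    rw [Matrix.det_one, Matrix.det_mul, h0, zero_mul] at h2
    exact one_ne_zero h2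
  refine ⟨fun v => (R y0 v).toBlocks₂₂, hM, fun v hv z _ j k => ?_⟩
  have h1 : ((R y0 v).toBlocks₂₂)⁻¹ * (R y0 z).toBlocks₂₂ = (R v z).toBlocks₂₂ := by
    rw [hblk y0 hy0 v hv z, ← Matrix.mul_assoc,
      Matrix.nonsing_inv_mul _ (isUnit_iff_ne_zero.2 (hM v hv)), Matrix.one_mul]
  have h2 := Matrix.det_smul_inv_mulVec_eq_cramer (N v)
    (fun x => Nm w Y a (tau z) x (Sum.inr k)) (hunit v hv)
  have h3 := congrFun h2 (Sum.inr j)
  rw [Matrix.cramer_apply] at h3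
  simp only [hN] at h3
  rw [mat_upd] at h3
  rw [← h3]
  show (((R y0 v).toBlocks₂₂)⁻¹ * (R y0 z).toBlocks₂₂) j k * _ = _
  rw [h1, Pi.smul_apply, smul_eq_mul, mul_comm]
  rfl

end Pool.Agent.MDP
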