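import Pool.Agent.MDP.Cut
import Pool.Agent.MDP.Exit

/-! Some in-neighbour is idle. -/

open Classical

namespace Pool.Agent.MDP

universe u

variable {U : Type u} [Fintype U] {P : ℕ}

/-- First part: let `u 0, ..., u (P - 1)` be different in-neighbours of `y` in `Y`, and let `σ` be
an allowed permutation of minimal cost for `τ_y` with the label `l` at the position `j`,
whose cost plus `2 * Q` is smaller than all costs of allowed permutations for `τ_y`. Then some `u i` is
idle in `σ`.

Proof. Suppose that no `u i` is idle. By `exit` for every `i` there are `m i ≥ 1`, `k i` with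
`(σ ^ m i) (inl (u i)) = inr (k i)` and the earlier points `inl _`.
If `k i = j` for some `i`: by `cut` with `x = inl (u i)` and the label `(y, j)` there is `σ'`,
`Ok a (update (update (tau y) j l) j (y, j)) σ'`, i.e. `Ok a (tau y) σ'`, with `used Y σ' ≤ used Y σ`; so
`2 * cost (tau y) σ' < 2 * Q * used Y σ' + Q ≤ 2 * Q * used Y σ + Q ≤ 2 * cost σ + Q`, contradicting
`cost σ + 2 * Q < cost (tau y) σ'`.
Otherwise `k` maps `Fin P` into `Fin P \ {j}`, so `k i = k i'` for some `i ≠ i'`, w.l.o.g. `m i' ≤ m i`;
with `d = m i - m i'` we get `(σ ^ m i') ((σ ^ d) (inl (u i))) = (σ ^ m i') (inl (u i'))`, so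
`(σ ^ d) (inl (u i)) = inl (u i')`, and `d ≥ 1` as `u i ≠ u i'`, `d < m i`. By `cut` with
`x = inl (u i)`, target `k i ≠ j` and label `(y, k i)` (the old label, so
`update τ (k i) (y, k i) = τ`) there is
`σ'`, `Ok` for the same `τ`, with `used Y σ' + 1 ≤ used Y σ` (the segment contains `u i' ∈ Y`). So
`2 * cost σ' < 2 * Q * (used Y σ - 1) + Q < 2 * Q * used Y σ ≤ 2 * cost σ`: contradiction to the minimality
of `σ`. -/
theorem some_idle {w : Wt U P} {Y : Finset U} {a : U ⊕ Fin P → U ⊕ Fin P → Prop} {y : U}
    {u : Fin P → U} (hu : Function.Injective u) (huY : ∀ i, u i ∈ Y)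
    (hua : ∀ i, a (Sum.inl (u i)) (Sum.inl y)) {j : Fin P} {l : U × Fin P}
    {σ : Equiv.Perm (U ⊕ Fin P)} (hσ : Ok a (Function.update (tau y) j l) σ)
    (hopt : ∀ σ', Ok a (Function.update (tau y) j l) σ' →
      cost w Y (Function.update (tau y) j l) σ ≤ cost w Y (Function.update (tau y) j l) σ')
    (hbad : ∀ σ', Ok a (tau y) σ' →
      cost w Y (Function.update (tau y) j l) σ + 2 * w.Q < cost w Y (tau y) σ') :
    ∃ i, σ (Sum.inl (u i)) = Sum.inl (u i) := by
  by_contra hcon
  push Not at hcon
  have hex : ∀ i, ∃ m k, 1 ≤ m ∧ (σ ^ m) (Sum.inl (u i)) = Sum.inr k ∧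
      ∀ j < m, ∃ u', (σ ^ j) (Sum.inl (u i)) = Sum.inl u' :=
    fun i => exit hσ hopt (huY i) (hcon i)
  choose m k hm hk hin using hex
  have hge := cost_ge w Y (Function.update (tau y) j l) σ
  by_cases hj : ∃ i, k i = j
  · obtain ⟨i, hi⟩ := hj
    obtain ⟨σ', hok, hus⟩ := cut hσ (hm i) (hk i) (fun n _ hn => hin i n hn) (y, j) (hua i)
    rw [hi, Function.update_idem] at hok
    have e1 : Function.update (tau y) j (y, j) = (tau y : Fin P → U × Fin P) :=
      Function.update_eq_self j (tau y)
    rw [e1] at hok
    have h1 := hbad σ' hok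
    have h2 := cost_lt w Y (tau y) σ'
    have h3 : used Y σ' ≤ used Y σ := by
      have := hus Y
      omega
    have h4 : w.Q * used Y σ' ≤ w.Q * used Y σ := Nat.mul_le_mul_left _ h3
    omega
  · push Not at hj
    have hns : ¬ Function.Surjective k := fun hs => by
      obtain ⟨i, hi⟩ := hs j
      exact hj i hi
    have hni : ¬ Function.Injective k := fun h => hns (Finite.injective_iff_surjective.mp h)
    have key : ∀ i i', i ≠ i' → k i = k i' → m i' ≤ m i → False := by
      intro i i' hne hkk hle
      have hd : (σ ^ (m i - m i')) (Sum.inl (u i)) = Sum.inl (u i') := by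
        have e1 : (σ ^ (m i')) ((σ ^ (m i - m i')) (Sum.inl (u i))) =
            (σ ^ (m i')) (Sum.inl (u i')) := by
          rw [hk i', ← Equiv.Perm.mul_apply, ← pow_add, Nat.add_sub_cancel' hle, hk i, hkk]
        exact (σ ^ (m i')).injective e1
      have hd1 : 1 ≤ m i - m i' := by
        by_contra h0
        have h0' : m i - m i' = 0 := by omega
        rw [h0'] at hd
        simp only [pow_zero, Equiv.Perm.coe_one, id_eq, Sum.inl.injEq] at hd
        exact hne (hu hd)
      have hd2 : m i - m i' < m i := by
        have := hm i'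
        have := hm i
        omega
      obtain ⟨σ', hok, hus⟩ := cut hσ (hm i) (hk i) (fun n _ hn => hin i n hn) (y, k i) (hua i)
      have e2 : Function.update (Function.update (tau y) j l) (k i) (y, k i) =
          Function.update (tau y) j l := by
        have e3 : (y, k i) = Function.update (tau y : Fin P → U × Fin P) j l (k i) := by
          rw [Function.update_of_ne (hj i)]
          rfl
        rw [e3]
        exact Function.update_eq_self _ _
      rw [e2] at hok
      have h1 := hopt σ' hok
      have h2 := cost_lt w Y (Function.update (tau y) j l) σ'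
      have h3 := hus Y
      have h4 : 1 ≤ (Y.filter (fun v => ∃ n, 1 ≤ n ∧ n < m i ∧
          (σ ^ n) (Sum.inl (u i)) = Sum.inl v)).card := by
        refine Finset.card_pos.mpr ⟨u i', ?_⟩
        rw [Finset.mem_filter]
        exact ⟨huY i', m i - m i', hd1, hd2, hd⟩
      have h5 : w.Q * (used Y σ' + 1) ≤ w.Q * used Y σ := Nat.mul_le_mul_left _ (by omega)
      have h6 : w.Q * (used Y σ' + 1) = w.Q * used Y σ' + w.Q := by ring
      omega
    rw [Function.Injective] at hni
    push Not at hni
    obtain ⟨i, i', hkk, hne⟩ := hni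
    rcases le_total (m i') (m i) with h | h
    · exact key i i' hne hkk h
    · exact key i' i (Ne.symm hne) hkk.symm h

end Pool.Agent.MDP
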