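import Pool.Agent.MDP.BadIn
import Pool.Agent.MDP.Noise
import Pool.Agent.MDP.GoodLe
import Pool.Agent.MDP.UseLe
import Pool.Agent.MDP.Chain
import Pool.Agent.Mader.Conn

/-! Unions of strongly connected sets avoiding a residue class of all heights. -/

open Classical
open Matrix

namespace Pool.Agent.MDP

open Pool.Agent.Mader

universe u

variable {U : Type u} [Fintype U] {P : ℕ}

/-- A function which grows backwards by at most `s` along the arcs of a strongly connected set and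
which avoids a residue class modulo `m` (after division by `s`) varies by at most `(m - 1) * s`. -/
theorem osc_le {V : Type u} {g : V → V → Prop} {Z : Finset V} (hconn : Conn g Z) (h : V → ℝ)
    {s : ℝ} (hs : 0 < s) (hL : ∀ u ∈ Z, ∀ v ∈ Z, g u v → h u ≤ h v + s) {m c : ℕ} (hcm : c < m)
    (hres : ∀ v ∈ Z, ⌊h v / s⌋ % (m : ℤ) ≠ (c : ℤ)) :
    ∀ u ∈ Z, ∀ v ∈ Z, h u ≤ h v + ((m - 1 : ℕ) : ℝ) * s := by
  have hM : (0 : ℤ) < (m : ℤ) := by omega
  set M : ℤ := (m : ℤ) with hMdef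
  set n : V → ℤ := fun v => ⌊h v / s⌋ with hn
  have hstep : ∀ u ∈ Z, ∀ v ∈ Z, g u v → n u ≤ n v + 1 := by
    intro u hu v hv huv
    have h1 := hL u hu v hv huv
    have h2 : h u / s ≤ h v / s + 1 := by
      rw [div_add_one hs.ne']
      exact div_le_div_of_nonneg_right h1 hs.le
    have h3 := Int.floor_le_floor h2
    rw [Int.floor_add_one] at h3
    exact h3
  have hc0 : (0 : ℤ) ≤ (c : ℤ) := by positivity
  have hcM : (c : ℤ) < M := by
    rw [hMdef]
    exact_mod_cast hcm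
  have hne0 : ∀ v ∈ Z, ∀ q : ℤ, n v - c ≠ q * M := by
    intro v hv q h1
    apply hres v hv
    have h2 : ⌊h v / s⌋ = c + q * M := by
      have h3 : n v = ⌊h v / s⌋ := rfl
      rw [← h3]
      linarith
    rw [h2, Int.add_mul_emod_self_right, Int.emod_eq_of_lt hc0 hcM]
  have hlo : ∀ v, (n v - c) / M * M ≤ n v - c := fun v => Int.ediv_mul_le _ hM.ne'
  have hhi : ∀ v, n v - c < ((n v - c) / M + 1) * M :=
    fun v => Int.lt_ediv_add_one_mul_self _ hM
  have hq : ∀ u ∈ Z, ∀ v ∈ Z, g u v → (n u - c) / M ≤ (n v - c) / M := by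
    intro u hu v hv huv
    by_contra hcon
    rw [not_le] at hcon
    have h1 : ((n v - c) / M + 1) * M ≤ (n u - c) / M * M :=
      mul_le_mul_of_nonneg_right hcon hM.le
    have h2 := hlo u
    have h3 := hhi v
    have h4 := hstep u hu v hv huv
    exact hne0 u hu ((n u - c) / M) (by linarith)
  have hqq : ∀ u ∈ Z, ∀ v ∈ Z, (n u - c) / M ≤ (n v - c) / M := by
    intro u hu v hv
    have h1 : Z.filter (fun w => (n u - c) / M ≤ (n w - c) / M) = Z := by
      apply hconn.eq_of_closed (Finset.filter_subset _ _)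
      · exact ⟨u, Finset.mem_filter.2 ⟨hu, le_rfl⟩⟩
      · intro x hx y hy hxy
        rw [Finset.mem_filter] at hx ⊢
        exact ⟨hy, hx.2.trans (hq x hx.1 y hy hxy)⟩
    have h2 : v ∈ Z.filter (fun w => (n u - c) / M ≤ (n w - c) / M) := by
      rw [h1]
      exact hv
    exact (Finset.mem_filter.1 h2).2
  intro u hu v hv
  have h1 : (n u - c) / M = (n v - c) / M := le_antisymm (hqq u hu v hv) (hqq v hv u hu)
  have h2 := hhi u
  have h3 : (n v - c) / M * M < n v - c :=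
    lt_of_le_of_ne (hlo v) fun h4 => hne0 v hv _ h4.symm
  rw [h1, add_mul, one_mul] at h2
  have h4 : n u + 1 ≤ n v + ((m - 1 : ℕ) : ℤ) := by
    have h5 : M = ((m - 1 : ℕ) : ℤ) + 1 := by
      rw [hMdef]
      omega
    omega
  have h5 : h u / s < (n u : ℝ) + 1 := Int.lt_floor_add_one _
  have h6 : (n v : ℝ) ≤ h v / s := Int.floor_le _
  have h7 : ((n u : ℝ) + 1) ≤ (n v : ℝ) + ((m - 1 : ℕ) : ℝ) := by exact_mod_cast h4
  have h8 : h u / s ≤ h v / s + ((m - 1 : ℕ) : ℝ) := by linarith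
  have h9 : h u = h u / s * s := (div_mul_cancel₀ _ hs.ne').symm
  have h10 : h v = h v / s * s := (div_mul_cancel₀ _ hs.ne').symm
  rw [h9, h10, ← add_mul]
  exact mul_le_mul_of_nonneg_right h8 hs.le

/-- Reachability as a relation on the subtype. -/
private theorem st_reach {V : Type u} {g : V → V → Prop} {X : Finset V} (h : Conn g X)
    {x y : V} (hx : x ∈ X) (hy : y ∈ X) :
    Relation.ReflTransGen (fun p q : {z // z ∈ X} => g p q) ⟨x, hx⟩ ⟨y, hy⟩ := by
  have hZ : X.filter (fun z => ∃ hz : z ∈ X,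
      Relation.ReflTransGen (fun p q : {z // z ∈ X} => g p q) ⟨x, hx⟩ ⟨z, hz⟩) = X := by
    apply h.eq_of_closed (Finset.filter_subset _ _)
    · exact ⟨x, Finset.mem_filter.mpr ⟨hx, hx, Relation.ReflTransGen.refl⟩⟩
    · intro u hu v hv huv
      rw [Finset.mem_filter] at hu ⊢
      obtain ⟨hu1, hu2, hu3⟩ := hu
      exact ⟨hv, hv, hu3.tail huv⟩
  rw [← hZ, Finset.mem_filter] at hy
  exact hy.2.choose_spec

private theorem st_det {w : Wt U P} (hw : ∀ (Y : Finset U) (τ : Fin P → U × Fin P),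
      Function.Injective τ → Function.Injective (cost w Y τ)) {Y : Finset U}
    {a : U ⊕ Fin P → U ⊕ Fin P → Prop} {y : U} (h : ∃ σ, Ok a (tau y) σ) :
    (Nm w Y a (tau y)).det ≠ 0 := by
  have hinj : Function.Injective (tau y : Fin P → U × Fin P) := fun i j hij =>
    congrArg Prod.snd hij
  obtain ⟨σ, hσ⟩ := h
  have : Nonempty {σ : Equiv.Perm (U ⊕ Fin P) // Ok a (tau y) σ} := ⟨⟨σ, hσ⟩⟩
  obtain ⟨σ0, h0⟩ := Finite.exists_min
    (fun σ : {σ : Equiv.Perm (U ⊕ Fin P) // Ok a (tau y) σ} => cost w Y (tau y) σ.1)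
  have h1 := norm_det w Y (hw Y (tau y) hinj) σ0.2 fun σ hσ => h0 ⟨σ, hσ⟩
  intro h2
  rw [h2, norm_zero] at h1
  have h3 : (0 : ℝ) < (2 : ℝ) ^ (-(cost w Y (tau y) σ0.1 : ℤ)) := zpow_pos two_pos _
  exact absurd h1 h3.ne

/-- Norms on a set with bounded heights. -/
private theorem st_norm {w : Wt U P} (hw : ∀ (Y : Finset U) (τ : Fin P → U × Fin P),
      Function.Injective τ → Function.Injective (cost w Y τ)) {Y : Finset U}
    {a : U ⊕ Fin P → U ⊕ Fin P → Prop} (hirr : ∀ x, ¬ a x x)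
    {M : U → Matrix (Fin P) (Fin P) ℚ_[2]}
    (hM1 : ∀ y ∈ Y, (M y).det ≠ 0)
    (hM2 : ∀ v ∈ Y, ∀ z ∈ Y, ∀ j k, ((M v)⁻¹ * M z) j k * (Nm w Y a (tau v)).det =
        (Nm w Y a (Function.update (tau v) j (z, k))).det)
    (hfan : ∀ y ∈ Y, ∃ σ, Ok a (tau y) σ) {Z : Finset U} (hZ : Z ⊆ Y) {g : U → U → Prop}
    (hgood : ∀ u v, g u v → a (Sum.inl u) (Sum.inl v) ∧ ¬ Bad w Y a u v)
    {m : ℕ} (hm : 1 ≤ m)
    (hosc : ∀ k, ∀ u ∈ Z, ∀ v ∈ Z,
      ht (M u) k ≤ ht (M v) k + ((m - 1 : ℕ) : ℝ) * (2 * w.Q : ℝ))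
    {z v : U} (hz : z ∈ Z) (hv : v ∈ Z)
    (hreach : Relation.ReflTransGen (fun p q : {z // z ∈ Z} => g p.1 q.1) ⟨z, hz⟩ ⟨v, hv⟩)
    (f : Fin P → ℚ_[2]) :
    ‖f ᵥ* M z‖ ≤ (2 : ℝ) ^ (2 * w.Q * (P * m : ℕ) : ℝ) * ‖f ᵥ* M v‖ := by
  have hne : Z.Nonempty := ⟨v, hv⟩
  have h1 := chain (P := P) (Y := {z // z ∈ Z}) (fun z => M z.1) (fun x => hM1 _ (hZ x.2))
    (fun p q => g p.1 q.1) (s := (2 * w.Q : ℝ))
    (R := ((m - 1 : ℕ) : ℝ) * (2 * w.Q : ℝ)) (by positivity) (by positivity)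
    (fun p q hpq f => good_le hw hM1 hM2 hfan (hZ p.2) (hZ q.2)
      (fun h => hirr (Sum.inl q.1) (by
        have h2 := (hgood _ _ hpq).1
        rw [h] at h2
        exact h2))
      (hgood _ _ hpq).2 f)
    (fun k => Z.inf' hne fun z => ht (M z) k)
    (fun x k => ⟨Finset.inf'_le _ x.2, by
      obtain ⟨z0, hz0, h2⟩ := Finset.exists_mem_eq_inf' hne fun z => ht (M z) k
      rw [h2]
      exact hosc k _ x.2 _ hz0⟩)
    ⟨z, hz⟩ ⟨v, hv⟩ hreach f
  have h2 : (P : ℝ) * (((m - 1 : ℕ) : ℝ) * (2 * w.Q : ℝ) + (2 * w.Q : ℝ)) =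
      2 * w.Q * (P * m : ℕ) := by
    have h3 : ((m - 1 : ℕ) : ℝ) + 1 = (m : ℝ) := by
      have h4 : m = (m - 1) + 1 := by omega
      conv_rhs => rw [h4]
      exact (Nat.cast_succ _).symm
    rw [Nat.cast_mul (α := ℝ) P, ← h3]
    ring
  rw [h2] at h1
  exact h1

/-- Fans which use few vertices of the union of all strongly connected sets (without bad pairs)
through `v` which avoid a residue class of the heights.

Proof. Weights and matrices as in `classes`. The residues are modulo `4 * P`; `X c` is the set of the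
`v ∈ Y` such that no one of the `2 * P` heights (of the digraph and of the reversed digraph, the
latter with the sign changed) has the residue `c` (rounded down, in units of `2 * Q`). Let `g` be the
relation of arcs for which neither `b u v` nor `b v u`. `T v` is the union of the strong components
(`comp g (X c) v`) of `v`, `c < 4 * P`, `v ∈ X c`. By `osc_le` the heights vary by at most
`(4 * P - 1) * (2 * Q)` on each of them, so by `chain` the norms at their vertices are at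
most `2 ^ (2 * Q * (P * (4 * P)))` times the norm at `v`. So `use_le` applies to the whole
set `T v`. -/
theorem stars (hP : 1 ≤ P) {a : U ⊕ Fin P → U ⊕ Fin P → Prop} (hirr : ∀ x, ¬ a x x)
    (Y : Finset U) (hfan : ∀ y ∈ Y, ∃ σ, Ok a (tau y) σ)
    (hfan' : ∀ y ∈ Y, ∃ σ, Ok (fun x y => a y x) (tau y) σ) :
    ∃ (X : ℕ → Finset U) (b : U → U → Prop) (T : U → Finset U),
      (∀ v ∈ Y, 2 * P ≤ ((Finset.range (4 * P)).filter (fun c => v ∈ X c)).card) ∧
      (∀ v, ¬ b v v) ∧ (∀ v ∈ Y, (Y.filter (fun u => b u v)).card ≤ 2 * P) ∧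
      (∀ v ∈ Y, ∀ c < 4 * P, ∀ Z ⊆ X c, v ∈ Z →
        Conn (fun u v => a (Sum.inl u) (Sum.inl v)) Z → (∀ x ∈ Z, ∀ y ∈ Z, ¬ b x y) →
          Z ⊆ T v) ∧
      ∀ v ∈ Y,
        (∃ σ, Ok a (tau v) σ ∧ used (T v) σ ≤ P * (2 * (P * (4 * P))) ∧
          σ (Sum.inl v) = Sum.inl v) ∧
        (∃ σ, Ok (fun x y => a y x) (tau v) σ ∧ used (T v) σ ≤ P * (2 * (P * (4 * P))) ∧
          σ (Sum.inl v) = Sum.inl v) := by
  obtain ⟨w, hw⟩ := exists_wt U P
  have hQ : (0 : ℝ) < 2 * w.Q := by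
    have h1 := w.small
    have h2 : 0 < w.Q := by omega
    positivity
  set a' : U ⊕ Fin P → U ⊕ Fin P → Prop := fun x y => a y x with ha'
  have hirr' : ∀ x, ¬ a' x x := fun x => hirr x
  obtain ⟨M, hM1, hM2⟩ := exists_mat w Y a fun y hy => st_det hw (hfan y hy)
  obtain ⟨M', hM1', hM2'⟩ := exists_mat w Y a' fun y hy => st_det hw (hfan' y hy)
  let b : U → U → Prop := fun u v => (a (Sum.inl u) (Sum.inl v) ∧ Bad w Y a u v) ∨
    (a' (Sum.inl u) (Sum.inl v) ∧ Bad w Y a' u v)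
  let g : U → U → Prop := fun u v => a (Sum.inl u) (Sum.inl v) ∧ ¬ b u v ∧ ¬ b v u
  let g' : U → U → Prop := fun u v => g v u
  have hg : ∀ u v, g u v → a (Sum.inl u) (Sum.inl v) ∧ ¬ Bad w Y a u v := fun u v h =>
    ⟨h.1, fun h1 => h.2.1 (Or.inl ⟨h.1, h1⟩)⟩
  have hg' : ∀ u v, g' u v → a' (Sum.inl u) (Sum.inl v) ∧ ¬ Bad w Y a' u v := fun u v h =>
    ⟨h.1, fun h1 => h.2.2 (Or.inr ⟨h.1, h1⟩)⟩
  let h : Fin (P + P) → U → ℝ := Fin.addCases (fun i v => ht (M v) i) fun i v => -ht (M' v) i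
  have hl : ∀ i v, h (Fin.castAdd P i) v = ht (M v) i := fun i v => by
    simp only [h, Fin.addCases_left]
  have hr : ∀ i v, h (Fin.natAdd P i) v = -ht (M' v) i := fun i v => by
    simp only [h, Fin.addCases_right]
  have hL : ∀ u ∈ Y, ∀ v ∈ Y, g u v → ∀ i, h i u ≤ h i v + 2 * w.Q := by
    intro u hu v hv huv i
    have hne : u ≠ v := by
      rintro rfl
      exact hirr _ huv.1
    induction i using Fin.addCases with
    | left i =>
      rw [hl, hl]
      exact ht_le (hM1 u hu) (hM1 v hv) (fun f => good_le hw hM1 hM2 hfan hu hv hne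
        (hg u v huv).2 f) i
    | right i =>
      rw [hr, hr]
      have h1 := ht_le (hM1' v hv) (hM1' u hu) (fun f => good_le hw hM1' hM2' hfan' hv hu
        hne.symm (hg' v u huv).2 f) i
      linarith
  let X : ℕ → Finset U := fun c => Y.filter (fun v =>
    ∀ i, ⌊h i v / (2 * w.Q)⌋ % ((4 * P : ℕ) : ℤ) ≠ (c : ℤ))
  have hXY : ∀ c, X c ⊆ Y := fun c => Finset.filter_subset _ _
  -- the colours of `v`
  have hcol : ∀ v ∈ Y, 2 * P ≤ ((Finset.range (4 * P)).filter (fun c => v ∈ X c)).card := by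
    intro v hv
    have h1 : (Finset.range (4 * P)) \ (Finset.univ : Finset (Fin (P + P))).image
        (fun i => (⌊h i v / (2 * w.Q)⌋ % ((4 * P : ℕ) : ℤ)).toNat) ⊆
        (Finset.range (4 * P)).filter (fun c => v ∈ X c) := by
      intro c hc
      rw [Finset.mem_sdiff] at hc
      rw [Finset.mem_filter]
      refine ⟨hc.1, Finset.mem_filter.2 ⟨hv, fun i h2 => hc.2 ?_⟩⟩
      rw [Finset.mem_image]
      refine ⟨i, Finset.mem_univ i, ?_⟩
      rw [h2, Int.toNat_natCast]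
    have h2 := Finset.card_le_card h1
    have h3 := Finset.le_card_sdiff ((Finset.univ : Finset (Fin (P + P))).image
        (fun i => (⌊h i v / (2 * w.Q)⌋ % ((4 * P : ℕ) : ℤ)).toNat)) (Finset.range (4 * P))
    have h4 : ((Finset.univ : Finset (Fin (P + P))).image
        (fun i => (⌊h i v / (2 * w.Q)⌋ % ((4 * P : ℕ) : ℤ)).toNat)).card ≤ P + P :=
      Finset.card_image_le.trans (by simp)
    rw [Finset.card_range] at h3
    omega
  let T : U → Finset U := fun v => ((Finset.range (4 * P)).filter (fun c => v ∈ X c)).biUnion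
    (fun c => comp g (X c) v)
  have hT : ∀ v z, z ∈ T v → ∃ c < 4 * P, v ∈ X c ∧ z ∈ comp g (X c) v := by
    intro v z hz
    obtain ⟨c, hc, hz⟩ := Finset.mem_biUnion.1 hz
    rw [Finset.mem_filter, Finset.mem_range] at hc
    exact ⟨c, hc.1, hc.2, hz⟩
  have hTY : ∀ v, T v ⊆ Y := by
    intro v z hz
    obtain ⟨c, -, -, hz⟩ := hT v z hz
    exact hXY c (comp_subset _ _ _ hz)
  have hvT : ∀ v ∈ Y, v ∈ T v := by
    intro v hv
    have h1 : 0 < ((Finset.range (4 * P)).filter (fun c => v ∈ X c)).card := by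
      have := hcol v hv
      omega
    obtain ⟨c, hc⟩ := Finset.card_pos.1 h1
    exact Finset.mem_biUnion.2 ⟨c, hc, mem_comp_self (Finset.mem_filter.1 hc).2⟩
  have hosc : ∀ v, ∀ c < 4 * P, v ∈ X c → ∀ i, ∀ x ∈ comp g (X c) v, ∀ y ∈ comp g (X c) v,
      h i x ≤ h i y + ((4 * P - 1 : ℕ) : ℝ) * (2 * w.Q) := by
    intro v c hc hv i
    refine osc_le (comp_conn hv) (h i) hQ ?_ hc ?_
    · intro x hx y hy hxy
      exact hL x (hXY c (comp_subset _ _ _ hx)) y (hXY c (comp_subset _ _ _ hy)) hxy i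
    · intro x hx
      exact (Finset.mem_filter.1 (comp_subset _ _ _ hx)).2 i
  refine ⟨X, b, T, hcol, ?_, ?_, ?_, ?_⟩
  · intro v hv
    rcases hv with hv | hv
    · exact hirr _ hv.1
    · exact hirr' _ hv.1
  · intro v _
    have h1 := card_bad_lt w Y hirr hP v
    have h2 := card_bad_lt w Y hirr' hP v
    have h4 := Finset.card_union_le
      (Y.filter (fun u => a (Sum.inl u) (Sum.inl v) ∧ Bad w Y a u v))
      (Y.filter (fun u => a' (Sum.inl u) (Sum.inl v) ∧ Bad w Y a' u v))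
    refine (Finset.card_le_card
      (t := Y.filter (fun u => a (Sum.inl u) (Sum.inl v) ∧ Bad w Y a u v) ∪
        Y.filter (fun u => a' (Sum.inl u) (Sum.inl v) ∧ Bad w Y a' u v)) ?_).trans (by omega)
    intro u hu
    simp only [Finset.mem_filter] at hu
    rw [Finset.mem_union, Finset.mem_filter, Finset.mem_filter]
    rcases hu.2 with h5 | h5
    · exact Or.inl ⟨hu.1, h5⟩
    · exact Or.inr ⟨hu.1, h5⟩
  · intro v hv c hc Z hZ hvZ hconn hb
    have h1 : Conn g Z := hconn.mono_on fun x hx y hy hxy => ⟨hxy, hb x hx y hy, hb y hy x hx⟩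
    intro z hz
    refine Finset.mem_biUnion.2 ⟨c, ?_, subset_comp hZ h1 hvZ hz⟩
    rw [Finset.mem_filter, Finset.mem_range]
    exact ⟨hc, hZ hvZ⟩
  · intro v hv
    constructor
    · refine use_le hw hM1 hM2 hfan (hTY v) (hvT v hv) (P * (4 * P)) fun z hz f => ?_
      obtain ⟨c, hc, hvc, hzc⟩ := hT v z hz
      refine st_norm hw hirr hM1 hM2 hfan ((comp_subset _ _ _).trans (hXY c)) hg (by omega)
        (fun k x hx y hy => ?_) hzc (mem_comp_self hvc)
        (st_reach (comp_conn hvc) hzc (mem_comp_self hvc)) f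
      have h1 := hosc v c hc hvc (Fin.castAdd P k) x hx y hy
      rw [hl, hl] at h1
      exact h1
    · refine use_le hw hM1' hM2' hfan' (hTY v) (hvT v hv) (P * (4 * P)) fun z hz f => ?_
      obtain ⟨c, hc, hvc, hzc⟩ := hT v z hz
      refine st_norm hw hirr' hM1' hM2' hfan' ((comp_subset _ _ _).trans (hXY c)) hg' (by omega)
        (fun k x hx y hy => ?_) hzc (mem_comp_self hvc)
        (st_reach (comp_conn hvc) (mem_comp_self hvc) hzc).swap f
      have h1 := hosc v c hc hvc (Fin.natAdd P k) y hy x hx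
      rw [hr, hr] at h1
      linarith

end Pool.Agent.MDP
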