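import Mathlib

/-! Stationary weights. -/

open Classical

namespace Pool.Agent.MDP

universe u

/-- Nonnegative stationary weights: if all row sums of a nonnegative matrix are at most `m` there
are nonnegative weights, not all zero, with `∑ v, w v * A v u ≤ m * w u` for all `u`.

Proof. If `m = 0` then `A = 0` and `w = 1` works. Otherwise put
`B v u = A v u / m + (if v = u then 1 - ∑ x, A v x / m else 0)`, a nonnegative matrix with row sums
`1`. So `(B - 1) 1 = 0`, `det (B - 1) = 0` (there is a vector in the right kernel) and there is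
`x ≠ 0` with `x ᵥ* (B - 1) = 0` (`Matrix.exists_vecMul_eq_zero_iff`), i.e. `x ᵥ* B = x`.
Let `w = |x|`. Then `w u = |∑ v, x v * B v u| ≤ ∑ v, w v * B v u` for all `u`, and summing over `u`
both sides have the same sum (row sums `1`), so `w u = ∑ v, w v * B v u` for all `u`. As
`B v u ≥ A v u / m`, this gives the claim. -/
theorem stationary {ι : Type u} [Fintype ι] [Nonempty ι] (A : ι → ι → ℝ) (hA : ∀ v u, 0 ≤ A v u)
    (m : ℝ) (hm : ∀ v, ∑ u, A v u ≤ m) :
    ∃ w : ι → ℝ, (∀ v, 0 ≤ w v) ∧ (∃ v, w v ≠ 0) ∧ ∀ u, ∑ v, w v * A v u ≤ m * w u := by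
  have hm0 : 0 ≤ m := (Finset.sum_nonneg fun u _ => hA (Classical.arbitrary ι) u).trans (hm _)
  rcases hm0.eq_or_lt with h0 | hpos
  · have hA0 : ∀ v u, A v u = 0 := by
      intro v u
      have h1 : ∑ u, A v u ≤ 0 := by
        rw [h0]
        exact hm v
      have h2 := (Finset.sum_eq_zero_iff_of_nonneg (fun u _ => hA v u)).1
        (le_antisymm h1 (Finset.sum_nonneg fun u _ => hA v u))
      exact h2 u (Finset.mem_univ u)
    refine ⟨fun _ => 1, fun _ => zero_le_one, ⟨Classical.arbitrary ι, one_ne_zero⟩, fun u => ?_⟩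
    simp [hA0, ← h0]
  · let B : Matrix ι ι ℝ := fun v u => A v u / m + if v = u then 1 - ∑ x, A v x / m else 0
    have hdiag : ∀ v, 0 ≤ 1 - ∑ x, A v x / m := by
      intro v
      rw [← Finset.sum_div, sub_nonneg, div_le_one hpos]
      exact hm v
    have hif : ∀ v u, 0 ≤ (if v = u then 1 - ∑ x, A v x / m else 0 : ℝ) := by
      intro v u
      split_ifs
      · exact hdiag v
      · exact le_rfl
    have hAB : ∀ v u, A v u / m ≤ B v u := fun v u => le_add_of_nonneg_right (hif v u)
    have hB : ∀ v u, 0 ≤ B v u := fun v u => (div_nonneg (hA v u) hpos.le).trans (hAB v u)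
    have hrow : ∀ v, ∑ u, B v u = 1 := by
      intro v
      have h1 : ∑ u, B v u = ∑ u, A v u / m + ∑ u, (if v = u then 1 - ∑ x, A v x / m else 0) :=
        Finset.sum_add_distrib
      rw [h1, Finset.sum_ite_eq, if_pos (Finset.mem_univ v)]
      ring
    have hex : ∃ x : ι → ℝ, x ≠ 0 ∧ Matrix.vecMul x (B - 1) = 0 := by
      rw [Matrix.exists_vecMul_eq_zero_iff, ← Matrix.exists_mulVec_eq_zero_iff]
      refine ⟨fun _ => 1, ?_, ?_⟩
      · intro h
        exact one_ne_zero (congrFun h (Classical.arbitrary ι))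
      · funext v
        rw [Matrix.sub_mulVec, Matrix.one_mulVec]
        have h1 : (B.mulVec fun _ => 1) v = 1 :=
          (Finset.sum_congr rfl fun u _ => mul_one _).trans (hrow v)
        rw [Pi.sub_apply, h1, sub_self, Pi.zero_apply]
    obtain ⟨x, hx0, hx⟩ := hex
    have hxB : ∀ u, ∑ v, x v * B v u = x u := by
      intro u
      have h1 := congrFun hx u
      rw [Matrix.vecMul_sub, Matrix.vecMul_one, Pi.sub_apply, Pi.zero_apply, sub_eq_zero] at h1
      exact h1
    have hle : ∀ u, |x u| ≤ ∑ v, |x v| * B v u := by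
      intro u
      calc |x u| = |∑ v, x v * B v u| := by rw [hxB]
        _ ≤ ∑ v, |x v * B v u| := Finset.abs_sum_le_sum_abs _ _
        _ = ∑ v, |x v| * B v u :=
          Finset.sum_congr rfl fun v _ => by rw [abs_mul, abs_of_nonneg (hB v u)]
    have hsum : ∑ u, ∑ v, |x v| * B v u = ∑ u, |x u| := by
      rw [Finset.sum_comm]
      refine Finset.sum_congr rfl fun v _ => ?_
      rw [← Finset.mul_sum, hrow, mul_one]
    have heq : ∀ u, |x u| = ∑ v, |x v| * B v u := fun u =>
      (Finset.sum_eq_sum_iff_of_le (fun u _ => hle u)).1 hsum.symm u (Finset.mem_univ u)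
    refine ⟨fun v => |x v|, fun v => abs_nonneg _, ?_, fun u => ?_⟩
    · by_contra h
      push Not at h
      exact hx0 (funext fun v => abs_eq_zero.1 (h v))
    · change ∑ v, |x v| * A v u ≤ m * |x u|
      rw [heq u, Finset.mul_sum]
      refine Finset.sum_le_sum fun v _ => ?_
      have h1 : A v u ≤ m * B v u := by
        have h2 := mul_le_mul_of_nonneg_left (hAB v u) hpos.le
        rwa [mul_div_cancel₀ _ hpos.ne'] at h2
      calc |x v| * A v u ≤ |x v| * (m * B v u) :=
            mul_le_mul_of_nonneg_left h1 (abs_nonneg _)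
        _ = m * (|x v| * B v u) := by ring

end Pool.Agent.MDP
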