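import Pool.Agent.MDP.Classes
import Pool.Agent.MDP.Ball
import Pool.Agent.MDP.Basic2

/-! Thinning. -/

open Classical

namespace Pool.Agent.MDP

open Pool.Agent.Mader

universe u

variable {U : Type u} [Fintype U] {P : ℕ}

/-- Thinning: from classes to a core set. `A = 2 * (P * (6 * P - 3))`.

Proof. Let `aU u v = a (inl u) (inl v)` and `p` from `classes`. By `Col.of_classes`
(contrapositive) some class `Y.filter (p = c)` is not `Col` with `16 * A * k` colours, and by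
`Col.of_conn` it contains `Z`, `Conn aU Z`, `¬ Col aU Z (16 * A * k)`. For `v ∈ Z` choose `σ v`,
`σ' v` from `classes` and let `O v = {u ∈ Z | u not idle in σ v or not idle in σ' v}` (`O v = ∅`
for `v ∉ Z`), `(O v).card ≤ 2 * (P * A)`, `v ∉ O v`. By `ball_rel` with `16 * A` colours there is
`c` with `16 * A * #{u ∈ O v | c u = c v} ≤ 4 * P * A` for `v ∈ Z`, so the number is at most
`P / 4 ≤ N` (`P = 4 * N`; `A ≥ 1`). By `Col.of_classes` some class `Y' = Z.filter (c = i)` is not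
`Col` with `k` colours. For `v ∈ Y'`: `used Y' (σ v) ≤ #{u ∈ O v | c u = c v} ≤ N`. -/
theorem thin {N : ℕ} (hN : 1 ≤ N) (hP : P = 4 * N) {a : U ⊕ Fin P → U ⊕ Fin P → Prop}
    (hirr : ∀ x, ¬ a x x) {Y : Finset U} (hfan : ∀ y ∈ Y, ∃ σ, Ok a (tau y) σ)
    (hfan' : ∀ y ∈ Y, ∃ σ, Ok (fun x y => a y x) (tau y) σ) {k : ℕ}
    (h : ¬ Col (fun u v => a (Sum.inl u) (Sum.inl v)) Y
      ((6 * P - 3) * (16 * (2 * (P * (6 * P - 3))) * k))) :
    ∃ Y' ⊆ Y, ¬ Col (fun u v => a (Sum.inl u) (Sum.inl v)) Y' k ∧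
      (∀ v ∈ Y', ∃ σ, Ok a (tau v) σ ∧ used Y' σ ≤ N) ∧
      (∀ v ∈ Y', ∃ σ, Ok (fun x y => a y x) (tau v) σ ∧ used Y' σ ≤ N) := by
  obtain ⟨p, hp, hcl⟩ := classes (by omega : 1 ≤ P) hirr Y hfan hfan'
  set A : ℕ := 2 * (P * (6 * P - 3)) with hA
  have hA1 : 1 ≤ A := by
    have h1 : 0 < P := by omega
    have h2 : 0 < 6 * P - 3 := by omega
    have h3 : 0 < P * (6 * P - 3) := Nat.mul_pos h1 h2
    omega
  set aU : U → U → Prop := fun u v => a (Sum.inl u) (Sum.inl v) with haU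
  have h1 : ∃ i < 6 * P - 3, ¬ Col aU (Y.filter (fun v => p v = i)) (16 * A * k) := by
    by_contra hcon
    push Not at hcon
    exact h (Col.of_classes p hp hcon)
  obtain ⟨i, -, hi⟩ := h1
  have h2 : ∃ Z ⊆ Y.filter (fun v => p v = i), Conn aU Z ∧ ¬ Col aU Z (16 * A * k) := by
    by_contra hcon
    push Not at hcon
    exact hi (Col.of_conn hcon)
  obtain ⟨Z, hZsub, hZc, hZk⟩ := h2
  have hZY : Z ⊆ Y := hZsub.trans (Finset.filter_subset _ _)
  have hZp : ∀ u ∈ Z, p u = i := fun u hu => (Finset.mem_filter.mp (hZsub hu)).2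
  have hσ := hcl Z hZY hZc fun u hu v hv => (hZp u hu).trans (hZp v hv).symm
  have hσ1 : ∀ v, ∃ σ : Equiv.Perm (U ⊕ Fin P), v ∈ Z →
      Ok a (tau v) σ ∧ used Z σ ≤ P * A ∧ σ (Sum.inl v) = Sum.inl v := by
    intro v
    by_cases hv : v ∈ Z
    · obtain ⟨σ, h3⟩ := (hσ v hv).1
      exact ⟨σ, fun _ => h3⟩
    · exact ⟨1, fun h3 => absurd h3 hv⟩
  have hσ2 : ∀ v, ∃ σ : Equiv.Perm (U ⊕ Fin P), v ∈ Z →
      Ok (fun x y => a y x) (tau v) σ ∧ used Z σ ≤ P * A ∧ σ (Sum.inl v) = Sum.inl v := by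
    intro v
    by_cases hv : v ∈ Z
    · obtain ⟨σ, h3⟩ := (hσ v hv).2
      exact ⟨σ, fun _ => h3⟩
    · exact ⟨1, fun h3 => absurd h3 hv⟩
  choose σ hσ using hσ1
  choose σ' hσ' using hσ2
  let O : U → Finset U := fun v => if v ∈ Z then
    Z.filter (fun u => σ v (Sum.inl u) ≠ Sum.inl u ∨ σ' v (Sum.inl u) ≠ Sum.inl u) else ∅
  have hO : ∀ v, v ∉ O v := by
    intro v hv
    by_cases hvZ : v ∈ Z
    · simp only [O, if_pos hvZ, Finset.mem_filter] at hv
      rcases hv.2 with h3 | h3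
      · exact h3 (hσ v hvZ).2.2
      · exact h3 (hσ' v hvZ).2.2
    · simp [O, if_neg hvZ] at hv
  have hOc : ∀ v ∈ Z, (O v).card ≤ 2 * (P * A) := by
    intro v hv
    have h3 : O v ⊆ Z.filter (fun u => σ v (Sum.inl u) ≠ Sum.inl u) ∪
        Z.filter (fun u => σ' v (Sum.inl u) ≠ Sum.inl u) := by
      intro u hu
      simp only [O, if_pos hv, Finset.mem_filter] at hu
      rcases hu.2 with h4 | h4
      · exact Finset.mem_union_left _ (Finset.mem_filter.mpr ⟨hu.1, h4⟩)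
      · exact Finset.mem_union_right _ (Finset.mem_filter.mpr ⟨hu.1, h4⟩)
    have h4 := (Finset.card_le_card h3).trans (Finset.card_union_le _ _)
    have h5 := (hσ v hv).2.1
    have h6 := (hσ' v hv).2.1
    unfold used at h5 h6
    omega
  obtain ⟨c, -, hck, hcO⟩ := ball_rel (16 * A) (2 * (P * A)) (by omega) O hO Z.card Z rfl hOc
    fun _ => 0
  have hN' : ∀ v ∈ Z, ((O v).filter (fun u => c u = c v)).card ≤ N := by
    intro v hv
    have h3 := hcO v hv
    have h4 : 16 * A * ((O v).filter (fun u => c u = c v)).card ≤ 16 * A * N := by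
      refine h3.trans (le_of_eq ?_)
      rw [hP]
      ring
    exact Nat.le_of_mul_le_mul_left h4 (by omega)
  have h3 : ∃ j < 16 * A, ¬ Col aU (Z.filter (fun v => c v = j)) k := by
    by_contra hcon
    push Not at hcon
    exact hZk (Col.of_classes c hck hcon)
  obtain ⟨j, -, hj⟩ := h3
  have hsub : ∀ v ∈ Z.filter (fun v => c v = j), ∀ τ : Equiv.Perm (U ⊕ Fin P),
      (∀ u ∈ Z, τ (Sum.inl u) ≠ Sum.inl u → u ∈ O v) →
        used (Z.filter (fun v => c v = j)) τ ≤ N := by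
    intro v hv τ hτ
    rw [Finset.mem_filter] at hv
    refine (Finset.card_le_card ?_).trans (hN' v hv.1)
    intro u hu
    rw [Finset.mem_filter, Finset.mem_filter] at hu
    rw [Finset.mem_filter]
    exact ⟨hτ u hu.1.1 hu.2, hu.1.2.trans hv.2.symm⟩
  refine ⟨Z.filter (fun v => c v = j), (Finset.filter_subset _ _).trans hZY, hj, ?_, ?_⟩
  · intro v hv
    have hvZ : v ∈ Z := (Finset.mem_filter.mp hv).1
    refine ⟨σ v, (hσ v hvZ).1, hsub v hv _ ?_⟩
    intro u hu hne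
    simp only [O, if_pos hvZ, Finset.mem_filter]
    exact ⟨hu, Or.inl hne⟩
  · intro v hv
    have hvZ : v ∈ Z := (Finset.mem_filter.mp hv).1
    refine ⟨σ' v, (hσ' v hvZ).1, hsub v hv _ ?_⟩
    intro u hu hne
    simp only [O, if_pos hvZ, Finset.mem_filter]
    exact ⟨hu, Or.inr hne⟩

end Pool.Agent.MDP
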