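import Pool.Agent.MDP.Stars
import Pool.Agent.MDP.BallList
import Pool.Agent.MDP.Basic2

/-! Thinning at quadratic cost. -/

open Classical

namespace Pool.Agent.MDP

open Pool.Agent.Mader

universe u

variable {U : Type u} [Fintype U] {P : ℕ}

/-- Sum of an indicator function. -/
private theorem tt_sum {U : Type u} [Fintype U] (S : Finset U) (q : U → Prop) (r : ℝ) :
    ∑ u, (if q u then (if u ∈ S then r else 0) else 0) = ((S.filter q).card : ℝ) * r := by
  rw [← nsmul_eq_mul, ← Finset.sum_const, Finset.sum_filter,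
    ← Finset.sum_subset (Finset.subset_univ S) (fun x _ hx => by
      rw [if_neg hx, ite_self])]
  refine Finset.sum_congr rfl fun x hx => ?_
  rw [if_pos hx]

/-- The lists: `x < 4 * P * J` with `x % (4 * P)` in a set of residues. -/
private theorem tt_list {P J : ℕ} (hP : 1 ≤ P) (q : ℕ → Prop) {l : ℕ}
    (h : l ≤ ((Finset.range (4 * P)).filter q).card) :
    l * J ≤ ((Finset.range (4 * P * J)).filter (fun x => q (x % (4 * P)))).card := by
  have h1 : (((Finset.range (4 * P)).filter q) ×ˢ Finset.range J).card ≤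
      ((Finset.range (4 * P * J)).filter (fun x => q (x % (4 * P)))).card := by
    refine Finset.card_le_card_of_injOn (fun z => z.1 + 4 * P * z.2) ?_ ?_
    · rintro ⟨c, j⟩ hz
      rw [Finset.mem_coe, Finset.mem_product, Finset.mem_filter, Finset.mem_range,
        Finset.mem_range] at hz
      rw [Finset.mem_coe, Finset.mem_filter, Finset.mem_range]
      obtain ⟨⟨hc, hq⟩, hj⟩ := hz
      change c < 4 * P at hc
      change q c at hq
      change j < J at hj
      constructor
      · have h2 : 4 * P * (j + 1) ≤ 4 * P * J := Nat.mul_le_mul_left _ hj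
        rw [Nat.mul_add, Nat.mul_one] at h2
        change c + 4 * P * j < 4 * P * J
        omega
      · change q ((c + 4 * P * j) % (4 * P))
        rw [Nat.add_mul_mod_self_left, Nat.mod_eq_of_lt hc]
        exact hq
    · rintro ⟨c, j⟩ hz ⟨c', j'⟩ hz' heq
      rw [Finset.mem_coe, Finset.mem_product, Finset.mem_filter, Finset.mem_range,
        Finset.mem_range] at hz hz'
      have hc : c < 4 * P := hz.1.1
      have hc' : c' < 4 * P := hz'.1.1
      have heq' : c + 4 * P * j = c' + 4 * P * j' := heq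
      have h2 : c = c' := by
        have h3 := congrArg (· % (4 * P)) heq'
        simp only [Nat.add_mul_mod_self_left] at h3
        rwa [Nat.mod_eq_of_lt hc, Nat.mod_eq_of_lt hc'] at h3
      subst h2
      have h4 : 4 * P * j = 4 * P * j' := by omega
      have h5 := Nat.eq_of_mul_eq_mul_left (by omega : 0 < 4 * P) h4
      rw [h5]
  rw [Finset.card_product, Finset.card_range] at h1
  exact (Nat.mul_le_mul_right J h).trans h1

/-- Thinning at quadratic cost.

Proof. `X`, `b`, `T` from `stars`; `O v` the set of the vertices of `T v` used by one of the two fans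
of `v`, at most `16 * P ^ 3` vertices, `v ∉ O v`. Colours `x < 4 * P * (128 * P) = 512 * P ^ 2`; the
list of `v` consists of the `x` with `v ∈ X (x % (4 * P))`, at least `256 * P ^ 2` colours. Apply
`ball_list` to the weights `[u ∈ O v] / (32 * P ^ 3) + [u ∈ Y, b u v] / (4 * P)` with sum at
most `1`: the vertices of the colour of `v` have weight at most `1 / (128 * P ^ 2)`; so none of them has
`b u v`, and at most `P / 4 = N` of them are in `O v`. A class which is not a union of `k` acyclic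
sets contains a strongly connected set `Y'` with this property, and `Y' ⊆ T v` for `v ∈ Y'`. -/
theorem thin_two {N : ℕ} (hN : 1 ≤ N) (hP : P = 4 * N) {a : U ⊕ Fin P → U ⊕ Fin P → Prop}
    (hirr : ∀ x, ¬ a x x) {Y : Finset U} (hfan : ∀ y ∈ Y, ∃ σ, Ok a (tau y) σ)
    (hfan' : ∀ y ∈ Y, ∃ σ, Ok (fun x y => a y x) (tau y) σ) {k : ℕ}
    (h : ¬ Col (fun u v => a (Sum.inl u) (Sum.inl v)) Y ((4 * P * (128 * P)) * k)) :
    ∃ Y' ⊆ Y, ¬ Col (fun u v => a (Sum.inl u) (Sum.inl v)) Y' k ∧
      (∀ v ∈ Y', ∃ σ, Ok a (tau v) σ ∧ used Y' σ ≤ N) ∧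
      (∀ v ∈ Y', ∃ σ, Ok (fun x y => a y x) (tau v) σ ∧ used Y' σ ≤ N) := by
  have hP1 : 1 ≤ P := by omega
  obtain ⟨X, b, T, hX, hbb, hb, hT, hσ⟩ := stars hP1 hirr Y hfan hfan'
  set aU : U → U → Prop := fun u v => a (Sum.inl u) (Sum.inl v) with haU
  have hσ1 : ∀ v, ∃ σ : Equiv.Perm (U ⊕ Fin P), v ∈ Y →
      Ok a (tau v) σ ∧ used (T v) σ ≤ P * (2 * (P * (4 * P))) ∧
        σ (Sum.inl v) = Sum.inl v := by
    intro v
    by_cases hv : v ∈ Y
    · obtain ⟨σ, h3⟩ := (hσ v hv).1
      exact ⟨σ, fun _ => h3⟩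
    · exact ⟨1, fun h3 => absurd h3 hv⟩
  have hσ2 : ∀ v, ∃ σ : Equiv.Perm (U ⊕ Fin P), v ∈ Y →
      Ok (fun x y => a y x) (tau v) σ ∧ used (T v) σ ≤ P * (2 * (P * (4 * P))) ∧
        σ (Sum.inl v) = Sum.inl v := by
    intro v
    by_cases hv : v ∈ Y
    · obtain ⟨σ, h3⟩ := (hσ v hv).2
      exact ⟨σ, fun _ => h3⟩
    · exact ⟨1, fun h3 => absurd h3 hv⟩
  choose σ hσ using hσ1
  choose σ' hσ' using hσ2
  let O : U → Finset U := fun v => if v ∈ Y then
    (T v).filter (fun u => σ v (Sum.inl u) ≠ Sum.inl u ∨ σ' v (Sum.inl u) ≠ Sum.inl u) else ∅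
  have hO : ∀ v, v ∉ O v := by
    intro v hv
    by_cases hvZ : v ∈ Y
    · simp only [O, if_pos hvZ, Finset.mem_filter] at hv
      rcases hv.2 with h3 | h3
      · exact h3 (hσ v hvZ).2.2
      · exact h3 (hσ' v hvZ).2.2
    · simp [O, if_neg hvZ] at hv
  have hOc : ∀ v ∈ Y, (O v).card ≤ 16 * P ^ 3 := by
    intro v hv
    have h3 : O v ⊆ (T v).filter (fun u => σ v (Sum.inl u) ≠ Sum.inl u) ∪
        (T v).filter (fun u => σ' v (Sum.inl u) ≠ Sum.inl u) := by
      intro u hu
      simp only [O, if_pos hv, Finset.mem_filter] at hu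
      rcases hu.2 with h4 | h4
      · exact Finset.mem_union_left _ (Finset.mem_filter.mpr ⟨hu.1, h4⟩)
      · exact Finset.mem_union_right _ (Finset.mem_filter.mpr ⟨hu.1, h4⟩)
    have h4 := (Finset.card_le_card h3).trans (Finset.card_union_le _ _)
    have h5 := (hσ v hv).2.1
    have h6 := (hσ' v hv).2.1
    have h7 : 16 * P ^ 3 = P * (2 * (P * (4 * P))) + P * (2 * (P * (4 * P))) := by ring
    unfold used at h5 h6
    omega
  have hPR : (1 : ℝ) ≤ (P : ℝ) := by exact_mod_cast hP1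
  have hPpos : (0 : ℝ) < (P : ℝ) := by linarith
  -- the weights
  let A : U → U → ℝ := fun v u => (if u ∈ O v then 1 / (32 * (P : ℝ) ^ 3) else 0) +
    (if u ∈ Y.filter (fun u => b u v) then 1 / (4 * (P : ℝ)) else 0)
  have hr1 : (0 : ℝ) < 1 / (32 * (P : ℝ) ^ 3) := by positivity
  have hr2 : (0 : ℝ) < 1 / (4 * (P : ℝ)) := by positivity
  have hA0 : ∀ v u, 0 ≤ A v u := by
    intro v u
    refine add_nonneg ?_ ?_
    · split_ifs
      · exact hr1.le
      · exact le_rfl
    · split_ifs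
      · exact hr2.le
      · exact le_rfl
  have hAd : ∀ v, A v v = 0 := by
    intro v
    have h1 : v ∉ Y.filter (fun u => b u v) := fun h2 => hbb v (Finset.mem_filter.1 h2).2
    simp only [A]
    rw [if_neg (hO v), if_neg h1, add_zero]
  have hsum : ∀ v (q : U → Prop), ∑ u, (if q u then A v u else 0) =
      (((O v).filter q).card : ℝ) * (1 / (32 * (P : ℝ) ^ 3)) +
        (((Y.filter (fun u => b u v)).filter q).card : ℝ) * (1 / (4 * (P : ℝ))) := by
    intro v q
    rw [← tt_sum, ← tt_sum, ← Finset.sum_add_distrib]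
    refine Finset.sum_congr rfl fun u _ => ?_
    simp only [A]
    by_cases hq : q u
    · rw [if_pos hq, if_pos hq, if_pos hq]
    · rw [if_neg hq, if_neg hq, if_neg hq, add_zero]
  have hrow : ∀ v ∈ Y, ∑ u, A v u ≤ 1 := by
    intro v hv
    have h1 := hsum v (fun _ => True)
    simp only [if_true, Finset.filter_true] at h1
    rw [h1]
    have h2 : ((O v).card : ℝ) ≤ 16 * (P : ℝ) ^ 3 := by exact_mod_cast hOc v hv
    have h3 : ((Y.filter (fun u => b u v)).card : ℝ) ≤ 2 * (P : ℝ) := by exact_mod_cast hb v hv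
    have h4 := mul_le_mul_of_nonneg_right h2 hr1.le
    have h5 := mul_le_mul_of_nonneg_right h3 hr2.le
    have h6 : 16 * (P : ℝ) ^ 3 * (1 / (32 * (P : ℝ) ^ 3)) = 1 / 2 := by
      field_simp
      norm_num
    have h7 : 2 * (P : ℝ) * (1 / (4 * (P : ℝ))) = 1 / 2 := by
      field_simp
      norm_num
    linarith
  let L : U → Finset ℕ := fun v =>
    (Finset.range (4 * P * (128 * P))).filter (fun x => v ∈ X (x % (4 * P)))
  have hLc : ∀ v ∈ Y, 2 * P * (128 * P) ≤ (L v).card := by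
    intro v hv
    have h1 := tt_list (P := P) (J := 128 * P) hP1 (fun c => v ∈ X c) (l := 2 * P)
      (by convert hX v hv)
    convert h1
  obtain ⟨c, hc1, hc2⟩ := ball_list A hA0 hAd L (l := 2 * P * (128 * P))
    (Nat.mul_pos (by omega) (by omega)) Y hrow hLc
  have hcK : ∀ v ∈ Y, c v < 4 * P * (128 * P) := fun v hv =>
    Finset.mem_range.1 (Finset.mem_filter.1 (hc1 v hv)).1
  have hcX : ∀ v ∈ Y, v ∈ X (c v % (4 * P)) := fun v hv => (Finset.mem_filter.1 (hc1 v hv)).2
  have hmain : ∀ v ∈ Y, ((O v).filter (fun u => c u = c v)).card ≤ N ∧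
      ((Y.filter (fun u => b u v)).filter (fun u => c u = c v)).card = 0 := by
    intro v hv
    have h1 := hc2 v hv
    have h0 : ∑ u, (if c u = c v then A v u else 0) =
        (((O v).filter (fun u => c u = c v)).card : ℝ) * (1 / (32 * (P : ℝ) ^ 3)) +
          (((Y.filter (fun u => b u v)).filter (fun u => c u = c v)).card : ℝ) *
            (1 / (4 * (P : ℝ))) := by
      convert hsum v (fun u => c u = c v)
    rw [h0] at h1
    push_cast at h1
    generalize ((O v).filter (fun u => c u = c v)).card = o at h1 ⊢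
    generalize ((Y.filter (fun u => b u v)).filter (fun u => c u = c v)).card = β at h1 ⊢
    have h2 : 2 * (P : ℝ) * (128 * (P : ℝ)) * ((o : ℝ) * (1 / (32 * (P : ℝ) ^ 3)) +
        (β : ℝ) * (1 / (4 * (P : ℝ)))) = 8 * (o : ℝ) / (P : ℝ) + 64 * (P : ℝ) * (β : ℝ) := by
      field_simp
      ring
    rw [h2] at h1
    have ho0 : (0 : ℝ) ≤ 8 * (o : ℝ) / (P : ℝ) := by positivity
    have hβ0 : (0 : ℝ) ≤ 64 * (P : ℝ) * (β : ℝ) := by positivity
    constructor
    · have h3 : 8 * (o : ℝ) / (P : ℝ) ≤ 2 := by linarith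
      rw [div_le_iff₀ hPpos] at h3
      have h4 : (P : ℝ) = 4 * (N : ℝ) := by rw [hP]; push_cast; ring
      rw [h4] at h3
      have h5 : (o : ℝ) ≤ (N : ℝ) := by linarith
      exact_mod_cast h5
    · by_contra hne
      have h3 : (1 : ℝ) ≤ (β : ℝ) := by exact_mod_cast Nat.one_le_iff_ne_zero.2 hne
      have h4 : (1 : ℝ) * 1 ≤ (P : ℝ) * (β : ℝ) := mul_le_mul hPR h3 zero_le_one hPpos.le
      linarith
  -- a class, and a strongly connected subset of it
  have h3 : ∃ j < 4 * P * (128 * P), ¬ Col aU (Y.filter (fun v => c v = j)) k := by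
    by_contra hcon
    push Not at hcon
    exact h (Col.of_classes c hcK hcon)
  obtain ⟨j, -, hj⟩ := h3
  have h4 : ∃ Z ⊆ Y.filter (fun v => c v = j), Conn aU Z ∧ ¬ Col aU Z k := by
    by_contra hcon
    push Not at hcon
    exact hj (Col.of_conn hcon)
  obtain ⟨Z, hZsub, hZc, hZk⟩ := h4
  have hZY : ∀ v ∈ Z, v ∈ Y := fun v hv => (Finset.mem_filter.1 (hZsub hv)).1
  have hZj : ∀ v ∈ Z, c v = j := fun v hv => (Finset.mem_filter.1 (hZsub hv)).2
  have hZb : ∀ x ∈ Z, ∀ y ∈ Z, ¬ b x y := by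
    intro x hx y hy hxy
    have h5 := (hmain y (hZY y hy)).2
    rw [Finset.card_eq_zero] at h5
    have h6 : x ∈ (Y.filter (fun u => b u y)).filter (fun u => c u = c y) :=
      Finset.mem_filter.2 ⟨Finset.mem_filter.2 ⟨hZY x hx, hxy⟩, (hZj x hx).trans (hZj y hy).symm⟩
    rw [h5] at h6
    exact Finset.notMem_empty _ h6
  have hZX : Z ⊆ X (j % (4 * P)) := by
    intro v hv
    have h5 := hcX v (hZY v hv)
    rw [hZj v hv] at h5
    exact h5
  have hZT : ∀ v ∈ Z, Z ⊆ T v := fun v hv =>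
    hT v (hZY v hv) (j % (4 * P)) (Nat.mod_lt _ (by omega)) Z hZX hv hZc hZb
  have huse : ∀ v ∈ Z, ∀ τ : Equiv.Perm (U ⊕ Fin P),
      (∀ u ∈ T v, τ (Sum.inl u) ≠ Sum.inl u → u ∈ O v) → used Z τ ≤ N := by
    intro v hv τ hτ
    refine (Finset.card_le_card ?_).trans (hmain v (hZY v hv)).1
    intro u hu
    rw [Finset.mem_filter] at hu
    rw [Finset.mem_filter]
    exact ⟨hτ u (hZT v hv hu.1) hu.2, (hZj u hu.1).trans (hZj v hv).symm⟩
  refine ⟨Z, fun v hv => hZY v hv, hZk, ?_, ?_⟩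
  · intro v hv
    refine ⟨σ v, (hσ v (hZY v hv)).1, huse v hv _ ?_⟩
    intro u hu hne
    simp only [O, if_pos (hZY v hv), Finset.mem_filter]
    exact ⟨hu, Or.inl hne⟩
  · intro v hv
    refine ⟨σ' v, (hσ' v (hZY v hv)).1, huse v hv _ ?_⟩
    intro u hu hne
    simp only [O, if_pos (hZY v hv), Finset.mem_filter]
    exact ⟨hu, Or.inr hne⟩

end Pool.Agent.MDP
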